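import Pool.Agent.Y124.NFPoly

/-!
# All number fields of bounded degree: points with finitely many choices of further data
-/

set_option autoImplicit false

open Finset NumberField

namespace Pool.Agent.Y124

open Pool.Agent.Y120 (NormRing Pt RK RK_norm hK hK_apply gK card_eq HtLe Pt_of_HtLe HtLe_fin en en_zero)

theorem MgR_le {α : Type} {n : ℕ} (X : Fin n → Finset α) (Q : ℝ) (hX : ∀ j, ((X j).card : ℝ) ≤ Q) :
    MgR X ≤ n * Q ^ (n - 1) := by
  rw [MgR]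
  have h1 : ∀ j : Fin n, ∏ i : Fin n, (if i = j then (1 : ℝ) else ((X i).card : ℝ)) ≤ Q ^ (n - 1) := by
    intro j
    rw [← Finset.mul_prod_erase Finset.univ _ (Finset.mem_univ j), if_pos rfl, one_mul]
    rw [Finset.prod_congr rfl fun i hi => if_neg (Finset.ne_of_mem_erase hi)]
    calc ∏ i ∈ Finset.univ.erase j, ((X i).card : ℝ) ≤ ∏ i ∈ Finset.univ.erase j, Q :=
          Finset.prod_le_prod (fun _ _ => Nat.cast_nonneg _) fun i _ => hX i
      _ = Q ^ (n - 1) := by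
          rw [Finset.prod_const, Finset.card_erase_of_mem (Finset.mem_univ j), Finset.card_univ, Fintype.card_fin]
  calc ∑ j, ∏ i, (if i = j then (1 : ℝ) else ((X i).card : ℝ)) ≤ ∑ j : Fin n, Q ^ (n - 1) :=
        Finset.sum_le_sum fun j _ => h1 j
    _ = n * Q ^ (n - 1) := by rw [Finset.sum_const, Finset.card_univ, Fintype.card_fin, nsmul_eq_mul]

/-- tuples over all number fields of degree at most `m`, with further data -/
theorem nfW (m n : ℕ) {α κ : Type} [Fintype κ] [DecidableEq κ] (π : α → ℂ) (D0 : Fin n → Set α) (S : Set ℂ)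
    (hS : ∀ j, ∀ x ∈ D0 j, π x ∈ S) (M : ℕ) (hM : ∀ j s, {x | x ∈ D0 j ∧ π x = s}.Finite ∧
      {x | x ∈ D0 j ∧ π x = s}.ncard ≤ M) (v : Fin n → α → κ → ℂ)
    (hv : ∀ g j, OneV g (fun R T => {x | x ∈ D0 j ∧ Pt R T (π x)}) (v j))
    (h : Type) [Fintype h] [DecidableEq h] (d : ℕ) (A ε : ℝ) (hε : 0 < ε) :
    ∃ B C T₀ : ℝ, 0 ≤ C ∧ 2 ≤ T₀ ∧ ∀ (K : Type) [Field K] [NumberField K], Module.finrank ℚ K ≤ m → ∀ (io : K →+* ℂ)
      (ξ : h → ℂ) (T : ℝ), T₀ ≤ T → ∀ E : Set (Fin n → K),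
      (∀ t ∈ E, ∃ x : Fin n → α, (∀ j, x j ∈ D0 j ∧ π (x j) = io (t j) ∧ HtLe K T (t j)) ∧
        RelK K io ξ (fun e : Fin n → κ → Fin (d + 1) => mgR v x e) (T ^ A) (T ^ (-B))) →
      E.Finite ∧ (E.ncard : ℝ) ≤ C * T ^ ε * (({x : K | HtLe K T x ∧ io x ∈ S}.ncard : ℝ)) ^ (n - 1) := by
  classical
  have hg := fun g : ℕ => multiR g n (fun j R T => {x | x ∈ D0 j ∧ Pt R T (π x)}) v (hv g) h d A ε hε
  choose B C T2 hB hC hT2 H using hg
  refine ⟨∑ g ∈ range m, B g, (n * (M : ℝ) ^ (n - 1)) * ∑ g ∈ range m, C g, 2 + ∑ g ∈ range m, T2 g, ?_, ?_, ?_⟩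
  · exact mul_nonneg (by positivity) (Finset.sum_nonneg fun g _ => (hC g).le)
  · have : 0 ≤ ∑ g ∈ range m, T2 g := Finset.sum_nonneg fun g _ => by linarith [hT2 g]
    linarith
  intro K _ _ hm io ξ T hT E hE
  set g := gK K with hg
  have hgm : g ∈ range m := Finset.mem_range.2 (gK_lt K hm)
  have hTT : T2 g ≤ T := by
    have h1 := Finset.single_le_sum (f := T2) (fun g _ => by linarith [hT2 g]) hgm
    linarith
  have hBB : B g ≤ ∑ g ∈ range m, B g := Finset.single_le_sum (f := B) (fun g _ => hB g) hgm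
  have hCC : C g ≤ ∑ g ∈ range m, C g := Finset.single_le_sum (f := C) (fun g _ => (hC g).le) hgm
  have hT1 : 1 ≤ T := by linarith [hT2 g]
  have hXf : {x : K | HtLe K T x ∧ io x ∈ S}.Finite := (HtLe_fin K T).subset fun x hx => hx.1
  set X : Finset K := hXf.toFinset with hX
  let F : Fin n → K → Finset α := fun j k => (hM j (io k)).1.toFinset
  let Xa : Fin n → Finset α := fun j => X.biUnion (F j)
  have hFc : ∀ j k, (F j k).card ≤ M := by
    intro j k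
    have := (hM j (io k)).2
    rwa [Set.ncard_eq_toFinset_card _ (hM j (io k)).1] at this
  have hXc : ∀ j, ((Xa j).card : ℝ) ≤ M * X.card := by
    intro j
    have h1 : (Xa j).card ≤ X.card * M := Finset.card_biUnion_le_card_mul _ _ _ fun k _ => hFc j k
    calc ((Xa j).card : ℝ) ≤ ((X.card * M : ℕ) : ℝ) := by exact_mod_cast h1
      _ = M * X.card := by push_cast; ring
  rcases E.eq_empty_or_nonempty with hE0 | ⟨t0, ht0⟩
  · rw [hE0]
    refine ⟨Set.finite_empty, ?_⟩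
    rw [Set.ncard_empty, Nat.cast_zero]
    have : 0 ≤ ∑ g ∈ range m, C g := Finset.sum_nonneg fun g _ => (hC g).le
    have h2 : 0 ≤ T ^ ε := (Real.rpow_pos_of_pos (by linarith) _).le
    positivity
  have hne : Nonempty (Fin n → α) := ⟨(hE t0 ht0).choose⟩
  choose! x hx1 hx2 using hE
  have hmem : ∀ t ∈ E, ∀ j, t j ∈ X ∧ x t j ∈ Xa j := by
    intro t ht j
    obtain ⟨h1, h2, h3⟩ := hx1 t ht j
    have h4 : t j ∈ X := hXf.mem_toFinset.2 ⟨h3, by rw [← h2]; exact hS j _ h1⟩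
    exact ⟨h4, Finset.mem_biUnion.2 ⟨t j, h4, (hM j (io (t j))).1.mem_toFinset.2 ⟨h1, h2⟩⟩⟩
  have hEsub : E ⊆ (Fintype.piFinset (fun _ : Fin n => X) : Finset (Fin n → K)) := by
    intro t ht
    rw [Finset.mem_coe, Fintype.mem_piFinset]
    exact fun j => (hmem t ht j).1
  have hEf : E.Finite := (Finset.finite_toSet _).subset hEsub
  refine ⟨hEf, ?_⟩
  set Y : Finset (Fin n → α) := hEf.toFinset.image x with hY
  have hYc : Y.card = E.ncard := by
    rw [hY, Set.ncard_eq_toFinset_card _ hEf]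
    refine Finset.card_image_of_injOn ?_
    intro t ht t' ht' htt
    rw [Finset.mem_coe, hEf.mem_toFinset] at ht ht'
    funext j
    apply io.injective
    rw [← (hx1 t ht j).2.1, ← (hx1 t' ht' j).2.1, htt]
  have h1 := H g T hTT (RK K io) (RK_norm K io) ξ Xa (by
    intro j y hy
    obtain ⟨k, hk, hyk⟩ := Finset.mem_biUnion.1 hy
    have h2 := (hM j (io k)).1.mem_toFinset.1 hyk
    refine ⟨h2.1, ?_⟩
    rw [h2.2]
    exact Pt_of_HtLe K io (hXf.mem_toFinset.1 hk).1) Y (by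
    intro y hy
    obtain ⟨t, ht, rfl⟩ := Finset.mem_image.1 hy
    rw [Fintype.mem_piFinset]
    intro j
    exact (hmem t (hEf.mem_toFinset.1 ht) j).2) (by
    intro y hy
    obtain ⟨t, ht, rfl⟩ := Finset.mem_image.1 hy
    refine RelR_mono (Real.rpow_le_rpow_of_exponent_le hT1 (neg_le_neg hBB)) ?_
    exact RelR_of_RelK K io ξ _ _ _ (hx2 t (hEf.mem_toFinset.1 ht)))
  rw [hYc] at h1
  have h2 : (X.card : ℝ) = ({x : K | HtLe K T x ∧ io x ∈ S}.ncard : ℝ) := by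
    rw [Set.ncard_eq_toFinset_card _ hXf]
  have h3 := MgR_le Xa _ hXc
  rw [mul_pow] at h3
  refine h1.trans ?_
  have hTε : 0 ≤ T ^ ε := (Real.rpow_pos_of_pos (by linarith) _).le
  rw [← h2]
  calc C g * T ^ ε * MgR Xa ≤ C g * T ^ ε * (n * ((M : ℝ) ^ (n - 1) * (X.card : ℝ) ^ (n - 1))) :=
        mul_le_mul_of_nonneg_left h3 (mul_nonneg (hC g).le hTε)
    _ = (n * (M : ℝ) ^ (n - 1)) * C g * T ^ ε * (X.card : ℝ) ^ (n - 1) := by ring
    _ ≤ _ := by
      refine mul_le_mul_of_nonneg_right (mul_le_mul_of_nonneg_right ?_ hTε) (by positivity)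
      exact mul_le_mul_of_nonneg_left hCC (by positivity)

theorem relK_of_poly' {h κ α : Type} [Fintype h] [Fintype κ] [DecidableEq κ] {n d : ℕ} (K : Type) [Field K]
    [NumberField K] (io : K →+* ℂ) (ξ : h → ℂ) (v : Fin n → α → κ → ℂ) (t : Fin n → α) (H δ : ℝ)
    (P : MvPolynomial (Fin n × κ) ℂ) (hd : ∀ x, P.degreeOf x ≤ d)
    (hP : ∀ s, ∃ c : h → 𝓞 K, (∀ i (φ : K →+* ℂ), ‖φ (c i : K)‖ ≤ H) ∧ P.coeff s = ∑ i, ξ i * io (c i : K))
    (s₀ : Fin n × κ →₀ ℕ) (hs₀ : P.coeff s₀ ≠ 0)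
    (hs : ‖MvPolynomial.aeval (fun x : Fin n × κ => v x.1 (t x.1) x.2) P‖ ≤ δ * ‖P.coeff s₀‖) :
    RelK K io ξ (fun e : Fin n → κ → Fin (d + 1) => mgR v t e) H δ := by
  classical
  choose c hc1 hc2 using hP
  obtain ⟨z₀, hz₀⟩ := exists_sV' P hd s₀ (MvPolynomial.mem_support_iff.2 hs₀)
  refine ⟨fun e => c (sV fun x : Fin n × κ => e x.1 x.2), fun l s φ => hc1 _ _ _, fun j i => z₀ (j, i), ?_, ?_⟩
  · rw [← hc2]
    have : (fun x : Fin n × κ => z₀ (x.1, x.2)) = z₀ := by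
      funext x
      rfl
    rw [this, hz₀]
    exact hs₀
  · have h1 : (fun x : Fin n × κ => z₀ (x.1, x.2)) = z₀ := by
      funext x
      rfl
    rw [← hc2, h1, hz₀]
    refine le_trans (le_of_eq ?_) hs
    congr 1
    rw [eval_eq_box _ P hd, ← (Equiv.curry (Fin n) κ (Fin (d + 1))).sum_comp]
    refine Finset.sum_congr rfl fun z _ => ?_
    rw [← hc2]
    congr 1
    rw [Fintype.prod_prod_type]
    rfl

/-- one variable: covering by charts -/
theorem oneV_cover (g : ℕ) {σ α : Type} [Fintype σ] [DecidableEq σ] (π : α → ℂ) (D0 : Set α) (v : α → σ → ℂ)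
    {I : Type} [Fintype I] (D : I → Set ℂ) (hD : ∀ i, IsCompact (D i)) (f : I → σ → ℂ → ℂ)
    (han : ∀ i y, ∀ t ∈ D i, AnalyticAt ℂ (f i y) t) (hind : ∀ i, ∀ t ∈ D i, LocInd (f i) t)
    (W : I → Set α) (hW : ∀ x ∈ D0, ∃ i, x ∈ W i)
    (hWD : ∀ i, ∀ x ∈ D0, x ∈ W i → π x ∈ D i ∧ ∀ y, f i y (π x) = v x y)
    (hinj : ∀ i, ∀ x ∈ D0, ∀ x' ∈ D0, x ∈ W i → x' ∈ W i → π x = π x' → x = x') :
    OneV g (fun R T => {x | x ∈ D0 ∧ Pt R T (π x)}) v := by
  classical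
  intro h _ _ d A ε hε
  have h1 : ∀ i : I, ∃ B C T2 : ℝ, 0 < C ∧ 2 ≤ T2 ∧
    ∀ T : ℝ, T2 ≤ T → ∀ R : Subring (Fin (g + 1) → ℂ), NormRing R → ∀ ξ : h → ℂ, ∀ Y : Finset ℂ,
      (∀ x ∈ Y, x ∈ {t | t ∈ D i ∧ Pt R T t} ∧ RelR R ξ (fun l : σ → Fin (d + 1) => ∏ y, f i y x ^ (l y : ℕ)) (T ^ A)
        (T ^ (-B))) → (Y.card : ℝ) ≤ C * T ^ ε := fun i =>
    oneV_of g (f i) (D i) (hD i) (fun y t ht => han i y t ht) (fun t ht => hind i t ht) h d A ε hε
  choose B C T2 hC hT2 H using h1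
  refine ⟨∑ i, |B i|, ∑ i, C i + 1, 2 + ∑ i, T2 i, ?_, ?_, ?_⟩
  · have : 0 ≤ ∑ i, C i := Finset.sum_nonneg fun i _ => (hC i).le
    linarith
  · have : 0 ≤ ∑ i, T2 i := Finset.sum_nonneg fun i _ => by linarith [hT2 i]
    linarith
  intro T hT R hR ξ Y hY
  have hTT : ∀ i, T2 i ≤ T := by
    intro i
    have h1 := Finset.single_le_sum (f := T2) (fun i _ => by linarith [hT2 i]) (Finset.mem_univ i)
    linarith
  have hT1 : 1 ≤ T := by
    have : 0 ≤ ∑ i, T2 i := Finset.sum_nonneg fun i _ => by linarith [hT2 i]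
    linarith
  have hTε : 0 ≤ T ^ ε := (Real.rpow_pos_of_pos (by linarith) _).le
  have hcov : Y ⊆ Finset.univ.biUnion fun i => Y.filter fun x => x ∈ W i := by
    intro x hx
    obtain ⟨i, hi⟩ := hW x (hY x hx).1.1
    exact Finset.mem_biUnion.2 ⟨i, Finset.mem_univ _, Finset.mem_filter.2 ⟨hx, hi⟩⟩
  have hone : ∀ i, ((Y.filter fun x => x ∈ W i).card : ℝ) ≤ C i * T ^ ε := by
    intro i
    have hBB : B i ≤ ∑ i, |B i| :=
      (le_abs_self _).trans (Finset.single_le_sum (f := fun i => |B i|) (fun _ _ => abs_nonneg _) (Finset.mem_univ i))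
    have h2 := H i T (hTT i) R hR ξ ((Y.filter fun x => x ∈ W i).image π) (by
      intro t ht
      obtain ⟨x, hx, rfl⟩ := Finset.mem_image.1 ht
      obtain ⟨hxY, hxW⟩ := Finset.mem_filter.1 hx
      obtain ⟨⟨hx0, hxP⟩, hxr⟩ := hY x hxY
      obtain ⟨h3, h4⟩ := hWD i x hx0 hxW
      refine ⟨⟨h3, hxP⟩, ?_⟩
      simp only [h4]
      exact RelR_mono (Real.rpow_le_rpow_of_exponent_le hT1 (neg_le_neg hBB)) hxr)
    rw [Finset.card_image_of_injOn] at h2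
    · exact h2
    · intro x hx x' hx' hxx
      obtain ⟨hxY, hxW⟩ := Finset.mem_filter.1 (Finset.mem_coe.1 hx)
      obtain ⟨hxY', hxW'⟩ := Finset.mem_filter.1 (Finset.mem_coe.1 hx')
      exact hinj i x (hY x hxY).1.1 x' (hY x' hxY').1.1 hxW hxW' hxx
  calc (Y.card : ℝ) ≤ ((Finset.univ.biUnion fun i => Y.filter fun x => x ∈ W i).card : ℝ) := by
        exact_mod_cast Finset.card_le_card hcov
    _ ≤ ∑ i, ((Y.filter fun x => x ∈ W i).card : ℝ) := by exact_mod_cast Finset.card_biUnion_le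
    _ ≤ ∑ i, C i * T ^ ε := Finset.sum_le_sum fun i _ => hone i
    _ = (∑ i, C i) * T ^ ε := by rw [Finset.sum_mul]
    _ ≤ (∑ i, C i + 1) * T ^ ε := mul_le_mul_of_nonneg_right (by linarith) hTε

end Pool.Agent.Y124
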