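import Pool.Agent.Y124.EllC

/-!
# Independence of the complete elliptic integrals near every point of the doubly slit plane
-/

set_option autoImplicit false

open Filter Topology MvPolynomial Complex

namespace Pool.Agent.Y124

theorem ellI_ofReal (s m : ℝ) (hm : m < 1) :
    ellI (s : ℂ) (m : ℂ) = ((∫ θ in (0 : ℝ)..(Real.pi / 2), (1 - m * Real.sin θ ^ 2) ^ s : ℝ) : ℂ) := by
  unfold ellI
  rw [← intervalIntegral.integral_ofReal]
  apply intervalIntegral.integral_congr
  intro θ _
  have h1 : 0 ≤ 1 - m * Real.sin θ ^ 2 := by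
    have h2 := Real.sin_sq_le_one θ
    have h3 := sq_nonneg (Real.sin θ)
    nlinarith
  simp only
  rw [Complex.ofReal_cpow h1]
  push_cast
  rfl

theorem ellK_ofReal (m : ℝ) (hm : m < 1) : ellI (-(1 / 2)) (m : ℂ) = ((TH818.AR.KK m : ℝ) : ℂ) := by
  have h := ellI_ofReal (-(1 / 2)) m hm
  have h1 : ((-(1 / 2) : ℝ) : ℂ) = -(1 / 2) := by push_cast; rfl
  rw [h1] at h
  rw [h]
  congr 1
  unfold TH818.AR.KK
  apply intervalIntegral.integral_congr
  intro θ _
  have h2 : 0 < 1 - m * Real.sin θ ^ 2 := by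
    have h2 := Real.sin_sq_le_one θ
    have h3 := sq_nonneg (Real.sin θ)
    rcases le_or_gt m 0 with h4 | h4
    · nlinarith
    · nlinarith
  simp only
  rw [Real.rpow_neg h2.le, ← Real.sqrt_eq_rpow, one_div]

theorem ellE_ofReal (m : ℝ) (hm : m < 1) : ellI (1 / 2) (m : ℂ) = ((TH818.AR.EE m : ℝ) : ℂ) := by
  have h := ellI_ofReal (1 / 2) m hm
  have h1 : ((1 / 2 : ℝ) : ℂ) = 1 / 2 := by push_cast; rfl
  rw [h1] at h
  rw [h]
  congr 1
  unfold TH818.AR.EE
  apply intervalIntegral.integral_congr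
  intro θ _
  simp only
  rw [← Real.sqrt_eq_rpow]

/-- the doubly slit plane -/
def Dom : Set ℂ := {m | m ∈ slitPlane ∧ 1 - m ∈ slitPlane}

theorem isOpen_Dom : IsOpen Dom := isOpen_slitPlane.inter isOpen_dom

theorem starConvex_Dom : StarConvex ℝ (((1 / 2 : ℝ)) : ℂ) Dom := by
  have h1 : StarConvex ℝ (((1 / 2 : ℝ)) : ℂ) slitPlane := starConvex_ofReal_slitPlane (by norm_num)
  intro z hz a b ha hb hab
  refine ⟨h1 hz.1 ha hb hab, ?_⟩
  have h2 := h1 hz.2 ha hb hab
  have h3 : 1 - (a • (((1 / 2 : ℝ)) : ℂ) + b • z) = a • (((1 / 2 : ℝ)) : ℂ) + b • (1 - z) := by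
    simp only [Complex.real_smul]
    have h4 : ((a : ℝ) : ℂ) + ((b : ℝ) : ℂ) = 1 := by exact_mod_cast hab
    push_cast
    linear_combination (-1 : ℂ) * h4 
  rw [h3]
  exact h2

theorem half_mem_Dom : (((1 / 2 : ℝ)) : ℂ) ∈ Dom := by
  constructor
  · rw [ofReal_mem_slitPlane]; norm_num
  · have : (1 : ℂ) - (((1 / 2 : ℝ)) : ℂ) = (((1 / 2 : ℝ)) : ℂ) := by push_cast; ring
    rw [this, ofReal_mem_slitPlane]; norm_num

theorem isPreconnected_Dom : IsPreconnected Dom :=
  (starConvex_Dom.isPathConnected half_mem_Dom).isConnected.isPreconnected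

theorem real_mem_Dom {t : ℝ} (h0 : 0 < t) (h1 : t < 1) : (t : ℂ) ∈ Dom := by
  constructor
  · rw [ofReal_mem_slitPlane]; exact h0
  · have : (1 : ℂ) - (t : ℂ) = ((1 - t : ℝ) : ℂ) := by push_cast; ring
    rw [this]
    show ((1 - t : ℝ) : ℂ) ∈ slitPlane
    rw [ofReal_mem_slitPlane]; linarith

/-- `K(m)`, `E(m)`, `K(1 - m)` -/
noncomputable def fC (y : Fin 3) (m : ℂ) : ℂ := ![ellI (-(1 / 2)) m, ellI (1 / 2) m, ellI (-(1 / 2)) (1 - m)] y

theorem fC_analytic (y : Fin 3) (m : ℂ) (hm : m ∈ Dom) : AnalyticAt ℂ (fC y) m := by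
  fin_cases y
  · exact ellI_analyticAt _ m hm.2
  · exact ellI_analyticAt _ m hm.2
  · have h1 : AnalyticAt ℂ (ellI (-(1 / 2))) (1 - m) := by
      apply ellI_analyticAt
      have : (1 : ℂ) - (1 - m) = m := by ring
      rw [this]
      exact hm.1
    exact AnalyticAt.fun_comp (f := fun m : ℂ => 1 - m) h1 (analyticAt_const.sub analyticAt_id)

theorem fC_real (y : Fin 3) (t : ℝ) (h0 : 0 < t) (h1 : t < 1) : fC y (t : ℂ) = ((TH818.AP.KC 0 1 y t : ℝ) : ℂ) := by
  fin_cases y
  · change ellI (-(1 / 2)) (t : ℂ) = _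
    rw [ellK_ofReal t h1]
    congr 1
    simp [TH818.AP.KC]
  · change ellI (1 / 2) (t : ℂ) = _
    rw [ellE_ofReal t h1]
    congr 1
    simp [TH818.AP.KC]
  · change ellI (-(1 / 2)) (1 - (t : ℂ)) = _
    have h2 : (1 : ℂ) - (t : ℂ) = ((1 - t : ℝ) : ℂ) := by push_cast; ring
    rw [h2, ellK_ofReal (1 - t) (by linarith)]
    congr 1
    simp [TH818.AP.KC]

/-- real and imaginary parts of a polynomial -/
theorem exists_re_im {V : Type} [Fintype V] (P : MvPolynomial V ℂ) : ∃ Q R : MvPolynomial V ℝ,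
    P = MvPolynomial.map Complex.ofRealHom Q + C I * MvPolynomial.map Complex.ofRealHom R := by
  classical
  refine ⟨∑ s ∈ P.support, monomial s (P.coeff s).re, ∑ s ∈ P.support, monomial s (P.coeff s).im, ?_⟩
  conv_lhs => rw [← support_sum_monomial_coeff P]
  rw [map_sum, map_sum, Finset.mul_sum, ← Finset.sum_add_distrib]
  refine Finset.sum_congr rfl fun s _ => ?_
  rw [map_monomial, map_monomial, C_mul_monomial, ← map_add]
  congr 1
  change P.coeff s = ((P.coeff s).re : ℂ) + I * ((P.coeff s).im : ℂ)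
  rw [mul_comm]
  exact (Complex.re_add_im _).symm

theorem fC_locInd (m0 : ℂ) (hm0 : m0 ∈ Dom) : LocInd fC m0 := by
  intro P hP
  -- zero on the whole domain
  have han : AnalyticOnNhd ℂ (fun t => eval (fun o : Option (Fin 3) => o.elim t fun y => fC y t) P) Dom := by
    intro t ht
    have h1 : (fun t => eval (fun o : Option (Fin 3) => o.elim t fun y => fC y t) P) =
        fun t => ∑ s ∈ P.support, P.coeff s * ∏ o, (o.elim t fun y => fC y t) ^ s o := by
      funext t
      rw [eval_eq']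
    rw [h1]
    refine Finset.analyticAt_fun_sum _ fun s _ => analyticAt_const.mul ?_
    refine Finset.analyticAt_fun_prod _ fun o _ => AnalyticAt.pow ?_ _
    cases o with
    | none => exact analyticAt_id
    | some y => exact fC_analytic y t ht
  have hzero := han.eqOn_zero_of_preconnected_of_eventuallyEq_zero isPreconnected_Dom hm0 hP
  obtain ⟨Q, R, hQR⟩ := exists_re_im P
  have hkey : ∀ t : ℝ, 0 < t → t < 1 →
      eval (fun o : Option (Fin 3) => o.elim t fun y => TH818.AP.KC 0 1 y t) Q = 0 ∧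
      eval (fun o : Option (Fin 3) => o.elim t fun y => TH818.AP.KC 0 1 y t) R = 0 := by
    intro t h0 h1
    have h2 := hzero (real_mem_Dom h0 h1)
    simp only [Pi.zero_apply] at h2
    have h3 : (fun o : Option (Fin 3) => o.elim (t : ℂ) fun y => fC y t) =
        fun o => (((o.elim t fun y => TH818.AP.KC 0 1 y t : ℝ)) : ℂ) := by
      funext o
      cases o with
      | none => rfl
      | some y => exact fC_real y t h0 h1
    rw [h3, hQR, map_add, map_mul, eval_C, eval_map, eval_map] at h2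
    have h4 : ∀ S : MvPolynomial (Option (Fin 3)) ℝ,
        eval₂ Complex.ofRealHom (fun o : Option (Fin 3) => (((o.elim t fun y => TH818.AP.KC 0 1 y t : ℝ)) : ℂ)) S =
        ((eval (fun o : Option (Fin 3) => o.elim t fun y => TH818.AP.KC 0 1 y t) S : ℝ) : ℂ) := by
      intro S
      have := MvPolynomial.eval₂_comp_left Complex.ofRealHom (RingHom.id ℝ)
        (fun o : Option (Fin 3) => (o.elim t fun y => TH818.AP.KC 0 1 y t : ℝ)) S
      rw [RingHom.comp_id] at this
      exact this.symm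
    rw [h4, h4] at h2
    have h5 := congrArg Complex.re h2
    have h6 := congrArg Complex.im h2
    simp at h5 h6
    exact ⟨h5, h6⟩
  have hQ := aindep_leg (1 / 4) (3 / 4) (by norm_num) (by norm_num) (by norm_num) Q
    (fun t ht => (hkey t (by linarith [ht.1]) (by linarith [ht.2])).1)
  have hR := aindep_leg (1 / 4) (3 / 4) (by norm_num) (by norm_num) (by norm_num) R
    (fun t ht => (hkey t (by linarith [ht.1]) (by linarith [ht.2])).2)
  rw [hQR, hQ, hR, map_zero, mul_zero, add_zero]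

end Pool.Agent.Y124
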