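import Pool.Agent.Y124.NFR
import Pool.Agent.Y124.EllInd

/-!
# Polynomial relations over number fields; the Legendre family
-/

set_option autoImplicit false

open Finset NumberField

namespace Pool.Agent.Y124

open Pool.Agent.Y120 (HtLe)

theorem relK_of_poly {h κ : Type} [Fintype h] [Fintype κ] [DecidableEq κ] {n d : ℕ} (K : Type) [Field K] [NumberField K]
    (io : K →+* ℂ) (ξ : h → ℂ) (v : ℂ → κ → ℂ) (t : Fin n → ℂ) (H δ : ℝ) (P : MvPolynomial (Fin n × κ) ℂ)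
    (hd : ∀ x, P.degreeOf x ≤ d)
    (hP : ∀ s, ∃ c : h → 𝓞 K, (∀ i (φ : K →+* ℂ), ‖φ (c i : K)‖ ≤ H) ∧ P.coeff s = ∑ i, ξ i * io (c i : K))
    (s₀ : Fin n × κ →₀ ℕ) (hs₀ : P.coeff s₀ ≠ 0)
    (hs : ‖MvPolynomial.aeval (fun x : Fin n × κ => v (t x.1) x.2) P‖ ≤ δ * ‖P.coeff s₀‖) :
    RelK K io ξ (fun e : Fin n → κ → Fin (d + 1) => mgR (fun _ => v) t e) H δ := by
  classical
  choose c hc1 hc2 using hP
  obtain ⟨z₀, hz₀⟩ := exists_sV' P hd s₀ (MvPolynomial.mem_support_iff.2 hs₀)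
  refine ⟨fun e => c (sV fun x : Fin n × κ => e x.1 x.2), fun l s φ => hc1 _ _ _, fun j i => z₀ (j, i), ?_, ?_⟩
  · rw [← hc2]
    have : (fun x : Fin n × κ => z₀ (x.1, x.2)) = z₀ := by
      funext x
      rfl
    rw [this, hz₀]
    exact hs₀
  · have h1 : (fun x : Fin n × κ => z₀ (x.1, x.2)) = z₀ := by
      funext x
      rfl
    rw [← hc2, h1, hz₀]
    refine le_trans (le_of_eq ?_) hs
    congr 1
    rw [eval_eq_box _ P hd, ← (Equiv.curry (Fin n) κ (Fin (d + 1))).sum_comp]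
    refine Finset.sum_congr rfl fun z _ => ?_
    rw [← hc2]
    congr 1
    rw [Fintype.prod_prod_type]
    rfl

/-- exceptional tuples -/
def ExcNF {h κ : Type} [Fintype h] (n d : ℕ) (K : Type) [Field K] [NumberField K] (io : K →+* ℂ) (ξ : h → ℂ)
    (v : ℂ → κ → ℂ) (L : Set ℂ) (A B T : ℝ) : Set (Fin n → K) :=
  {t | (∀ j, HtLe K T (t j) ∧ io (t j) ∈ L) ∧ ∃ P : MvPolynomial (Fin n × κ) ℂ, (∀ x, P.degreeOf x ≤ d) ∧
    (∀ s, ∃ c : h → 𝓞 K, (∀ i (φ : K →+* ℂ), ‖φ (c i : K)‖ ≤ T ^ A) ∧ P.coeff s = ∑ i, ξ i * io (c i : K)) ∧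
    ∃ s₀, P.coeff s₀ ≠ 0 ∧ ‖MvPolynomial.aeval (fun x : Fin n × κ => v (io (t x.1)) x.2) P‖ ≤
      T ^ (-B) * ‖P.coeff s₀‖}

theorem excNF {h κ : Type} [Fintype h] [Fintype κ] [DecidableEq κ] (m n d : ℕ) (v : ℂ → κ → ℂ) (L : Set ℂ)
    (hv : ∀ g, OneV g (fun R T => {t | t ∈ L ∧ Y120.Pt R T t}) v) (A ε : ℝ) (hε : 0 < ε) :
    ∃ B C T₀ : ℝ, 0 ≤ C ∧ 2 ≤ T₀ ∧ ∀ (K : Type) [Field K] [NumberField K], Module.finrank ℚ K ≤ m → ∀ (io : K →+* ℂ)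
      (ξ : h → ℂ) (T : ℝ), T₀ ≤ T → (ExcNF n d K io ξ v L A B T).Finite ∧
      ((ExcNF n d K io ξ v L A B T).ncard : ℝ) ≤
        C * T ^ ε * (({x : K | HtLe K T x ∧ io x ∈ L}.ncard : ℝ)) ^ (n - 1) := by
  classical
  obtain ⟨B, C, T₀, hC, hT₀, H⟩ := nfU m n v L hv h d A ε hε
  refine ⟨B, C, T₀, hC, hT₀, fun K _ _ hm io ξ T hT => H K hm io ξ T hT _ fun t ht => ?_⟩
  obtain ⟨h1, P, hPd, hPc, s₀, hs₀, hs⟩ := ht
  exact ⟨h1, relK_of_poly K io ξ v (fun j => io (t j)) _ _ P hPd hPc s₀ hs₀ hs⟩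

/-- the Legendre family -/
theorem legNF {h : Type} [Fintype h] (m n d : ℕ) (L : Set ℂ) (hL : IsCompact L) (hL' : L ⊆ Dom) (A ε : ℝ)
    (hε : 0 < ε) :
    ∃ B C T₀ : ℝ, 0 ≤ C ∧ 2 ≤ T₀ ∧ ∀ (K : Type) [Field K] [NumberField K], Module.finrank ℚ K ≤ m → ∀ (io : K →+* ℂ)
      (ξ : h → ℂ) (T : ℝ), T₀ ≤ T → (ExcNF n d K io ξ (fun t i => fC i t) L A B T).Finite ∧
      ((ExcNF n d K io ξ (fun t i => fC i t) L A B T).ncard : ℝ) ≤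
        C * T ^ ε * (({x : K | HtLe K T x ∧ io x ∈ L}.ncard : ℝ)) ^ (n - 1) :=
  excNF m n d _ L (fun g => oneV_of g fC L hL (fun i t ht => fC_analytic i t (hL' ht)) fun t ht =>
    fC_locInd t (hL' ht)) A ε hε

end Pool.Agent.Y124
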