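import Mathlib

/-!
# Taylor's formula with uniform remainder, one variable
-/

set_option autoImplicit false

open Finset Filter Topology Metric

namespace Pool.Agent.Y124

variable {𝕜 : Type*} [RCLike 𝕜]

/-- Taylor coefficients -/
noncomputable def tc (f : 𝕜 → 𝕜) (p : 𝕜) (i : ℕ) : 𝕜 := iteratedDeriv i f p / (i.factorial : 𝕜)

theorem analyticAt_iteratedDeriv {f : 𝕜 → 𝕜} {c : 𝕜} (hf : AnalyticAt 𝕜 f c) (i : ℕ) :
    AnalyticAt 𝕜 (iteratedDeriv i f) c := by
  induction i with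
  | zero => simpa using hf
  | succ i ih =>
    rw [iteratedDeriv_succ]
    exact ih.deriv

theorem tc_continuousAt {f : 𝕜 → 𝕜} {c : 𝕜} (hf : AnalyticAt 𝕜 f c) (i : ℕ) :
    ContinuousAt (fun p => tc f p i) c := by
  unfold tc
  exact (analyticAt_iteratedDeriv hf i).continuousAt.div_const _

theorem tc_zero (f : 𝕜 → 𝕜) (p : 𝕜) : tc f p 0 = f p := by simp [tc]

theorem tc_deriv (f : 𝕜 → 𝕜) (p : 𝕜) (i : ℕ) : tc (deriv f) p i = ((i : 𝕜) + 1) * tc f p (i + 1) := by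
  unfold tc
  rw [iteratedDeriv_succ']
  have h1 : ((i.factorial : ℕ) : 𝕜) ≠ 0 := by exact_mod_cast i.factorial_ne_zero
  have h2 : ((i : 𝕜) + 1) ≠ 0 := by exact_mod_cast Nat.succ_ne_zero i
  rw [Nat.factorial_succ]
  push_cast
  field_simp

theorem taylor_unif (m : ℕ) : ∀ {f : 𝕜 → 𝕜} {c : 𝕜}, AnalyticAt 𝕜 f c →
    ∃ C ρ : ℝ, 0 ≤ C ∧ 0 < ρ ∧ ∀ p, ‖p - c‖ ≤ ρ → ∀ w : 𝕜, ‖w‖ ≤ ρ →
      ‖f (p + w) - ∑ i ∈ range m, tc f p i * w ^ i‖ ≤ C * ‖w‖ ^ m := by
  induction m with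
  | zero =>
    intro f c hf
    have h1 : ∀ᶠ x in 𝓝 c, ‖f x‖ < ‖f c‖ + 1 :=
      hf.continuousAt.norm.eventually_lt continuousAt_const (by simp)
    obtain ⟨ρ, hρ, hb⟩ := Metric.eventually_nhds_iff.1 h1
    refine ⟨‖f c‖ + 1, ρ / 3, by positivity, by positivity, ?_⟩
    intro p hp w hw
    simp only [range_zero, sum_empty, sub_zero, pow_zero, mul_one]
    refine (hb ?_).le
    rw [dist_eq_norm]
    calc ‖p + w - c‖ = ‖(p - c) + w‖ := by ring_nf
      _ ≤ ‖p - c‖ + ‖w‖ := norm_add_le _ _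
      _ ≤ ρ / 3 + ρ / 3 := add_le_add hp hw
      _ < ρ := by linarith
  | succ m ih =>
    intro f c hf
    obtain ⟨C, ρ1, hC, hρ1, hb⟩ := ih hf.deriv
    have h1 : ∀ᶠ x in 𝓝 c, AnalyticAt 𝕜 f x := hf.eventually_analyticAt
    obtain ⟨ρ2, hρ2, hb2⟩ := Metric.eventually_nhds_iff.1 h1
    refine ⟨C, min ρ1 (ρ2 / 3), hC, by positivity, ?_⟩
    intro p hp w hw
    have hp1 : ‖p - c‖ ≤ ρ1 := hp.trans (min_le_left _ _)
    have hw1 : ‖w‖ ≤ ρ1 := hw.trans (min_le_left _ _)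
    have hp2 : ‖p - c‖ ≤ ρ2 / 3 := hp.trans (min_le_right _ _)
    have hw2 : ‖w‖ ≤ ρ2 / 3 := hw.trans (min_le_right _ _)
    set E : 𝕜 → 𝕜 := fun w => f (p + w) - ∑ i ∈ range (m + 1), tc f p i * w ^ i with hE
    set E' : 𝕜 → 𝕜 := fun w => deriv f (p + w) - ∑ i ∈ range m, tc (deriv f) p i * w ^ i with hE'
    have hder : ∀ x ∈ closedBall (0 : 𝕜) ‖w‖, HasDerivWithinAt E (E' x) (closedBall (0 : 𝕜) ‖w‖) x := by
      intro x hx
      rw [mem_closedBall, dist_zero_right] at hx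
      refine HasDerivAt.hasDerivWithinAt ?_
      have h2 : AnalyticAt 𝕜 f (p + x) := by
        refine hb2 ?_
        rw [dist_eq_norm]
        calc ‖p + x - c‖ = ‖(p - c) + x‖ := by ring_nf
          _ ≤ ‖p - c‖ + ‖x‖ := norm_add_le _ _
          _ ≤ ρ2 / 3 + ρ2 / 3 := add_le_add hp2 (hx.trans hw2)
          _ < ρ2 := by linarith
      have h3 : HasDerivAt (fun y => f (p + y)) (deriv f (p + x)) x := by
        have := h2.differentiableAt.hasDerivAt
        exact this.comp_const_add p x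
      have h4 : HasDerivAt (fun y : 𝕜 => ∑ i ∈ range (m + 1), tc f p i * y ^ i)
          (∑ i ∈ range m, tc (deriv f) p i * x ^ i) x := by
        have h5 : ∀ i ∈ range (m + 1), HasDerivAt (fun y : 𝕜 => tc f p i * y ^ i)
            (tc f p i * ((i : 𝕜) * x ^ (i - 1))) x := fun i _ => (hasDerivAt_pow i x).const_mul _
        have h6 := HasDerivAt.fun_sum h5
        refine h6.congr_deriv ?_
        rw [sum_range_succ']
        simp only [Nat.cast_zero, zero_mul, mul_zero, add_zero]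
        refine sum_congr rfl fun i _ => ?_
        rw [tc_deriv]
        rw [Nat.add_sub_cancel]
        push_cast
        ring
      exact h3.sub h4
    have hbound : ∀ x ∈ closedBall (0 : 𝕜) ‖w‖, ‖E' x‖ ≤ C * ‖w‖ ^ m := by
      intro x hx
      rw [mem_closedBall, dist_zero_right] at hx
      refine (hb p hp1 x (hx.trans hw1)).trans ?_
      gcongr
    have h7 := Convex.norm_image_sub_le_of_norm_hasDerivWithin_le hder hbound (convex_closedBall _ _)
      (x := 0) (y := w) (by simp) (by simp)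
    have h8 : E 0 = 0 := by
      simp only [hE, add_zero]
      rw [sum_range_succ']
      simp [tc_zero]
    rw [h8, sub_zero, sub_zero] at h7
    refine h7.trans (le_of_eq ?_)
    rw [pow_succ]
    ring

/-- an analytic function all whose Taylor coefficients vanish is zero -/
theorem eventually_zero_of_tc {f : 𝕜 → 𝕜} {c : 𝕜} (hf : AnalyticAt 𝕜 f c) (h : ∀ i, tc f c i = 0) :
    ∀ᶠ x in 𝓝 c, f x = 0 := by
  obtain ⟨p, hp⟩ := hf
  have h1 : ∀ i, iteratedDeriv i f c = 0 := by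
    intro i
    have := h i
    unfold tc at this
    rw [div_eq_zero_iff] at this
    rcases this with h | h
    · exact h
    · exact absurd h (by exact_mod_cast i.factorial_ne_zero)
  have h2 : AnalyticAt 𝕜 f c := ⟨p, hp⟩
  by_contra hcon
  have h3 : analyticOrderAt f c ≠ ⊤ := by
    intro h4
    exact hcon (analyticOrderAt_eq_top.1 h4)
  obtain ⟨n, hn⟩ := ENat.ne_top_iff_exists.1 h3
  have h5 := (h2.analyticOrderAt_eq_natCast (n := n)).1 hn.symm
  obtain ⟨g, hg, hg0, hgf⟩ := h5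
  -- all coefficients vanish implies `f = O((x - c)^(n+1))`
  obtain ⟨C, ρ, hC, hρ, hb⟩ := taylor_unif (n + 1) h2
  have h6 : ∀ w : 𝕜, ‖w‖ ≤ ρ → ‖f (c + w)‖ ≤ C * ‖w‖ ^ (n + 1) := by
    intro w hw
    have := hb c (by simpa using hρ.le) w hw
    have hz : ∑ i ∈ range (n + 1), tc f c i * w ^ i = 0 := sum_eq_zero fun i _ => by rw [h i, zero_mul]
    rwa [hz, sub_zero] at this
  have h7 : Tendsto (fun w : 𝕜 => ‖g (c + w)‖) (𝓝[≠] 0) (𝓝 ‖g c‖) := by
    have : ContinuousAt (fun w : 𝕜 => ‖g (c + w)‖) 0 := by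
      have h8 : ContinuousAt g (c + 0) := by simpa using hg.continuousAt
      exact (ContinuousAt.comp (f := fun w : 𝕜 => c + w) h8 (by fun_prop)).norm
    have h9 : ContinuousAt (fun w : 𝕜 => ‖g (c + w)‖) 0 := this
    have := h9.tendsto
    simp only [add_zero] at this
    exact this.mono_left nhdsWithin_le_nhds
  have h8 : Tendsto (fun w : 𝕜 => C * ‖w‖) (𝓝[≠] 0) (𝓝 0) := by
    have : Tendsto (fun w : 𝕜 => C * ‖w‖) (𝓝 0) (𝓝 (C * ‖(0 : 𝕜)‖)) := by
      apply Continuous.tendsto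
      fun_prop
    simp only [norm_zero, mul_zero] at this
    exact this.mono_left nhdsWithin_le_nhds
  have h9 : ∀ᶠ w in 𝓝[≠] (0 : 𝕜), ‖g (c + w)‖ ≤ C * ‖w‖ := by
    have h10 : ∀ᶠ w in 𝓝 (0 : 𝕜), f (c + w) = (c + w - c) ^ n • g (c + w) := by
      have : Tendsto (fun w : 𝕜 => c + w) (𝓝 0) (𝓝 c) := by
        have : ContinuousAt (fun w : 𝕜 => c + w) 0 := by fun_prop
        simpa using this.tendsto
      exact this.eventually hgf
    have h11 : ∀ᶠ w in 𝓝 (0 : 𝕜), ‖w‖ ≤ ρ := by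
      have : ∀ᶠ w in 𝓝 (0 : 𝕜), ‖w‖ < ρ := by
        have : ContinuousAt (fun w : 𝕜 => ‖w‖) 0 := by fun_prop
        exact this.eventually_lt continuousAt_const (by simpa using hρ)
      exact this.mono fun w hw => hw.le
    rw [eventually_nhdsWithin_iff]
    filter_upwards [h10, h11] with w hw1 hw2 hw0
    have hw0' : w ≠ 0 := hw0
    have h12 := h6 w hw2
    rw [hw1, add_sub_cancel_left, smul_eq_mul, norm_mul, norm_pow] at h12
    have hpos : 0 < ‖w‖ ^ n := pow_pos (norm_pos_iff.2 hw0') n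
    rw [pow_succ, ← mul_assoc, mul_comm C, mul_assoc] at h12
    exact le_of_mul_le_mul_left h12 hpos
  have h10 : ‖g c‖ ≤ 0 := le_of_tendsto_of_tendsto h7 h8 h9
  exact hg0 (norm_le_zero_iff.1 h10)

end Pool.Agent.Y124
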