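import Pool.Agent.Y124.DetB
import Pool.Agent.Y124.Taylor

/-!
# Sums of products of functions of one variable: expansions, and the matrix of the multiples of a function
-/

set_option autoImplicit false

open Finset Filter Topology Metric

namespace Pool.Agent.Y124

variable {𝕜 : Type*} [RCLike 𝕜]

theorem prod_sub_prod_le {J : Type*} [DecidableEq J] (s : Finset J) (x y : J → 𝕜) (M δ : ℝ) (hM : 1 ≤ M)
    (hδ : 0 ≤ δ) (hx : ∀ j ∈ s, ‖x j‖ ≤ M) (hy : ∀ j ∈ s, ‖y j‖ ≤ M) (hxy : ∀ j ∈ s, ‖x j - y j‖ ≤ δ) :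
    ‖∏ j ∈ s, x j - ∏ j ∈ s, y j‖ ≤ (s.card : ℝ) * M ^ s.card * δ := by
  induction s using Finset.induction_on with
  | empty => simp
  | insert a s ha ih =>
    rw [prod_insert ha, prod_insert ha, card_insert_of_notMem ha]
    have h1 := ih (fun j hj => hx j (mem_insert_of_mem hj)) (fun j hj => hy j (mem_insert_of_mem hj))
      (fun j hj => hxy j (mem_insert_of_mem hj))
    have h2 : ‖∏ j ∈ s, x j‖ ≤ M ^ s.card := by
      rw [norm_prod]
      exact (prod_le_prod (fun _ _ => norm_nonneg _) fun j hj => hx j (mem_insert_of_mem hj)).trans (by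
        rw [prod_const])
    have h3 : x a * ∏ j ∈ s, x j - y a * ∏ j ∈ s, y j =
        (x a - y a) * ∏ j ∈ s, x j + y a * (∏ j ∈ s, x j - ∏ j ∈ s, y j) := by ring
    rw [h3]
    have hM0 : 0 ≤ M := by linarith
    calc ‖(x a - y a) * ∏ j ∈ s, x j + y a * (∏ j ∈ s, x j - ∏ j ∈ s, y j)‖
        ≤ ‖x a - y a‖ * ‖∏ j ∈ s, x j‖ + ‖y a‖ * ‖∏ j ∈ s, x j - ∏ j ∈ s, y j‖ := by
          refine (norm_add_le _ _).trans ?_
          rw [norm_mul, norm_mul]
      _ ≤ δ * M ^ s.card + M * ((s.card : ℝ) * M ^ s.card * δ) := by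
          gcongr
          · exact hxy a (mem_insert_self _ _)
          · exact hy a (mem_insert_self _ _)
      _ ≤ M * (δ * M ^ s.card) + M * ((s.card : ℝ) * M ^ s.card * δ) := by
          have : 0 ≤ δ * M ^ s.card := by positivity
          nlinarith
      _ = ((s.card + 1 : ℕ) : ℝ) * M ^ (s.card + 1) * δ := by
          push_cast
          ring

/-- Taylor coefficients of `∑ e, lam e * ∏ j, ψ e j (u j)` -/
noncomputable def tcM {J E : Type*} [Fintype J] [Fintype E] (ψ : E → J → 𝕜 → 𝕜) (lam : E → 𝕜) (p : J → 𝕜)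
    (η : J → ℕ) : 𝕜 := ∑ e, lam e * ∏ j, tc (ψ e j) (p j) (η j)

theorem tcM_tendsto {J E : Type*} [Fintype J] [Fintype E] (l : Filter ℕ) (ψ : E → J → 𝕜 → 𝕜) (p0 : J → 𝕜)
    (hψ : ∀ e j, AnalyticAt 𝕜 (ψ e j) (p0 j)) (lam : ℕ → E → 𝕜) (γ : E → 𝕜)
    (hlam : ∀ e, Tendsto (fun n => lam n e) l (𝓝 (γ e))) (p : ℕ → J → 𝕜)
    (hp : ∀ j, Tendsto (fun n => p n j) l (𝓝 (p0 j))) (η : J → ℕ) :
    Tendsto (fun n => tcM ψ (lam n) (p n) η) l (𝓝 (tcM ψ γ p0 η)) := by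
  unfold tcM
  refine tendsto_finsetSum _ fun e _ => (hlam e).mul (tendsto_finsetProd _ fun j _ => ?_)
  exact (tc_continuousAt (hψ e j) (η j)).tendsto.comp (hp j)

/-- eventually bounded -/
theorem eventually_bdd_of_tendsto {l : Filter ℕ} {f : ℕ → 𝕜} {a : 𝕜} (h : Tendsto f l (𝓝 a)) :
    ∀ᶠ n in l, ‖f n‖ ≤ ‖a‖ + 1 := by
  have h1 : Tendsto (fun n => ‖f n‖) l (𝓝 ‖a‖) := h.norm
  exact (h1.eventually_lt (tendsto_const_nhds (x := ‖a‖ + 1)) (by simp)).mono fun n hn => hn.le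

theorem exists_bdd_finset {l : Filter ℕ} {ι : Type*} (s : Finset ι) (f : ι → ℕ → 𝕜) (a : ι → 𝕜)
    (h : ∀ i ∈ s, Tendsto (f i) l (𝓝 (a i))) : ∃ M : ℝ, 1 ≤ M ∧ ∀ᶠ n in l, ∀ i ∈ s, ‖f i n‖ ≤ M := by
  classical
  refine ⟨1 + ∑ i ∈ s, (‖a i‖ + 1), ?_, ?_⟩
  · have : 0 ≤ ∑ i ∈ s, (‖a i‖ + 1) := sum_nonneg fun i _ => by positivity
    linarith
  · rw [eventually_all_finset]
    intro i hi
    refine (eventually_bdd_of_tendsto (h i hi)).mono fun n hn => hn.trans ?_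
    have := single_le_sum (f := fun i => ‖a i‖ + 1) (fun i _ => by positivity) hi
    linarith

/-- expansion of a sum of products, with error `O(r ^ m)` -/
theorem expand {J E : Type*} [Fintype J] [DecidableEq J] [Fintype E] (l : Filter ℕ) (ψ : E → J → 𝕜 → 𝕜)
    (p0 : J → 𝕜)
    (hψ : ∀ e j, AnalyticAt 𝕜 (ψ e j) (p0 j)) (lam : ℕ → E → 𝕜) (γ : E → 𝕜)
    (hlam : ∀ e, Tendsto (fun n => lam n e) l (𝓝 (γ e))) (p : ℕ → J → 𝕜)
    (hp : ∀ j, Tendsto (fun n => p n j) l (𝓝 (p0 j))) (r : ℕ → ℝ) (hr0 : ∀ᶠ n in l, 0 < r n)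
    (hr : Tendsto r l (𝓝 0)) (m : ℕ) :
    ∃ C : ℝ, ∀ᶠ n in l, ∀ w : J → 𝕜, (∀ j, ‖w j‖ ≤ r n) →
      ‖∑ e, lam n e * ∏ j, ψ e j (p n j + w j) -
        ∑ α : J → Fin m, tcM ψ (lam n) (p n) (fun j => (α j : ℕ)) * ∏ j, w j ^ (α j : ℕ)‖ ≤ C * r n ^ m := by
  classical
  -- one variable
  have h1 : ∀ e j, ∃ C ρ : ℝ, 0 ≤ C ∧ 0 < ρ ∧ ∀ p, ‖p - p0 j‖ ≤ ρ → ∀ w : 𝕜, ‖w‖ ≤ ρ →
      ‖ψ e j (p + w) - ∑ i ∈ range m, tc (ψ e j) p i * w ^ i‖ ≤ C * ‖w‖ ^ m :=
    fun e j => taylor_unif m (hψ e j)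
  choose C1 ρ1 hC1 hρ1 hT using h1
  set CC : ℝ := ∑ e, ∑ j, C1 e j with hCC
  have hCC1 : ∀ e j, C1 e j ≤ CC := by
    intro e j
    calc C1 e j ≤ ∑ j, C1 e j := single_le_sum (f := fun j => C1 e j) (fun j _ => hC1 e j) (mem_univ j)
      _ ≤ CC := single_le_sum (f := fun e => ∑ j, C1 e j) (fun e _ => sum_nonneg fun j _ => hC1 e j) (mem_univ e)
  have hCC0 : 0 ≤ CC := sum_nonneg fun e _ => sum_nonneg fun j _ => hC1 e j
  -- bounds for the coefficients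
  obtain ⟨M1, hM1, hb1⟩ := exists_bdd_finset (l := l) (univ : Finset (E × J × Fin m))
    (fun x n => tc (ψ x.1 x.2.1) (p n x.2.1) (x.2.2 : ℕ)) (fun x => tc (ψ x.1 x.2.1) (p0 x.2.1) (x.2.2 : ℕ))
    (fun x _ => (tc_continuousAt (hψ x.1 x.2.1) (x.2.2 : ℕ)).tendsto.comp (hp x.2.1))
  obtain ⟨M2, hM2, hb2⟩ := exists_bdd_finset (l := l) (univ : Finset E)
    (fun e n => lam n e) γ (fun e _ => hlam e)
  set M : ℝ := M1 * m + CC + 1 with hM
  have hMge : 1 ≤ M := by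
    have : 0 ≤ M1 * m := by positivity
    rw [hM]; linarith
  refine ⟨(Fintype.card E : ℝ) * (M2 * ((Fintype.card J : ℝ) * M ^ Fintype.card J * CC)), ?_⟩
  have hclose : ∀ᶠ n in l, ∀ e j, ‖p n j - p0 j‖ ≤ ρ1 e j := by
    rw [eventually_all]
    intro e
    rw [eventually_all]
    intro j
    have := (hp j)
    rw [tendsto_iff_norm_sub_tendsto_zero] at this
    exact (this.eventually_lt (tendsto_const_nhds (x := ρ1 e j)) (hρ1 e j)).mono fun n hn => hn.le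
  have hrsmall : ∀ᶠ n in l, ∀ e j, r n ≤ ρ1 e j := by
    rw [eventually_all]
    intro e
    rw [eventually_all]
    intro j
    exact (hr.eventually_lt (tendsto_const_nhds (x := ρ1 e j)) (hρ1 e j)).mono fun n hn => hn.le
  have hr1 : ∀ᶠ n in l, r n ≤ 1 :=
    (hr.eventually_lt (tendsto_const_nhds (x := (1 : ℝ))) one_pos).mono fun n hn => hn.le
  filter_upwards [hb1, hb2, hclose, hrsmall, hr1, hr0] with n hn1 hn2 hn3 hn4 hn5 hn6 w hw
  -- truncated factors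
  set y : E → J → 𝕜 := fun e j => ∑ i : Fin m, tc (ψ e j) (p n j) (i : ℕ) * w j ^ (i : ℕ) with hy
  have hyb : ∀ e j, ‖y e j‖ ≤ M1 * m := by
    intro e j
    refine (norm_sum_le _ _).trans ?_
    have : ∀ i ∈ (univ : Finset (Fin m)), ‖tc (ψ e j) (p n j) (i : ℕ) * w j ^ (i : ℕ)‖ ≤ M1 := by
      intro i _
      rw [norm_mul, norm_pow]
      have h2 := hn1 (e, j, i) (mem_univ _)
      simp only at h2
      calc ‖tc (ψ e j) (p n j) (i : ℕ)‖ * ‖w j‖ ^ (i : ℕ) ≤ M1 * 1 := by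
            gcongr
            exact pow_le_one₀ (norm_nonneg _) ((hw j).trans hn5)
        _ = M1 := mul_one _
    refine (sum_le_sum this).trans ?_
    simp [mul_comm]
  have hxy : ∀ e j, ‖ψ e j (p n j + w j) - y e j‖ ≤ CC * r n ^ m := by
    intro e j
    have h3 := hT e j (p n j) (hn3 e j) (w j) ((hw j).trans (hn4 e j))
    rw [← Fin.sum_univ_eq_sum_range (fun i => tc (ψ e j) (p n j) i * w j ^ i) m] at h3
    refine h3.trans ?_
    have h4 : ‖w j‖ ^ m ≤ r n ^ m := pow_le_pow_left₀ (norm_nonneg _) (hw j) m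
    calc C1 e j * ‖w j‖ ^ m ≤ CC * r n ^ m := mul_le_mul (hCC1 e j) h4 (by positivity) hCC0
      _ = CC * r n ^ m := rfl
  have hrm : r n ^ m ≤ 1 := pow_le_one₀ hn6.le hn5
  have hrm0 : 0 ≤ r n ^ m := pow_nonneg hn6.le m
  have hxb : ∀ e j, ‖ψ e j (p n j + w j)‖ ≤ M := by
    intro e j
    have h5 : ψ e j (p n j + w j) = (ψ e j (p n j + w j) - y e j) + y e j := by ring
    rw [h5]
    refine (norm_add_le _ _).trans ?_
    have h6 := hxy e j
    have h7 := hyb e j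
    have h8 : CC * r n ^ m ≤ CC := by nlinarith
    rw [hM]; linarith
  have hyb' : ∀ e j, ‖y e j‖ ≤ M := by
    intro e j
    refine (hyb e j).trans ?_
    rw [hM]; linarith
  have hprod : ∀ e, ‖∏ j, ψ e j (p n j + w j) - ∏ j, y e j‖ ≤
      (Fintype.card J : ℝ) * M ^ Fintype.card J * (CC * r n ^ m) := by
    intro e
    have := prod_sub_prod_le (univ : Finset J) (fun j => ψ e j (p n j + w j)) (y e) M (CC * r n ^ m) hMge
      (by positivity) (fun j _ => hxb e j) (fun j _ => hyb' e j) (fun j _ => hxy e j)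
    simpa using this
  have hexp : ∑ α : J → Fin m, tcM ψ (lam n) (p n) (fun j => (α j : ℕ)) * ∏ j, w j ^ (α j : ℕ) =
      ∑ e, lam n e * ∏ j, y e j := by
    unfold tcM
    simp_rw [Finset.sum_mul]
    rw [Finset.sum_comm]
    refine sum_congr rfl fun e _ => ?_
    have h9 : ∏ j, y e j = ∑ α : J → Fin m, ∏ j, (tc (ψ e j) (p n j) (α j : ℕ) * w j ^ (α j : ℕ)) := by
      rw [hy]
      simp only
      rw [Finset.prod_univ_sum]
      rw [Fintype.piFinset_univ]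
    rw [h9, mul_sum]
    refine sum_congr rfl fun α _ => ?_
    rw [prod_mul_distrib, mul_assoc]
  rw [hexp, ← sum_sub_distrib]
  refine (norm_sum_le _ _).trans ?_
  have hfin : ∀ e ∈ (univ : Finset E), ‖lam n e * ∏ j, ψ e j (p n j + w j) - lam n e * ∏ j, y e j‖ ≤
      M2 * ((Fintype.card J : ℝ) * M ^ Fintype.card J * (CC * r n ^ m)) := by
    intro e _
    rw [← mul_sub, norm_mul]
    exact mul_le_mul (hn2 e (mem_univ e)) (hprod e) (norm_nonneg _) (by linarith)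
  refine (sum_le_sum hfin).trans (le_of_eq ?_)
  rw [sum_const, card_univ, nsmul_eq_mul]
  ring

end Pool.Agent.Y124
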