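import Pool.Agent.Y124.Tensor
import Pool.Agent.Y124.Multi

/-!
# Nonvanishing of a Taylor coefficient of a combination of products of independent functions
-/

set_option autoImplicit false

open Finset Filter Topology

namespace Pool.Agent.Y124

theorem tensor_indep₂ {𝕜 E J N : Type*} [Field 𝕜] [Fintype J] (S : Finset E) (φ : E → J → N → 𝕜)
    (V : J → Set (N → 𝕜)) (hV : ∀ j, LinearIndependent 𝕜 (fun v : V j => (v : N → 𝕜)))
    (hφ : ∀ e ∈ S, ∀ j, φ e j ∈ V j) (hinj : ∀ e ∈ S, ∀ e' ∈ S, (∀ j, φ e j = φ e' j) → e = e') (γ : E → 𝕜)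
    (h : ∀ η : J → N, ∑ e ∈ S, γ e * ∏ j, φ e j (η j) = 0) : ∀ e ∈ S, γ e = 0 := by
  classical
  intro e0 he0
  -- transport to the index type of all choices
  let F : S → (∀ j, V j) := fun e j => ⟨φ e.1 j, hφ e.1 e.2 j⟩
  have hF : Function.Injective F := by
    intro e e' hee
    apply Subtype.ext
    refine hinj e.1 e.2 e'.1 e'.2 fun j => ?_
    have := congrFun hee j
    exact congrArg Subtype.val this
  let c : (∀ j, V j) → 𝕜 := fun i => if hi : ∃ e : S, F e = i then γ hi.choose.1 else 0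
  have hc : ∀ e : S, c (F e) = γ e.1 := by
    intro e
    have hex : ∃ e' : S, F e' = F e := ⟨e, rfl⟩
    simp only [c, dif_pos hex]
    rw [hF hex.choose_spec]
  have key := tensor_indep (fun j (v : V j) => (v : N → 𝕜)) hV (univ.image F) c (by
    intro η
    rw [sum_image (fun a _ b _ hab => hF hab)]
    have h1 := h η
    rw [← sum_coe_sort] at h1
    rw [← h1]
    refine sum_congr rfl fun e _ => ?_
    rw [hc])
  have := key (F ⟨e0, he0⟩) (mem_image_of_mem _ (mem_univ _))
  rw [hc] at this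
  exact this

variable {𝕜 : Type*} [RCLike 𝕜]

theorem tc_sum {ι : Type*} (S : Finset ι) (c : ι → 𝕜) (g : ι → 𝕜 → 𝕜) (t0 : 𝕜)
    (hg : ∀ i, AnalyticAt 𝕜 (g i) t0) (η : ℕ) :
    tc (fun t => ∑ i ∈ S, c i * g i t) t0 η = ∑ i ∈ S, c i * tc (g i) t0 η := by
  classical
  induction S using Finset.induction_on with
  | empty =>
    simp only [sum_empty]
    unfold tc
    rw [iteratedDeriv_fun_const_zero]
    simp
  | insert a S ha ih =>
    simp only [sum_insert ha]
    rw [← ih]
    unfold tc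
    have h1 : ContDiffAt 𝕜 η (fun t => c a * g a t) t0 := contDiffAt_const.mul (hg a).contDiffAt
    have h2 : ContDiffAt 𝕜 η (fun t => ∑ i ∈ S, c i * g i t) t0 :=
      ContDiffAt.sum fun i _ => contDiffAt_const.mul (hg i).contDiffAt
    rw [iteratedDeriv_fun_add h1 h2, iteratedDeriv_const_mul_field]
    ring

theorem tc_indep {ι : Type*} (g : ι → 𝕜 → 𝕜) (t0 : 𝕜) (hg : ∀ i, AnalyticAt 𝕜 (g i) t0)
    (h : ∀ (S : Finset ι) (c : ι → 𝕜), (∀ᶠ t in 𝓝 t0, ∑ i ∈ S, c i * g i t = 0) → ∀ i ∈ S, c i = 0) :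
    LinearIndependent 𝕜 (fun i η => tc (g i) t0 η) := by
  rw [linearIndependent_iff']
  intro S c hc
  apply h
  have h1 : AnalyticAt 𝕜 (fun t => ∑ i ∈ S, c i * g i t) t0 :=
    Finset.analyticAt_fun_sum _ fun i _ => analyticAt_const.mul (hg i)
  apply eventually_zero_of_tc h1
  intro η
  rw [tc_sum S c g t0 hg]
  have h2 := congrFun hc η
  simpa [Finset.sum_apply] using h2

theorem pow_tc_indep (t0 : 𝕜) : LinearIndependent 𝕜 (fun (a : ℕ) η => tc (fun u : 𝕜 => u ^ a) t0 η) := by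
  apply tc_indep _ _ (fun a => analyticAt_id.pow a)
  intro S c h
  have h1 : (∑ i ∈ S, Polynomial.monomial i (c i)) = 0 := by
    apply Polynomial.eq_zero_of_infinite_isRoot
    have h2 : {t : 𝕜 | ∑ i ∈ S, c i * t ^ i = 0}.Infinite := by
      intro hfin
      have h3 : {t : 𝕜 | ∑ i ∈ S, c i * t ^ i = 0} ∈ 𝓝 t0 := h
      have h4 := infinite_of_mem_nhds t0 h3
      exact h4 hfin
    refine h2.mono fun t ht => ?_
    simp only [Set.mem_setOf_eq, Polynomial.IsRoot.def, Polynomial.eval_finset_sum, Polynomial.eval_monomial] at ht ⊢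
    exact ht
  intro i hi
  have h2 := congrArg (fun p => Polynomial.coeff p i) h1
  simp only [Polynomial.finset_sum_coeff, Polynomial.coeff_monomial, Polynomial.coeff_zero] at h2
  rw [sum_ite_eq' S i, if_pos hi] at h2
  exact h2

end Pool.Agent.Y124
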