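import Mathlib

/-!
# Independence of products, and relations from vanishing determinants
-/

set_option autoImplicit false

open Finset

namespace Pool.Agent.Y124

theorem exists_dual {𝕜 ι N : Type*} [Field 𝕜] (χ : ι → N → 𝕜) (hχ : LinearIndependent 𝕜 χ)
    [DecidableEq ι] (I : Finset ι) (i0 : ι) (hi0 : i0 ∈ I) :
    ∃ ℓ : N →₀ 𝕜, ∀ i ∈ I, ∑ n ∈ ℓ.support, ℓ n * χ i n = if i = i0 then 1 else 0 := by
  classical
  let w : N → (I → 𝕜) := fun n i => χ i.1 n
  have hspan : Submodule.span 𝕜 (Set.range w) = ⊤ := by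
    by_contra hne
    obtain ⟨f, hf0, hf⟩ := Submodule.exists_le_ker_of_lt_top _ (lt_top_iff_ne_top.2 hne)
    have h1 : ∀ i : I, f (Pi.single i 1) = 0 := by
      have h2 : LinearIndependent 𝕜 (fun i : I => χ i.1) := hχ.comp _ Subtype.val_injective
      have h3 := Fintype.linearIndependent_iff.1 h2 (fun i => f (Pi.single i 1))
      apply h3
      funext n
      have h4 : w n ∈ Submodule.span 𝕜 (Set.range w) := Submodule.subset_span ⟨n, rfl⟩
      have h5 : f (w n) = 0 := hf h4
      rw [LinearMap.pi_apply_eq_sum_univ f (w n)] at h5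
      rw [Finset.sum_apply]
      simp only [Pi.smul_apply, smul_eq_mul, Pi.zero_apply]
      rw [← h5]
      refine sum_congr rfl fun i _ => ?_
      simp only [w, smul_eq_mul]
      rw [mul_comm]
      congr 2
      funext i'
      simp [Pi.single_apply, eq_comm]
    apply hf0
    refine LinearMap.pi_ext' fun i => ?_
    ext
    simpa using h1 i
  have hmem : (Pi.single (⟨i0, hi0⟩ : I) 1 : I → 𝕜) ∈ Submodule.span 𝕜 (Set.range w) := by
    rw [hspan]; trivial
  rw [Finsupp.mem_span_range_iff_exists_finsupp] at hmem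
  obtain ⟨ℓ, hℓ⟩ := hmem
  refine ⟨ℓ, fun i hi => ?_⟩
  have h1 := congrFun hℓ ⟨i, hi⟩
  rw [Finsupp.sum, Finset.sum_apply] at h1
  simp only [Pi.smul_apply, smul_eq_mul, w] at h1
  rw [h1, Pi.single_apply]
  simp only [Subtype.mk.injEq]

theorem tensor_indep {𝕜 J : Type*} [Field 𝕜] [Fintype J] {ι : J → Type*} {N : Type*}
    (χ : ∀ j, ι j → N → 𝕜) (hχ : ∀ j, LinearIndependent 𝕜 (χ j)) (S : Finset (∀ j, ι j)) (c : (∀ j, ι j) → 𝕜)
    (h : ∀ η : J → N, ∑ i ∈ S, c i * ∏ j, χ j (i j) (η j) = 0) : ∀ i ∈ S, c i = 0 := by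
  classical
  intro i0 hi0
  have h1 : ∀ j, ∃ ℓ : N →₀ 𝕜, ∀ i ∈ S.image (fun i => i j), ∑ n ∈ ℓ.support, ℓ n * χ j i n =
      if i = i0 j then 1 else 0 := fun j =>
    exists_dual (χ j) (hχ j) _ (i0 j) (mem_image_of_mem _ hi0)
  choose ℓ hℓ using h1
  have h2 : ∑ η ∈ Fintype.piFinset (fun j => (ℓ j).support), (∏ j, ℓ j (η j)) *
      ∑ i ∈ S, c i * ∏ j, χ j (i j) (η j) = c i0 := by
    simp_rw [mul_sum]
    rw [sum_comm]
    have h3 : ∀ i ∈ S, ∑ η ∈ Fintype.piFinset (fun j => (ℓ j).support), (∏ j, ℓ j (η j)) *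
        (c i * ∏ j, χ j (i j) (η j)) = if i = i0 then c i0 else 0 := by
      intro i hi
      have h4 : ∑ η ∈ Fintype.piFinset (fun j => (ℓ j).support), (∏ j, ℓ j (η j)) *
        (c i * ∏ j, χ j (i j) (η j)) = c i * ∏ j, ∑ n ∈ (ℓ j).support, ℓ j n * χ j (i j) n := by
        rw [Finset.prod_univ_sum, mul_sum]
        refine sum_congr rfl fun η _ => ?_
        rw [prod_mul_distrib]
        ring
      rw [h4]
      have h5 : ∀ j, ∑ n ∈ (ℓ j).support, ℓ j n * χ j (i j) n = if i j = i0 j then 1 else 0 := fun j =>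
        hℓ j (i j) (mem_image_of_mem (fun i => i j) hi)
      simp_rw [h5]
      rw [Fintype.prod_ite_zero]
      by_cases hii : i = i0
      · subst hii
        simp
      · rw [if_neg, if_neg hii, mul_zero]
        intro hcon
        exact hii (funext hcon)
    rw [sum_congr rfl h3, sum_ite_eq' S i0]
    simp [hi0]
  rw [← h2]
  refine sum_eq_zero fun η _ => ?_
  rw [h η, mul_zero]

theorem exists_relation {F I S : Type*} [Field F] [Fintype I] [DecidableEq I] (v : S → I → F)
    (h : ∀ s : I → S, (Matrix.of fun b a => v (s b) a).det = 0) :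
    ∃ c : I → F, c ≠ 0 ∧ ∀ s, ∑ a, c a * v s a = 0 := by
  classical
  by_cases hspan : Submodule.span F (Set.range v) = ⊤
  · exfalso
    obtain ⟨κ, a, ha, hsp, hli⟩ := exists_linearIndependent' F v
    rw [hspan] at hsp
    let b : Module.Basis κ F (I → F) := Module.Basis.mk hli (by rw [hsp])
    letI : Fintype κ := FiniteDimensional.fintypeBasisIndex b
    have hcard : Fintype.card κ = Fintype.card I := by
      rw [← Module.finrank_eq_card_basis b, Module.finrank_fintype_fun_eq_card]
    let e : I ≃ κ := (Fintype.equivOfCardEq hcard).symm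
    have h1 := h (fun i => a (e i))
    have h2 : LinearIndependent F (fun i : I => v (a (e i))) := hli.comp e e.injective
    have h3 : LinearIndependent F (Matrix.of fun b a' => v (a (e b)) a').row := h2
    rw [Matrix.linearIndependent_rows_iff_isUnit, Matrix.isUnit_iff_isUnit_det] at h3
    rw [h1] at h3
    exact not_isUnit_zero h3
  · obtain ⟨f, hf0, hf⟩ := Submodule.exists_le_ker_of_lt_top _ (lt_top_iff_ne_top.2 hspan)
    refine ⟨fun a => f (Pi.single a 1), ?_, fun s => ?_⟩
    · intro hcon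
      apply hf0
      refine LinearMap.pi_ext' fun i => ?_
      ext
      simpa using congrFun hcon i
    · have h4 : v s ∈ Submodule.span F (Set.range v) := Submodule.subset_span ⟨s, rfl⟩
      have h5 : f (v s) = 0 := hf h4
      rw [LinearMap.pi_apply_eq_sum_univ f (v s)] at h5
      rw [← h5]
      refine sum_congr rfl fun i _ => ?_
      rw [smul_eq_mul, mul_comm]
      have h6 : (Pi.single i 1 : I → F) = fun j => if i = j then 1 else 0 := by
        funext i'
        simp [Pi.single_apply, eq_comm]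
      simp only [h6]

end Pool.Agent.Y124
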