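import Pool.Agent.Y124.Mod
import Pool.Agent.Y124.Tensor

/-!
# A polynomial relation from vanishing determinants
-/

set_option autoImplicit false

open Filter MvPolynomial

namespace Pool.Agent.Y124

variable {k : Type*} [Field k] {𝒰 : Ultrafilter ℕ} (K₀ : Subfield (UL 𝒰 k))

theorem det_pt_eq {τ J : Type*} [Fintype J] [DecidableEq J] (D : ℕ) (g : J → τ)
    (q : (J → Fin (D + 1)) → ℕ → τ → k)
    (h : ∀ᶠ n in (𝒰 : Filter ℕ),
      (Matrix.of fun b a : J → Fin (D + 1) => ∏ j, (q b n (g j)) ^ (a j : ℕ)).det = 0) :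
    (Matrix.of fun b a : J → Fin (D + 1) => ∏ j, (pt 𝒰 (q b) (g j)) ^ (a j : ℕ)).det = 0 := by
  let Mf : Matrix (J → Fin (D + 1)) (J → Fin (D + 1)) (ℕ → k) :=
    Matrix.of fun b a => fun n => ∏ j, (q b n (g j)) ^ (a j : ℕ)
  have h1 : (Matrix.of fun b a : J → Fin (D + 1) => ∏ j, (pt 𝒰 (q b) (g j)) ^ (a j : ℕ)) =
      (Germ.coeRingHom (R := k) (𝒰 : Filter ℕ)).mapMatrix Mf := by
    ext b a
    simp only [Matrix.of_apply, RingHom.mapMatrix_apply, Matrix.map_apply, Mf]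
    have h2 : (fun n => ∏ j, (q b n (g j)) ^ (a j : ℕ) : ℕ → k) = ∏ j, (fun n => q b n (g j) : ℕ → k) ^ (a j : ℕ) := by
      funext n
      simp [Finset.prod_apply]
    rw [h2, map_prod]
    refine Finset.prod_congr rfl fun j _ => ?_
    rw [map_pow]
    rfl
  rw [h1, ← RingHom.map_det]
  change ((Mf.det : ℕ → k) : (𝒰 : Filter ℕ).Germ k) = ((0 : ℕ → k) : (𝒰 : Filter ℕ).Germ k)
  rw [Germ.coe_eq]
  filter_upwards [h] with n hn
  have h3 := RingHom.map_det (Pi.evalRingHom (fun _ : ℕ => k) n) Mf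
  rw [Pi.evalRingHom_apply] at h3
  rw [h3]
  exact hn

theorem exists_poly {τ J : Type*} [Fintype J] [DecidableEq J] (g : J → τ) (B : ℕ → Finset (τ → k))
    (hK : ∀ q, IsPt 𝒰 B q → ∀ i, pt 𝒰 q i ∈ K₀) (D : ℕ)
    (h : ∀ᶠ n in (𝒰 : Filter ℕ), ∀ x : (J → Fin (D + 1)) → τ → k, (∀ b, x b ∈ B n) →
      (Matrix.of fun b a : J → Fin (D + 1) => ∏ j, (x b (g j)) ^ (a j : ℕ)).det = 0) :
    ∃ R : MvPolynomial J K₀, R ≠ 0 ∧ ∀ q, IsPt 𝒰 B q → aeval (fun j => pt 𝒰 q (g j)) R = 0 := by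
  classical
  let v : {q : ℕ → τ → k // IsPt 𝒰 B q} → (J → Fin (D + 1)) → K₀ := fun q a =>
    ∏ j, (⟨pt 𝒰 q.1 (g j), hK q.1 q.2 (g j)⟩ : K₀) ^ (a j : ℕ)
  obtain ⟨c, hc0, hc⟩ := exists_relation v (by
    intro s
    apply K₀.subtype.injective
    rw [map_zero, RingHom.map_det]
    have h1 := det_pt_eq (𝒰 := 𝒰) D g (fun b => (s b).1) (by
      have h2 : ∀ᶠ n in (𝒰 : Filter ℕ), ∀ b, (s b).1 n ∈ B n := by
        rw [eventually_all]
        exact fun b => (s b).2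
      filter_upwards [h, h2] with n h3 h4
      exact h3 (fun b => (s b).1 n) h4)
    rw [← h1]
    congr 1
    ext b a
    simp only [RingHom.mapMatrix_apply, Matrix.map_apply, Matrix.of_apply, v, map_prod, map_pow]
    rfl)
  let ex : (J → Fin (D + 1)) → (J →₀ ℕ) := fun a => Finsupp.equivFunOnFinite.symm fun j => (a j : ℕ)
  have hex : Function.Injective ex := by
    intro a b hab
    have h1 := Finsupp.equivFunOnFinite.symm.injective hab
    funext j
    exact Fin.ext (congrFun h1 j)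
  refine ⟨∑ a, monomial (ex a) (c a), ?_, ?_⟩
  · intro hR
    apply hc0
    funext a
    have h1 := congrArg (coeff (ex a)) hR
    rw [coeff_sum, coeff_zero] at h1
    simp only [coeff_monomial] at h1
    have h2 : ∀ b, (if ex b = ex a then c b else 0) = if b = a then c b else 0 := by
      intro b
      by_cases hb : b = a
      · rw [if_pos hb, if_pos (by rw [hb])]
      · rw [if_neg hb, if_neg (fun hh => hb (hex hh))]
    simp only [h2] at h1
    rw [Finset.sum_ite_eq' Finset.univ a] at h1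
    simpa using h1
  · intro q hq
    have h1 := congrArg (fun t : K₀ => (t : UL 𝒰 k)) (hc ⟨q, hq⟩)
    simp only [v] at h1
    rw [map_sum]
    have h2 : ((∑ a, c a * ∏ j, (⟨pt 𝒰 q (g j), hK q hq (g j)⟩ : K₀) ^ (a j : ℕ) : K₀) : UL 𝒰 k) =
        ∑ a, (c a : UL 𝒰 k) * ∏ j, (pt 𝒰 q (g j)) ^ (a j : ℕ) := by
      have h3 := map_sum K₀.subtype (fun a => c a * ∏ j, (⟨pt 𝒰 q (g j), hK q hq (g j)⟩ : K₀) ^ (a j : ℕ)) Finset.univ
      refine h3.trans (Finset.sum_congr rfl fun a _ => ?_)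
      rw [map_mul, map_prod]
      simp only [map_pow]
      rfl
    rw [h2] at h1
    refine Eq.trans (Finset.sum_congr rfl fun a _ => ?_) h1
    rw [aeval_monomial]
    congr 1
    rw [Finsupp.prod_fintype _ _ (fun j => pow_zero _)]
    rfl

end Pool.Agent.Y124
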