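import Pool.Agent.Y124.Mat

/-!
# Determinants of monomials at points close together on an analytic hypersurface
-/

set_option autoImplicit false

open Finset Filter Topology Metric

namespace Pool.Agent.Y124

variable {𝕜 : Type*} [RCLike 𝕜]

theorem mEnt_tendsto {J : Type*} [Fintype J] (l : Filter ℕ) (g : ℕ → (J → ℕ) → 𝕜) (g0 : (J → ℕ) → 𝕜)
    (h : ∀ η, Tendsto (fun n => g n η) l (𝓝 (g0 η))) (μ α α' : J → ℕ) :
    Tendsto (fun n => mEnt (g n) μ α α') l (𝓝 (mEnt g0 μ α α')) := by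
  unfold mEnt
  split_ifs
  · exact h _
  · exact tendsto_const_nhds

theorem inv_tendsto {N : Type*} [Fintype N] [DecidableEq N] (l : Filter ℕ) (A : ℕ → Matrix N N 𝕜)
    (A0 : Matrix N N 𝕜) (h : ∀ i j, Tendsto (fun n => A n i j) l (𝓝 (A0 i j))) (hdet : A0.det ≠ 0) :
    (∀ᶠ n in l, (A n).det ≠ 0) ∧ ∀ i j, Tendsto (fun n => (A n)⁻¹ i j) l (𝓝 (A0⁻¹ i j)) := by
  have hA : Tendsto A l (𝓝 A0) :=
    tendsto_pi_nhds.2 fun i => tendsto_pi_nhds.2 fun j => h i j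
  have hd : Tendsto (fun n => (A n).det) l (𝓝 A0.det) :=
    ((continuous_id.matrix_det (n := N) (R := 𝕜)).tendsto A0).comp hA
  have hadj : Tendsto (fun n => (A n).adjugate) l (𝓝 A0.adjugate) :=
    ((continuous_id.matrix_adjugate (n := N) (R := 𝕜)).tendsto A0).comp hA
  refine ⟨hd.eventually_ne hdet, fun i j => ?_⟩
  have h1 : ∀ B : Matrix N N 𝕜, B⁻¹ i j = (B.det)⁻¹ * B.adjugate i j := by
    intro B
    rw [Matrix.inv_def, Matrix.smul_apply, Ring.inverse_eq_inv, smul_eq_mul]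
  simp_rw [h1]
  refine (hd.inv₀ hdet).mul ?_
  exact (tendsto_pi_nhds.1 ((tendsto_pi_nhds.1 hadj) i)) j

theorem pow_expand {m : ℕ} (p w : 𝕜) (a : ℕ) (ha : a < m) :
    (p + w) ^ a = ∑ i : Fin m, ((a.choose i : ℕ) : 𝕜) * p ^ (a - (i : ℕ)) * w ^ (i : ℕ) := by
  rw [Fin.sum_univ_eq_sum_range (fun i => ((a.choose i : ℕ) : 𝕜) * p ^ (a - i) * w ^ i) m, add_comm, add_pow]
  have h1 : range (a + 1) ⊆ range m := range_subset_range.2 ha
  rw [← sum_subset h1]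
  · refine sum_congr rfl fun i _ => ?_
    ring
  · intro i _ hi
    rw [mem_range, not_lt] at hi
    rw [Nat.choose_eq_zero_of_lt (by omega)]
    simp

theorem prod_expand {J : Type*} [Fintype J] [DecidableEq J] {m D : ℕ} (hD : D < m) (p w : J → 𝕜)
    (a : J → Fin (D + 1)) :
    ∏ j, (p j + w j) ^ (a j : ℕ) = ∑ α : J → Fin m,
      (∏ j, (((a j : ℕ).choose (α j) : ℕ) : 𝕜) * p j ^ ((a j : ℕ) - (α j : ℕ))) * ∏ j, w j ^ (α j : ℕ) := by
  have h1 : ∀ j, (p j + w j) ^ (a j : ℕ) = ∑ i : Fin m, (((a j : ℕ).choose i : ℕ) : 𝕜) *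
      p j ^ ((a j : ℕ) - (i : ℕ)) * w j ^ (i : ℕ) := fun j =>
    pow_expand (p j) (w j) (a j : ℕ) (by have := (a j).isLt; omega)
  rw [prod_congr rfl fun j _ => h1 j, Finset.prod_univ_sum, Fintype.piFinset_univ]
  refine sum_congr rfl fun α _ => ?_
  rw [prod_mul_distrib]

theorem det_small {J E : Type*} [Fintype J] [LinearOrder J] [Fintype E] (l : Filter ℕ) (ψ : E → J → 𝕜 → 𝕜)
    (p0 : J → 𝕜)
    (hψ : ∀ e j, AnalyticAt 𝕜 (ψ e j) (p0 j)) (lam : ℕ → E → 𝕜) (γ : E → 𝕜)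
    (hlam : ∀ e, Tendsto (fun n => lam n e) l (𝓝 (γ e))) (p : ℕ → J → 𝕜)
    (hp : ∀ j, Tendsto (fun n => p n j) l (𝓝 (p0 j))) (r : ℕ → ℝ) (hr0 : ∀ᶠ n in l, 0 < r n)
    (hr : Tendsto r l (𝓝 0)) (hne : ∃ η, tcM ψ γ p0 η ≠ 0) :
    ∃ ν : ℕ, ∀ m D : ℕ, D < m → ∀ C0 : ℝ, ∃ C : ℝ, ∀ᶠ n in l, ∀ w : (J → Fin (D + 1)) → J → 𝕜,
      (∀ b j, ‖w b j‖ ≤ r n) →
      (∀ b, ‖∑ e, lam n e * ∏ j, ψ e j (p n j + w b j)‖ ≤ C0 * r n ^ m) →
      ‖(Matrix.of fun b a : J → Fin (D + 1) => ∏ j, (p n j + w b j) ^ (a j : ℕ)).det‖ ≤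
        C * r n ^ (m * ((D + 1) ^ Fintype.card J - ν * m ^ (Fintype.card J - 1))) := by
  classical
  obtain ⟨μ, hμ, hmin⟩ := exists_lex_min (fun η => tcM ψ γ p0 η ≠ 0) hne
  refine ⟨∑ j, μ j, fun m D hDm C0 => ?_⟩
  set g : ℕ → (J → ℕ) → 𝕜 := fun n η => tcM ψ (lam n) (p n) η with hg
  set g0 : (J → ℕ) → 𝕜 := fun η => tcM ψ γ p0 η with hg0
  have hgt : ∀ η, Tendsto (fun n => g n η) l (𝓝 (g0 η)) := fun η => tcM_tendsto l ψ p0 hψ lam γ hlam p hp η
  -- index types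
  let N := {α : J → Fin m // ∀ j, μ j ≤ (α j : ℕ)}
  let Bt := {α : J → Fin m // ¬ ∀ j, μ j ≤ (α j : ℕ)}
  let I := J → Fin (D + 1)
  let ex : (J → Fin m) → J → ℕ := fun α j => (α j : ℕ)
  let MN : ℕ → Matrix N N 𝕜 := fun n => Matrix.of fun α α' => mEnt (g n) μ (ex α.1) (ex α'.1)
  let MN0 : Matrix N N 𝕜 := Matrix.of fun α α' => mEnt g0 μ (ex α.1) (ex α'.1)
  have hdet0 : MN0.det ≠ 0 :=
    det_mEnt_ne_zero g0 μ hμ hmin m (fun α : N => α.1) Subtype.val_injective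
  obtain ⟨hdetn, hinv⟩ := inv_tendsto l MN MN0 (fun i j => mEnt_tendsto l g g0 hgt μ _ _) hdet0
  -- bounds
  obtain ⟨M1, hM1, hb1⟩ := exists_bdd_finset (l := l) (univ : Finset (N × N))
    (fun x n => (MN n)⁻¹ x.1 x.2) (fun x => MN0⁻¹ x.1 x.2) (fun x _ => hinv x.1 x.2)
  obtain ⟨M2, hM2, hb2⟩ := exists_bdd_finset (l := l) (univ : Finset (N × Bt))
    (fun x n => mEnt (g n) μ (ex x.1.1) (ex x.2.1)) (fun x => mEnt g0 μ (ex x.1.1) (ex x.2.1))
    (fun x _ => mEnt_tendsto l g g0 hgt μ _ _)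
  let cc : (J → 𝕜) → I → (J → Fin m) → 𝕜 := fun q a α =>
    ∏ j, (((a j : ℕ).choose (α j) : ℕ) : 𝕜) * q j ^ ((a j : ℕ) - (α j : ℕ))
  obtain ⟨M3, hM3, hb3⟩ := exists_bdd_finset (l := l) (univ : Finset (I × (J → Fin m)))
    (fun x n => cc (p n) x.1 x.2) (fun x => cc p0 x.1 x.2)
    (fun x _ => tendsto_finsetProd _ fun j _ => (tendsto_const_nhds).mul ((hp j).pow _))
  obtain ⟨M4, hM4, hb4⟩ := exists_bdd_finset (l := l) (univ : Finset (J → Fin m))
    (fun x n => g n (ex x)) (fun x => g0 (ex x)) (fun x _ => hgt _)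
  obtain ⟨C1, hexp⟩ := expand l ψ p0 hψ lam γ hlam p hp r hr0 hr m
  have hr1 : ∀ᶠ n in l, r n ≤ 1 :=
    (hr.eventually_lt (tendsto_const_nhds (x := (1 : ℝ))) one_pos).mono fun n hn => hn.le
  set K : ℝ := (Fintype.card N : ℝ) with hK
  set C2 : ℝ := |C0 + C1| + Fintype.card (J → Fin m) * M4 with hC2
  have hC2nn : 0 ≤ C2 := by positivity
  set CB : ℝ := M3 + K * (K * (M3 * M1 * M2)) + K * (K * (M3 * M1 * C2)) with hCB
  have hKnn : 0 ≤ K := by positivity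
  have hCBnn : 0 ≤ CB := by positivity
  refine ⟨(((Fintype.card Bt + 1) ^ Fintype.card I : ℕ) : ℝ) *
      (((Fintype.card I).factorial : ℝ) * CB ^ Fintype.card I), ?_⟩
  filter_upwards [hdetn, hb1, hb2, hb3, hb4, hexp, hr1, hr0] with n hn1 hn2 hn3 hn4 hn5 hn6 hn7 hn8 w hw hrel
  have hrm0 : 0 < r n ^ m := pow_pos hn8 m
  have hrm1 : r n ^ m ≤ 1 := pow_le_one₀ hn8.le hn7
  -- the relation for one point
  let mo : (J → 𝕜) → (J → Fin m) → 𝕜 := fun v α => ∏ j, v j ^ (α j : ℕ)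
  let err : I → N → 𝕜 := fun b α => ∑ α' : J → Fin m, mEnt (g n) μ (ex α.1) (ex α') * mo (w b) α'
  have herr : ∀ b α, ‖err b α‖ ≤ C2 * r n ^ m := by
    intro b α
    have h1 : ‖∑ η : J → Fin m, g n (ex η) * mo (w b) η‖ ≤ |C0 + C1| * r n ^ m := by
      have h2 := hn6 (w b) (hw b)
      have h3 := hrel b
      have h4 : ∑ η : J → Fin m, g n (ex η) * mo (w b) η =
          (∑ e, lam n e * ∏ j, ψ e j (p n j + w b j)) -
          ((∑ e, lam n e * ∏ j, ψ e j (p n j + w b j)) -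
            ∑ α : J → Fin m, tcM ψ (lam n) (p n) (fun j => (α j : ℕ)) * ∏ j, w b j ^ (α j : ℕ)) := by
        rw [sub_sub_cancel]
      rw [h4]
      refine (norm_sub_le _ _).trans ?_
      calc _ ≤ C0 * r n ^ m + C1 * r n ^ m := add_le_add h3 h2
        _ = (C0 + C1) * r n ^ m := by ring
        _ ≤ |C0 + C1| * r n ^ m := by gcongr; exact le_abs_self _
    exact mul_rel m (g n) μ (w b) (r n) |C0 + C1| M4 hn8.le hn7 (hw b) (fun η => hn5 η (mem_univ _))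
      (by linarith) h1 α.1 α.2
  -- solve for the monomials in `N`
  have hsolve : ∀ b (α' : N), mo (w b) α'.1 =
      ∑ α : N, (MN n)⁻¹ α' α * (err b α - ∑ β : Bt, mEnt (g n) μ (ex α.1) (ex β.1) * mo (w b) β.1) := by
    intro b α'
    have h1 : ∀ α : N, err b α - ∑ β : Bt, mEnt (g n) μ (ex α.1) (ex β.1) * mo (w b) β.1 =
        ((MN n).mulVec (fun α' : N => mo (w b) α'.1)) α := by
      intro α
      have h2 := Fintype.sum_subtype_add_sum_subtype (fun α' : J → Fin m => ∀ j, μ j ≤ (α' j : ℕ))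
        (fun α' => mEnt (g n) μ (ex α.1) (ex α') * mo (w b) α')
      simp only [err]
      rw [← h2]
      simp only [MN, Matrix.mulVec, dotProduct, Matrix.of_apply]
      ring
    have h3 : ((MN n)⁻¹.mulVec ((MN n).mulVec (fun α' : N => mo (w b) α'.1))) α' = mo (w b) α'.1 := by
      rw [Matrix.mulVec_mulVec, Matrix.nonsing_inv_mul _ (isUnit_iff_ne_zero.2 hn1), Matrix.one_mulVec]
    rw [← h3]
    simp only [Matrix.mulVec, dotProduct]
    refine sum_congr rfl fun α _ => ?_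
    rw [h1 α]
    rfl
  -- vectors
  let Cv : Bt → I → 𝕜 := fun β a => cc (p n) a β.1 -
    ∑ α' : N, ∑ α : N, cc (p n) a α'.1 * (MN n)⁻¹ α' α * mEnt (g n) μ (ex α.1) (ex β.1)
  let Er : I → I → 𝕜 := fun b a =>
    (∑ α' : N, ∑ α : N, cc (p n) a α'.1 * (MN n)⁻¹ α' α * err b α) / ((r n ^ m : ℝ) : 𝕜)
  have hrmne : (((r n ^ m : ℝ)) : 𝕜) ≠ 0 := by
    rw [RCLike.ofReal_ne_zero]
    exact hrm0.ne'
  have hV : ∀ b a : I, ∏ j, (p n j + w b j) ^ (a j : ℕ) =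
      (∑ β : Bt, mo (w b) β.1 * Cv β a) + ((r n ^ m : ℝ) : 𝕜) * Er b a := by
    intro b a
    have h1 := prod_expand (m := m) hDm (p n) (w b) a
    have h2 := Fintype.sum_subtype_add_sum_subtype (fun α' : J → Fin m => ∀ j, μ j ≤ (α' j : ℕ))
      (fun α' => cc (p n) a α' * mo (w b) α')
    have h3 : ∑ α' : N, cc (p n) a α'.1 * mo (w b) α'.1 =
        (∑ α' : N, ∑ α : N, cc (p n) a α'.1 * (MN n)⁻¹ α' α * err b α) -
        ∑ β : Bt, mo (w b) β.1 *
          ∑ α' : N, ∑ α : N, cc (p n) a α'.1 * (MN n)⁻¹ α' α * mEnt (g n) μ (ex α.1) (ex β.1) := by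
      have h4 : ∀ α' : N, cc (p n) a α'.1 * mo (w b) α'.1 =
          (∑ α : N, cc (p n) a α'.1 * (MN n)⁻¹ α' α * err b α) -
          ∑ α : N, ∑ β : Bt, mo (w b) β.1 *
            (cc (p n) a α'.1 * (MN n)⁻¹ α' α * mEnt (g n) μ (ex α.1) (ex β.1)) := by
        intro α'
        rw [hsolve b α', mul_sum, ← sum_sub_distrib]
        refine sum_congr rfl fun α _ => ?_
        have h8 : ∑ β : Bt, mo (w b) β.1 *
            (cc (p n) a α'.1 * (MN n)⁻¹ α' α * mEnt (g n) μ (ex α.1) (ex β.1)) =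
            cc (p n) a α'.1 * (MN n)⁻¹ α' α * ∑ β : Bt, mEnt (g n) μ (ex α.1) (ex β.1) * mo (w b) β.1 := by
          rw [mul_sum]
          refine sum_congr rfl fun β _ => ?_
          ring
        rw [h8]
        ring
      rw [sum_congr rfl fun α' _ => h4 α', sum_sub_distrib]
      congr 1
      simp_rw [mul_sum]
      rw [sum_comm' (t' := univ) (s' := fun _ => univ) (by simp)]
      rw [sum_comm' (s := (univ : Finset Bt)) (t := fun _ => (univ : Finset N)) (t' := univ)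
        (s' := fun _ => univ) (by simp)]
      rw [sum_comm' (s := (univ : Finset N)) (t := fun _ => (univ : Finset N)) (t' := univ)
        (s' := fun _ => univ) (by simp)]
      refine sum_congr rfl fun α _ => ?_
      rw [sum_comm]
    have h5 : ((r n ^ m : ℝ) : 𝕜) * Er b a =
        ∑ α' : N, ∑ α : N, cc (p n) a α'.1 * (MN n)⁻¹ α' α * err b α := by
      simp only [Er]
      rw [mul_div_cancel₀ _ hrmne]
    rw [h1, h5]
    change ∑ α : J → Fin m, cc (p n) a α * mo (w b) α = _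
    rw [← h2]
    have h6 : ∑ β : Bt, mo (w b) β.1 * Cv β a = (∑ β : Bt, cc (p n) a β.1 * mo (w b) β.1) -
        ∑ β : Bt, mo (w b) β.1 *
          ∑ α' : N, ∑ α : N, cc (p n) a α'.1 * (MN n)⁻¹ α' α * mEnt (g n) μ (ex α.1) (ex β.1) := by
      rw [← sum_sub_distrib]
      refine sum_congr rfl fun β _ => ?_
      simp only [Cv]
      ring
    rw [h6]
    have h7 := h3
    rw [h7]
    ring
  have hsumb : ∀ (a : I) (f : N → 𝕜) (F : ℝ), 0 ≤ F → (∀ α, ‖f α‖ ≤ F) →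
      ‖∑ α' : N, ∑ α : N, cc (p n) a α'.1 * (MN n)⁻¹ α' α * f α‖ ≤ K * (K * (M3 * M1 * F)) := by
    intro a f F hF hf
    refine (norm_sum_le _ _).trans ?_
    have h1 : ∀ α' ∈ (univ : Finset N), ‖∑ α : N, cc (p n) a α'.1 * (MN n)⁻¹ α' α * f α‖ ≤
        K * (M3 * M1 * F) := by
      intro α' _
      refine (norm_sum_le _ _).trans ?_
      have h2 : ∀ α ∈ (univ : Finset N), ‖cc (p n) a α'.1 * (MN n)⁻¹ α' α * f α‖ ≤ M3 * M1 * F := by
        intro α _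
        rw [norm_mul, norm_mul]
        have h3 := hn4 (a, α'.1) (mem_univ _)
        have h4 := hn2 (α', α) (mem_univ _)
        exact mul_le_mul (mul_le_mul h3 h4 (norm_nonneg _) (by linarith)) (hf α) (norm_nonneg _) (by positivity)
      refine (sum_le_sum h2).trans (le_of_eq ?_)
      rw [sum_const, card_univ, nsmul_eq_mul]
    refine (sum_le_sum h1).trans (le_of_eq ?_)
    rw [sum_const, card_univ, nsmul_eq_mul]
  have hfinal := norm_det_le_close (I := I) (B := Bt) (fun b a => ∏ j, (p n j + w b j) ^ (a j : ℕ)) Er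
    (fun b β => mo (w b) β.1) Cv (r n ^ m) CB hrm0.le hrm1 hCBnn hV
    (by
      intro b β
      simp only [mo]
      rw [norm_prod]
      refine prod_le_one (fun _ _ => norm_nonneg _) fun j _ => ?_
      rw [norm_pow]
      exact pow_le_one₀ (norm_nonneg _) ((hw b j).trans hn7))
    (by
      intro β a
      simp only [Cv]
      refine (norm_sub_le _ _).trans ?_
      have h1 := hn4 (a, β.1) (mem_univ _)
      have h2 := hsumb a (fun α => mEnt (g n) μ (ex α.1) (ex β.1)) M2 (by linarith)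
        (fun α => hn3 (α, β) (mem_univ _))
      have h3 : 0 ≤ K * (K * (M3 * M1 * C2)) := by positivity
      rw [hCB]
      calc _ ≤ M3 + K * (K * (M3 * M1 * M2)) := add_le_add h1 h2
        _ ≤ _ := by linarith)
    (by
      intro b a
      simp only [Er]
      rw [norm_div, RCLike.norm_ofReal, abs_of_pos hrm0, div_le_iff₀ hrm0]
      refine (hsumb a (err b) (C2 * r n ^ m) (by positivity) (herr b)).trans ?_
      have h3 : 0 ≤ M3 + K * (K * (M3 * M1 * M2)) := by positivity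
      rw [hCB]
      nlinarith)
  refine hfinal.trans ?_
  refine mul_le_mul_of_nonneg_left ?_ (by positivity)
  rw [← pow_mul]
  refine pow_le_pow_of_le_one hn8.le hn7 (Nat.mul_le_mul_left _ ?_)
  have h1 := card_not_ge μ m
  have h2 : Fintype.card I = (D + 1) ^ Fintype.card J := by
    simp only [I]
    rw [Fintype.card_fun, Fintype.card_fin]
  rw [h2]
  exact Nat.sub_le_sub_left h1 _

theorem det_small' {J E : Type*} [Fintype J] [i : DecidableEq J] [Fintype E] (l : Filter ℕ) (ψ : E → J → 𝕜 → 𝕜)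
    (p0 : J → 𝕜)
    (hψ : ∀ e j, AnalyticAt 𝕜 (ψ e j) (p0 j)) (lam : ℕ → E → 𝕜) (γ : E → 𝕜)
    (hlam : ∀ e, Tendsto (fun n => lam n e) l (𝓝 (γ e))) (p : ℕ → J → 𝕜)
    (hp : ∀ j, Tendsto (fun n => p n j) l (𝓝 (p0 j))) (r : ℕ → ℝ) (hr0 : ∀ᶠ n in l, 0 < r n)
    (hr : Tendsto r l (𝓝 0)) (hne : ∃ η, tcM ψ γ p0 η ≠ 0) :
    ∃ ν : ℕ, ∀ m D : ℕ, D < m → ∀ C0 : ℝ, ∃ C : ℝ, ∀ᶠ n in l, ∀ w : (J → Fin (D + 1)) → J → 𝕜,
      (∀ b j, ‖w b j‖ ≤ r n) →
      (∀ b, ‖∑ e, lam n e * ∏ j, ψ e j (p n j + w b j)‖ ≤ C0 * r n ^ m) →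
      ‖(Matrix.of fun b a : J → Fin (D + 1) => ∏ j, (p n j + w b j) ^ (a j : ℕ)).det‖ ≤
        C * r n ^ (m * ((D + 1) ^ Fintype.card J - ν * m ^ (Fintype.card J - 1))) := by
  let o : LinearOrder J := LinearOrder.lift' (Fintype.equivFin J) (Fintype.equivFin J).injective
  have h := det_small (J := J) l ψ p0 hψ lam γ hlam p hp r hr0 hr hne
  have hi : o.toDecidableEq = i := Subsingleton.elim _ _
  rw [hi] at h
  exact h

end Pool.Agent.Y124
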