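import Pool.Agent.Y124.Cells
import Pool.Agent.Y124.Rel
import Pool.Agent.Y124.Indep
import Pool.Agent.Y124.Small

/-!
# Large internal sets of points of polynomially bounded height satisfy no relation
-/

set_option autoImplicit false

open Filter MvPolynomial Topology

namespace Pool.Agent.Y124

variable {k : Type*} [Field k] {𝕜 : Type} [RCLike 𝕜] {𝒰 : Ultrafilter ℕ} {H : ℕ → ℝ}

/-- the Liouville property for determinants of monomials -/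
def LP (σ : k →+* 𝕜) (H : ℕ → ℝ) (l : Filter ℕ) (Ht : ℕ → Set k) : Prop :=
  ∀ (J : Type) [Fintype J] [DecidableEq J], ∃ κ : ℕ, ∀ D : ℕ, ∀ᶠ n in l,
    ∀ x : (J → Fin (D + 1)) → J → k, (∀ b j, x b j ∈ Ht n) →
      (Matrix.of fun b a : J → Fin (D + 1) => ∏ j, x b j ^ (a j : ℕ)).det ≠ 0 →
      1 ≤ H n ^ (κ * ((D + 1) * (D + 1) ^ Fintype.card J)) *
        ‖σ (Matrix.of fun b a : J → Fin (D + 1) => ∏ j, x b j ^ (a j : ℕ)).det‖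

/-- not smaller than some power -/
def IsBig (𝒰 : Ultrafilter ℕ) (H : ℕ → ℝ) (g : UL 𝒰 𝕜) : Prop :=
  ∃ f : ℕ → 𝕜, (f : (𝒰 : Filter ℕ).Germ 𝕜) = g ∧ ∃ C : ℕ, ∀ᶠ n in (𝒰 : Filter ℕ), 1 ≤ ‖f n‖ * H n ^ C

theorem exists_exponent (hH : Tendsto H (𝒰 : Filter ℕ) atTop) {ε : ℝ} (hε : 0 < ε) (κ : ℕ) :
    ∃ M' : ℕ, 0 < M' ∧ ∀ᶠ n in (𝒰 : Filter ℕ), (2 * H n ^ (-ε)) ^ M' * H n ^ (κ + 1) ≤ 1 := by
  obtain ⟨M', hM'⟩ := exists_nat_gt (((κ : ℝ) + 2) / ε)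
  have h0 : 0 < M' := by
    rw [Nat.pos_iff_ne_zero]
    rintro rfl
    have : 0 < ((κ : ℝ) + 2) / ε := by positivity
    rw [Nat.cast_zero] at hM'
    linarith
  refine ⟨M', h0, ?_⟩
  filter_upwards [hH.eventually_ge_atTop (2 ^ M'), hH.eventually_ge_atTop 1] with n h1 h2
  have h3 : 0 < H n := by linarith
  rw [div_lt_iff₀ hε] at hM'
  have h4 : (H n ^ (-ε)) ^ M' ≤ H n ^ (-((κ : ℝ) + 2)) := by
    rw [← Real.rpow_natCast, ← Real.rpow_mul h3.le]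
    apply Real.rpow_le_rpow_of_exponent_le h2
    nlinarith
  have h5 : H n ^ (-((κ : ℝ) + 2)) * H n ^ (κ + 1) * H n = 1 := by
    rw [← Real.rpow_natCast (H n) (κ + 1), ← Real.rpow_add h3, ← Real.rpow_add_one h3.ne']
    push_cast
    ring_nf
    exact Real.rpow_zero _
  rw [mul_pow]
  have h6 : 0 < H n ^ (-((κ : ℝ) + 2)) * H n ^ (κ + 1) := by positivity
  calc (2 : ℝ) ^ M' * (H n ^ (-ε)) ^ M' * H n ^ (κ + 1) ≤ H n * H n ^ (-((κ : ℝ) + 2)) * H n ^ (κ + 1) := by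
        gcongr
    _ = 1 := by rw [← h5]; ring

theorem numerics {H0 x C : ℝ} (h1 : 1 ≤ H0) (hC : C < H0) (hC0 : 0 ≤ C) {ρ : ℝ} (hρ0 : 0 ≤ ρ) {M' κ s N : ℕ}
    (hρ1 : ρ ≤ 1)
    (hρ : ρ ^ M' * H0 ^ (κ + 1) ≤ 1) (hs : 0 < s) (hN : M' * s ≤ N) (hx : x ≤ C * ρ ^ N) :
    H0 ^ (κ * s) * x < 1 := by
  have h0 : 0 < H0 := by linarith
  have h2 : ρ ^ N ≤ ρ ^ (M' * s) := pow_le_pow_of_le_one hρ0 hρ1 hN
  have h3 : H0 ^ (κ * s) * H0 ^ s * ρ ^ (M' * s) ≤ 1 := by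
    have h4 : H0 ^ (κ * s) * H0 ^ s * ρ ^ (M' * s) = (ρ ^ M' * H0 ^ (κ + 1)) ^ s := by
      rw [mul_pow, ← pow_mul, ← pow_mul, ← pow_add]
      ring_nf
    rw [h4]
    exact pow_le_one₀ (by positivity) hρ
  have h5 : H0 ≤ H0 ^ s := by
    calc H0 = H0 ^ 1 := (pow_one _).symm
      _ ≤ H0 ^ s := pow_le_pow_right₀ h1 hs
  have h6 : H0 ^ (κ * s) * ρ ^ (M' * s) * H0 ≤ 1 := by
    calc H0 ^ (κ * s) * ρ ^ (M' * s) * H0 ≤ H0 ^ (κ * s) * ρ ^ (M' * s) * H0 ^ s := by gcongr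
      _ = H0 ^ (κ * s) * H0 ^ s * ρ ^ (M' * s) := by ring
      _ ≤ 1 := h3
  have h7 : 0 ≤ H0 ^ (κ * s) * ρ ^ (M' * s) := by positivity
  calc H0 ^ (κ * s) * x ≤ H0 ^ (κ * s) * (C * ρ ^ N) := by gcongr
    _ ≤ H0 ^ (κ * s) * (C * ρ ^ (M' * s)) := by gcongr
    _ = (H0 ^ (κ * s) * ρ ^ (M' * s)) * C := by ring
    _ < 1 := by
      rcases h7.eq_or_lt with h8 | h8
      · rw [← h8]; norm_num
      · nlinarith

theorem exponent_ineq {r ν M' : ℕ} (hr : 0 < r) :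
    M' * ((2 * ν * (2 * M') ^ (r - 1) + 1) * (2 * ν * (2 * M') ^ (r - 1) + 1) ^ r) ≤
      (2 * M' * (2 * ν * (2 * M') ^ (r - 1) + 1)) * ((2 * ν * (2 * M') ^ (r - 1) + 1) ^ r -
        ν * (2 * M' * (2 * ν * (2 * M') ^ (r - 1) + 1)) ^ (r - 1)) := by
  set a := (2 * M') ^ (r - 1) with ha
  set q := 2 * ν * a + 1 with hq
  have h1 : q ^ r = q ^ (r - 1) * q := by
    rw [← pow_succ, Nat.sub_add_cancel hr]
  have h2 : (2 * M' * q) ^ (r - 1) = a * q ^ (r - 1) := by rw [mul_pow]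
  rw [h1, h2]
  have h3 : q ^ (r - 1) * q - ν * (a * q ^ (r - 1)) = q ^ (r - 1) * (q - ν * a) := by
    rw [Nat.mul_sub]
    congr 1
    ring
  rw [h3]
  have h4 : q ≤ 2 * (q - ν * a) := by
    have : 2 * ν * a = ν * a + ν * a := by ring
    omega
  calc M' * (q * (q ^ (r - 1) * q)) = M' * q * q ^ (r - 1) * q := by ring
    _ ≤ M' * q * q ^ (r - 1) * (2 * (q - ν * a)) := by gcongr
    _ = _ := by ring

/-- the functions of the coordinates attached to an exponent -/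
noncomputable def psi {X Z Y₀ : Type} [Fintype Y₀] {T : Finset Z} (f : X → Y₀ → 𝕜 → 𝕜)
    (e : (X ⊕ T) ⊕ (X × Y₀) →₀ ℕ) : X ⊕ T → 𝕜 → 𝕜
  | Sum.inl x => fun u => u ^ e (Sum.inl (Sum.inl x)) * ∏ y, f x y u ^ e (Sum.inr (x, y))
  | Sum.inr t => fun u => u ^ e (Sum.inl (Sum.inr t))

end Pool.Agent.Y124
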