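import Pool.Agent.Y124.Alg

/-!
# Internal sets of points in an ultrapower: the ideal of a large set of points, and a generic point
-/

set_option autoImplicit false

open MvPolynomial Filter

namespace Pool.Agent.Y124

/-- the ultrapower -/
abbrev UL (𝒰 : Ultrafilter ℕ) (k : Type*) := (𝒰 : Filter ℕ).Germ k

variable {k : Type*} [Field k] (𝒰 : Ultrafilter ℕ)

/-- the point of the ultrapower given by a sequence of points -/
def pt {τ : Type*} (q : ℕ → τ → k) : τ → UL 𝒰 k := fun i => ((fun n => q n i : ℕ → k) : (𝒰 : Filter ℕ).Germ k)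

/-- `q` is an internal point of `A` -/
def IsPt {τ : Type*} (A : ℕ → Finset (τ → k)) (q : ℕ → τ → k) : Prop := ∀ᶠ n in (𝒰 : Filter ℕ), q n ∈ A n

variable {𝒰}

theorem forall_of_pt {τ : Type*} {A : ℕ → Finset (τ → k)} {p : ℕ → (τ → k) → Prop}
    (h : ∀ q, IsPt 𝒰 A q → ∀ᶠ n in (𝒰 : Filter ℕ), p n (q n)) :
    ∀ᶠ n in (𝒰 : Filter ℕ), ∀ x ∈ A n, p n x := by
  classical
  by_contra hcon
  rw [← Ultrafilter.eventually_not] at hcon
  let q : ℕ → τ → k := fun n => if hn : ∃ x ∈ A n, ¬ p n x then hn.choose else 0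
  have hq : ∀ᶠ n in (𝒰 : Filter ℕ), q n ∈ A n ∧ ¬ p n (q n) := by
    filter_upwards [hcon] with n hn
    push Not at hn
    simp only [q, dif_pos hn]
    exact hn.choose_spec
  have h1 := h q (hq.mono fun n hn => hn.1)
  obtain ⟨n, hn1, hn2⟩ := (h1.and hq).exists
  exact hn2.2 hn1

/-- representatives of a polynomial over the ultrapower -/
theorem exists_rep {τ : Type*} (P : MvPolynomial τ (UL 𝒰 k)) : ∃ (D : ℕ) (Pn : ℕ → MvPolynomial τ k),
    (∀ n, (Pn n).totalDegree ≤ D) ∧ (P ≠ 0 → ∀ᶠ n in (𝒰 : Filter ℕ), Pn n ≠ 0) ∧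
    ∀ q : ℕ → τ → k, eval (pt 𝒰 q) P = ((fun n => eval (q n) (Pn n) : ℕ → k) : (𝒰 : Filter ℕ).Germ k) := by
  have hsurj : Function.Surjective (Germ.coeRingHom (R := k) (𝒰 : Filter ℕ)) := by
    intro x
    induction x using Germ.inductionOn with
    | _ f => exact ⟨f, rfl⟩
  obtain ⟨Q, hQ⟩ := MvPolynomial.map_surjective (σ := τ) (Germ.coeRingHom (R := k) (𝒰 : Filter ℕ)) hsurj P
  refine ⟨Q.totalDegree, fun n => MvPolynomial.map (Pi.evalRingHom (fun _ : ℕ => k) n) Q, ?_, ?_, ?_⟩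
  · intro n
    exact Finset.sup_mono (support_map_subset _ _)
  · intro hP
    obtain ⟨m, hm⟩ := MvPolynomial.ne_zero_iff.1 hP
    rw [← hQ, coeff_map] at hm
    have h1 : ¬ (∀ᶠ n in (𝒰 : Filter ℕ), (coeff m Q : ℕ → k) n = 0) := by
      intro h2
      apply hm
      change ((coeff m Q : ℕ → k) : (𝒰 : Filter ℕ).Germ k) = ((0 : ℕ → k) : (𝒰 : Filter ℕ).Germ k)
      exact Germ.coe_eq.2 h2
    rw [← Ultrafilter.eventually_not] at h1
    filter_upwards [h1] with n hn h3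
    apply hn
    have h4 := congrArg (coeff m) h3
    rw [coeff_map, coeff_zero] at h4
    exact h4
  · intro q
    have hcomp : (eval₂Hom (RingHom.id (UL 𝒰 k)) (pt 𝒰 q)).comp
        (MvPolynomial.map (Germ.coeRingHom (R := k) (𝒰 : Filter ℕ))) =
        (Germ.coeRingHom (R := k) (𝒰 : Filter ℕ)).comp
          (RingHom.pi fun n => (eval (q n)).comp (MvPolynomial.map (Pi.evalRingHom (fun _ : ℕ => k) n))) := by
      apply MvPolynomial.ringHom_ext
      · intro r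
        simp only [RingHom.comp_apply, map_C, eval₂Hom_C, RingHom.id_apply]
        congr 1
        funext n
        change r n = eval (q n) (MvPolynomial.map (Pi.evalRingHom (fun _ : ℕ => k) n) (C r))
        rw [map_C, eval_C, Pi.evalRingHom_apply]
      · intro i
        simp only [RingHom.comp_apply, map_X, eval₂Hom_X', pt]
        change _ = ((_ : ℕ → k) : (𝒰 : Filter ℕ).Germ k)
        congr 1
        funext n
        change q n i = eval (q n) (MvPolynomial.map (Pi.evalRingHom (fun _ : ℕ => k) n) (X i))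
        rw [map_X, eval_X]
    have := RingHom.congr_fun hcomp Q
    simp only [RingHom.comp_apply] at this
    rw [← hQ]
    exact this

variable (K₀ : Subfield (UL 𝒰 k))

theorem aeval_eq_eval {τ : Type*} (q : ℕ → τ → k) (P : MvPolynomial τ K₀) :
    aeval (pt 𝒰 q) P = eval (pt 𝒰 q) (MvPolynomial.map K₀.subtype P) := by
  rw [aeval_def, eval₂_eq_eval_map]
  rfl

/-- the ideal of all polynomials vanishing at the internal points of `A` -/
noncomputable def idl {τ : Type*} (A : ℕ → Finset (τ → k)) : Ideal (MvPolynomial τ K₀) :=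
  ⨅ q : {q : ℕ → τ → k // IsPt 𝒰 A q}, RingHom.ker (aeval (pt 𝒰 q.1) : MvPolynomial τ K₀ →ₐ[K₀] UL 𝒰 k)

theorem mem_idl {τ : Type*} {A : ℕ → Finset (τ → k)} {P : MvPolynomial τ K₀} :
    P ∈ idl K₀ A ↔ ∀ q, IsPt 𝒰 A q → aeval (pt 𝒰 q) P = 0 := by
  unfold idl
  rw [Ideal.mem_iInf]
  constructor
  · intro h q hq
    exact h ⟨q, hq⟩
  · intro h q
    exact h q.1 q.2

theorem idl_mono {τ : Type*} {A B : ℕ → Finset (τ → k)} (h : ∀ n, B n ⊆ A n) : idl K₀ A ≤ idl K₀ B := by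
  intro P hP
  rw [mem_idl] at hP ⊢
  exact fun q hq => hP q (hq.mono fun n hn => h n hn)

/-! ## Coverings by hypersurfaces -/

/-- `S` is covered by `m` hypersurfaces of degree at most `D` -/
def Cov {X : Type*} {k : Type*} [Field k] (D m : ℕ) (S : Set (X → k)) : Prop :=
  ∃ Φ : Finset (MvPolynomial X k), Φ.card ≤ m ∧ (∀ P ∈ Φ, P ≠ 0 ∧ P.totalDegree ≤ D) ∧
    ∀ x ∈ S, ∃ P ∈ Φ, eval x P = 0

theorem Cov.mono {X : Type*} {D D' m m' : ℕ} {S S' : Set (X → k)} (h : Cov D m S) (hD : D ≤ D') (hm : m ≤ m')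
    (hS : S' ⊆ S) : Cov D' m' S' := by
  obtain ⟨Φ, h1, h2, h3⟩ := h
  exact ⟨Φ, h1.trans hm, fun P hP => ⟨(h2 P hP).1, (h2 P hP).2.trans hD⟩, fun x hx => h3 x (hS hx)⟩

theorem Cov.union {X : Type*} {D m m' : ℕ} {S S' : Set (X → k)} (h : Cov D m S) (h' : Cov D m' S') :
    Cov D (m + m') (S ∪ S') := by
  classical
  obtain ⟨Φ, h1, h2, h3⟩ := h
  obtain ⟨Φ', h1', h2', h3'⟩ := h'
  refine ⟨Φ ∪ Φ', (Finset.card_union_le _ _).trans (add_le_add h1 h1'), ?_, ?_⟩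
  · intro P hP
    rcases Finset.mem_union.1 hP with hP | hP
    · exact h2 P hP
    · exact h2' P hP
  · rintro x (hx | hx)
    · obtain ⟨P, hP, h⟩ := h3 x hx
      exact ⟨P, Finset.mem_union_left _ hP, h⟩
    · obtain ⟨P, hP, h⟩ := h3' x hx
      exact ⟨P, Finset.mem_union_right _ hP, h⟩

theorem Cov.biUnion {X ι : Type*} {D m : ℕ} (J : Finset ι) (S : ι → Set (X → k)) (h : ∀ j ∈ J, Cov D m (S j)) :
    Cov D (J.card * m) (⋃ j ∈ J, S j) := by
  classical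
  induction J using Finset.induction_on with
  | empty => exact ⟨∅, by simp, by simp, by simp⟩
  | insert a J ha ih =>
    rw [Finset.card_insert_of_notMem ha, add_mul, one_mul, add_comm]
    rw [Finset.set_biUnion_insert]
    exact (h a (Finset.mem_insert_self _ _)).union (ih fun j hj => h j (Finset.mem_insert_of_mem hj))

/-- the `X`-parts of the points -/
def prX {X Z : Type*} (A : Finset (X ⊕ Z → k)) : Set (X → k) := (fun q i => q (Sum.inl i)) '' (A : Set (X ⊕ Z → k))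

/-- the `X`-parts of the points of `A n` are not covered by `H n ^ δ` hypersurfaces of degree at most `n` -/
def LargeD {X Z : Type*} (𝒰 : Ultrafilter ℕ) (H : ℕ → ℝ) (δ : ℝ) (A : ℕ → Finset (X ⊕ Z → k)) : Prop :=
  ∀ᶠ n in (𝒰 : Filter ℕ), ¬ Cov n ⌊H n ^ δ⌋₊ (prX (A n))

/-- large internal sets -/
def Large {X Z : Type*} (𝒰 : Ultrafilter ℕ) (H : ℕ → ℝ) (A : ℕ → Finset (X ⊕ Z → k)) : Prop :=
  ∃ δ : ℝ, 0 < δ ∧ LargeD 𝒰 H δ A

variable {X Z : Type*} {H : ℕ → ℝ}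

theorem two_floor_le {x : ℝ} (hx : 2 ≤ x) : ⌊x⌋₊ + ⌊x⌋₊ ≤ ⌊x ^ 2⌋₊ := by
  apply Nat.le_floor
  push_cast
  have := Nat.floor_le (by linarith : 0 ≤ x)
  nlinarith

theorem large_union (hH : Tendsto H (𝒰 : Filter ℕ) atTop) {A B C : ℕ → Finset (X ⊕ Z → k)} (hA : Large 𝒰 H A)
    (h : ∀ᶠ n in (𝒰 : Filter ℕ), ∀ q ∈ A n, q ∈ B n ∨ q ∈ C n) : Large 𝒰 H B ∨ Large 𝒰 H C := by
  obtain ⟨δ, hδ, hL⟩ := hA
  by_contra hcon
  rw [not_or] at hcon
  have hB : ¬ LargeD 𝒰 H (δ / 2) B := fun h1 => hcon.1 ⟨δ / 2, by positivity, h1⟩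
  have hC : ¬ LargeD 𝒰 H (δ / 2) C := fun h1 => hcon.2 ⟨δ / 2, by positivity, h1⟩
  unfold LargeD at hB hC
  rw [← Ultrafilter.eventually_not] at hB hC
  have hbig : ∀ᶠ n in (𝒰 : Filter ℕ), (2 : ℝ) ≤ H n ^ (δ / 2) :=
    ((tendsto_rpow_atTop (by positivity : 0 < δ / 2)).comp hH).eventually_ge_atTop 2
  have hpos : ∀ᶠ n in (𝒰 : Filter ℕ), 0 < H n := hH.eventually_gt_atTop 0
  obtain ⟨n, h1, h2, h3, h4, h5, h6⟩ := (hL.and (hB.and (hC.and (hbig.and (hpos.and h))))).exists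
  rw [not_not] at h2 h3
  apply h1
  refine (h2.union h3).mono le_rfl ?_ ?_
  · refine (two_floor_le h4).trans (le_of_eq ?_)
    rw [← Real.rpow_natCast (H n ^ (δ / 2)) 2, ← Real.rpow_mul h5.le]
    congr 2
    push_cast
    ring
  · rintro x ⟨q, hq, rfl⟩
    rcases h6 q hq with h7 | h7
    · exact Or.inl ⟨q, h7, rfl⟩
    · exact Or.inr ⟨q, h7, rfl⟩

/-- selecting one of few pieces -/
theorem large_pieces (hH : Tendsto H (𝒰 : Filter ℕ) atTop) {δ : ℝ} (hδ : 0 < δ) {A : ℕ → Finset (X ⊕ Z → k)}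
    (hA : LargeD 𝒰 H δ A) {ι : Type*} (J : ℕ → Finset ι) (P : ℕ → ι → Finset (X ⊕ Z → k)) (C : ℝ)
    (hJ : ∀ᶠ n in (𝒰 : Filter ℕ), ((J n).card : ℝ) ≤ C * H n ^ (δ / 4))
    (hcov : ∀ᶠ n in (𝒰 : Filter ℕ), ∀ q ∈ A n, ∃ j ∈ J n, q ∈ P n j) :
    ∃ j : ℕ → ι, (∀ᶠ n in (𝒰 : Filter ℕ), j n ∈ J n) ∧ LargeD 𝒰 H (δ / 4) fun n => P n (j n) := by
  classical
  have hbig : ∀ᶠ n in (𝒰 : Filter ℕ), C ≤ H n ^ (δ / 4) :=
    ((tendsto_rpow_atTop (by positivity : 0 < δ / 4)).comp hH).eventually_ge_atTop C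
  have hbig1 : ∀ᶠ n in (𝒰 : Filter ℕ), (1 : ℝ) ≤ H n := hH.eventually_ge_atTop 1
  have hkey : ∀ᶠ n in (𝒰 : Filter ℕ), ∃ j ∈ J n, ¬ Cov n ⌊H n ^ (δ / 4)⌋₊ (prX (P n j)) := by
    filter_upwards [hA, hJ, hcov, hbig, hbig1] with n h1 h2 h3 h4 h5
    by_contra hcon
    push Not at hcon
    apply h1
    refine (Cov.biUnion (J n) (fun j => prX (P n j)) hcon).mono le_rfl ?_ ?_
    · apply Nat.le_floor
      push_cast
      have h6 : (⌊H n ^ (δ / 4)⌋₊ : ℝ) ≤ H n ^ (δ / 4) := Nat.floor_le (by positivity)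
      have h7 : 0 < H n := by linarith
      calc ((J n).card : ℝ) * (⌊H n ^ (δ / 4)⌋₊ : ℝ) ≤ (C * H n ^ (δ / 4)) * H n ^ (δ / 4) := by
            gcongr
            exact le_trans (Nat.cast_nonneg _) h2
        _ ≤ (H n ^ (δ / 4) * H n ^ (δ / 4)) * H n ^ (δ / 4) := by gcongr
        _ = H n ^ (δ / 4 + δ / 4 + δ / 4) := by
            rw [Real.rpow_add h7, Real.rpow_add h7]
        _ ≤ H n ^ δ := Real.rpow_le_rpow_of_exponent_le h5 (by linarith)
    · rintro x ⟨q, hq, rfl⟩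
      obtain ⟨j, hj, hqj⟩ := h3 q hq
      simp only [Set.mem_iUnion]
      exact ⟨j, hj, ⟨q, hqj, rfl⟩⟩
  obtain ⟨n0, j0, -, -⟩ := hkey.exists
  refine ⟨fun n => if hn : ∃ j ∈ J n, ¬ Cov n ⌊H n ^ (δ / 4)⌋₊ (prX (P n j)) then hn.choose else j0, ?_, ?_⟩
  · filter_upwards [hkey] with n hn
    simp only [dif_pos hn]
    exact hn.choose_spec.1
  · unfold LargeD
    filter_upwards [hkey] with n hn
    simp only [dif_pos hn]
    exact hn.choose_spec.2

/-! ## The generic point -/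

theorem idl_prime (hH : Tendsto H (𝒰 : Filter ℕ) atTop) {A : ℕ → Finset (X ⊕ Z → k)} (hA : Large 𝒰 H A)
    (hmax : ∀ B : ℕ → Finset (X ⊕ Z → k), (∀ n, B n ⊆ A n) → Large 𝒰 H B → idl K₀ B = idl K₀ A) :
    (idl K₀ A).IsPrime := by
  classical
  have hne : ∀ᶠ n in (𝒰 : Filter ℕ), (A n).Nonempty := by
    obtain ⟨δ, hδ, hL⟩ := hA
    filter_upwards [hL] with n hn
    by_contra hcon
    rw [Finset.not_nonempty_iff_eq_empty] at hcon
    apply hn
    rw [hcon]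
    exact ⟨∅, by simp, by simp, by simp [prX]⟩
  obtain ⟨q0, hq0⟩ : ∃ q0, IsPt 𝒰 A q0 := by
    refine ⟨fun n => if hn : (A n).Nonempty then hn.choose else 0, ?_⟩
    unfold IsPt
    filter_upwards [hne] with n hn
    simp only [dif_pos hn]
    exact hn.choose_spec
  refine ⟨?_, ?_⟩
  · intro h
    have h1 : (1 : MvPolynomial (X ⊕ Z) K₀) ∈ idl K₀ A := by rw [h]; trivial
    rw [mem_idl] at h1
    have h2 := h1 q0 hq0
    rw [map_one] at h2
    exact one_ne_zero h2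
  · intro P Q hPQ
    rw [mem_idl] at hPQ
    obtain ⟨_, Pn, -, -, hPn⟩ := exists_rep (MvPolynomial.map K₀.subtype P)
    obtain ⟨_, Qn, -, -, hQn⟩ := exists_rep (MvPolynomial.map K₀.subtype Q)
    have hcov : ∀ᶠ n in (𝒰 : Filter ℕ), ∀ q ∈ A n, eval q (Pn n) = 0 ∨ eval q (Qn n) = 0 := by
      apply forall_of_pt (p := fun n q => eval q (Pn n) = 0 ∨ eval q (Qn n) = 0)
      intro q hq
      have h1 := hPQ q hq
      rw [map_mul, aeval_eq_eval, aeval_eq_eval, hPn, hQn] at h1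
      have h2 : (((fun n => eval (q n) (Pn n)) * (fun n => eval (q n) (Qn n)) : ℕ → k) :
          (𝒰 : Filter ℕ).Germ k) = ((0 : ℕ → k) : (𝒰 : Filter ℕ).Germ k) := h1
      have h3 := Germ.coe_eq.1 h2
      filter_upwards [h3] with n hn
      exact mul_eq_zero.1 hn
    have h1 := large_union (B := fun n => (A n).filter fun q => eval q (Pn n) = 0)
      (C := fun n => (A n).filter fun q => eval q (Qn n) = 0) hH hA (by
        filter_upwards [hcov] with n hn q hq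
        rcases hn q hq with h | h
        · exact Or.inl (Finset.mem_filter.2 ⟨hq, h⟩)
        · exact Or.inr (Finset.mem_filter.2 ⟨hq, h⟩))
    have key : ∀ (R : MvPolynomial (X ⊕ Z) K₀) (Rn : ℕ → MvPolynomial (X ⊕ Z) k),
        (∀ q : ℕ → X ⊕ Z → k, eval (pt 𝒰 q) (MvPolynomial.map K₀.subtype R) =
          ((fun n => eval (q n) (Rn n) : ℕ → k) : (𝒰 : Filter ℕ).Germ k)) →
        Large 𝒰 H (fun n => (A n).filter fun q => eval q (Rn n) = 0) → R ∈ idl K₀ A := by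
      intro R Rn hRn hL
      rw [← hmax _ (fun n => Finset.filter_subset _ _) hL, mem_idl]
      intro q hq
      rw [aeval_eq_eval, hRn]
      change _ = ((0 : ℕ → k) : (𝒰 : Filter ℕ).Germ k)
      rw [Germ.coe_eq]
      filter_upwards [hq] with n hn
      exact (Finset.mem_filter.1 hn).2
    rcases h1 with h1 | h1
    · exact Or.inl (key P Pn hPn h1)
    · exact Or.inr (key Q Qn hQn h1)

theorem idl_X_indep (hH : Tendsto H (𝒰 : Filter ℕ) atTop) (h𝒰 : (𝒰 : Filter ℕ) ≤ atTop)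
    {A : ℕ → Finset (X ⊕ Z → k)} (hA : Large 𝒰 H A)
    (P : MvPolynomial X K₀) (hP : rename Sum.inl P ∈ idl K₀ A) : P = 0 := by
  classical
  by_contra hne
  have hne' : MvPolynomial.map K₀.subtype P ≠ 0 := by
    intro h
    exact hne (MvPolynomial.map_injective _ K₀.subtype.injective (by rw [h, map_zero]))
  obtain ⟨D, Pn, hdeg, hn0, hPn⟩ := exists_rep (MvPolynomial.map K₀.subtype P)
  have hvan : ∀ᶠ n in (𝒰 : Filter ℕ), ∀ q ∈ A n, eval (fun i => q (Sum.inl i)) (Pn n) = 0 := by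
    apply forall_of_pt (p := fun n q => eval (fun i => q (Sum.inl i)) (Pn n) = 0)
    intro q hq
    rw [mem_idl] at hP
    have h1 := hP q hq
    rw [aeval_rename] at h1
    have h2 : aeval (pt 𝒰 (fun n i => q n (Sum.inl i))) P = 0 := h1
    rw [aeval_eq_eval, hPn] at h2
    exact Germ.coe_eq.1 (h2 : _ = ((0 : ℕ → k) : (𝒰 : Filter ℕ).Germ k))
  obtain ⟨δ, hδ, hL⟩ := hA
  have hD : ∀ᶠ n in (𝒰 : Filter ℕ), D ≤ n := h𝒰 (eventually_ge_atTop D)
  have hbig : ∀ᶠ n in (𝒰 : Filter ℕ), (1 : ℝ) ≤ H n ^ δ :=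
    ((tendsto_rpow_atTop hδ).comp hH).eventually_ge_atTop 1
  obtain ⟨n, h1, h2, h3, h4, h5⟩ := (hL.and (hvan.and (hD.and (hbig.and (hn0 hne'))))).exists
  apply h1
  refine ⟨{Pn n}, ?_, ?_, ?_⟩
  · rw [Finset.card_singleton]
    exact Nat.le_floor (by simpa using h4)
  · intro Q hQ
    rw [Finset.mem_singleton] at hQ
    rw [hQ]
    exact ⟨h5, (hdeg n).trans h3⟩
  · rintro x ⟨q, hq, rfl⟩
    exact ⟨Pn n, Finset.mem_singleton_self _, h2 q hq⟩

end Pool.Agent.Y124
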