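import Pool.Agent.Y124.Tuples

/-!
# Elliptic curves `y² = x³ + a x + b` over `ℚ`
-/

set_option autoImplicit false

open Filter Topology MvPolynomial

namespace Pool.Agent.Y124

/-- `a³ / b²` -/
def cab (p : ℤ × ℤ) : ℚ := (p.1 : ℚ) ^ 3 / (p.2 : ℚ) ^ 2

theorem cab_eq {p : ℤ × ℤ} (h : p.2 ≠ 0) : (p.1 : ℚ) ^ 3 = cab p * (p.2 : ℚ) ^ 2 := by
  have : (p.2 : ℚ) ≠ 0 := by exact_mod_cast h
  unfold cab
  field_simp

theorem fiber_card (S : Finset (ℤ × ℤ)) (K c2 : ℝ) (hK : 0 ≤ K) (hc2 : 0 ≤ c2)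
    (hS : ∀ p ∈ S, p.1 ≠ 0 ∧ p.2 ≠ 0 ∧ |(p.2 : ℝ) / p.1| ≤ K ∧ |((cab p : ℚ) : ℝ)| ≤ c2) (q : ℚ) :
    (S.filter fun p => cab p = q).card ≤ ⌊2 * (K * √c2) + 2⌋₊ := by
  classical
  set L := K * √c2 with hL
  have hL0 : 0 ≤ L := by positivity
  have h1 : (S.filter fun p => cab p = q).card ≤ (Finset.Icc ⌊-L⌋ ⌊L⌋).card := by
    refine Finset.card_le_card_of_injOn (fun p => ⌊(p.2 : ℝ) / p.1 * √c2⌋) ?_ ?_
    · intro p hp
      rw [Finset.mem_coe, Finset.mem_filter] at hp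
      obtain ⟨-, -, h2, -⟩ := hS p hp.1
      rw [abs_le] at h2
      rw [Finset.mem_coe, Finset.mem_Icc]
      have h3 : 0 ≤ √c2 := Real.sqrt_nonneg _
      constructor
      · apply Int.floor_le_floor
        rw [hL]
        nlinarith
      · apply Int.floor_le_floor
        rw [hL]
        nlinarith
    · intro p hp p' hp' hpp
      rw [Finset.mem_coe, Finset.mem_filter] at hp hp'
      obtain ⟨ha, hb, -, hc⟩ := hS p hp.1
      obtain ⟨ha', hb', -, -⟩ := hS p' hp'.1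
      have hc0 : q ≠ 0 := by
        intro h0
        have h2 := cab_eq hb
        rw [hp.2, h0, zero_mul] at h2
        have h3 : (p.1 : ℚ) ≠ 0 := by exact_mod_cast ha
        exact h3 (pow_eq_zero_iff (by norm_num) |>.1 h2)
      by_contra hne
      have hk : (p.2 : ℚ) / p.1 ≠ p'.2 / p'.1 := by
        intro h2
        have haq : (p.1 : ℚ) ≠ 0 := by exact_mod_cast ha
        have hbq : (p.2 : ℚ) ≠ 0 := by exact_mod_cast hb
        have haq' : (p'.1 : ℚ) ≠ 0 := by exact_mod_cast ha'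
        have hbq' : (p'.2 : ℚ) ≠ 0 := by exact_mod_cast hb'
        have h3 := cab_eq hb
        have h3' := cab_eq hb'
        rw [hp.2] at h3
        rw [hp'.2] at h3'
        have h4 : (p.1 : ℚ) = q * ((p.2 : ℚ) / p.1) ^ 2 := by
          rw [div_pow, ← mul_div_assoc, ← h3]
          field_simp
        have h4' : (p'.1 : ℚ) = q * ((p'.2 : ℚ) / p'.1) ^ 2 := by
          rw [div_pow, ← mul_div_assoc, ← h3']
          field_simp
        have h5 : (p.1 : ℚ) = p'.1 := by rw [h4, h4', h2]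
        have h6 : (p.2 : ℚ) = p'.2 := by
          rw [h5] at h2
          field_simp at h2
          exact h2
        apply hne
        exact Prod.ext (by exact_mod_cast h5) (by exact_mod_cast h6)
      have h2 := pair_sep q p.1 p.2 p'.1 p'.2 ha hb ha' hb' (by rw [← hp.2]; exact cab_eq hb)
        (by rw [← hp'.2]; exact cab_eq hb') hk
      have h3 : |(q : ℝ)| ≤ c2 := by
        rw [hp.2] at hc
        exact hc
      have h4 : 1 ≤ ((p.2 : ℝ) / p.1 * √c2 - (p'.2 : ℝ) / p'.1 * √c2) ^ 2 := by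
        have h5 : ((p.2 : ℝ) / p.1 * √c2 - (p'.2 : ℝ) / p'.1 * √c2) ^ 2 =
            c2 * ((p.2 : ℝ) / p.1 - (p'.2 : ℝ) / p'.1) ^ 2 := by
          rw [← sub_mul, mul_pow, Real.sq_sqrt hc2]
          ring
        rw [h5]
        refine h2.trans ?_
        gcongr
      have h5 := Int.abs_sub_lt_one_of_floor_eq_floor hpp
      rw [← sq_abs] at h4
      have h6 := abs_nonneg ((p.2 : ℝ) / p.1 * √c2 - (p'.2 : ℝ) / p'.1 * √c2)
      nlinarith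
  refine h1.trans ?_
  apply Nat.le_floor
  rw [Int.card_Icc]
  have h2 : (⌊L⌋ : ℝ) ≤ L := Int.floor_le L
  have h3 : -L - 1 ≤ (⌊-L⌋ : ℝ) := (Int.sub_one_lt_floor (-L)).le
  have h4 : ⌊-L⌋ ≤ ⌊L⌋ := Int.floor_le_floor (by linarith)
  have h5 : (((⌊L⌋ + 1 - ⌊-L⌋).toNat : ℕ) : ℝ) = (⌊L⌋ : ℝ) + 1 - ⌊-L⌋ := by
    have h6 : (((⌊L⌋ + 1 - ⌊-L⌋).toNat : ℕ) : ℤ) = ⌊L⌋ + 1 - ⌊-L⌋ := Int.toNat_of_nonneg (by omega)
    exact_mod_cast h6
  rw [h5]
  linarith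

/-- `l` is a Legendre parameter of `y² = x³ + a x + b` -/
def IsLegendre (a b : ℤ) (l : ℂ) : Prop :=
  ∃ e₁ e₂ e₃ : ℂ, e₁ ≠ e₂ ∧ (∀ x : ℂ, x ^ 3 + a * x + b = (x - e₁) * (x - e₂) * (x - e₃)) ∧
    l = (e₃ - e₁) / (e₂ - e₁)

noncomputable def nuP : Polynomial ℂ := Polynomial.C (-27) * (Polynomial.X ^ 2 - Polynomial.X + 1) ^ 3

noncomputable def deP : Polynomial ℂ :=
  ((1 + Polynomial.X) * (2 - Polynomial.X) * (2 * Polynomial.X - 1)) ^ 2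

theorem nuP_eval (l : ℂ) : nuP.eval l = -27 * (l ^ 2 - l + 1) ^ 3 := by simp [nuP]

theorem deP_eval (l : ℂ) : deP.eval l = ((1 + l) * (2 - l) * (2 * l - 1)) ^ 2 := by simp [deP]

theorem isLegendre_eq {a b : ℤ} {l : ℂ} (h : IsLegendre a b l) :
    ∃ v : ℂ, v ≠ 0 ∧ (a : ℂ) = -(v ^ 2 * (l ^ 2 - l + 1)) / 3 ∧ (b : ℂ) = v ^ 3 * ((1 + l) * (2 - l) * (2 * l - 1)) / 27 := by
  obtain ⟨e₁, e₂, e₃, hne, hx, hl⟩ := h
  have hv : e₂ - e₁ ≠ 0 := sub_ne_zero.2 (Ne.symm hne)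
  have h0 := hx 0
  have h1 := hx 1
  have h2 := hx (-1)
  have hs : e₁ + e₂ + e₃ = 0 := by linear_combination (1 / 2 : ℂ) * h1 + (1 / 2 : ℂ) * h2 - h0
  have hb : (b : ℂ) = -(e₁ * e₂ * e₃) := by linear_combination h0
  have ha : (a : ℂ) = e₁ * e₂ + e₁ * e₃ + e₂ * e₃ := by
    linear_combination (1 / 2 : ℂ) * h1 - (1 / 2 : ℂ) * h2
  have h3 : e₃ = e₁ + l * (e₂ - e₁) := by
    rw [hl]
    field_simp
    ring
  have h4 : e₁ = -((e₂ - e₁) * (1 + l)) / 3 := by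
    rw [h3] at hs
    linear_combination (1 / 3 : ℂ) * hs
  refine ⟨e₂ - e₁, hv, ?_, ?_⟩
  · have h5 : e₂ = -((e₂ - e₁) * (1 + l)) / 3 + (e₂ - e₁) := by linear_combination h4
    set v := e₂ - e₁ with hvv
    rw [ha, h3]
    have h6 : e₂ = e₁ + v := by rw [hvv]; ring
    rw [h6, h4]
    ring
  · set v := e₂ - e₁ with hvv
    rw [hb, h3]
    have h6 : e₂ = e₁ + v := by rw [hvv]; ring
    rw [h6, h4]
    ring

theorem isLegendre_cab {a b : ℤ} {l : ℂ} (h : IsLegendre a b l) (hde : deP.eval l ≠ 0) :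
    b ≠ 0 ∧ ((cab (a, b) : ℚ) : ℂ) = nuP.eval l / deP.eval l := by
  obtain ⟨v, hv, ha, hb⟩ := isLegendre_eq h
  rw [deP_eval] at hde
  have hB : (1 + l) * (2 - l) * (2 * l - 1) ≠ 0 := fun h0 => hde (by rw [h0]; ring)
  have hb0 : (b : ℂ) ≠ 0 := by
    rw [hb]
    exact div_ne_zero (mul_ne_zero (pow_ne_zero _ hv) hB) (by norm_num)
  refine ⟨by exact_mod_cast hb0, ?_⟩
  rw [nuP_eval, deP_eval]
  unfold cab
  push_cast
  rw [div_eq_div_iff (pow_ne_zero _ hb0) (pow_ne_zero _ hB), ha, hb]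
  ring

theorem deriv_G {l : ℂ} (h0 : l ≠ 0) (h1 : l ≠ 1) (hA : l ^ 2 - l + 1 ≠ 0) (hde : deP.eval l ≠ 0) :
    deriv (fun l => nuP.eval l / deP.eval l) l ≠ 0 := by
  rw [deP_eval] at hde
  have hB : (1 + l) * (2 - l) * (2 * l - 1) ≠ 0 := fun h0 => hde (by rw [h0]; ring)
  have hfun : (fun l : ℂ => nuP.eval l / deP.eval l) =
      fun l => (-27 * (l ^ 2 - l + 1) ^ 3) / ((1 + l) * (2 - l) * (2 * l - 1)) ^ 2 := by
    funext l
    rw [nuP_eval, deP_eval]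
  have hdA : HasDerivAt (fun l : ℂ => l ^ 2 - l + 1) (2 * l - 1) l := by
    have := (((hasDerivAt_id l).pow 2).sub (hasDerivAt_id l)).add_const 1
    simpa using this
  have hdB : HasDerivAt (fun l : ℂ => (1 + l) * (2 - l) * (2 * l - 1))
      ((1 * (2 - l) + (1 + l) * (-1)) * (2 * l - 1) + (1 + l) * (2 - l) * 2) l := by
    have e1 : HasDerivAt (fun l : ℂ => 1 + l) 1 l := by simpa using (hasDerivAt_id l).const_add 1
    have e2 : HasDerivAt (fun l : ℂ => 2 - l) (-1) l := by simpa using (hasDerivAt_id l).const_sub 2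
    have e3 : HasDerivAt (fun l : ℂ => 2 * l - 1) 2 l := by
      simpa using ((hasDerivAt_id l).const_mul 2).sub_const 1
    exact (e1.mul e2).mul e3
  have hd : HasDerivAt (fun l : ℂ => (-27 * (l ^ 2 - l + 1) ^ 3) / ((1 + l) * (2 - l) * (2 * l - 1)) ^ 2)
      (((-27 : ℂ) * (((3 : ℕ) : ℂ) * (l ^ 2 - l + 1) ^ (3 - 1) * (2 * l - 1)) *
          ((1 + l) * (2 - l) * (2 * l - 1)) ^ 2 - (-27) * (l ^ 2 - l + 1) ^ 3 *
          (((2 : ℕ) : ℂ) * ((1 + l) * (2 - l) * (2 * l - 1)) ^ (2 - 1) *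
            ((1 * (2 - l) + (1 + l) * (-1)) * (2 * l - 1) + (1 + l) * (2 - l) * 2))) /
        (((1 + l) * (2 - l) * (2 * l - 1)) ^ 2) ^ 2) l :=
    ((hdA.pow 3).const_mul (-27)).div (hdB.pow 2) (pow_ne_zero 2 hB)
  rw [hfun, hd.deriv]
  apply div_ne_zero
  · have h2 : (-27 : ℂ) * (((3 : ℕ) : ℂ) * (l ^ 2 - l + 1) ^ (3 - 1) * (2 * l - 1)) *
          ((1 + l) * (2 - l) * (2 * l - 1)) ^ 2 - (-27) * (l ^ 2 - l + 1) ^ 3 *
          (((2 : ℕ) : ℂ) * ((1 + l) * (2 - l) * (2 * l - 1)) ^ (2 - 1) *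
            ((1 * (2 - l) + (1 + l) * (-1)) * (2 * l - 1) + (1 + l) * (2 - l) * 2)) =
        729 * (l ^ 2 - l + 1) ^ 2 * (l * (1 - l)) * ((1 + l) * (2 - l) * (2 * l - 1)) := by
      push_cast
      ring
    have h3 : (729 : ℂ) * (l ^ 2 - l + 1) ^ 2 * (l * (1 - l)) * ((1 + l) * (2 - l) * (2 * l - 1)) ≠ 0 :=
      mul_ne_zero (mul_ne_zero (mul_ne_zero (by norm_num) (pow_ne_zero _ hA))
        (mul_ne_zero h0 (sub_ne_zero.2 (Ne.symm h1)))) hB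
    rw [← h2] at h3
    exact h3
  · exact pow_ne_zero _ (pow_ne_zero _ hB)

end Pool.Agent.Y124
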