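import Pool.Agent.Y124.Ab

/-!
# Elliptic curves `y² = x³ + a x + b` over `ℚ`: the count
-/

set_option autoImplicit false

open Filter Topology MvPolynomial

namespace Pool.Agent.Y124

/-- the exceptional tuples of integer pairs -/
def ExcAB (n d : ℕ) (L : Set ℂ) (A B X : ℝ) : Set (Fin n → ℤ × ℤ) :=
  {p | (∀ j, |((p j).1 : ℝ)| ≤ X ^ 2 ∧ |((p j).2 : ℝ)| ≤ X ^ 3) ∧ ∃ l : Fin n → ℂ,
    (∀ j, l j ∈ L ∧ IsLegendre (p j).1 (p j).2 (l j)) ∧ ∃ P : MvPolynomial ((Fin n × Fin 3) ⊕ Unit) ℤ, P ≠ 0 ∧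
      (∀ x, P.degreeOf x ≤ d) ∧ (∀ s, |((P.coeff s : ℤ) : ℝ)| ≤ X ^ A) ∧
      ‖aeval (Sum.elim (fun c : Fin n × Fin 3 => fC c.2 (l c.1)) fun _ => (Real.pi : ℂ)) P‖ ≤ X ^ (-B)}

theorem ab_final (n d : ℕ) (hn : 1 ≤ n) (L : Set ℂ) (hL : IsCompact L)
    (hL' : ∀ l ∈ L, l ∈ Complex.slitPlane ∧ 1 - l ∈ Complex.slitPlane ∧ l ≠ 1 / 2 ∧ l ^ 2 - l + 1 ≠ 0)
    (A ε : ℝ) (hε : 0 < ε) :
    ∃ B C : ℝ, ∀ X : ℝ, 1 ≤ X → (ExcAB n d L A B X).Finite ∧
      ((ExcAB n d L A B X).ncard : ℝ) ≤ C * X ^ (5 * ((n : ℝ) - 1) + 1 + ε) := by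
  classical
  have hLU : L ⊆ Dom := fun l hl => ⟨(hL' l hl).1, (hL' l hl).2.1⟩
  have hne0 : ∀ l ∈ L, l ≠ 0 := fun l hl h0 => by
    have := (hL' l hl).1
    rw [h0] at this
    exact Complex.slitPlane_ne_zero this rfl
  have hne1 : ∀ l ∈ L, l ≠ 1 := fun l hl h0 => by
    have := (hL' l hl).2.1
    rw [h0, sub_self] at this
    exact Complex.slitPlane_ne_zero this rfl
  have hde : ∀ l ∈ L, deP.eval l ≠ 0 := by
    intro l hl
    obtain ⟨h1, h2, h3, h4⟩ := hL' l hl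
    rw [deP_eval]
    refine pow_ne_zero _ (mul_ne_zero (mul_ne_zero ?_ ?_) ?_)
    · intro h0
      have h5 : l = ((-1 : ℝ) : ℂ) := by push_cast; linear_combination h0
      rw [h5, Complex.ofReal_mem_slitPlane] at h1
      linarith
    · intro h0
      have h5 : 1 - l = ((-1 : ℝ) : ℂ) := by push_cast; linear_combination h0
      rw [h5, Complex.ofReal_mem_slitPlane] at h2
      linarith
    · intro h0
      exact h3 (by linear_combination (1 / 2 : ℂ) * h0)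
  have hnu : ∀ l ∈ L, nuP.eval l ≠ 0 := by
    intro l hl
    rw [nuP_eval]
    exact mul_ne_zero (by norm_num) (pow_ne_zero _ (hL' l hl).2.2.2)
  obtain ⟨D, B, C, hC, h⟩ := tuples n hn fC (fun _ : Unit => (Real.pi : ℂ)) goodC_pi Dom isOpen_Dom
    (fun y l hl => fC_analytic y l hl) (fun l hl => fC_locInd l hl) nuP deP L hL hLU hde
    (fun l hl => deriv_G (hne0 l hl) (hne1 l hl) (hL' l hl).2.2.2 (hde l hl)) d (A / 6) (ε / 6) (by positivity)
  -- bounds for the parameter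
  obtain ⟨C2, hC2⟩ := hL.exists_bound_of_continuousOn (f := fun l => nuP.eval l / deP.eval l)
    (nuP.continuous.continuousOn.div deP.continuous.continuousOn hde)
  obtain ⟨C1, hC1⟩ := hL.exists_bound_of_continuousOn (f := fun l => deP.eval l / nuP.eval l)
    (deP.continuous.continuousOn.div nuP.continuous.continuousOn hnu)
  set c2 := max C2 0 with hc2
  set c1 := max C1 1 with hc1
  have hc20 : 0 ≤ c2 := le_max_right _ _
  have hc11 : 1 ≤ c1 := le_max_right _ _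
  refine ⟨6 * B, C * (D * (2 * (c1 * √c2) + 2) * 9 ^ (n - 1)), fun X hX => ?_⟩
  have hXp : 0 < X := by linarith
  have hT1 : (1 : ℝ) ≤ X ^ (6 : ℝ) := Real.one_le_rpow hX (by norm_num)
  have hX6 : X ^ (6 : ℝ) = X ^ 6 := by
    rw [← Real.rpow_natCast]; norm_num
  obtain ⟨Φ, hΦ1, hΦ2, hΦ3⟩ := h (X ^ (6 : ℝ)) hT1
  -- the finite set of pairs
  set S : Finset (ℤ × ℤ) := ((Finset.Icc (-⌊X ^ 2⌋) ⌊X ^ 2⌋) ×ˢ (Finset.Icc (-⌊X ^ 3⌋) ⌊X ^ 3⌋)).filter
    (fun p => p.1 ≠ 0 ∧ p.2 ≠ 0 ∧ |(p.2 : ℝ) / p.1| ≤ X * c1 ∧ |((cab p : ℚ) : ℝ)| ≤ c2) with hS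
  set m := ⌊2 * ((X * c1) * √c2) + 2⌋₊ with hm
  have hfib : ∀ q : ℚ, (S.filter fun p => cab p = q).card ≤ m := fun q =>
    fiber_card S (X * c1) c2 (by positivity) hc20 (fun p hp => (Finset.mem_filter.1 hp).2) q
  have hsub : ExcAB n d L A (6 * B) X ⊆ (Φ.biUnion fun Q => (Fintype.piFinset fun _ : Fin n => S).filter
      fun p => eval (fun i => cab (p i)) Q = 0 : Finset (Fin n → ℤ × ℤ)) := by
    rintro p ⟨hp, l, hl, P, hP0, hPd, hPc, hPs⟩
    have hpl : ∀ j, (p j).2 ≠ 0 ∧ ((cab (p j) : ℚ) : ℂ) = nuP.eval (l j) / deP.eval (l j) := fun j =>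
      isLegendre_cab (hl j).2 (hde _ (hl j).1)
    have hc : (fun i => cab (p i)) ∈ ExcL n fC (fun _ : Unit => (Real.pi : ℂ)) nuP deP L d (A / 6) B (X ^ (6 : ℝ)) := by
      refine ⟨fun j => ?_, l, fun j => ⟨(hl j).1, (hpl j).2⟩, P, hP0, hPd, fun s => ?_, ?_⟩
      · have h1 : ((cab (p j)).den : ℤ) ∣ (p j).2 ^ 2 := by
          have h0 := Rat.den_dvd ((p j).1 ^ 3) ((p j).2 ^ 2)
          rw [Rat.divInt_eq_div] at h0
          push_cast at h0
          exact h0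
        have h2 : ((cab (p j)).den : ℤ) ≤ (p j).2 ^ 2 :=
          Int.le_of_dvd (by have := (hpl j).1; positivity) h1
        have h3 : ((cab (p j)).den : ℝ) ≤ ((p j).2 : ℝ) ^ 2 := by exact_mod_cast h2
        refine h3.trans ?_
        rw [hX6, ← sq_abs]
        have h4 := (hp j).2
        calc |((p j).2 : ℝ)| ^ 2 ≤ (X ^ 3) ^ 2 := by gcongr
          _ = X ^ 6 := by ring
      · refine (hPc s).trans (le_of_eq ?_)
        rw [← Real.rpow_mul hXp.le]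
        congr 1
        ring
      · refine hPs.trans (le_of_eq ?_)
        rw [← Real.rpow_mul hXp.le]
        congr 1
        ring
    obtain ⟨Q, hQ, hQ0⟩ := hΦ3 _ hc
    rw [Finset.mem_coe, Finset.mem_biUnion]
    refine ⟨Q, hQ, Finset.mem_filter.2 ⟨Fintype.mem_piFinset.2 fun j => ?_, hQ0⟩⟩
    obtain ⟨hb0, hcj⟩ := hpl j
    have hnrm : |((cab (p j) : ℚ) : ℝ)| = ‖nuP.eval (l j) / deP.eval (l j)‖ := by
      rw [← hcj, norm_rat]
    have ha0 : (p j).1 ≠ 0 := by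
      intro h0
      have h1 : cab (p j) = 0 := by
        unfold cab
        rw [h0]
        simp
      rw [h1, Rat.cast_zero] at hcj
      exact div_ne_zero (hnu _ (hl j).1) (hde _ (hl j).1) hcj.symm
    rw [hS, Finset.mem_filter]
    refine ⟨?_, ha0, hb0, ?_, ?_⟩
    · rw [Finset.mem_product, Finset.mem_Icc, Finset.mem_Icc]
      have h1 := abs_le.1 (hp j).1
      have h2 := abs_le.1 (hp j).2
      refine ⟨⟨?_, Int.le_floor.2 h1.2⟩, ⟨?_, Int.le_floor.2 h2.2⟩⟩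
      · have : -(p j).1 ≤ ⌊X ^ 2⌋ := Int.le_floor.2 (by push_cast; linarith [h1.1])
        linarith
      · have : -(p j).2 ≤ ⌊X ^ 3⌋ := Int.le_floor.2 (by push_cast; linarith [h2.1])
        linarith
    · -- the quotient
      have har : ((p j).1 : ℝ) ≠ 0 := by exact_mod_cast ha0
      have hbr : ((p j).2 : ℝ) ≠ 0 := by exact_mod_cast hb0
      have h1 : ((cab (p j) : ℚ) : ℝ) * (((p j).2 : ℝ) / (p j).1) ^ 3 = (p j).2 := by
        unfold cab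
        push_cast
        field_simp
      have hcj0 : nuP.eval (l j) / deP.eval (l j) ≠ 0 := div_ne_zero (hnu _ (hl j).1) (hde _ (hl j).1)
      have h2 : 1 ≤ c1 * |((cab (p j) : ℚ) : ℝ)| := by
        rw [hnrm]
        have h3 := hC1 (l j) (hl j).1
        have h4 : ‖deP.eval (l j) / nuP.eval (l j)‖ * ‖nuP.eval (l j) / deP.eval (l j)‖ = 1 := by
          rw [← norm_mul]
          have h5 : deP.eval (l j) / nuP.eval (l j) * (nuP.eval (l j) / deP.eval (l j)) = 1 := by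
            have h6 := hnu _ (hl j).1
            have h7 := hde _ (hl j).1
            field_simp
          rw [h5, norm_one]
        rw [← h4]
        gcongr
        exact h3.trans (le_max_left _ _)
      have h3 : |((p j).2 : ℝ) / (p j).1| ^ 3 ≤ (X * c1) ^ 3 := by
        have h4 : |((cab (p j) : ℚ) : ℝ)| * |((p j).2 : ℝ) / (p j).1| ^ 3 ≤ X ^ 3 := by
          rw [← abs_pow, ← abs_mul, h1]
          exact (hp j).2
        have h5 : 0 ≤ |((p j).2 : ℝ) / (p j).1| ^ 3 := by positivity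
        calc |((p j).2 : ℝ) / (p j).1| ^ 3 ≤ (c1 * |((cab (p j) : ℚ) : ℝ)|) * |((p j).2 : ℝ) / (p j).1| ^ 3 := by
              nlinarith
          _ = c1 * (|((cab (p j) : ℚ) : ℝ)| * |((p j).2 : ℝ) / (p j).1| ^ 3) := by ring
          _ ≤ c1 * X ^ 3 := by gcongr
          _ ≤ c1 ^ 3 * X ^ 3 := by
              have : c1 ≤ c1 ^ 3 := le_self_pow₀ hc11 (by norm_num)
              gcongr
          _ = (X * c1) ^ 3 := by ring
      exact le_of_pow_le_pow_left₀ (by norm_num) (by positivity) h3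
    · rw [hnrm]
      exact (hC2 (l j) (hl j).1).trans (le_max_left _ _)
  refine ⟨(Finset.finite_toSet _).subset hsub, ?_⟩
  have h1 := Set.ncard_le_ncard hsub (Finset.finite_toSet _)
  rw [Set.ncard_coe_finset] at h1
  have h2 : (Φ.biUnion fun Q => (Fintype.piFinset fun _ : Fin n => S).filter
      fun p => eval (fun i => cab (p i)) Q = 0).card ≤ Φ.card * (D * m * S.card ^ (n - 1)) := by
    refine Finset.card_biUnion_le.trans ((Finset.sum_le_card_nsmul _ _ (D * m * S.card ^ (n - 1)) ?_).trans ?_)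
    · intro Q hQ
      refine (wsz cab S m hfib n Q (hΦ2 Q hQ).1).trans ?_
      gcongr
      exact (hΦ2 Q hQ).2
    · rw [smul_eq_mul]
  have hScard : (S.card : ℝ) ≤ 9 * X ^ 5 := by
    have h3 : S.card ≤ ((Finset.Icc (-⌊X ^ 2⌋) ⌊X ^ 2⌋) ×ˢ (Finset.Icc (-⌊X ^ 3⌋) ⌊X ^ 3⌋)).card :=
      Finset.card_filter_le _ _
    rw [Finset.card_product, Int.card_Icc, Int.card_Icc] at h3
    have hfl : ∀ k : ℕ, (((⌊X ^ k⌋ + 1 - -⌊X ^ k⌋).toNat : ℕ) : ℝ) ≤ 3 * X ^ k := by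
      intro k
      have h4 : (1 : ℝ) ≤ X ^ k := one_le_pow₀ hX
      have h5 : 0 ≤ ⌊X ^ k⌋ := Int.floor_nonneg.2 (by linarith)
      have h6 : (((⌊X ^ k⌋ + 1 - -⌊X ^ k⌋).toNat : ℕ) : ℤ) = 2 * ⌊X ^ k⌋ + 1 := by omega
      have h7 : (((⌊X ^ k⌋ + 1 - -⌊X ^ k⌋).toNat : ℕ) : ℝ) = 2 * (⌊X ^ k⌋ : ℝ) + 1 := by exact_mod_cast h6
      rw [h7]
      have h8 := Int.floor_le (X ^ k)
      linarith
    calc (S.card : ℝ) ≤ (((⌊X ^ 2⌋ + 1 - -⌊X ^ 2⌋).toNat : ℕ) : ℝ) * (((⌊X ^ 3⌋ + 1 - -⌊X ^ 3⌋).toNat : ℕ) : ℝ) := by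
          exact_mod_cast h3
      _ ≤ (3 * X ^ 2) * (3 * X ^ 3) := mul_le_mul (hfl 2) (hfl 3) (by positivity) (by positivity)
      _ = 9 * X ^ 5 := by ring
  have hmX : (m : ℝ) ≤ (2 * (c1 * √c2) + 2) * X := by
    have h3 : (m : ℝ) ≤ 2 * ((X * c1) * √c2) + 2 := Nat.floor_le (by positivity)
    nlinarith
  have hΦX : (Φ.card : ℝ) ≤ C * X ^ ε := by
    have h3 : (Φ.card : ℝ) ≤ (⌊C * (X ^ (6 : ℝ)) ^ (ε / 6)⌋₊ : ℝ) := by exact_mod_cast hΦ1
    refine (h3.trans (Nat.floor_le (by positivity))).trans (le_of_eq ?_)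
    rw [← Real.rpow_mul hXp.le]
    congr 2
    ring
  have h3 : ((ExcAB n d L A (6 * B) X).ncard : ℝ) ≤ (Φ.card : ℝ) * (D * m * (S.card : ℝ) ^ (n - 1)) := by
    exact_mod_cast h1.trans h2
  have h4 : X ^ (5 * ((n : ℝ) - 1) + 1 + ε) = (X ^ 5) ^ (n - 1) * X * X ^ ε := by
    rw [Real.rpow_add hXp, Real.rpow_add hXp, Real.rpow_one, ← Real.rpow_natCast (X ^ 5), ← Real.rpow_natCast X 5,
      ← Real.rpow_mul hXp.le]
    congr 3
    push_cast [hn]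
    ring
  rw [h4]
  calc ((ExcAB n d L A (6 * B) X).ncard : ℝ) ≤ (Φ.card : ℝ) * (D * m * (S.card : ℝ) ^ (n - 1)) := h3
    _ ≤ (C * X ^ ε) * (D * ((2 * (c1 * √c2) + 2) * X) * (9 * X ^ 5) ^ (n - 1)) := by gcongr
    _ = C * (D * (2 * (c1 * √c2) + 2) * 9 ^ (n - 1)) * ((X ^ 5) ^ (n - 1) * X * X ^ ε) := by
      rw [mul_pow]; ring

end Pool.Agent.Y124
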