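import Mathlib

/-!
# A multiple of a polynomial over an algebraic extension, with coefficients in the base
-/

set_option autoImplicit false

open MvPolynomial

namespace Pool.Agent.Y124

/-- the inclusion of `X ⊕ T` into `X ⊕ Z` -/
def emb {X Z : Type*} (T : Finset Z) : X ⊕ T → X ⊕ Z := Sum.map id Subtype.val

theorem emb_injective {X Z : Type*} (T : Finset Z) : Function.Injective (emb (X := X) T) :=
  Function.Injective.sumMap Function.injective_id Subtype.val_injective

variable {K : Type*} [Field K]

/-- regrouping the variables -/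
noncomputable def regroup (K J V₁ V₂ : Type*) [Field K] :
    MvPolynomial (V₁ ⊕ V₂) (MvPolynomial J K) →+* MvPolynomial (J ⊕ V₁) (MvPolynomial V₂ K) :=
  eval₂Hom (eval₂Hom (C.comp C) fun j => X (Sum.inl j))
    (Sum.elim (fun v => X (Sum.inr v)) fun v => C (X v))

/-- its inverse -/
noncomputable def regroup' (K J V₁ V₂ : Type*) [Field K] :
    MvPolynomial (J ⊕ V₁) (MvPolynomial V₂ K) →+* MvPolynomial (V₁ ⊕ V₂) (MvPolynomial J K) :=
  eval₂Hom (eval₂Hom (C.comp C) fun v => X (Sum.inr v))
    (Sum.elim (fun j => C (X j)) fun v => X (Sum.inl v))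

theorem regroup_left (J V₁ V₂ : Type*) :
    (regroup' K J V₁ V₂).comp (regroup K J V₁ V₂) = RingHom.id _ := by
  apply MvPolynomial.ringHom_ext
  · intro p
    simp only [RingHom.comp_apply, RingHom.id_apply, regroup, eval₂Hom_C]
    have : (regroup' K J V₁ V₂).comp (eval₂Hom (C.comp C) fun j => X (Sum.inl j)) = C := by
      apply MvPolynomial.ringHom_ext
      · intro r
        simp [regroup']
      · intro j
        simp [regroup']
    exact RingHom.congr_fun this p
  · intro v
    rcases v with v | v
    · simp [regroup, regroup']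
    · simp [regroup, regroup']

theorem regroup_injective (J V₁ V₂ : Type*) : Function.Injective (regroup K J V₁ V₂) := by
  intro a b h
  have h1 := congrArg (regroup' K J V₁ V₂) h
  have h2 := fun c => RingHom.congr_fun (regroup_left (K := K) J V₁ V₂) c
  simp only [RingHom.comp_apply, RingHom.id_apply] at h2
  rwa [h2, h2] at h1

/-- evaluation of the coefficients in a `K`-algebra -/
noncomputable def theta {J V₁ V₂ R : Type*} [CommRing R] [Algebra K R] (y : J → R) :
    MvPolynomial (J ⊕ V₁) (MvPolynomial V₂ K) →+* MvPolynomial (V₁ ⊕ V₂) R :=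
  eval₂Hom (eval₂Hom (C.comp (algebraMap K R)) fun v => X (Sum.inr v))
    (Sum.elim (fun j => C (y j)) fun v => X (Sum.inl v))

theorem theta_regroup {J V₁ V₂ R : Type*} [CommRing R] [Algebra K R] (y : J → R)
    (p : MvPolynomial (V₁ ⊕ V₂) (MvPolynomial J K)) :
    theta y (regroup K J V₁ V₂ p) = MvPolynomial.map (aeval y : MvPolynomial J K →ₐ[K] R).toRingHom p := by
  have : (theta y).comp (regroup K J V₁ V₂) =
      MvPolynomial.map (aeval y : MvPolynomial J K →ₐ[K] R).toRingHom := by
    apply MvPolynomial.ringHom_ext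
    · intro q
      simp only [RingHom.comp_apply, regroup, eval₂Hom_C, map_C]
      have h : (theta (V₁ := V₁) (V₂ := V₂) y).comp (eval₂Hom (C.comp C) fun j => X (Sum.inl j)) =
          C.comp (aeval y : MvPolynomial J K →ₐ[K] R).toRingHom := by
        apply MvPolynomial.ringHom_ext
        · intro r
          simp [theta, MvPolynomial.algebraMap_eq]
        · intro j
          simp [theta]
      exact RingHom.congr_fun h q
    · intro v
      rcases v with v | v
      · simp [regroup, theta]
      · simp [regroup, theta]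
  exact RingHom.congr_fun this p

/-- adjoining enough of the coordinates `Z` -/
theorem exists_basis_multiple {X Z R : Type*} [Finite Z] [CommRing R] [IsDomain R] [Algebra K R]
    (x : X ⊕ Z → R) (hgen : Algebra.adjoin K (Set.range x) = ⊤)
    (hX : AlgebraicIndependent K (fun i : X => x (Sum.inl i))) :
    ∃ T : Finset Z, AlgebraicIndependent K (fun j : X ⊕ T => x (emb T j)) ∧
      ∀ (V₁ V₂ : Type) (f : MvPolynomial (V₁ ⊕ V₂) R), f ≠ 0 →
        ∃ G : MvPolynomial ((X ⊕ T) ⊕ V₁) (MvPolynomial V₂ K), G ≠ 0 ∧ f ∣ theta (fun j => x (emb T j)) G := by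
  classical
  haveI : Fintype Z := Fintype.ofFinite Z
  let S : Finset Z → Set (X ⊕ Z) := fun T => Set.range Sum.inl ∪ Sum.inr '' (T : Set Z)
  have hrange : ∀ T : Finset Z, Set.range (emb (X := X) T) = S T := by
    intro T
    ext i
    constructor
    · rintro ⟨j | j, rfl⟩
      · exact Or.inl ⟨j, rfl⟩
      · exact Or.inr ⟨j.1, j.2, rfl⟩
    · rintro (⟨j, rfl⟩ | ⟨z, hz, rfl⟩)
      · exact ⟨Sum.inl j, rfl⟩
      · exact ⟨Sum.inr ⟨z, hz⟩, rfl⟩
  have h0 : AlgebraicIndepOn K x (S ∅) := by
    have h1 : S ∅ = Set.range Sum.inl := by simp [S]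
    rw [h1]
    have h2 : AlgebraicIndependent K ((fun i : Set.range (Sum.inl : X → X ⊕ Z) => x i)) := by
      let e := Equiv.ofInjective (Sum.inl : X → X ⊕ Z) Sum.inl_injective
      have h3 := (algebraicIndependent_equiv e (R := K)
        (f := fun i : Set.range (Sum.inl : X → X ⊕ Z) => x i)).1
      apply h3
      exact hX
    exact h2
  obtain ⟨T, hT, hmax⟩ := Finset.exists_max_image ((Finset.univ : Finset (Finset Z)).filter
    fun T => AlgebraicIndepOn K x (S T)) Finset.card ⟨∅, by simp [h0]⟩
  rw [Finset.mem_filter] at hT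
  have hind : AlgebraicIndependent K (fun j : X ⊕ T => x (emb T j)) := by
    have h1 : AlgebraicIndependent K (fun i : S T => x i) := hT.2
    have h2 : ∀ j : X ⊕ T, emb T j ∈ S T := fun j => by rw [← hrange]; exact ⟨j, rfl⟩
    have h3 := h1.comp (fun j : X ⊕ T => (⟨emb T j, h2 j⟩ : S T)) (by
      intro a b hab
      exact emb_injective T (congrArg Subtype.val hab))
    exact h3
  refine ⟨T, hind, ?_⟩
  -- algebraicity over the subalgebra generated by the coordinates in `T`
  have halgZ : ∀ z ∉ T, IsAlgebraic (Algebra.adjoin K (x '' S T)) (x (Sum.inr z)) := by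
    intro z hz
    have hnot : ¬ AlgebraicIndepOn K x (S (insert z T)) := by
      intro hcon
      have := hmax (insert z T) (by simp [hcon])
      rw [Finset.card_insert_of_notMem hz] at this
      omega
    have hins : S (insert z T) = insert (Sum.inr z) (S T) := by
      simp only [S, Finset.coe_insert, Set.image_insert_eq]
      ext i
      simp only [Set.mem_union, Set.mem_insert_iff]
      tauto
    rw [hins] at hnot
    have hzS : (Sum.inr z : X ⊕ Z) ∉ S T := by
      rintro (⟨j, hj⟩ | ⟨z', hz', hj⟩)
      · exact absurd hj (by simp)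
      · rw [Sum.inr.injEq] at hj
        rw [hj] at hz'
        exact hz hz'
    rw [AlgebraicIndepOn.insert_iff hzS] at hnot
    by_contra hcon
    exact hnot ⟨hT.2, hcon⟩
  have halg : ∀ i, IsAlgebraic (Algebra.adjoin K (x '' S T)) (x i) := by
    intro i
    by_cases hi : i ∈ S T
    · exact isAlgebraic_algebraMap (⟨x i, Algebra.subset_adjoin ⟨i, hi, rfl⟩⟩ : Algebra.adjoin K (x '' S T))
    · rcases i with i | z
      · exact absurd (Or.inl ⟨i, rfl⟩) hi
      · exact halgZ z fun hz => hi (Or.inr ⟨z, hz, rfl⟩)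
  have hAlg : Algebra.IsAlgebraic (Algebra.adjoin K (x '' S T)) R := by
    refine ⟨fun a => ?_⟩
    have ha : a ∈ Algebra.adjoin K (Set.range x) := by rw [hgen]; trivial
    refine Algebra.adjoin_induction (p := fun a _ => IsAlgebraic (Algebra.adjoin K (x '' S T)) a)
      ?_ ?_ ?_ ?_ ha
    · rintro _ ⟨i, rfl⟩
      exact halg i
    · intro r
      exact isAlgebraic_algebraMap (algebraMap K (Algebra.adjoin K (x '' S T)) r)
    · intro a b _ _ ha hb
      exact ha.add hb
    · intro a b _ _ ha hb
      exact ha.mul hb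
  -- transport to the polynomial ring
  letI alg : Algebra (MvPolynomial (X ⊕ T) K) R :=
    (aeval (fun j : X ⊕ T => x (emb T j)) : MvPolynomial (X ⊕ T) K →ₐ[K] R).toRingHom.toAlgebra
  have hset : Set.range (fun j : X ⊕ T => x (emb T j)) = x '' S T := by
    rw [← hrange, ← Set.range_comp]
    rfl
  have hAlg' : Algebra.IsAlgebraic (Algebra.adjoin K (Set.range fun j : X ⊕ T => x (emb T j))) R := by
    rw [hset]
    exact hAlg
  have hAlg2 : Algebra.IsAlgebraic (MvPolynomial (X ⊕ T) K) R := by
    refine Algebra.IsAlgebraic.of_ringHom_of_comp_eq (S := Algebra.adjoin K (Set.range fun j : X ⊕ T => x (emb T j)))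
      (B := R) (hind.aevalEquiv : MvPolynomial (X ⊕ T) K →ₐ[K] _).toRingHom (RingHom.id R)
      hind.aevalEquiv.surjective Function.injective_id ?_
    apply RingHom.ext
    intro p
    change algebraMap _ R (hind.aevalEquiv p) = aeval (fun j : X ⊕ T => x (emb T j)) p
    exact hind.algebraMap_aevalEquiv p
  intro V₁ V₂ f hf
  obtain ⟨g, hg, hdvd⟩ := MvPolynomial.exists_dvd_map_of_isAlgebraic (R := MvPolynomial (X ⊕ T) K) (S := R) hf
  refine ⟨regroup K (X ⊕ T) V₁ V₂ g, ?_, ?_⟩
  · intro h
    exact hg (regroup_injective (X ⊕ T) V₁ V₂ (by rw [h, map_zero]))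
  · rw [theta_regroup]
    exact hdvd

end Pool.Agent.Y124
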