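import Pool.Agent.Y124.Std
import Pool.Agent.TH818.AP.Mv

/-!
# Legendre families
-/

set_option autoImplicit false

open Filter Topology MvPolynomial

namespace Pool.Agent.Y124

theorem goodXi_pi : GoodXi (fun _ : Unit => Real.pi) := by
  classical
  intro d
  obtain ⟨κ, c, hκ, hc, hP⟩ := TH818.AP.tpi d
  refine ⟨⌈κ⌉₊, c, hc, ?_⟩
  intro h P hh hP0 hdeg hcf
  have hdegOf : ∀ i, P.degreeOf i ≤ d := fun i => (degreeOf_le_totalDegree P i).trans hdeg
  let co : Fin (d + 1) → ℤ := fun e => P.coeff (sV fun _ : Unit => e)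
  set Q : Polynomial ℤ := ∑ e : Fin (d + 1), Polynomial.C (co e) * Polynomial.X ^ (e : ℕ) with hQ
  have hcoef : ∀ e0 : Fin (d + 1), Q.coeff (e0 : ℕ) = co e0 := by
    intro e0
    rw [hQ, Polynomial.finsetSum_coeff, Finset.sum_eq_single e0]
    · simp
    · intro e _ he
      rw [Polynomial.coeff_C_mul, Polynomial.coeff_X_pow, if_neg, mul_zero]
      intro hcon
      exact he (Fin.ext hcon.symm)
    · simp
  have hQdeg : Q.natDegree ≤ d := by
    refine Polynomial.natDegree_sum_le_of_forall_le _ _ (fun e _ => ?_)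
    refine (Polynomial.natDegree_C_mul_X_pow_le _ _).trans ?_
    have := e.isLt
    omega
  have hQne : Q ≠ 0 := by
    intro h0
    obtain ⟨s, hs⟩ := support_nonempty.2 hP0
    obtain ⟨z, hz⟩ := exists_sV P hdegOf s hs
    have h1 := hcoef (z ())
    rw [h0, Polynomial.coeff_zero] at h1
    have h2 : (fun _ : Unit => z ()) = z := by
      funext u
      rfl
    simp only [co, h2, hz] at h1
    exact mem_support_iff.1 hs h1.symm
  have hQc : ∀ i, |((Q.coeff i : ℤ) : ℝ)| ≤ h := by
    intro i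
    rcases Nat.lt_or_ge i (d + 1) with hi | hi
    · have h1 := hcoef ⟨i, hi⟩
      simp only at h1
      rw [h1]
      exact hcf _
    · rw [Polynomial.coeff_eq_zero_of_natDegree_lt (by omega)]
      simp only [Int.cast_zero, abs_zero]
      linarith
  have h1 := hP h Q hh hQne hQdeg hQc
  have h2 : Polynomial.aeval Real.pi Q = aeval (fun _ : Unit => Real.pi) P := by
    rw [aeval_eq_sum (d := d) _ P hdegOf, hQ, map_sum, ← (Equiv.funUnique Unit (Fin (d + 1))).sum_comp]
    refine Finset.sum_congr rfl fun e _ => ?_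
    simp only [co, map_mul, Polynomial.aeval_C, map_pow, Polynomial.aeval_X]
    have h5 : ∏ i : Unit, Real.pi ^ (e i : ℕ) = Real.pi ^ (e () : ℕ) := by simp
    have h6 : (Equiv.funUnique Unit (Fin (d + 1))) e = e () := rfl
    rw [h5, h6]
    rfl
  rw [← h2]
  have h3 : 0 < h := by linarith
  have h4 : c = h ^ κ * (c * h ^ (-κ)) := by
    rw [mul_comm c, ← mul_assoc, ← Real.rpow_add h3]
    simp
  have h5 : h ^ κ ≤ h ^ ⌈κ⌉₊ := by
    rw [← Real.rpow_natCast]
    exact Real.rpow_le_rpow_of_exponent_le hh (Nat.le_ceil κ)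
  calc c = h ^ κ * (c * h ^ (-κ)) := h4
    _ ≤ h ^ ⌈κ⌉₊ * |Polynomial.aeval Real.pi Q| := mul_le_mul h5 h1 (by positivity) (by positivity)

/-- the nested families -/
theorem aindep_nest (m : ℕ) (α γ : Fin (m + 1) → ℝ) (hα : StrictAnti α) (hγ : StrictMono γ) (hαγ : α 0 < γ 0)
    (a b : ℝ) (ha : α 0 < a) (hab : a < b) (hb : b < γ 0) :
    AIndep (fun y : Fin (m + 1) × Fin 3 => TH818.AP.KC (α y.1) (γ y.1) y.2) a b := by
  classical
  intro P hP
  by_contra hP0
  obtain ⟨s0, hs0⟩ := support_nonempty.2 hP0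
  set d := P.totalDegree with hd
  have hle : ∀ s ∈ P.support, ∀ o, s o ≤ d := fun s hs o =>
    (monomial_le_degreeOf o hs).trans (degreeOf_le_totalDegree P o)
  -- the coefficients as polynomials in `t`
  let ex : ℕ → (Fin (m + 1) → Fin 3 → Fin (d + 1)) → (Option (Fin (m + 1) × Fin 3) →₀ ℕ) := fun i e =>
    Finsupp.equivFunOnFinite.symm fun o => o.elim i fun y => (e y.1 y.2 : ℕ)
  let p : (Fin (m + 1) → Fin 3 → Fin (d + 1)) → Polynomial ℝ := fun e =>
    ∑ i ∈ Finset.range (d + 1), Polynomial.monomial i (P.coeff (ex i e))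
  have hp := TH818.AP.tnest m d α γ hα hγ hαγ a b ha hab hb p (by
    intro t ht
    have h1 := hP t ht
    rw [eval_eq'] at h1
    rw [← h1]
    have h2 : ∀ e, (p e).eval t * TH818.AP.mon α γ e t = ∑ i ∈ Finset.range (d + 1),
        (fun s : Option (Fin (m + 1) × Fin 3) →₀ ℕ => P.coeff s *
          ∏ o, (o.elim t fun y : Fin (m + 1) × Fin 3 => TH818.AP.KC (α y.1) (γ y.1) y.2 t) ^ s o) (ex i e) := by
      intro e
      simp only [p]
      rw [Polynomial.eval_finsetSum, Finset.sum_mul]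
      refine Finset.sum_congr rfl fun i _ => ?_
      rw [Polynomial.eval_monomial, Fintype.prod_option, Fintype.prod_prod_type]
      simp only [ex, TH818.AP.mon, Finsupp.equivFunOnFinite_symm_apply_apply, Option.elim_none, Option.elim_some]
      ring
    rw [Finset.sum_congr rfl fun e _ => h2 e]
    rw [Finset.sum_comm, ← Finset.sum_product']
    rw [← Finset.sum_image (s := Finset.range (d + 1) ×ˢ (Finset.univ : Finset (Fin (m + 1) → Fin 3 → Fin (d + 1))))
      (g := fun x => ex x.1 x.2) (f := fun s : Option (Fin (m + 1) × Fin 3) →₀ ℕ => P.coeff s *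
          ∏ o, (o.elim t fun y : Fin (m + 1) × Fin 3 => TH818.AP.KC (α y.1) (γ y.1) y.2 t) ^ s o)]
    · refine (Finset.sum_subset ?_ ?_).symm
      · intro s hs
        rw [Finset.mem_image]
        refine ⟨(s none, fun j i => ⟨s (some (j, i)), Nat.lt_succ_of_le (hle s hs _)⟩), ?_, ?_⟩
        · rw [Finset.mem_product]
          exact ⟨Finset.mem_range.2 (Nat.lt_succ_of_le (hle s hs _)), Finset.mem_univ _⟩
        · ext o
          cases o <;> simp [ex]
      · intro s _ hs
        rw [notMem_support_iff.1 hs, zero_mul]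
    · intro x _ y _ hxy
      have h3 := Finsupp.equivFunOnFinite.symm.injective hxy
      refine Prod.ext (congrFun h3 none) (funext fun j => funext fun i => Fin.ext (congrFun h3 (some (j, i)))))
  have h1 := congrFun hp (fun j i => ⟨s0 (some (j, i)), Nat.lt_succ_of_le (hle s0 hs0 _)⟩)
  have h2 := congrArg (fun r => Polynomial.coeff r (s0 none)) h1
  simp only [p, Polynomial.finsetSum_coeff, Polynomial.coeff_monomial, Pi.zero_apply, Polynomial.coeff_zero] at h2
  rw [Finset.sum_ite_eq' (Finset.range (d + 1)) (s0 none), if_pos (Finset.mem_range.2 (Nat.lt_succ_of_le (hle s0 hs0 _)))] at h2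
  apply mem_support_iff.1 hs0
  rw [← h2]
  congr 1
  ext o
  cases o <;> simp [ex]

end Pool.Agent.Y124

namespace Pool.Agent.Y124

theorem aindep_leg (a b : ℝ) (ha : 0 < a) (hab : a < b) (hb : b < 1) :
    AIndep (fun y : Fin 3 => TH818.AP.KC 0 1 y) a b := by
  classical
  intro P hP
  have hanti : StrictAnti (fun _ : Fin (0 + 1) => (0 : ℝ)) := by
    intro i j hij
    omega
  have hmono : StrictMono (fun _ : Fin (0 + 1) => (1 : ℝ)) := by
    intro i j hij
    omega
  have h := aindep_nest 0 (fun _ => 0) (fun _ => 1) hanti hmono one_pos a b ha hab hb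
    (rename (Option.map fun i : Fin 3 => ((0 : Fin 1), i)) P) (by
      intro t ht
      rw [eval_rename]
      refine Eq.trans ?_ (hP t ht)
      congr 2
      funext o
      cases o <;> rfl)
  have hinj : Function.Injective (Option.map fun i : Fin 3 => ((0 : Fin 1), i)) :=
    Option.map_injective fun i j hij => (Prod.mk.inj hij).2
  exact rename_injective _ hinj (by rw [h, map_zero])

/-- renaming along an equivalence -/
theorem ExcS_of_rename {X Y₀ Yc W : Type} (e : W ≃ (X × Y₀) ⊕ Yc) (f : X → Y₀ → ℝ → ℝ) (ξ : Yc → ℝ)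
    (a b : X → ℝ) (d : ℕ) (A B T : ℝ) (t : X → ℚ)
    (ht : ∀ x, (t x : ℝ) ∈ Set.Icc (a x) (b x) ∧ ((t x).den : ℝ) ≤ T) (v : W → ℝ)
    (hv : ∀ w, v w = Sum.elim (fun c : X × Y₀ => f c.1 c.2 (t c.1)) ξ (e w)) (P : MvPolynomial W ℤ) (hP : P ≠ 0)
    (hd : ∀ i, P.degreeOf i ≤ d) (hc : ∀ s, |((P.coeff s : ℤ) : ℝ)| ≤ T ^ A) (hs : |aeval v P| ≤ T ^ (-B)) :
    t ∈ ExcS f ξ a b d A B T := by
  classical
  refine ⟨ht, rename e P, ?_, ?_, ?_, ?_⟩
  · intro h
    exact hP (rename_injective e e.injective (by rw [h, map_zero]))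
  · intro i
    obtain ⟨w, rfl⟩ := e.surjective i
    rw [degreeOf_rename_of_injective e.injective]
    exact hd w
  · intro s
    have h1 : Finsupp.mapDomain e (Finsupp.mapDomain e.symm s) = s := by
      rw [← Finsupp.mapDomain_comp]
      simp
    rw [← h1, coeff_rename_mapDomain e e.injective]
    exact hc _
  · rw [aeval_rename]
    have h1 : (Sum.elim (fun c : X × Y₀ => f c.1 c.2 (t c.1)) ξ) ∘ e = v := by
      funext w
      exact (hv w).symm
    rw [h1]
    exact hs

theorem card_zeros {n : ℕ} (hn : 1 ≤ n) (F : Finset ℚ) (P : MvPolynomial (Fin n) ℚ) (hP : P ≠ 0) :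
    ((Fintype.piFinset fun _ : Fin n => F).filter fun t => eval t P = 0).card ≤ P.totalDegree * F.card ^ (n - 1) := by
  classical
  rcases F.eq_empty_or_nonempty with rfl | hF
  · have h1 : (Fintype.piFinset fun _ : Fin n => (∅ : Finset ℚ)) = ∅ := by
      have : Nonempty (Fin n) := ⟨⟨0, hn⟩⟩
      exact Fintype.piFinset_empty
    rw [h1]
    simp
  · have h1 := schwartz_zippel_totalDegree hP F
    have hF0 : (0 : ℚ≥0) < F.card := by exact_mod_cast hF.card_pos
    rw [div_le_div_iff₀ (by positivity) hF0] at h1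
    have h2 : (F.card : ℚ≥0) ^ n = F.card ^ (n - 1) * F.card := by
      rw [← pow_succ, Nat.sub_add_cancel hn]
    rw [h2, ← mul_assoc] at h1
    have h3 := le_of_mul_le_mul_right h1 hF0
    exact_mod_cast h3

theorem count_cov {n : ℕ} (hn : 1 ≤ n) (F : Finset ℚ) (D m : ℕ) (S : Set (Fin n → ℚ)) (hS : ∀ t ∈ S, ∀ j, t j ∈ F)
    (hcov : Cov D m S) : S.Finite ∧ S.ncard ≤ m * (D * F.card ^ (n - 1)) := by
  classical
  obtain ⟨Φ, h1, h2, h3⟩ := hcov
  have hsub : S ⊆ (Φ.biUnion fun P => (Fintype.piFinset fun _ : Fin n => F).filter fun t => eval t P = 0 :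
      Finset (Fin n → ℚ)) := by
    intro t ht
    obtain ⟨P, hP, h⟩ := h3 t ht
    rw [Finset.mem_coe, Finset.mem_biUnion]
    exact ⟨P, hP, Finset.mem_filter.2 ⟨Fintype.mem_piFinset.2 (hS t ht), h⟩⟩
  refine ⟨(Finset.finite_toSet _).subset hsub, ?_⟩
  have h4 := Set.ncard_le_ncard hsub (Finset.finite_toSet _)
  rw [Set.ncard_coe_finset] at h4
  refine h4.trans (Finset.card_biUnion_le.trans ?_)
  refine (Finset.sum_le_card_nsmul _ _ (D * F.card ^ (n - 1)) ?_).trans ?_
  · intro P hP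
    exact (card_zeros hn F P (h2 P hP).1).trans (Nat.mul_le_mul_right _ (h2 P hP).2)
  · rw [smul_eq_mul]
    exact Nat.mul_le_mul_right _ h1

end Pool.Agent.Y124
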