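import Pool.Agent.Y124.RatK

/-!
# Constants with a measure of algebraic independence
-/

set_option autoImplicit false

open Filter Topology MvPolynomial

namespace Pool.Agent.Y124

variable {𝒰 : Ultrafilter ℕ} {H : ℕ → ℝ}

/-- a measure of algebraic independence of polynomial type -/
def GoodXi {Yc : Type} (ξ : Yc → ℝ) : Prop := ∀ d : ℕ, ∃ κ : ℕ, ∃ c : ℝ, 0 < c ∧
  ∀ (h : ℝ) (P : MvPolynomial Yc ℤ), 1 ≤ h → P ≠ 0 → P.totalDegree ≤ d → (∀ s, |((P.coeff s : ℤ) : ℝ)| ≤ h) →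
    c ≤ h ^ κ * |aeval ξ P|

theorem bigQ {Yc : Type} [Fintype Yc] (ξ : Yc → ℝ) (hξ : GoodXi ξ) (hH : Tendsto H (𝒰 : Filter ℕ) atTop)
    (P : MvPolynomial Yc (KQ hH)) (hP : P ≠ 0) :
    IsBig 𝒰 H (eval₂Hom ((gmap 𝒰 (algebraMap ℚ ℝ)).comp (KQ hH).subtype)
      (fun c => ((fun _ => ξ c : ℕ → ℝ) : (𝒰 : Filter ℕ).Germ ℝ)) P) := by
  classical
  have h0 : ∀ s, ∃ f : ℕ → ℚ, ((f : ℕ → ℚ) : (𝒰 : Filter ℕ).Germ ℚ) = ((P.coeff s : KQ hH) : UL 𝒰 ℚ) ∧
    ∃ c : ℕ, ∀ᶠ n in (𝒰 : Filter ℕ), f n ∈ HtQ H c n := fun s => (P.coeff s).2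
  choose f hf c hc using h0
  set S := P.support with hS
  obtain ⟨κ, c0, hc0, hmeas⟩ := hξ P.totalDegree
  obtain ⟨s0, hs0⟩ := support_nonempty.2 hP
  have hf0 : ∀ᶠ n in (𝒰 : Filter ℕ), f s0 n ≠ 0 := by
    have h1 : ¬ ∀ᶠ n in (𝒰 : Filter ℕ), f s0 n = 0 := by
      intro h2
      apply mem_support_iff.1 hs0
      apply Subtype.ext
      rw [← hf s0]
      change _ = ((0 : ℕ → ℚ) : (𝒰 : Filter ℕ).Germ ℚ)
      exact Germ.coe_eq.2 h2
    rwa [← Ultrafilter.eventually_not] at h1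
  let cf : (Yc →₀ ℕ) → ℕ → ℤ := fun s n => (f s n).num * ∏ s' ∈ S.erase s, ((f s' n).den : ℤ)
  let Pn : ℕ → MvPolynomial Yc ℤ := fun n => ∑ s ∈ S, monomial s (cf s n)
  let dn : ℕ → ℝ := fun n => ∏ s ∈ S, ((f s n).den : ℝ)
  set C := ∑ s ∈ S, c s with hC
  have hcoef : ∀ n s, (Pn n).coeff s = if s ∈ S then cf s n else 0 := by
    intro n s
    simp only [Pn, coeff_sum, coeff_monomial]
    rw [Finset.sum_ite_eq' S s]
  have hcfR : ∀ n, ∀ s ∈ S, ((cf s n : ℤ) : ℝ) = (f s n : ℝ) * dn n := by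
    intro n s hs
    simp only [cf, dn]
    push_cast
    rw [← Finset.mul_prod_erase S _ hs, ← mul_assoc]
    congr 1
    have h1 : ((f s n * (f s n).den : ℚ) : ℝ) = ((f s n).num : ℝ) := by
      rw [Rat.mul_den_eq_num]
      norm_cast
    rw [← h1]
    push_cast
    rfl
  refine ⟨fun n => ∑ s ∈ S, (f s n : ℝ) * ∏ i, ξ i ^ s i, ?_, 2 * C * κ + C + 1, ?_⟩
  · rw [coe_eval₂Hom, eval₂_eq', coe_sum_germ]
    refine Finset.sum_congr rfl fun s _ => ?_
    rw [coe_mul_germ]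
    congr 1
    · rw [RingHom.comp_apply]
      change _ = gmap 𝒰 (algebraMap ℚ ℝ) ((P.coeff s : KQ hH) : UL 𝒰 ℚ)
      rw [← hf s, gmap_coe]
      rfl
    · rw [coe_prod_germ]
      refine Finset.prod_congr rfl fun i _ => ?_
      rw [coe_pow_germ]
  · have hall : ∀ᶠ n in (𝒰 : Filter ℕ), ∀ s ∈ S, f s n ∈ HtQ H (c s) n := by
      rw [eventually_all_finset]
      exact fun s _ => hc s
    filter_upwards [hall, hf0, hH.eventually_ge_atTop 1, hH.eventually_ge_atTop (1 / c0)] with n h1 h2 h3 h4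
    have hden1 : ∀ s, (1 : ℝ) ≤ ((f s n).den : ℝ) := fun s => by exact_mod_cast (f s n).den_pos
    have hdn0 : 0 < dn n := Finset.prod_pos fun s _ => by linarith [hden1 s]
    have hdnC : dn n ≤ H n ^ C := by
      simp only [dn]
      rw [hC, ← Finset.prod_pow_eq_pow_sum]
      exact Finset.prod_le_prod (fun s _ => by linarith [hden1 s]) fun s hs => (h1 s hs).2
    have hcle : ∀ s ∈ S, c s ≤ C := fun s hs => Finset.single_le_sum (f := c) (fun _ _ => Nat.zero_le _) hs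
    have hPn0 : Pn n ≠ 0 := by
      intro h5
      have h6 := congrArg (coeff s0) h5
      rw [hcoef, if_pos hs0, coeff_zero] at h6
      have h7 := hcfR n s0 hs0
      rw [h6, Int.cast_zero] at h7
      have h8 : (f s0 n : ℝ) ≠ 0 := by exact_mod_cast h2
      exact mul_ne_zero h8 hdn0.ne' h7.symm
    have hdeg : (Pn n).totalDegree ≤ P.totalDegree := by
      simp only [Pn]
      refine totalDegree_finsetSum_le fun s hs => ?_
      refine (totalDegree_monomial_le _ _).trans ?_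
      exact le_totalDegree hs
    have hbd : ∀ s, |(((Pn n).coeff s : ℤ) : ℝ)| ≤ H n ^ (2 * C) := by
      intro s
      rw [hcoef]
      by_cases hs : s ∈ S
      · rw [if_pos hs, hcfR n s hs, abs_mul, abs_of_pos hdn0]
        calc |(f s n : ℝ)| * dn n ≤ H n ^ (c s) * H n ^ C :=
              mul_le_mul (h1 s hs).1 hdnC hdn0.le (by positivity)
          _ ≤ H n ^ C * H n ^ C := by
              have := pow_le_pow_right₀ h3 (hcle s hs)
              gcongr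
          _ = H n ^ (2 * C) := by rw [← pow_add]; congr 1; ring
      · rw [if_neg hs, Int.cast_zero, abs_zero]
        positivity
    have h5 := hmeas (H n ^ (2 * C)) (Pn n) (one_le_pow₀ h3) hPn0 hdeg hbd
    have h6 : aeval ξ (Pn n) = dn n * ∑ s ∈ S, (f s n : ℝ) * ∏ i, ξ i ^ s i := by
      simp only [Pn]
      rw [map_sum, Finset.mul_sum]
      refine Finset.sum_congr rfl fun s hs => ?_
      rw [aeval_monomial]
      have h7 : (algebraMap ℤ ℝ) (cf s n) = ((cf s n : ℤ) : ℝ) := rfl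
      rw [h7, hcfR n s hs, Finsupp.prod_fintype _ _ (fun i => pow_zero _)]
      ring
    rw [h6, abs_mul, abs_of_pos hdn0] at h5
    rw [Real.norm_eq_abs]
    set v := |∑ s ∈ S, (f s n : ℝ) * ∏ i, ξ i ^ s i| with hv
    have hv0 : 0 ≤ v := abs_nonneg _
    rw [div_le_iff₀ hc0] at h4
    calc (1 : ℝ) ≤ H n * c0 := h4
      _ ≤ H n * ((H n ^ (2 * C)) ^ κ * (dn n * v)) := by gcongr
      _ ≤ H n * ((H n ^ (2 * C)) ^ κ * (H n ^ C * v)) := by gcongr
      _ = v * H n ^ (2 * C * κ + C + 1) := by ring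

end Pool.Agent.Y124
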