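import Pool.Agent.Y124.Mod

/-!
# Cutting a large internal set into cells
-/

set_option autoImplicit false

open Filter Topology

namespace Pool.Agent.Y124

variable {𝕜 : Type*} [RCLike 𝕜] {𝒰 : Ultrafilter ℕ}

theorem exists_lim {f : ℕ → 𝕜} {S : Set 𝕜} (hS : IsCompact S) (h : ∀ᶠ n in (𝒰 : Filter ℕ), f n ∈ S) :
    ∃ a ∈ S, Tendsto f (𝒰 : Filter ℕ) (𝓝 a) := by
  have h1 : ((𝒰.map f : Ultrafilter 𝕜) : Filter 𝕜) ≤ 𝓟 S := by
    rw [le_principal_iff]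
    exact h
  obtain ⟨a, ha, h2⟩ := hS.ultrafilter_le_nhds (𝒰.map f) h1
  exact ⟨a, ha, h2⟩

theorem floor_close {a b r : ℝ} (hr : 0 < r) (h : ⌊a / r⌋ = ⌊b / r⌋) : |a - b| ≤ r := by
  have h1 := Int.abs_sub_lt_one_of_floor_eq_floor h
  rw [← sub_div, abs_div, abs_of_pos hr, div_lt_one hr] at h1
  exact h1.le

theorem norm_le_re_im (z : 𝕜) : ‖z‖ ≤ |RCLike.re z| + |RCLike.im z| := by
  have h := RCLike.norm_sq_eq_def_ax z
  have h1 : ‖z‖ ^ 2 ≤ (|RCLike.re z| + |RCLike.im z|) ^ 2 := by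
    rw [h]
    have h2 := sq_abs (RCLike.re z)
    have h3 := sq_abs (RCLike.im z)
    have h4 : 0 ≤ |RCLike.re z| * |RCLike.im z| := by positivity
    nlinarith
  exact le_of_sq_le_sq h1 (by positivity)

theorem floor_mem_Icc {a M r : ℝ} (hr : 0 < r) (h : |a| ≤ M) :
    ⌊a / r⌋ ∈ Finset.Icc (-⌈M / r⌉) ⌈M / r⌉ := by
  rw [Finset.mem_Icc]
  rw [abs_le] at h
  constructor
  · rw [← Int.floor_neg]
    apply Int.floor_le_floor
    rw [← neg_div]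
    gcongr
    exact h.1
  · refine (Int.floor_le_ceil _).trans (Int.ceil_le_ceil ?_)
    gcongr
    exact h.2

variable {k : Type*} [Field k] {X Z : Type*} {H : ℕ → ℝ}

theorem exists_cell (σ : k →+* 𝕜) (hH : Tendsto H (𝒰 : Filter ℕ) atTop) {J : Type*} [Fintype J] [DecidableEq J]
    (g : J → X ⊕ Z) {δ M : ℝ} (hδ : 0 < δ) (hM : 0 ≤ M) {A : ℕ → Finset (X ⊕ Z → k)} (hA : LargeD 𝒰 H δ A)
    (hbd : ∀ᶠ n in (𝒰 : Filter ℕ), ∀ q ∈ A n, ∀ i, ‖σ (q i)‖ ≤ M) :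
    ∃ ε : ℝ, 0 < ε ∧ ∃ B : ℕ → Finset (X ⊕ Z → k), (∀ n, B n ⊆ A n) ∧ LargeD 𝒰 H (δ / 4) B ∧
      ∀ᶠ n in (𝒰 : Filter ℕ), ∀ q ∈ B n, ∀ q' ∈ B n, ∀ j, ‖σ (q (g j)) - σ (q' (g j))‖ ≤ 2 * H n ^ (-ε) := by
  classical
  set N := Fintype.card J with hN
  set ε : ℝ := δ / (8 * ((N : ℝ) + 1)) with hε
  have hε0 : 0 < ε := by positivity
  let r : ℕ → ℝ := fun n => H n ^ (-ε)
  let Q : ℕ → Finset (J → ℤ × ℤ) := fun n => Fintype.piFinset fun _ =>
    Finset.Icc (-⌈M / r n⌉) ⌈M / r n⌉ ×ˢ Finset.Icc (-⌈M / r n⌉) ⌈M / r n⌉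
  let cc : ℕ → (X ⊕ Z → k) → J → ℤ × ℤ := fun n q j =>
    (⌊RCLike.re (σ (q (g j))) / r n⌋, ⌊RCLike.im (σ (q (g j))) / r n⌋)
  let P : ℕ → (J → ℤ × ℤ) → Finset (X ⊕ Z → k) := fun n c => (A n).filter fun q => cc n q = c
  have h1 : ∀ᶠ n in (𝒰 : Filter ℕ), (1 : ℝ) ≤ H n := hH.eventually_ge_atTop 1
  have hcard : ∀ᶠ n in (𝒰 : Filter ℕ), ((Q n).card : ℝ) ≤ ((2 * M + 3) ^ (2 * N)) * H n ^ (δ / 4) := by
    filter_upwards [h1] with n hn
    have hr0 : 0 < r n := by positivity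
    have hr1 : r n ≤ 1 := Real.rpow_le_one_of_one_le_of_nonpos hn (by linarith)
    simp only [Q]
    rw [Fintype.card_piFinset, Finset.prod_const, Finset.card_univ, Finset.card_product, Int.card_Icc, ← hN]
    have h2 : (0 : ℤ) ≤ ⌈M / r n⌉ := Int.ceil_nonneg (by positivity)
    have h3 : (((⌈M / r n⌉ + 1 - -⌈M / r n⌉).toNat : ℕ) : ℝ) = 2 * (⌈M / r n⌉ : ℝ) + 1 := by
      have h4 : (((⌈M / r n⌉ + 1 - -⌈M / r n⌉).toNat : ℕ) : ℤ) = 2 * ⌈M / r n⌉ + 1 := by omega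
      exact_mod_cast h4
    push_cast
    rw [h3]
    have h4 : (⌈M / r n⌉ : ℝ) ≤ M / r n + 1 := (Int.ceil_lt_add_one _).le
    have h5 : 2 * (⌈M / r n⌉ : ℝ) + 1 ≤ (2 * M + 3) * H n ^ ε := by
      have h6 : M / r n = M * H n ^ ε := by
        simp only [r]
        rw [Real.rpow_neg (by linarith), div_inv_eq_mul]
      have h7 : 1 ≤ H n ^ ε := Real.one_le_rpow hn hε0.le
      rw [h6] at h4 ⊢
      nlinarith
    have h6 : 0 ≤ 2 * (⌈M / r n⌉ : ℝ) + 1 := by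
      have : (0 : ℝ) ≤ (⌈M / r n⌉ : ℝ) := by exact_mod_cast h2
      linarith
    have h7 : (2 * (⌈M / r n⌉ : ℝ) + 1) * (2 * (⌈M / r n⌉ : ℝ) + 1) ≤ ((2 * M + 3) * H n ^ ε) ^ 2 := by
      rw [← pow_two]
      exact pow_le_pow_left₀ h6 h5 2
    calc ((2 * (⌈M / r n⌉ : ℝ) + 1) * (2 * (⌈M / r n⌉ : ℝ) + 1)) ^ N ≤ (((2 * M + 3) * H n ^ ε) ^ 2) ^ N :=
          pow_le_pow_left₀ (mul_nonneg h6 h6) h7 N
      _ = (2 * M + 3) ^ (2 * N) * (H n ^ ε) ^ (2 * N) := by rw [← pow_mul, mul_pow]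
      _ ≤ (2 * M + 3) ^ (2 * N) * H n ^ (δ / 4) := by
          gcongr
          rw [← Real.rpow_natCast (H n ^ ε), ← Real.rpow_mul (by linarith)]
          apply Real.rpow_le_rpow_of_exponent_le hn
          rw [hε]
          push_cast
          rw [div_mul_eq_mul_div, div_le_div_iff₀ (by positivity) (by norm_num)]
          nlinarith
  have hcov : ∀ᶠ n in (𝒰 : Filter ℕ), ∀ q ∈ A n, ∃ j ∈ Q n, q ∈ P n j := by
    filter_upwards [hbd, h1] with n hn hn1 q hq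
    have hr0 : 0 < r n := by positivity
    refine ⟨cc n q, ?_, ?_⟩
    · simp only [Q, cc, Fintype.mem_piFinset, Finset.mem_product]
      intro j
      have h3 := hn q hq (g j)
      exact ⟨floor_mem_Icc hr0 ((RCLike.abs_re_le_norm _).trans h3),
        floor_mem_Icc hr0 ((RCLike.abs_im_le_norm _).trans h3)⟩
    · simp only [P, Finset.mem_filter, and_true]
      exact hq
  obtain ⟨j, hj, hL⟩ := large_pieces hH hδ hA Q P _ hcard hcov
  refine ⟨ε, hε0, fun n => P n (j n), fun n => Finset.filter_subset _ _, hL, ?_⟩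
  filter_upwards [h1] with n hn1 q hq q' hq' i
  have hr0 : 0 < r n := by positivity
  have h2 : cc n q = j n := (Finset.mem_filter.1 hq).2
  have h3 : cc n q' = j n := (Finset.mem_filter.1 hq').2
  have h4 := congrFun (h2.trans h3.symm) i
  simp only [cc, Prod.mk.injEq] at h4
  refine (norm_le_re_im _).trans ?_
  rw [map_sub, map_sub]
  have h5 := floor_close hr0 h4.1
  have h6 := floor_close hr0 h4.2
  change _ ≤ 2 * r n
  linarith

theorem exists_pt (A : ℕ → Finset (X ⊕ Z → k)) (hA : Large 𝒰 H A) : ∃ q0, IsPt 𝒰 A q0 := by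
  classical
  have hne : ∀ᶠ n in (𝒰 : Filter ℕ), (A n).Nonempty := by
    obtain ⟨δ, hδ, hL⟩ := hA
    filter_upwards [hL] with n hn
    by_contra hcon
    rw [Finset.not_nonempty_iff_eq_empty] at hcon
    apply hn
    rw [hcon]
    exact ⟨∅, by simp, by simp, by simp [prX]⟩
  refine ⟨fun n => if hn : (A n).Nonempty then hn.choose else 0, ?_⟩
  unfold IsPt
  filter_upwards [hne] with n hn
  simp only [dif_pos hn]
  exact hn.choose_spec

end Pool.Agent.Y124
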