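import Pool.Agent.Y124.EllInd

/-!
# Changing the parameter by a rational function
-/

set_option autoImplicit false

open Filter Topology MvPolynomial

namespace Pool.Agent.Y124

theorem eval_aeval_X {V : Type} (v : V → ℂ) (i : V) (p : Polynomial ℂ) :
    eval v (Polynomial.aeval (X i : MvPolynomial V ℂ) p) = p.eval (v i) := by
  induction p using Polynomial.induction_on' with
  | add p q hp hq => rw [map_add, map_add, hp, hq, Polynomial.eval_add]
  | monomial n a =>
    rw [Polynomial.aeval_monomial, Polynomial.eval_monomial, map_mul, map_pow, eval_X]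
    congr 1
    exact eval_C a

theorem locInd_comp {Y₀ : Type} [Fintype Y₀] (f : Y₀ → ℂ → ℂ) (l1 : ℂ) (hf : LocInd f l1) (nu de : Polynomial ℂ)
    (hde : de.eval l1 ≠ 0) (r : ℂ → ℂ)
    (hrG : ∀ᶠ l in 𝓝 l1, r (nu.eval l / de.eval l) = l)
    (hGr : ∀ᶠ c in 𝓝 (nu.eval l1 / de.eval l1), nu.eval (r c) / de.eval (r c) = c ∧ de.eval (r c) ≠ 0) :
    LocInd (fun y c => f y (r c)) (nu.eval l1 / de.eval l1) := by
  classical
  intro P hP
  have hcont : Tendsto (fun l => nu.eval l / de.eval l) (𝓝 l1) (𝓝 (nu.eval l1 / de.eval l1)) :=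
    ((nu.continuous.continuousAt).div (de.continuous.continuousAt) hde)
  set N := P.degreeOf none with hN
  let Q : MvPolynomial (Option Y₀) ℂ := ∑ s ∈ P.support, C (P.coeff s) *
    (Polynomial.aeval (X none : MvPolynomial (Option Y₀) ℂ) nu) ^ (s none) *
    (Polynomial.aeval (X none : MvPolynomial (Option Y₀) ℂ) de) ^ (N - s none) * ∏ y, X (some y) ^ s (some y)
  have hQe : ∀ v : Option Y₀ → ℂ, de.eval (v none) ≠ 0 → eval v Q = (de.eval (v none)) ^ N *
      eval (fun o => o.elim (nu.eval (v none) / de.eval (v none)) fun y => v (some y)) P := by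
    intro v hv
    simp only [Q]
    rw [map_sum, eval_eq', Finset.mul_sum]
    refine Finset.sum_congr rfl fun s hs => ?_
    rw [map_mul, map_mul, map_mul, eval_C, map_pow, map_pow, eval_aeval_X, eval_aeval_X, map_prod,
      Fintype.prod_option]
    simp only [map_pow, eval_X, Option.elim_none, Option.elim_some]
    have h1 : s none ≤ N := monomial_le_degreeOf none hs
    have h2 : (de.eval (v none)) ^ N = (de.eval (v none)) ^ (s none) * (de.eval (v none)) ^ (N - s none) := by
      rw [← pow_add, Nat.add_sub_cancel' h1]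
    rw [h2, div_pow]
    field_simp
  have hQ : Q = 0 := by
    apply hf
    have h1 : ∀ᶠ l in 𝓝 l1, de.eval l ≠ 0 := (de.continuous.continuousAt).eventually_ne hde
    filter_upwards [hcont.eventually hP, hrG, h1] with l h2 h3 h4
    rw [hQe _ (by simpa using h4)]
    simp only [Option.elim_none, Option.elim_some]
    simp only [h3] at h2
    rw [h2, mul_zero]
  have hval : ∀ v : Option Y₀ → ℂ, de.eval (v none) ≠ 0 →
      eval (fun o => o.elim (nu.eval (v none) / de.eval (v none)) fun y => v (some y)) P = 0 := by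
    intro v hv
    have h1 := hQe v hv
    rw [hQ, map_zero] at h1
    exact (mul_eq_zero.1 h1.symm).resolve_left (pow_ne_zero _ hv)
  let S : Option Y₀ → Set ℂ := fun o => o.elim
    {c | nu.eval (r c) / de.eval (r c) = c ∧ de.eval (r c) ≠ 0} fun _ => Set.univ
  refine MvPolynomial.funext_set S ?_ ?_
  · intro o
    cases o with
    | none => exact infinite_of_mem_nhds _ hGr
    | some y => exact Set.infinite_univ
  · intro x hx
    rw [map_zero]
    have h1 : x none ∈ S none := hx none (Set.mem_univ _)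
    have h2 := hval (fun o => o.elim (r (x none)) fun y => x (some y)) h1.2
    simp only [Option.elim_none, Option.elim_some] at h2
    rw [h1.1] at h2
    rw [← h2]
    congr 2
    funext o
    cases o <;> rfl

theorem exists_chart {Y₀ : Type} [Fintype Y₀] (f : Y₀ → ℂ → ℂ) (U : Set ℂ) (hU : IsOpen U)
    (hf : ∀ y, ∀ l ∈ U, AnalyticAt ℂ (f y) l) (hind : ∀ l ∈ U, LocInd f l) (nu de : Polynomial ℂ) (l0 : ℂ) (hl0 : l0 ∈ U)
    (hde : de.eval l0 ≠ 0) (hderiv : deriv (fun l => nu.eval l / de.eval l) l0 ≠ 0) :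
    ∃ (r : ℂ → ℂ) (D W : Set ℂ), IsCompact D ∧ W ∈ 𝓝 l0 ∧
      (∀ l ∈ W, nu.eval l / de.eval l ∈ D ∧ r (nu.eval l / de.eval l) = l) ∧
      (∀ c ∈ D, ∀ y, AnalyticAt ℂ (fun c => f y (r c)) c) ∧ ∀ c ∈ D, LocInd (fun y c => f y (r c)) c := by
  set G : ℂ → ℂ := fun l => nu.eval l / de.eval l with hG
  have hGan : ∀ l, de.eval l ≠ 0 → AnalyticAt ℂ G l := fun l hl =>
    ((nu.differentiable).analyticAt l).div ((de.differentiable).analyticAt l) hl
  have hst := (hGan l0 hde).hasStrictDerivAt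
  let r : ℂ → ℂ := hst.localInverse G _ l0 hderiv
  have hran : AnalyticAt ℂ r (G l0) := (hGan l0 hde).analyticAt_localInverse hderiv
  have hleft : ∀ᶠ l in 𝓝 l0, r (G l) = l := HasStrictDerivAt.eventually_left_inverse hst hderiv
  have hright : ∀ᶠ c in 𝓝 (G l0), G (r c) = c := HasStrictDerivAt.eventually_right_inverse hst hderiv
  have hr0 : r (G l0) = l0 := hleft.self_of_nhds
  -- the open neighbourhood of `l0`
  have hU0 : ∀ᶠ l in 𝓝 l0, l ∈ U ∧ de.eval l ≠ 0 ∧ r (G l) = l := by
    filter_upwards [hU.mem_nhds hl0, (de.continuous.continuousAt).eventually_ne hde, hleft] with l h1 h2 h3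
    exact ⟨h1, h2, h3⟩
  obtain ⟨U0, hU0sub, hU0open, hl0U0⟩ := _root_.eventually_nhds_iff.1 hU0
  have hW0 : ∀ᶠ c in 𝓝 (G l0), (∀ᶠ c' in 𝓝 c, G (r c') = c' ∧ de.eval (r c') ≠ 0) ∧ AnalyticAt ℂ r c ∧ r c ∈ U0 := by
    have h1 : ∀ᶠ c in 𝓝 (G l0), r c ∈ U0 := by
      have := hran.continuousAt.eventually_mem (hU0open.mem_nhds (by rw [hr0]; exact hl0U0))
      exact this
    have h2 : ∀ᶠ c in 𝓝 (G l0), ∀ᶠ c' in 𝓝 c, G (r c') = c' ∧ de.eval (r c') ≠ 0 := by
      rw [eventually_eventually_nhds]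
      filter_upwards [hright, h1] with c h3 h4
      exact ⟨h3, (hU0sub _ h4).2.1⟩
    filter_upwards [h2, hran.eventually_analyticAt, h1] with c h3 h4 h5
    exact ⟨h3, h4, h5⟩
  obtain ⟨ρ, hρ, hball⟩ := Metric.eventually_nhds_iff_ball.1 hW0
  refine ⟨r, Metric.closedBall (G l0) (ρ / 2), U0 ∩ G ⁻¹' (Metric.ball (G l0) (ρ / 2)), isCompact_closedBall _ _, ?_, ?_, ?_, ?_⟩
  · refine inter_mem (hU0open.mem_nhds hl0U0) ?_
    exact (hGan l0 hde).continuousAt.preimage_mem_nhds (Metric.ball_mem_nhds _ (by linarith))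
  · rintro l ⟨h1, h2⟩
    exact ⟨Metric.ball_subset_closedBall h2, (hU0sub l h1).2.2⟩
  · intro c hc y
    obtain ⟨-, h2, h3⟩ := hball c (Metric.closedBall_subset_ball (by linarith) hc)
    exact AnalyticAt.fun_comp (f := r) (hf y (r c) (hU0sub _ h3).1) h2
  · intro c hc
    obtain ⟨h1, h2, h3⟩ := hball c (Metric.closedBall_subset_ball (by linarith) hc)
    obtain ⟨h4, h5, h6⟩ := hU0sub _ h3
    have h7 : nu.eval (r c) / de.eval (r c) = c := h1.self_of_nhds.1
    have h8 := locInd_comp f (r c) (hind _ h4) nu de h5 r (by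
      filter_upwards [hU0open.mem_nhds h3] with l hl
      exact (hU0sub l hl).2.2) (by rw [h7]; exact h1)
    rw [h7] at h8
    exact h8

end Pool.Agent.Y124
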