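import Pool.Agent.Y120.Loc
import Pool.Agent.Y124.StdC

/-!
# Charts from complex analytic functions on a compact set
-/

set_option autoImplicit false

open Filter Topology

namespace Pool.Agent.Y124

open Pool.Agent.Y120 (Charts mv yv)

variable {σ : Type} [Fintype σ]

/-- the monomial functions -/
noncomputable def WmC (f : σ → ℂ → ℂ) (j : Option σ →₀ ℕ) (t : ℂ) : ℂ := t ^ j none * ∏ i, f i t ^ j (some i)

theorem WmC_an (f : σ → ℂ → ℂ) {t : ℂ} (han : ∀ i, AnalyticAt ℂ (f i) t) (j : Option σ →₀ ℕ) :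
    AnalyticAt ℂ (WmC f j) t :=
  (analyticAt_id.pow _).mul (Finset.analyticAt_fun_prod _ fun i _ => (han i).pow _)

theorem WmC_mv (f : σ → ℂ → ℂ) (j : Option σ →₀ ℕ) (t : ℂ) : mv (yv (fun i => f i t) t) j = WmC f j t := by
  classical
  have h1 : mv (yv (fun i => f i t) t) j = ∏ o : Option σ, (yv (fun i => f i t) t o) ^ j o := by
    rw [mv]
    refine Finset.prod_subset (Finset.subset_univ _) fun o _ ho => ?_
    rw [Finsupp.notMem_support_iff.1 ho, pow_zero]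
  rw [h1, Fintype.prod_option, WmC]
  simp [yv]

/-- a uniform radius -/
theorem exists_radius (f : σ → ℂ → ℂ) {K : Set ℂ} (hK : IsCompact K) (han : ∀ i, ∀ t ∈ K, AnalyticAt ℂ (f i) t) :
    ∃ δ : ℝ, 0 < δ ∧ ∀ t ∈ Metric.cthickening δ K, ∀ i, AnalyticAt ℂ (f i) t := by
  have hU : IsOpen {t : ℂ | ∀ i, AnalyticAt ℂ (f i) t} := by
    have h1 : {t : ℂ | ∀ i, AnalyticAt ℂ (f i) t} = ⋂ i, {t | AnalyticAt ℂ (f i) t} := by
      ext t
      simp
    rw [h1]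
    exact isOpen_iInter_of_finite fun i => isOpen_analyticAt ℂ (f i)
  obtain ⟨δ, hδ, h⟩ := hK.exists_cthickening_subset_open hU (fun t ht i => han i t ht)
  exact ⟨δ, hδ, fun t ht i => h ht i⟩

theorem closedBall_sub {K : Set ℂ} {δ : ℝ} {θ : ℂ} (hθ : θ ∈ K) : Metric.closedBall θ δ ⊆ Metric.cthickening δ K := by
  intro t ht
  exact Metric.mem_cthickening_of_dist_le t θ δ K hθ ht

/-- Taylor coefficients and remainders, uniformly on a compact set -/
theorem taylor_compact {W : ℂ → ℂ} {K : Set ℂ} (hK : IsCompact K) {δ : ℝ} (hδ : 0 < δ)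
    (hW : ∀ t ∈ Metric.cthickening δ K, AnalyticAt ℂ W t) : ∃ M : ℝ, 0 ≤ M ∧
    (∀ θ ∈ K, ∀ p, ‖tc W θ p‖ ≤ M * (δ⁻¹) ^ p) ∧
    ∀ θ ∈ K, ∀ t ∈ Metric.closedBall θ (δ / 2), ∀ P : ℕ,
      ‖W t - ∑ p ∈ Finset.range P, tc W θ p * (t - θ) ^ p‖ ≤ 2 * M * (δ⁻¹) ^ P * ‖t - θ‖ ^ P := by
  obtain ⟨M, hM⟩ := (hK.cthickening (r := δ)).exists_bound_of_continuousOn
    (f := W) (fun t ht => (hW t ht).continuousAt.continuousWithinAt)
  have hM0 : 0 ≤ max M 0 := le_max_right _ _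
  have hcoef : ∀ θ ∈ K, ∀ p, ‖tc W θ p‖ ≤ max M 0 * (δ⁻¹) ^ p := by
    intro θ hθ p
    have hd : DiffContOnCl ℂ W (Metric.ball θ δ) := by
      refine DifferentiableOn.diffContOnCl ?_
      intro t ht
      exact (hW t (closedBall_sub hθ (Metric.closure_ball_subset_closedBall ht))).differentiableAt.differentiableWithinAt
    have h1 := Complex.norm_iteratedDeriv_le_of_forall_mem_sphere_norm_le p hδ hd (C := max M 0) (fun z hz =>
      (hM z (closedBall_sub hθ (Metric.sphere_subset_closedBall hz))).trans (le_max_left _ _))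
    have hf : (0 : ℝ) < p.factorial := by exact_mod_cast p.factorial_pos
    rw [tc, norm_div, div_le_iff₀ (by simpa using hf)]
    refine h1.trans (le_of_eq ?_)
    simp only [Complex.norm_natCast, inv_pow]
    rw [div_eq_mul_inv]
    ring
  refine ⟨max M 0, hM0, hcoef, ?_⟩
  intro θ hθ t ht P
  have hball : Metric.ball θ δ ⊆ Metric.cthickening δ K := Metric.ball_subset_closedBall.trans (closedBall_sub hθ)
  have hdiff : DifferentiableOn ℂ W (Metric.ball θ δ) := fun z hz => (hW z (hball hz)).differentiableAt.differentiableWithinAt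
  have htb : t ∈ Metric.ball θ δ := Metric.closedBall_subset_ball (by linarith) ht
  have h1 := Complex.hasSum_taylorSeries_on_ball hdiff htb
  have h2 : (fun n : ℕ => (n.factorial : ℂ)⁻¹ • (t - θ) ^ n • iteratedDeriv n W θ) = fun n => tc W θ n * (t - θ) ^ n := by
    funext n
    rw [tc, smul_eq_mul, smul_eq_mul, div_eq_mul_inv]
    ring
  rw [h2] at h1
  have h3 := (hasSum_nat_add_iff' P).2 h1
  set ρ : ℝ := ‖t - θ‖ with hρ
  have hρ2 : ρ ≤ δ / 2 := by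
    have := ht
    rw [Metric.mem_closedBall, dist_eq_norm] at this
    exact this
  have hρ0 : 0 ≤ ρ := norm_nonneg _
  set q : ℝ := δ⁻¹ * ρ with hq
  have hq0 : 0 ≤ q := by positivity
  have hq2 : q ≤ 1 / 2 := by
    rw [hq, inv_mul_le_iff₀ hδ]
    linarith
  have h4 : HasSum (fun n : ℕ => max M 0 * q ^ P * q ^ n) (max M 0 * q ^ P * (1 - q)⁻¹) :=
    (hasSum_geometric_of_lt_one hq0 (by linarith)).mul_left _
  have h5 : ‖W t - ∑ p ∈ Finset.range P, tc W θ p * (t - θ) ^ p‖ ≤ max M 0 * q ^ P * (1 - q)⁻¹ := by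
    refine le_trans (le_of_eq ?_) (tsum_of_norm_bounded h4 (f := fun n => tc W θ (n + P) * (t - θ) ^ (n + P)) ?_)
    · rw [h3.tsum_eq]
    · intro n
      rw [norm_mul, norm_pow]
      calc ‖tc W θ (n + P)‖ * ‖t - θ‖ ^ (n + P) ≤ (max M 0 * (δ⁻¹) ^ (n + P)) * ρ ^ (n + P) :=
            mul_le_mul_of_nonneg_right (hcoef θ hθ _) (by positivity)
        _ = max M 0 * q ^ P * q ^ n := by rw [hq, mul_pow, mul_pow, pow_add, pow_add]; ring
  refine h5.trans ?_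
  have h6 : (1 - q)⁻¹ ≤ 2 := by
    rw [inv_le_comm₀ (by linarith) (by norm_num)]
    linarith
  calc max M 0 * q ^ P * (1 - q)⁻¹ ≤ max M 0 * q ^ P * 2 := mul_le_mul_of_nonneg_left h6 (by positivity)
    _ = 2 * max M 0 * (δ⁻¹) ^ P * ρ ^ P := by rw [hq, mul_pow]; ring

/-- the Taylor coefficients of the monomials are linearly independent -/
theorem WmC_indep (f : σ → ℂ → ℂ) (t0 : ℂ) (han : ∀ i, AnalyticAt ℂ (f i) t0) (hind : LocInd f t0)
    (𝓜 : Finset (Option σ →₀ ℕ)) (g : (Option σ →₀ ℕ) → ℂ) (h : ∀ p, ∑ j ∈ 𝓜, g j * tc (WmC f j) t0 p = 0) :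
    ∀ j ∈ 𝓜, g j = 0 := by
  classical
  have h1 := taylor_indep_loc f t0 han hind
  set e : (Option σ →₀ ℕ) → ℕ × (σ → ℕ) := fun j => (j none, fun i => j (some i)) with he
  have hinj : Function.Injective e := by
    intro j j' hjj
    simp only [he, Prod.mk.injEq] at hjj
    ext o
    rcases o with _ | i
    · exact hjj.1
    · exact congrFun hjj.2 i
  have h2 := h1.comp e hinj
  rw [linearIndependent_iff'] at h2
  intro j hj
  refine h2 𝓜 g ?_ j hj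
  funext p
  have h3 := h p
  simp only [Finset.sum_apply, Pi.smul_apply, smul_eq_mul, Pi.zero_apply, Function.comp]
  exact h3

/-- uniform nondegeneracy -/
theorem nd_compact (f : σ → ℂ → ℂ) {K : Set ℂ} (hK : IsCompact K) (han : ∀ i, ∀ t ∈ K, AnalyticAt ℂ (f i) t)
    (hind : ∀ t ∈ K, LocInd f t) (𝓜 : Finset (Option σ →₀ ℕ)) :
    ∃ N₀ : ℕ, ∃ c₀ : ℝ, 0 < c₀ ∧ ∀ θ ∈ K, ∀ g : (Option σ →₀ ℕ) → ℂ,
      ∃ p ≤ N₀, ∀ j ∈ 𝓜, c₀ * ‖g j‖ ≤ ‖∑ j' ∈ 𝓜, g j' * tc (WmC f j') θ p‖ := by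
  classical
  by_contra hcon
  push Not at hcon
  have h1 : ∀ n : ℕ, ∃ θ ∈ K, ∃ x : 𝓜 → ℂ, ‖x‖ = 1 ∧ ∀ p ≤ n,
      ‖∑ j' : 𝓜, x j' * tc (WmC f j') θ p‖ ≤ ((n : ℝ) + 1)⁻¹ := by
    intro n
    obtain ⟨θ, hθ, g, hg⟩ := hcon n (((n : ℝ) + 1)⁻¹) (by positivity)
    set y : 𝓜 → ℂ := fun j => g j with hy
    have hy0 : 0 < ‖y‖ := by
      rw [norm_pos_iff]
      intro h0
      obtain ⟨j, hj, hlt⟩ := hg 0 (Nat.zero_le _)
      have : g j = 0 := congrFun h0 ⟨j, hj⟩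
      rw [this, norm_zero, mul_zero] at hlt
      exact absurd hlt (not_lt.2 (norm_nonneg _))
    refine ⟨θ, hθ, (‖y‖⁻¹ : ℝ) • y, ?_, ?_⟩
    · rw [norm_smul, Real.norm_eq_abs, abs_of_pos (inv_pos.2 hy0), inv_mul_cancel₀ hy0.ne']
    · intro p hp
      obtain ⟨j, hj, hlt⟩ := hg p hp
      have h2 : ∑ j' : 𝓜, ((‖y‖⁻¹ : ℝ) • y) j' * tc (WmC f j') θ p =
          ((‖y‖⁻¹ : ℝ) : ℂ) * ∑ j' ∈ 𝓜, g j' * tc (WmC f j') θ p := by
        rw [← Finset.sum_coe_sort 𝓜 (fun j' => g j' * tc (WmC f j') θ p), Finset.mul_sum]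
        refine Finset.sum_congr rfl fun j' _ => ?_
        simp only [Pi.smul_apply, Complex.real_smul, hy]
        ring
      rw [h2, norm_mul, Complex.norm_real, Real.norm_eq_abs, abs_of_pos (inv_pos.2 hy0)]
      have h3 : ‖g j‖ ≤ ‖y‖ := norm_le_pi_norm y ⟨j, hj⟩
      calc ‖y‖⁻¹ * ‖∑ j' ∈ 𝓜, g j' * tc (WmC f j') θ p‖ ≤ ‖y‖⁻¹ * (((n : ℝ) + 1)⁻¹ * ‖y‖) := by
            refine mul_le_mul_of_nonneg_left (hlt.le.trans ?_) (inv_pos.2 hy0).le
            exact mul_le_mul_of_nonneg_left h3 (by positivity)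
        _ = ((n : ℝ) + 1)⁻¹ := by field_simp
  choose θ hθ x hx1 hxp using h1
  have hcomp : IsCompact (K ×ˢ Metric.sphere (0 : 𝓜 → ℂ) 1) := hK.prod (isCompact_sphere _ _)
  obtain ⟨⟨θs, xs⟩, hmem, φ, hφ, hlim⟩ := hcomp.tendsto_subseq (x := fun n => (θ n, x n))
    (fun n => ⟨hθ n, by rw [mem_sphere_zero_iff_norm]; exact hx1 n⟩)
  have hθs : θs ∈ K := hmem.1
  have hxs : ‖xs‖ = 1 := by simpa using hmem.2
  have hl1 : Tendsto (fun n => θ (φ n)) atTop (𝓝 θs) := (continuous_fst.tendsto _).comp hlim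
  have hl2 : Tendsto (fun n => x (φ n)) atTop (𝓝 xs) := (continuous_snd.tendsto _).comp hlim
  have hzero : ∀ p, ∑ j' : 𝓜, xs j' * tc (WmC f j') θs p = 0 := by
    intro p
    have h4 : Tendsto (fun n => ∑ j' : 𝓜, x (φ n) j' * tc (WmC f j') (θ (φ n)) p) atTop
        (𝓝 (∑ j' : 𝓜, xs j' * tc (WmC f j') θs p)) := by
      refine tendsto_finsetSum _ fun j' _ => ?_
      refine Tendsto.mul ((continuous_apply j').continuousAt.tendsto.comp hl2) ?_
      exact (tc_continuousAt (WmC_an f (fun i => han i θs hθs) j') p).tendsto.comp hl1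
    have h5 : Tendsto (fun n => ∑ j' : 𝓜, x (φ n) j' * tc (WmC f j') (θ (φ n)) p) atTop (𝓝 0) := by
      rw [tendsto_zero_iff_norm_tendsto_zero]
      have h6 : Tendsto (fun n : ℕ => (((φ n : ℕ) : ℝ) + 1)⁻¹) atTop (𝓝 0) := by
        have h7 : Tendsto (fun n : ℕ => ((n : ℝ) + 1)⁻¹) atTop (𝓝 0) :=
          (tendsto_natCast_atTop_atTop.atTop_add tendsto_const_nhds).inv_tendsto_atTop
        exact h7.comp hφ.tendsto_atTop
      refine squeeze_zero' (Eventually.of_forall fun n => norm_nonneg _) ?_ h6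
      filter_upwards [eventually_ge_atTop p] with n hn
      exact hxp (φ n) p (hn.trans (hφ.id_le n))
    exact tendsto_nhds_unique h4 h5
  have h8 := WmC_indep f θs (fun i => han i θs hθs) (hind θs hθs) 𝓜
    (fun j => if h : j ∈ 𝓜 then xs ⟨j, h⟩ else 0) (by
      intro p
      refine Eq.trans ?_ (hzero p)
      rw [← Finset.sum_coe_sort 𝓜 (fun j => (if h : j ∈ 𝓜 then xs ⟨j, h⟩ else 0) * tc (WmC f j) θs p)]
      refine Finset.sum_congr rfl fun j _ => ?_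
      rw [dif_pos j.2])
  have h9 : xs = 0 := by
    funext j
    have := h8 j j.2
    rwa [dif_pos j.2] at this
  rw [h9, norm_zero] at hxs
  exact zero_ne_one hxs

/-- the charts of a family of functions, analytic and independent on a compact set -/
noncomputable def chartsC (f : σ → ℂ → ℂ) (K : Set ℂ) (hK : IsCompact K) (han : ∀ i, ∀ t ∈ K, AnalyticAt ℂ (f i) t)
    (hind : ∀ t ∈ K, LocInd f t) (δ : ℝ) (hδ : 0 < δ)
    (hδ' : ∀ t ∈ Metric.cthickening δ K, ∀ i, AnalyticAt ℂ (f i) t) : Charts σ where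
  Θ := K
  τ θ := θ
  dom θ := Metric.closedBall (θ : ℂ) (δ / 2)
  u _ i t := f i t
  a θ j p := tc (WmC f j) θ p
  τb := by
    obtain ⟨M, hM⟩ := hK.isBounded.exists_norm_le
    exact ⟨M, fun θ => hM θ θ.2⟩
  ab := by
    intro j p
    obtain ⟨M, -, h, -⟩ := taylor_compact hK hδ (fun t ht => WmC_an f (hδ' t ht) j)
    exact ⟨M * (δ⁻¹) ^ p, fun θ => h θ θ.2 p⟩
  approx := by
    intro j P
    obtain ⟨M, -, -, h⟩ := taylor_compact hK hδ (fun t ht => WmC_an f (hδ' t ht) j)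
    refine ⟨2 * M * (δ⁻¹) ^ P, fun θ t ht => ?_⟩
    rw [WmC_mv]
    exact h θ θ.2 t ht P
  nd := by
    intro 𝓜
    obtain ⟨N₀, c₀, hc₀, h⟩ := nd_compact f hK han hind 𝓜
    exact ⟨N₀, c₀, hc₀, fun θ g => h θ θ.2 g⟩

end Pool.Agent.Y124
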