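import Mathlib

/-!
# Determinants of vectors which are close to a space of small dimension
-/

set_option autoImplicit false

open Finset

namespace Pool.Agent.Y124

variable {𝕜 : Type*} [RCLike 𝕜]

/-- Leibniz bound with a different bound for each row -/
theorem norm_det_le_rows {I : Type*} [Fintype I] [DecidableEq I] (V : I → I → 𝕜) (c : I → ℝ)
    (hV : ∀ i j, ‖V i j‖ ≤ c i) :
    ‖(Matrix.of V).det‖ ≤ ((Fintype.card I).factorial : ℝ) * ∏ i, c i := by
  classical
  rw [← Matrix.det_transpose, Matrix.det_apply]
  refine (norm_sum_le _ _).trans ?_
  have h1 : ∀ σ ∈ (univ : Finset (Equiv.Perm I)),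
      ‖Equiv.Perm.sign σ • ∏ i, (Matrix.of V).transpose (σ i) i‖ ≤ ∏ i, c i := by
    intro σ _
    have h2 : ‖Equiv.Perm.sign σ • ∏ i, (Matrix.of V).transpose (σ i) i‖ =
        ‖∏ i, (Matrix.of V).transpose (σ i) i‖ := by
      rcases Int.units_eq_one_or (Equiv.Perm.sign σ) with h | h <;> rw [h] <;> simp
    rw [h2, norm_prod]
    refine prod_le_prod (fun i _ => norm_nonneg _) fun i _ => ?_
    simpa using hV i (σ i)
  refine (sum_le_sum h1).trans ?_
  rw [sum_const, nsmul_eq_mul, card_univ, Fintype.card_perm]

/-- `V b = ∑ β, x b β • C β + η • E b` with bounded coefficients: the determinant is at most a constant times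
`η ^ (card I - card B)`. -/
theorem norm_det_le_close {I B : Type*} [Fintype I] [DecidableEq I] [Fintype B] [DecidableEq B]
    (V E : I → I → 𝕜) (x : I → B → 𝕜) (Cv : B → I → 𝕜) (η C : ℝ) (hη0 : 0 ≤ η) (hη1 : η ≤ 1) (hC : 0 ≤ C)
    (hV : ∀ b a, V b a = (∑ β, x b β * Cv β a) + (η : 𝕜) * E b a)
    (hx : ∀ b β, ‖x b β‖ ≤ 1) (hCv : ∀ β a, ‖Cv β a‖ ≤ C) (hE : ∀ b a, ‖E b a‖ ≤ C) :
    ‖(Matrix.of V).det‖ ≤ (((Fintype.card B + 1) ^ Fintype.card I : ℕ) : ℝ) *
      (((Fintype.card I).factorial : ℝ) * C ^ Fintype.card I) * η ^ (Fintype.card I - Fintype.card B) := by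
  classical
  -- rows
  let X : I → Option B → I → 𝕜 := fun b o => match o with
    | none => fun a => (η : 𝕜) * E b a
    | some β => fun a => x b β * Cv β a
  have hVX : V = fun b => ∑ o, X b o := by
    funext b a
    rw [hV, Finset.sum_apply, Fintype.sum_option, add_comm]
  have hdet : (Matrix.of V).det = ∑ f : I → Option B, (Matrix.of fun b => X b (f b)).det := by
    have := MultilinearMap.map_sum (Matrix.detRowAlternating (n := I) (R := 𝕜)).toMultilinearMap X
    rw [hVX]
    exact this
  rw [hdet]
  refine (norm_sum_le _ _).trans ?_
  have hterm : ∀ f ∈ (univ : Finset (I → Option B)), ‖(Matrix.of fun b => X b (f b)).det‖ ≤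
      (((Fintype.card I).factorial : ℝ) * C ^ Fintype.card I) * η ^ (Fintype.card I - Fintype.card B) := by
    intro f _
    by_cases hinj : ∃ b b' : I, b ≠ b' ∧ f b = f b' ∧ f b ≠ none
    · obtain ⟨b, b', hbb, hf, hne⟩ := hinj
      obtain ⟨β, hβ⟩ := Option.ne_none_iff_exists'.1 hne
      have hβ' : f b' = some β := by rw [← hf, hβ]
      have hz : (Matrix.of fun b => X b (f b)).det = 0 := by
        -- rows `b` and `b'` are proportional to `Cv β`
        have h1 : (Matrix.of fun c => X c (f c)) =
            ((Matrix.of fun c => X c (f c)).updateRow b (x b β • Cv β)) := by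
          ext c a
          rw [Matrix.updateRow_apply]
          split_ifs with hc
          · subst hc
            simp [X, hβ]
          · rfl
        rw [h1, Matrix.det_updateRow_smul]
        have h2 : ((Matrix.of fun c => X c (f c)).updateRow b (Cv β)) =
            (((Matrix.of fun c => X c (f c)).updateRow b (Cv β)).updateRow b' (x b' β • Cv β)) := by
          ext c a
          rw [Matrix.updateRow_apply (i := b')]
          split_ifs with hc
          · subst hc
            rw [Matrix.updateRow_apply, if_neg (Ne.symm hbb)]
            simp [X, hβ']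
          · rfl
        rw [h2, Matrix.det_updateRow_smul]
        rw [Matrix.det_zero_of_row_eq hbb]
        · simp
        · rw [Matrix.updateRow_self, Matrix.updateRow_ne hbb, Matrix.updateRow_self]
      rw [hz, norm_zero]
      positivity
    · push Not at hinj
      -- the number of rows of type `none`
      let N : Finset I := univ.filter fun b => f b = none
      have hcard : Fintype.card I - Fintype.card B ≤ N.card := by
        have h1 : (univ.filter fun b => ¬ f b = none).card ≤ Fintype.card B := by
          have : (univ.filter fun b => ¬ f b = none).card ≤ (univ.image (some : B → Option B)).card := by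
            refine Finset.card_le_card_of_injOn f ?_ ?_
            · intro b hb
              rw [Finset.mem_coe, mem_filter] at hb
              obtain ⟨β, hβ⟩ := Option.ne_none_iff_exists'.1 hb.2
              simp [hβ]
            · intro b hb b' hb' hbb
              rw [Finset.mem_coe, mem_filter] at hb hb'
              by_contra hne
              exact hb.2 (hinj b b' hne hbb)
          refine this.trans ?_
          refine card_image_le.trans ?_
          simp
        have h2 := card_filter_add_card_filter_not (s := (univ : Finset I)) (fun b => f b = none)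
        rw [card_univ] at h2
        change _ ≤ (univ.filter fun b => f b = none).card
        omega
      have hrow := norm_det_le_rows (fun b => X b (f b)) (fun b => if f b = none then η * C else C) (by
        intro i j
        rcases h : f i with _ | β
        · simp only [X, if_true, norm_mul, RCLike.norm_ofReal, abs_of_nonneg hη0]
          exact mul_le_mul_of_nonneg_left (hE i j) hη0
        · simp only [X, norm_mul]
          rw [if_neg (by simp)]
          calc ‖x i β‖ * ‖Cv β j‖ ≤ 1 * C := mul_le_mul (hx i β) (hCv β j) (norm_nonneg _) zero_le_one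
            _ = C := one_mul C)
      refine hrow.trans ?_
      have hprod : ∏ b : I, (if f b = none then η * C else C) = C ^ Fintype.card I * η ^ N.card := by
        have : ∀ b : I, (if f b = none then η * C else C) = C * (if f b = none then η else 1) := by
          intro b
          split_ifs <;> ring
        rw [Finset.prod_congr rfl fun b _ => this b, prod_mul_distrib, prod_const, card_univ,
          Finset.prod_ite, prod_const, prod_const_one, mul_one]
      rw [hprod, mul_assoc]
      have : η ^ N.card ≤ η ^ (Fintype.card I - Fintype.card B) := pow_le_pow_of_le_one hη0 hη1 hcard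
      gcongr
  refine (sum_le_sum hterm).trans ?_
  rw [sum_const, nsmul_eq_mul, card_univ, Fintype.card_fun, Fintype.card_option]
  exact le_of_eq (mul_assoc _ _ _).symm

end Pool.Agent.Y124
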