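import Pool.Agent.Y124.StdC

/-!
# Complete elliptic integrals of complex modulus
-/

set_option autoImplicit false

open Filter Topology MvPolynomial Complex

namespace Pool.Agent.Y124

/-- `∫_0^{π/2} (1 - m sin² θ)^s dθ` -/
noncomputable def ellI (s m : ℂ) : ℂ := ∫ θ in (0 : ℝ)..(Real.pi / 2), (1 - m * (Real.sin θ : ℂ) ^ 2) ^ s

theorem one_sub_mem {m : ℂ} (hm : 1 - m ∈ slitPlane) (θ : ℝ) : 1 - m * (Real.sin θ : ℂ) ^ 2 ∈ slitPlane := by
  have h0 : 0 ≤ Real.sin θ ^ 2 := sq_nonneg _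
  have h1 : Real.sin θ ^ 2 ≤ 1 := Real.sin_sq_le_one θ
  have h2 : (1 : ℂ) + (Real.sin θ ^ 2) • (-m) ∈ slitPlane := by
    apply starConvex_one_slitPlane.add_smul_mem _ h0 h1
    rw [← sub_eq_add_neg]
    exact hm
  have h3 : 1 - m * (Real.sin θ : ℂ) ^ 2 = (1 : ℂ) + (Real.sin θ ^ 2) • (-m) := by
    rw [Complex.real_smul]
    push_cast
    ring
  rw [h3]
  exact h2

theorem isOpen_dom : IsOpen {m : ℂ | 1 - m ∈ slitPlane} :=
  isOpen_slitPlane.preimage (continuous_const.sub continuous_id)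

theorem ellI_hasDerivAt (s m : ℂ) (hm : 1 - m ∈ slitPlane) : ∃ v, HasDerivAt (ellI s) v m := by
  -- a closed ball in the domain
  obtain ⟨ρ, hρ, hball⟩ := Metric.isOpen_iff.1 isOpen_dom m hm
  have hsub : Metric.closedBall m (ρ / 2) ⊆ {m : ℂ | 1 - m ∈ slitPlane} :=
    (Metric.closedBall_subset_ball (by linarith)).trans hball
  let F : ℂ → ℝ → ℂ := fun m θ => (1 - m * (Real.sin θ : ℂ) ^ 2) ^ s
  let F' : ℂ → ℝ → ℂ := fun m θ => s * (1 - m * (Real.sin θ : ℂ) ^ 2) ^ (s - 1) * (-((Real.sin θ : ℂ) ^ 2))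
  have hc : ContinuousOn (fun x : ℂ × ℝ => F' x.1 x.2) (Metric.closedBall m (ρ / 2) ×ˢ Set.Icc 0 (Real.pi / 2)) := by
    have h1 : ContinuousOn (fun x : ℂ × ℝ => 1 - x.1 * (Real.sin x.2 : ℂ) ^ 2)
        (Metric.closedBall m (ρ / 2) ×ˢ Set.Icc 0 (Real.pi / 2)) := by fun_prop
    have h2 : ContinuousOn (fun x : ℂ × ℝ => (1 - x.1 * (Real.sin x.2 : ℂ) ^ 2) ^ (s - 1))
        (Metric.closedBall m (ρ / 2) ×ˢ Set.Icc 0 (Real.pi / 2)) := by
      apply h1.cpow_const
      rintro ⟨z, θ⟩ hx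
      exact one_sub_mem (hsub hx.1) θ
    exact (continuousOn_const.mul h2).mul (by fun_prop)
  obtain ⟨C, hC⟩ := ((isCompact_closedBall m (ρ / 2)).prod isCompact_Icc).exists_bound_of_continuousOn hc
  have hcont : ∀ z, 1 - z ∈ slitPlane → Continuous (F z) := by
    intro z hz
    have h1 : Continuous fun θ : ℝ => 1 - z * (Real.sin θ : ℂ) ^ 2 := by fun_prop
    exact h1.cpow continuous_const (one_sub_mem hz)
  have hcont' : ∀ z, 1 - z ∈ slitPlane → Continuous (F' z) := by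
    intro z hz
    have h1 : Continuous fun θ : ℝ => 1 - z * (Real.sin θ : ℂ) ^ 2 := by fun_prop
    have h2 : Continuous fun θ : ℝ => (1 - z * (Real.sin θ : ℂ) ^ 2) ^ (s - 1) :=
      h1.cpow continuous_const (one_sub_mem hz)
    exact (continuous_const.mul h2).mul (by fun_prop)
  have h := intervalIntegral.hasDerivAt_integral_of_dominated_loc_of_deriv_le (𝕜 := ℂ) (F := F) (F' := F') (x₀ := m)
    (a := 0) (b := Real.pi / 2) (μ := MeasureTheory.volume) (s := Metric.ball m (ρ / 2)) (bound := fun _ => C)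
    (Metric.ball_mem_nhds m (by linarith))
    (by
      filter_upwards [Metric.ball_mem_nhds m (by linarith : 0 < ρ / 2)] with z hz
      exact (hcont z (hsub (Metric.ball_subset_closedBall hz))).aestronglyMeasurable)
    ((hcont m hm).intervalIntegrable _ _) ((hcont' m hm).aestronglyMeasurable)
    (by
      refine Eventually.of_forall fun θ hθ z hz => ?_
      rw [Set.uIoc_of_le (by positivity)] at hθ
      exact hC (z, θ) ⟨Metric.ball_subset_closedBall hz, ⟨hθ.1.le, hθ.2⟩⟩)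
    (by simp)
    (by
      refine Eventually.of_forall fun θ _ z hz => ?_
      have h1 : HasDerivAt (fun z : ℂ => 1 - z * (Real.sin θ : ℂ) ^ 2) (-((Real.sin θ : ℂ) ^ 2)) z := by
        have := ((hasDerivAt_id z).mul_const ((Real.sin θ : ℂ) ^ 2)).const_sub 1
        simpa using this
      exact h1.cpow_const (one_sub_mem (hsub (Metric.ball_subset_closedBall hz)) θ))
  exact ⟨_, h.2⟩

theorem ellI_analyticAt (s m : ℂ) (hm : 1 - m ∈ slitPlane) : AnalyticAt ℂ (ellI s) m := by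
  have h1 : DifferentiableOn ℂ (ellI s) {m : ℂ | 1 - m ∈ slitPlane} := by
    intro z hz
    obtain ⟨v, hv⟩ := ellI_hasDerivAt s z hz
    exact hv.differentiableAt.differentiableWithinAt
  exact (h1.analyticOnNhd isOpen_dom) m hm

end Pool.Agent.Y124
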