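import Pool.Agent.Y124.Germ
import Pool.Agent.Y124.EllInd
import Pool.Agent.Y124.Ab

/-!
# The periods of a family of elliptic curves as functions of the parameter
-/

set_option autoImplicit false

open Filter Topology MvPolynomial

namespace Pool.Agent.Y124

open Pool.Agent.Y120.GH (An FF em em_apply em_zero_iff em_const em_congr)

/-- the periods `ω₁, ω₂, η₁` of `y² = (x - e₁)(x - e₂)(x - e₃)`, `e₂ - e₁ = v²`, `e₃ - e₁ = l v²`, `e₁ + e₂ + e₃ = 0` -/
noncomputable def pf (l v : ℂ) (i : Fin 3) : ℂ :=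
  ![4 / v * fC 0 l, 4 * Complex.I / v * fC 2 l, 4 / v * (-(v ^ 2 * (1 + l) / 3) * fC 0 l + v ^ 2 * (fC 0 l - fC 1 l))] i

/-- the equations between the parameter `s` and `l`, `v` -/
def EQ (a b : Polynomial ℂ) (s l v : ℂ) : Prop :=
  a.eval s = -(v ^ 4 * (l ^ 2 - l + 1)) / 3 ∧ b.eval s = v ^ 6 * ((1 + l) * (2 - l) * (2 * l - 1)) / 27

theorem EQ_disc {a b : Polynomial ℂ} {s l v : ℂ} (h : EQ a b s l v) :
    4 * a.eval s ^ 3 + 27 * b.eval s ^ 2 = -(v ^ 12 * (l ^ 2 * (1 - l) ^ 2)) := by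
  rw [h.1, h.2]
  ring

theorem Dom_ne {l : ℂ} (hl : l ∈ Dom) : l ≠ 0 ∧ 1 - l ≠ 0 :=
  ⟨Complex.slitPlane_ne_zero hl.1, Complex.slitPlane_ne_zero hl.2⟩

theorem eval_em {p : ℂ} (P : Polynomial ℂ) (f : An {p}) (g : An {p}) (h : ∀ᶠ s in 𝓝 p, g.1 s = P.eval (f.1 s)) :
    em p g = Polynomial.aeval (em p f) P := by
  obtain ⟨F, h1, h2⟩ := aeval_em (p := p) (fun _ : Unit => f) (Polynomial.aeval (X () : MvPolynomial Unit ℂ) P)
  have h3 : em p g = em p F := by
    apply em_congr
    filter_upwards [h] with s hs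
    rw [hs, h2]
    have := eval_aeval_X (fun _ : Unit => f.1 s) () P
    exact this.symm
  rw [h3, ← h1]
  have h4 := Polynomial.map_aeval_eq_aeval_map
    (φ := RingHom.id ℂ) (ψ := ((aeval fun _ : Unit => em p f : MvPolynomial Unit ℂ →ₐ[ℂ] FF) : MvPolynomial Unit ℂ →+* FF))
    (by ext c; simp) P (X ())
  simp only [Polynomial.map_id, RingHom.coe_coe, aeval_X] at h4
  exact h4

/-- the periods of a family and the parameter are algebraically independent -/
theorem fam_locInd (a b : Polynomial ℂ) (hb : b ≠ 0) (hnc : ∀ c : ℂ, a ^ 3 ≠ Polynomial.C c * b ^ 2) (la w : ℂ → ℂ)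
    (s1 : ℂ) (hla : AnalyticAt ℂ la s1) (hw : AnalyticAt ℂ w s1) (hD : la s1 ∈ Dom) (hw0 : w s1 ≠ 0)
    (heq : ∀ᶠ s in 𝓝 s1, EQ a b s (la s) (w s)) (hf : ∀ y, AnalyticAt ℂ (fun s => pf (la s) (w s) y) s1) :
    LocInd (fun y s => pf (la s) (w s) y) s1 := by
  classical
  set B : ℂ → ℂ := fun l => (1 + l) * (2 - l) * (2 * l - 1) with hB
  set A : ℂ → ℂ := fun l => l ^ 2 - l + 1 with hA
  have hwe : ∀ᶠ s in 𝓝 s1, w s ≠ 0 := hw.continuousAt.eventually_ne hw0
  have hDe : ∀ᶠ s in 𝓝 s1, la s ∈ Dom := hla.continuousAt.eventually_mem (isOpen_Dom.mem_nhds hD)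
  -- the parameter is not constant
  have hcn : ¬ ∀ᶠ s in 𝓝 s1, la s = la s1 := by
    intro hcon
    have h1 : ∀ᶠ s in 𝓝 s1, (a ^ 3 * Polynomial.C (B (la s1) ^ 2)).eval s =
        (Polynomial.C (-27 * A (la s1) ^ 3) * b ^ 2).eval s := by
      filter_upwards [hcon, heq] with s h2 h3
      rw [h2] at h3
      simp only [Polynomial.eval_mul, Polynomial.eval_pow, Polynomial.eval_C, h3.1, h3.2, hA, hB]
      ring
    have h2 : a ^ 3 * Polynomial.C (B (la s1) ^ 2) = Polynomial.C (-27 * A (la s1) ^ 3) * b ^ 2 := by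
      apply Polynomial.eq_of_infinite_eval_eq
      exact infinite_of_mem_nhds s1 h1
    by_cases hB0 : B (la s1) = 0
    · have h3 : ∀ᶠ s in 𝓝 s1, b.eval s = 0 := by
        filter_upwards [hcon, heq] with s h4 h5
        rw [h5.2, h4]
        change w s ^ 6 * B (la s1) / 27 = 0
        rw [hB0]
        ring
      apply hb
      apply Polynomial.eq_zero_of_infinite_isRoot
      exact infinite_of_mem_nhds s1 h3
    · apply hnc ((-27 * A (la s1) ^ 3) / B (la s1) ^ 2)
      have h3 : Polynomial.C (B (la s1) ^ 2) ≠ 0 := by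
        rw [Ne, Polynomial.C_eq_zero]
        exact pow_ne_zero _ hB0
      apply mul_right_cancel₀ h3
      rw [h2, mul_assoc, mul_comm (b ^ 2), ← mul_assoc, ← Polynomial.C_mul, div_mul_cancel₀ _ (pow_ne_zero _ hB0)]
  refine locInd_alg fC la s1 hla hcn (fun y => fC_analytic y _ hD) (fC_locInd _ hD) _ hf ?_
  set 𝒜 := Algebra.adjoin ℂ (Set.range fun o => em s1 (gm (fun y s => pf (la s) (w s) y) s1 hf o)) with h𝒜
  -- germs
  let gl : An {s1} := ⟨la, by intro z hz; rw [Set.mem_singleton_iff] at hz; rw [hz]; exact hla⟩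
  let gw : An {s1} := ⟨w, by intro z hz; rw [Set.mem_singleton_iff] at hz; rw [hz]; exact hw⟩
  let gs : An {s1} := gm (fun y s => pf (la s) (w s) y) s1 hf none
  let gf : Fin 3 → An {s1} := fun y => gm (fun y s => pf (la s) (w s) y) s1 hf (some y)
  have hgs : em s1 gs ∈ 𝒜 := Algebra.subset_adjoin ⟨none, rfl⟩
  have hgf : ∀ y, em s1 (gf y) ∈ 𝒜 := fun y => Algebra.subset_adjoin ⟨some y, rfl⟩
  let ga : An {s1} := ⟨fun s => a.eval s, fun z _ => a.differentiable.analyticAt z⟩
  let gb : An {s1} := ⟨fun s => b.eval s, fun z _ => b.differentiable.analyticAt z⟩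
  have ega : em s1 ga = Polynomial.aeval (em s1 gs) a := eval_em a gs ga (Eventually.of_forall fun s => rfl)
  have egb : em s1 gb = Polynomial.aeval (em s1 gs) b := eval_em b gs gb (Eventually.of_forall fun s => rfl)
  have hsub : Algebra.adjoin ℂ {em s1 gs} ≤ 𝒜 := Algebra.adjoin_le (by simpa using hgs)
  have hga : em s1 ga ∈ 𝒜 := by
    rw [ega]
    exact hsub (Polynomial.aeval_mem_adjoin_singleton _ _)
  have hgb : em s1 gb ∈ 𝒜 := by
    rw [egb]
    exact hsub (Polynomial.aeval_mem_adjoin_singleton _ _)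
  have hal : ∀ x ∈ 𝒜, IsAlgebraic 𝒜 x := fun x hx => isAlgebraic_algebraMap (⟨x, hx⟩ : 𝒜)
  have hcon : ∀ c : ℂ, IsAlgebraic 𝒜 (algebraMap ℂ FF c) := fun c => hal _ (Subalgebra.algebraMap_mem _ c)
  -- `λ` is algebraic
  have hlalg : IsAlgebraic 𝒜 (em s1 gl) := by
    let a' : 𝒜 := ⟨em s1 ga, hga⟩
    let b' : 𝒜 := ⟨em s1 gb, hgb⟩
    refine ⟨Polynomial.C (b' ^ 2) * nuP.map (algebraMap ℂ 𝒜) - Polynomial.C (a' ^ 3) * deP.map (algebraMap ℂ 𝒜), ?_, ?_⟩
    · intro h0
      have h1 := congrArg (Polynomial.eval 0) h0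
      simp only [Polynomial.eval_sub, Polynomial.eval_mul, Polynomial.eval_C, Polynomial.eval_zero] at h1
      have h2 : ∀ Q : Polynomial ℂ, (Q.map (algebraMap ℂ 𝒜)).eval 0 = algebraMap ℂ 𝒜 (Q.eval 0) := by
        intro Q
        have := Polynomial.eval_map_algebraMap (B := 𝒜) Q (0 : 𝒜)
        rw [this]
        have h3 := Polynomial.aeval_algebraMap_apply 𝒜 (0 : ℂ) Q
        rw [map_zero] at h3
        rw [h3]
        rfl
      rw [h2, h2, nuP_eval, deP_eval] at h1
      have h4 := congrArg (Subtype.val) h1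
      have h5 : em s1 gb ^ 2 * algebraMap ℂ FF (-27 * ((0 : ℂ) ^ 2 - 0 + 1) ^ 3) -
          em s1 ga ^ 3 * algebraMap ℂ FF ((((1 : ℂ) + 0) * (2 - 0) * (2 * 0 - 1)) ^ 2) = 0 := h4
      have h6 : ∀ᶠ s in 𝓝 s1, b.eval s ^ 2 * (-27 * ((0 : ℂ) ^ 2 - 0 + 1) ^ 3) -
          a.eval s ^ 3 * ((((1 : ℂ) + 0) * (2 - 0) * (2 * 0 - 1)) ^ 2) = 0 := by
        rw [← em_cst (p := s1), ← em_cst (p := s1), ← map_pow, ← map_pow, ← map_mul, ← map_mul, ← map_sub,
          em_zero_iff] at h5
        filter_upwards [h5] with s hs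
        exact hs
      obtain ⟨s, h7, h8, h9, h10⟩ := (h6.and (heq.and (hwe.and hDe))).exists
      have h11 := EQ_disc h8
      have h12 : w s ^ 12 * (la s ^ 2 * (1 - la s) ^ 2) = 0 := by
        have e1 : -(27 * b.eval s ^ 2) - 4 * a.eval s ^ 3 = 0 := by
          rw [← h7]
          ring
        rw [h11.symm.trans (by linear_combination (-1 : ℂ) * e1) |> neg_eq_zero.mp]
      have h13 := Dom_ne h10
      exact (mul_ne_zero (pow_ne_zero _ h9) (mul_ne_zero (pow_ne_zero _ h13.1) (pow_ne_zero _ h13.2))) h12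
    · simp only [map_sub, map_mul, Polynomial.aeval_C]
      have h1 : ∀ Q : Polynomial ℂ, Polynomial.aeval (em s1 gl) (Q.map (algebraMap ℂ 𝒜)) =
          Polynomial.aeval (em s1 gl) Q := fun Q => Polynomial.aeval_map_algebraMap 𝒜 _ Q
      rw [h1, h1]
      let gnu : An {s1} := ⟨fun s => nuP.eval (la s), by
        intro z hz; rw [Set.mem_singleton_iff] at hz; rw [hz]
        exact AnalyticAt.fun_comp (f := la) (nuP.differentiable.analyticAt _) hla⟩
      let gde : An {s1} := ⟨fun s => deP.eval (la s), by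
        intro z hz; rw [Set.mem_singleton_iff] at hz; rw [hz]
        exact AnalyticAt.fun_comp (f := la) (deP.differentiable.analyticAt _) hla⟩
      rw [← eval_em nuP gl gnu (Eventually.of_forall fun s => rfl), ← eval_em deP gl gde (Eventually.of_forall fun s => rfl)]
      change em s1 gb ^ 2 * em s1 gnu - em s1 ga ^ 3 * em s1 gde = 0
      rw [← map_pow, ← map_pow, ← map_mul, ← map_mul, ← map_sub, em_zero_iff]
      filter_upwards [heq] with s hs
      change b.eval s ^ 2 * nuP.eval (la s) - a.eval s ^ 3 * deP.eval (la s) = 0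
      rw [nuP_eval, deP_eval, hs.1, hs.2]
      ring
  -- `w` is algebraic
  have hAl : IsAlgebraic 𝒜 (em s1 gl ^ 2 - em s1 gl + 1) :=
    ((hlalg.pow 2).sub hlalg).add (hal 1 (one_mem _))
  have hwalg : IsAlgebraic 𝒜 (em s1 gw) := by
    by_cases hA0 : em s1 gl ^ 2 - em s1 gl + 1 = 0
    · -- then `λ` is constant
      exfalso
      rw [← map_one (em s1), ← map_pow, ← map_sub, ← map_add, em_zero_iff] at hA0
      have h1 : ∀ᶠ s in 𝓝 s1, a.eval s = 0 := by
        filter_upwards [hA0, heq] with s h2 h3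
        have h4 : la s ^ 2 - la s + 1 = 0 := h2
        rw [h3.1, h4]
        ring
      have h2 : a = 0 := by
        apply Polynomial.eq_zero_of_infinite_isRoot
        exact infinite_of_mem_nhds s1 h1
      apply hnc 0
      rw [h2, map_zero]
      ring
    · have h1 : em s1 gw ^ 4 = -(em s1 ga * algebraMap ℂ FF 3) * (em s1 gl ^ 2 - em s1 gl + 1)⁻¹ := by
        rw [eq_mul_inv_iff_mul_eq₀ hA0, ← em_cst (p := s1), ← map_one (em s1), ← map_pow, ← map_pow, ← map_sub,
          ← map_add, ← map_mul, ← map_mul, ← map_neg]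
        apply em_congr
        filter_upwards [heq] with s hs
        change w s ^ 4 * (la s ^ 2 - la s + 1) = -(a.eval s * 3)
        rw [hs.1]
        ring
      have h2 : IsAlgebraic 𝒜 (em s1 gw ^ 4) := by
        rw [h1]
        exact (((hal _ hga).mul (hcon 3)).neg).mul hAl.inv
      exact IsAlgebraic.of_pow (n := 4) (by norm_num) h2
  -- the integrals
  have hK : ∀ f : An {s1}, (∀ᶠ s in 𝓝 s1, f.1 s = fC 0 (la s)) → em s1 f = em s1 (gf 0) * em s1 gw * algebraMap ℂ FF (1 / 4) := by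
    intro f hf1
    rw [← em_cst (p := s1), ← map_mul, ← map_mul]
    apply em_congr
    filter_upwards [hf1, hwe] with s h1 h2
    rw [h1]
    change _ = pf (la s) (w s) 0 * w s * (1 / 4)
    simp only [pf, Matrix.cons_val_zero]
    field_simp
  have hKalg : ∀ f : An {s1}, (∀ᶠ s in 𝓝 s1, f.1 s = fC 0 (la s)) → IsAlgebraic 𝒜 (em s1 f) := by
    intro f hf1
    rw [hK f hf1]
    exact ((hal _ (hgf 0)).mul hwalg).mul (hcon _)
  intro o f hf1
  rcases o with _ | y
  · have h1 : em s1 f = em s1 gl := em_congr hf1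
    rw [h1]
    exact hlalg
  · fin_cases y
    · exact hKalg f hf1
    · -- `E`
      let gK : An {s1} := ⟨fun s => fC 0 (la s), by
        intro z hz; rw [Set.mem_singleton_iff] at hz; rw [hz]
        exact AnalyticAt.fun_comp (f := la) (fC_analytic 0 _ hD) hla⟩
      have hw0' : em s1 gw ≠ 0 := by
        intro h0
        rw [em_zero_iff] at h0
        exact hw0 h0.self_of_nhds
      have h1 : em s1 f = em s1 gK - (em s1 (gf 2) * em s1 gw * algebraMap ℂ FF (1 / 4) +
          em s1 gw ^ 2 * (1 + em s1 gl) * algebraMap ℂ FF (1 / 3) * em s1 gK) * (em s1 gw ^ 2)⁻¹ := by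
        rw [eq_sub_iff_add_eq, ← eq_sub_iff_add_eq', mul_inv_eq_iff_eq_mul₀ (pow_ne_zero _ hw0'), ← em_cst (p := s1), ← em_cst (p := s1), ← map_one (em s1),
          ← map_pow, ← map_add, ← map_mul, ← map_mul, ← map_mul, ← map_mul, ← map_mul, ← map_add, ← map_sub, ← map_mul]
        apply em_congr
        filter_upwards [hf1, hwe] with s h2 h3
        change pf (la s) (w s) 2 * w s * (1 / 4) + w s ^ 2 * (1 + la s) * (1 / 3) * fC 0 (la s) =
          (fC 0 (la s) - f.1 s) * w s ^ 2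
        rw [h2]
        simp only [pf, Matrix.cons_val, Option.elim_some]
        field_simp
        ring_nf
        rfl
      rw [h1]
      refine (hKalg gK (Eventually.of_forall fun s => rfl)).sub (IsAlgebraic.mul (IsAlgebraic.add ?_ ?_) (hwalg.pow 2).inv)
      · exact ((hal _ (hgf 2)).mul hwalg).mul (hcon _)
      · exact (((hwalg.pow 2).mul ((hal 1 (one_mem _)).add hlalg)).mul (hcon _)).mul
          (hKalg gK (Eventually.of_forall fun s => rfl))
    · have h1 : em s1 f = em s1 (gf 1) * em s1 gw * algebraMap ℂ FF (-(Complex.I / 4)) := by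
        rw [← em_cst (p := s1), ← map_mul, ← map_mul]
        apply em_congr
        filter_upwards [hf1, hwe] with s h2 h3
        rw [h2]
        change _ = pf (la s) (w s) 1 * w s * (-(Complex.I / 4))
        simp only [pf, Matrix.cons_val, Option.elim_some]
        field_simp
        rw [Complex.I_sq]
        ring_nf
        rfl
      rw [h1]
      exact ((hal _ (hgf 1)).mul hwalg).mul (hcon _)

end Pool.Agent.Y124
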