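import Pool.Agent.Y124.Root
import Pool.Agent.Y124.NFW

/-!
# Families of elliptic curves: the compact space of marked curves and its charts
-/

set_option autoImplicit false

open Filter Topology

namespace Pool.Agent.Y124

open Pool.Agent.Y120 (Pt)

/-- marked curve: parameter, roots, square root of `e₁ - e₀` -/
abbrev MC := ℂ × (Fin 3 → ℂ) × ℂ

def Cv (a b : Polynomial ℂ) (x : MC) : Prop :=
  (∀ X : ℂ, X ^ 3 + a.eval x.1 * X + b.eval x.1 = (X - x.2.1 0) * (X - x.2.1 1) * (X - x.2.1 2)) ∧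
    x.2.2 ^ 2 = x.2.1 1 - x.2.1 0

noncomputable def lam (x : MC) : ℂ := (x.2.1 2 - x.2.1 0) / (x.2.1 1 - x.2.1 0)

theorem Cv_sym {a b : Polynomial ℂ} {x : MC} (h : Cv a b x) :
    x.2.1 0 + x.2.1 1 + x.2.1 2 = 0 ∧
      a.eval x.1 = x.2.1 0 * x.2.1 1 + x.2.1 0 * x.2.1 2 + x.2.1 1 * x.2.1 2 ∧
      b.eval x.1 = -(x.2.1 0 * x.2.1 1 * x.2.1 2) := by
  have h0 := h.1 0
  have h1 := h.1 1
  have h2 := h.1 (-1)
  refine ⟨?_, ?_, ?_⟩
  · linear_combination (1 / 2 : ℂ) * h1 + (1 / 2 : ℂ) * h2 - h0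
  · linear_combination (1 / 2 : ℂ) * h1 - (1 / 2 : ℂ) * h2
  · linear_combination h0

theorem Cv_disc {a b : Polynomial ℂ} {x : MC} (h : Cv a b x) :
    4 * a.eval x.1 ^ 3 + 27 * b.eval x.1 ^ 2 =
      -((x.2.1 0 - x.2.1 1) ^ 2 * (x.2.1 0 - x.2.1 2) ^ 2 * (x.2.1 1 - x.2.1 2) ^ 2) := by
  obtain ⟨h1, h2, h3⟩ := Cv_sym h
  have h4 : x.2.1 2 = -x.2.1 0 - x.2.1 1 := by linear_combination h1
  rw [h2, h3, h4]
  ring

theorem roots_sum {A B e0 e1 e2 : ℂ} (h0 : e0 ^ 3 + A * e0 + B = 0) (h1 : e1 ^ 3 + A * e1 + B = 0)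
    (h2 : e2 ^ 3 + A * e2 + B = 0) (h01 : e0 ≠ e1) (h02 : e0 ≠ e2) (h12 : e1 ≠ e2) :
    e0 + e1 + e2 = 0 ∧ A = e0 * e1 + e0 * e2 + e1 * e2 ∧ B = -(e0 * e1 * e2) := by
  have k1 : e0 ^ 2 + e0 * e1 + e1 ^ 2 + A = 0 := by
    apply mul_left_cancel₀ (sub_ne_zero.2 h01)
    linear_combination h0 - h1
  have k2 : e0 ^ 2 + e0 * e2 + e2 ^ 2 + A = 0 := by
    apply mul_left_cancel₀ (sub_ne_zero.2 h02)
    linear_combination h0 - h2
  have k3 : e0 + e1 + e2 = 0 := by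
    apply mul_left_cancel₀ (sub_ne_zero.2 h12)
    linear_combination k1 - k2
  have k4 : e2 = -e0 - e1 := by linear_combination k3
  have k5 : A = e0 * e1 + e0 * e2 + e1 * e2 := by
    rw [k4]
    linear_combination k1
  refine ⟨k3, k5, ?_⟩
  rw [k5] at h0
  linear_combination h0 - e0 ^ 2 * k3

theorem EQ_of {a b : Polynomial ℂ} {s v e0 e1 e2 : ℂ} (h01 : e0 ≠ e1) (h1 : e0 + e1 + e2 = 0)
    (h2 : a.eval s = e0 * e1 + e0 * e2 + e1 * e2) (h3 : b.eval s = -(e0 * e1 * e2)) (hv : v ^ 2 = e1 - e0) :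
    EQ a b s ((e2 - e0) / (e1 - e0)) v := by
  have hne : e1 - e0 ≠ 0 := sub_ne_zero.2 (Ne.symm h01)
  have h4 : v ^ 4 = (e1 - e0) ^ 2 := by rw [← hv]; ring
  have h5 : v ^ 6 = (e1 - e0) ^ 3 := by rw [← hv]; ring
  have h6 : e2 = -e0 - e1 := by linear_combination h1
  refine ⟨?_, ?_⟩
  · rw [h2, h4, h6]
    field_simp
    ring
  · rw [h3, h5, h6]
    field_simp
    ring

theorem sqrt_near {v0 : ℂ} (hv0 : v0 ≠ 0) : ∀ᶠ v in 𝓝 v0, v0 * (v ^ 2 / v0 ^ 2) ^ ((2 : ℂ)⁻¹) = v := by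
  have h1 : ∀ᶠ v in 𝓝 v0, 0 < (v / v0).re := by
    have hc : ContinuousAt (fun v : ℂ => (v / v0).re) v0 :=
      (Complex.continuous_re.comp (continuous_id.div_const v0)).continuousAt
    refine hc.eventually_const_lt ?_
    change 0 < (v0 / v0).re
    rw [div_self hv0]
    norm_num
  filter_upwards [h1] with v hv
  rw [← div_pow, Complex.sq_cpow_two_inv hv]
  field_simp

theorem pf_analytic {la w : ℂ → ℂ} {s : ℂ} (hla : AnalyticAt ℂ la s) (hw : AnalyticAt ℂ w s) (hD : la s ∈ Dom)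
    (hw0 : w s ≠ 0) (y : Fin 3) : AnalyticAt ℂ (fun s => pf (la s) (w s) y) s := by
  have hf : ∀ i, AnalyticAt ℂ (fun s => fC i (la s)) s := fun i =>
    AnalyticAt.fun_comp (f := la) (fC_analytic i _ hD) hla
  fin_cases y
  · change AnalyticAt ℂ (fun s => 4 / w s * fC 0 (la s)) s
    exact (analyticAt_const.div hw hw0).mul (hf 0)
  · change AnalyticAt ℂ (fun s => 4 * Complex.I / w s * fC 2 (la s)) s
    exact (analyticAt_const.div hw hw0).mul (hf 2)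
  · change AnalyticAt ℂ (fun s => 4 / w s * (-(w s ^ 2 * (1 + la s) / 3) * fC 0 (la s) +
      w s ^ 2 * (fC 0 (la s) - fC 1 (la s)))) s
    refine (analyticAt_const.div hw hw0).mul (AnalyticAt.add (AnalyticAt.mul ?_ (hf 0)) ((hw.pow 2).mul ((hf 0).sub (hf 1))))
    exact (((hw.pow 2).mul (analyticAt_const.add hla)).div analyticAt_const (by norm_num)).neg

theorem fam_chart (a b : Polynomial ℂ) (hb : b ≠ 0) (hnc : ∀ c : ℂ, a ^ 3 ≠ Polynomial.C c * b ^ 2) (x0 : MC)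
    (hx0 : Cv a b x0) (hdi : 4 * a.eval x0.1 ^ 3 + 27 * b.eval x0.1 ^ 2 ≠ 0) (hl0 : lam x0 ∈ Dom) :
    ∃ (D : Set ℂ) (la w : ℂ → ℂ) (W : Set MC), IsCompact D ∧ W ∈ 𝓝 x0 ∧
      (∀ y, ∀ t ∈ D, AnalyticAt ℂ (fun s => pf (la s) (w s) y) t) ∧
      (∀ t ∈ D, LocInd (fun y s => pf (la s) (w s) y) t) ∧
      (∀ x ∈ W, Cv a b x → x.1 ∈ D ∧ la x.1 = lam x ∧ w x.1 = x.2.2) ∧
      ∀ x ∈ W, ∀ x' ∈ W, Cv a b x → Cv a b x' → x.1 = x'.1 → x = x' := by
  obtain ⟨s0, e0, v0⟩ := x0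
  have hsym := Cv_sym hx0
  rw [Cv_disc hx0] at hdi
  simp only at hsym hdi hl0
  obtain ⟨g1, g2, g3⟩ := hsym
  have hd01 : e0 0 ≠ e0 1 := by
    intro h
    apply hdi
    rw [h]
    ring
  have hd02 : e0 0 ≠ e0 2 := by
    intro h
    apply hdi
    rw [h]
    ring
  have hd12 : e0 1 ≠ e0 2 := by
    intro h
    apply hdi
    rw [h]
    ring
  have hroot : ∀ i : Fin 3, ∃ e : ℂ → ℂ, AnalyticAt ℂ e s0 ∧ e s0 = e0 i ∧
      (∀ᶠ s in 𝓝 s0, e s ^ 3 + a.eval s * e s + b.eval s = 0) ∧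
      ∀ᶠ p : ℂ × ℂ in 𝓝 (s0, e0 i), p.2 ^ 3 + a.eval p.1 * p.2 + b.eval p.1 = 0 → p.2 = e p.1 := by
    intro i
    apply root_chart
    · rw [hx0.1 (e0 i)]
      fin_cases i <;> simp
    · have h4 : e0 2 = -e0 0 - e0 1 := by linear_combination g1
      rw [g2]
      fin_cases i
      · intro h
        exact mul_ne_zero (sub_ne_zero.2 hd01) (sub_ne_zero.2 hd02) (by
          simp only [Fin.zero_eta, Fin.isValue] at h
          linear_combination h - 2 * e0 0 * g1)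
      · intro h
        exact mul_ne_zero (sub_ne_zero.2 (Ne.symm hd01)) (sub_ne_zero.2 hd12) (by
          simp only [Fin.mk_one, Fin.isValue] at h
          linear_combination h - 2 * e0 1 * g1)
      · intro h
        exact mul_ne_zero (sub_ne_zero.2 (Ne.symm hd02)) (sub_ne_zero.2 (Ne.symm hd12)) (by
          simp only [Fin.reduceFinMk, Fin.isValue] at h
          linear_combination h - 2 * e0 2 * g1)
  choose e he1 he2 he3 he4 using hroot
  have hv2 : v0 ^ 2 = e0 1 - e0 0 := hx0.2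
  have hv0 : v0 ≠ 0 := by
    intro h
    rw [h] at hv2
    exact hd01 (by linear_combination hv2)
  let de : ℂ → ℂ := fun s => e 1 s - e 0 s
  let la : ℂ → ℂ := fun s => (e 2 s - e 0 s) / de s
  let w : ℂ → ℂ := fun s => v0 * (de s / v0 ^ 2) ^ ((2 : ℂ)⁻¹)
  have hde0 : de s0 / v0 ^ 2 = 1 := by
    change (e 1 s0 - e 0 s0) / v0 ^ 2 = 1
    rw [he2, he2, hv2, div_self (sub_ne_zero.2 (Ne.symm hd01))]
  have hdean : ∀ s, (∀ i, AnalyticAt ℂ (e i) s) → AnalyticAt ℂ de s := fun s hs => (hs 1).sub (hs 0)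
  have hdean0 := hdean s0 he1
  have hdediv : ∀ s, AnalyticAt ℂ de s → AnalyticAt ℂ (fun s => de s / v0 ^ 2) s := fun s hs =>
    hs.div analyticAt_const (pow_ne_zero _ hv0)
  have hla0 : la s0 = lam (s0, e0, v0) := by
    change (e 2 s0 - e 0 s0) / (e 1 s0 - e 0 s0) = (e0 2 - e0 0) / (e0 1 - e0 0)
    rw [he2, he2, he2]
  have hlaan : ∀ s, (∀ i, AnalyticAt ℂ (e i) s) → de s ≠ 0 → AnalyticAt ℂ la s := fun s hs h0 =>
    ((hs 2).sub (hs 0)).div (hdean s hs) h0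
  have hde0' : de s0 ≠ 0 := by
    intro h
    rw [h, zero_div] at hde0
    exact zero_ne_one hde0
  have hwan : ∀ s, AnalyticAt ℂ de s → de s / v0 ^ 2 ∈ Complex.slitPlane → AnalyticAt ℂ w s := fun s hs h1 =>
    analyticAt_const.mul ((hdediv s hs).cpow analyticAt_const h1)
  have hball : ∀ᶠ s in 𝓝 s0, (∀ i, AnalyticAt ℂ (e i) s) ∧ (∀ i, ∀ᶠ s' in 𝓝 s, e i s' ^ 3 + a.eval s' * e i s' + b.eval s' = 0) ∧
      e 0 s ≠ e 1 s ∧ e 0 s ≠ e 2 s ∧ e 1 s ≠ e 2 s ∧ de s / v0 ^ 2 ∈ Complex.slitPlane ∧ la s ∈ Dom := by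
    have c : ∀ i, ContinuousAt (e i) s0 := fun i => (he1 i).continuousAt
    have cn : ∀ i j, e0 i ≠ e0 j → ∀ᶠ s in 𝓝 s0, e i s ≠ e j s := by
      intro i j hij
      have : ∀ᶠ s in 𝓝 s0, e i s - e j s ≠ 0 := ((c i).sub (c j)).eventually_ne (by
        change e i s0 - e j s0 ≠ 0
        rw [he2, he2]
        exact sub_ne_zero.2 hij)
      filter_upwards [this] with s hs
      exact sub_ne_zero.1 hs
    filter_upwards [eventually_all.2 fun i => (he1 i).eventually_analyticAt,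
      eventually_all.2 fun i => (he3 i).eventually_nhds, cn 0 1 hd01, cn 0 2 hd02, cn 1 2 hd12,
      (hdediv s0 hdean0).continuousAt.eventually_mem (Complex.isOpen_slitPlane.mem_nhds (by
        rw [hde0]; exact Complex.one_mem_slitPlane)),
      (hlaan s0 he1 hde0').continuousAt.eventually_mem (isOpen_Dom.mem_nhds (by rw [hla0]; exact hl0))]
      with s k1 k2 k3 k4 k5 k6 k7
    exact ⟨k1, k2, k3, k4, k5, k6, k7⟩
  obtain ⟨ρ, hρ, hB⟩ := Metric.eventually_nhds_iff_ball.1 hball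
  have hprop : ∀ t ∈ Metric.ball s0 ρ, AnalyticAt ℂ la t ∧ AnalyticAt ℂ w t ∧ la t ∈ Dom ∧ w t ≠ 0 ∧
      w t ^ 2 = e 1 t - e 0 t := by
    intro t ht
    obtain ⟨k1, k2, k3, k4, k5, k6, k7⟩ := hB t ht
    have hdt : de t ≠ 0 := sub_ne_zero.2 (Ne.symm k3)
    have hw2 : w t ^ 2 = e 1 t - e 0 t := by
      change (v0 * (de t / v0 ^ 2) ^ ((2 : ℂ)⁻¹)) ^ 2 = de t
      have h5 := Complex.cpow_nat_inv_pow (de t / v0 ^ 2) (n := 2) (by norm_num)
      rw [mul_pow]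
      push_cast at h5
      rw [h5]
      field_simp
    refine ⟨hlaan t k1 hdt, hwan t (hdean t k1) k6, k7, ?_, hw2⟩
    intro h0
    rw [h0] at hw2
    exact hdt (by change e 1 t - e 0 t = 0; rw [← hw2]; ring)
  have hxev : ∀ᶠ x in 𝓝 ((s0, e0, v0) : MC), Cv a b x → x.1 ∈ Metric.closedBall s0 (ρ / 2) ∧ (∀ i, x.2.1 i = e i x.1) ∧
      x.2.2 = w x.1 := by
    have c1 : Tendsto (fun x : MC => x.1) (𝓝 (s0, e0, v0)) (𝓝 s0) := continuous_fst.continuousAt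
    have c2 : ∀ i, Tendsto (fun x : MC => (x.1, x.2.1 i)) (𝓝 (s0, e0, v0)) (𝓝 (s0, e0 i)) := fun i =>
      (continuous_fst.prodMk ((continuous_apply i).comp (continuous_fst.comp continuous_snd))).continuousAt
    have c3 : Tendsto (fun x : MC => x.2.2) (𝓝 (s0, e0, v0)) (𝓝 v0) :=
      (continuous_snd.comp continuous_snd).continuousAt
    filter_upwards [c1.eventually (Metric.closedBall_mem_nhds s0 (half_pos hρ)),
      eventually_all.2 fun i => (c2 i).eventually (he4 i), c3.eventually (sqrt_near hv0)] with x k1 k2 k3 k4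
    have k5 : ∀ i, x.2.1 i = e i x.1 := by
      intro i
      apply k2 i
      rw [k4.1 (x.2.1 i)]
      fin_cases i <;> simp
    refine ⟨k1, k5, ?_⟩
    change x.2.2 = v0 * ((e 1 x.1 - e 0 x.1) / v0 ^ 2) ^ ((2 : ℂ)⁻¹)
    rw [← k5, ← k5, ← k4.2, k3]
  refine ⟨Metric.closedBall s0 (ρ / 2), la, w, {x | Cv a b x → x.1 ∈ Metric.closedBall s0 (ρ / 2) ∧
    (∀ i, x.2.1 i = e i x.1) ∧ x.2.2 = w x.1}, isCompact_closedBall _ _, hxev, ?_, ?_, ?_, ?_⟩
  · intro y t ht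
    obtain ⟨k1, k2, k3, k4, -⟩ := hprop t (Metric.closedBall_subset_ball (by linarith) ht)
    exact pf_analytic k1 k2 k3 k4 y
  · intro t ht
    have ht' := Metric.closedBall_subset_ball (by linarith : ρ / 2 < ρ) ht
    obtain ⟨k1, k2, k3, k4, -⟩ := hprop t ht'
    refine fam_locInd a b hb hnc la w t k1 k2 k3 k4 ?_ fun y => pf_analytic k1 k2 k3 k4 y
    filter_upwards [Metric.isOpen_ball.mem_nhds ht'] with s hs
    obtain ⟨j1, j2, j3, j4, j5, j6, j7⟩ := hB s hs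
    obtain ⟨-, -, -, -, l5⟩ := hprop s hs
    obtain ⟨m1, m2, m3⟩ := roots_sum (j2 0).self_of_nhds (j2 1).self_of_nhds (j2 2).self_of_nhds j3 j4 j5
    exact EQ_of j3 m1 m2 m3 l5
  · intro x hx hC
    obtain ⟨k1, k2, k3⟩ := hx hC
    refine ⟨k1, ?_, k3.symm⟩
    change (e 2 x.1 - e 0 x.1) / (e 1 x.1 - e 0 x.1) = (x.2.1 2 - x.2.1 0) / (x.2.1 1 - x.2.1 0)
    rw [← k2, ← k2, ← k2]
  · intro x hx x' hx' hC hC' hxx
    obtain ⟨-, k2, k3⟩ := hx hC
    obtain ⟨-, k2', k3'⟩ := hx' hC'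
    refine Prod.ext hxx (Prod.ext ?_ ?_)
    · funext i
      rw [k2, k2', hxx]
    · rw [k3, k3', hxx]

/-- the marked curves over `S` with parameter in `L` -/
def KM (a b : Polynomial ℂ) (S L : Set ℂ) : Set MC := {x | x.1 ∈ S ∧ Cv a b x ∧ lam x ∈ L}

theorem Cv_bd {a b : Polynomial ℂ} {x : MC} (h : Cv a b x) (B : ℝ) (h1 : ‖a.eval x.1‖ ≤ B) (h2 : ‖b.eval x.1‖ ≤ B)
    (hB : 1 ≤ B) : (∀ i, ‖x.2.1 i‖ ≤ 2 * B) ∧ ‖x.2.2‖ ≤ 4 * B := by
  have h3 : ∀ i, ‖x.2.1 i‖ ≤ 2 * B := by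
    intro i
    by_contra hcon
    push Not at hcon
    have h4 : x.2.1 i ^ 3 + a.eval x.1 * x.2.1 i + b.eval x.1 = 0 := by
      rw [h.1 (x.2.1 i)]
      fin_cases i <;> simp
    have h5 : x.2.1 i ^ 3 = -(a.eval x.1 * x.2.1 i + b.eval x.1) := by linear_combination h4
    have h6 : ‖x.2.1 i‖ ^ 3 ≤ B * ‖x.2.1 i‖ + B := by
      rw [← norm_pow, h5, norm_neg]
      refine (norm_add_le _ _).trans (add_le_add ?_ h2)
      rw [norm_mul]
      exact mul_le_mul_of_nonneg_right h1 (norm_nonneg _)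
    set r := ‖x.2.1 i‖ with hr
    have h7 : 2 * B * (2 * B) ≤ r ^ 2 := by nlinarith
    have h8 : 4 * B * r ≤ r ^ 3 := by
      have : 4 * B ≤ r ^ 2 := by nlinarith
      nlinarith
    nlinarith
  refine ⟨h3, ?_⟩
  have h4 : ‖x.2.2‖ ^ 2 ≤ 4 * B := by
    rw [← norm_pow, h.2]
    refine (norm_sub_le _ _).trans ?_
    linarith [h3 0, h3 1]
  by_contra hcon
  push Not at hcon
  nlinarith [norm_nonneg x.2.2]

theorem isCompact_KM (a b : Polynomial ℂ) (S L : Set ℂ) (hS : IsCompact S) (hL : IsCompact L)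
    (hdi : ∀ s ∈ S, 4 * a.eval s ^ 3 + 27 * b.eval s ^ 2 ≠ 0) : IsCompact (KM a b S L) := by
  obtain ⟨Ba, hBa⟩ := hS.exists_bound_of_continuousOn (f := fun s => a.eval s) a.continuous.continuousOn
  obtain ⟨Bb, hBb⟩ := hS.exists_bound_of_continuousOn (f := fun s => b.eval s) b.continuous.continuousOn
  set B := max 1 (max Ba Bb) with hB
  have hc1 : Continuous fun x : MC => x.1 := continuous_fst
  have hc2 : ∀ i, Continuous fun x : MC => x.2.1 i := fun i =>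
    (continuous_apply i).comp (continuous_fst.comp continuous_snd)
  have hc3 : Continuous fun x : MC => x.2.2 := continuous_snd.comp continuous_snd
  have hcl : IsClosed {x : MC | x.1 ∈ S ∧ Cv a b x} := by
    have : {x : MC | x.1 ∈ S ∧ Cv a b x} = (fun x : MC => x.1) ⁻¹' S ∩ ((⋂ X : ℂ, {x : MC | X ^ 3 + a.eval x.1 * X +
        b.eval x.1 = (X - x.2.1 0) * (X - x.2.1 1) * (X - x.2.1 2)}) ∩ {x : MC | x.2.2 ^ 2 = x.2.1 1 - x.2.1 0}) := by
      ext x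
      simp only [Set.mem_ofPred_eq, Set.mem_inter_iff, Set.mem_preimage, Set.mem_iInter, Cv]
    rw [this]
    refine (hS.isClosed.preimage hc1).inter (IsClosed.inter (isClosed_iInter fun X => ?_) ?_)
    · refine isClosed_eq ?_ ?_
      · exact (continuous_const.add ((a.continuous.comp hc1).mul continuous_const)).add (b.continuous.comp hc1)
      · exact ((continuous_const.sub (hc2 0)).mul (continuous_const.sub (hc2 1))).mul (continuous_const.sub (hc2 2))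
    · exact isClosed_eq (hc3.pow 2) ((hc2 1).sub (hc2 0))
  have hcl2 : IsClosed (KM a b S L) := by
    have : KM a b S L = {x : MC | x.1 ∈ S ∧ Cv a b x} ∩ lam ⁻¹' L := by
      ext x
      simp only [KM, Set.mem_ofPred_eq, Set.mem_inter_iff, Set.mem_preimage, and_assoc]
    rw [this]
    refine ContinuousOn.preimage_isClosed_of_isClosed ?_ hcl hL.isClosed
    intro x hx
    refine ContinuousAt.continuousWithinAt ?_
    refine ContinuousAt.div ((hc2 2).sub (hc2 0)).continuousAt ((hc2 1).sub (hc2 0)).continuousAt ?_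
    have h1 := hdi x.1 hx.1
    rw [Cv_disc hx.2] at h1
    intro h2
    apply h1
    have h3 : x.2.1 1 = x.2.1 0 := by linear_combination h2
    rw [h3]
    ring
  refine IsCompact.of_isClosed_subset (s := Metric.closedBall (0 : ℂ) (hS.isBounded.subset_closedBall 0).choose ×ˢ
    ((Set.univ.pi fun _ : Fin 3 => Metric.closedBall (0 : ℂ) (2 * B)) ×ˢ Metric.closedBall (0 : ℂ) (4 * B))) ?_ hcl2 ?_
  · exact (isCompact_closedBall _ _).prod ((isCompact_univ_pi fun _ => isCompact_closedBall _ _).prod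
      (isCompact_closedBall _ _))
  · intro x hx
    have h1 := Cv_bd hx.2.1 B ((hBa _ hx.1).trans ((le_max_left _ _).trans (le_max_right _ _)))
      ((hBb _ hx.1).trans ((le_max_right _ _).trans (le_max_right _ _))) (le_max_left _ _)
    refine ⟨(hS.isBounded.subset_closedBall 0).choose_spec hx.1, ?_, ?_⟩
    · intro i _
      rw [mem_closedBall_zero_iff]
      exact h1.1 i
    · rw [mem_closedBall_zero_iff]
      exact h1.2

theorem KM_oneV (a b : Polynomial ℂ) (hb : b ≠ 0) (hnc : ∀ c : ℂ, a ^ 3 ≠ Polynomial.C c * b ^ 2) (S L : Set ℂ)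
    (hS : IsCompact S) (hL : IsCompact L) (hLD : L ⊆ Dom) (hdi : ∀ s ∈ S, 4 * a.eval s ^ 3 + 27 * b.eval s ^ 2 ≠ 0) :
    (∀ g, OneV g (fun R T => {x | x ∈ KM a b S L ∧ Pt R T x.1}) fun (x : MC) y => pf (lam x) x.2.2 y) ∧
      ∃ M : ℕ, ∀ s, {x | x ∈ KM a b S L ∧ x.1 = s}.Finite ∧ {x | x ∈ KM a b S L ∧ x.1 = s}.ncard ≤ M := by
  classical
  have hK := isCompact_KM a b S L hS hL hdi
  have hch : ∀ x0 : MC, x0 ∈ KM a b S L → ∃ (D : Set ℂ) (la w : ℂ → ℂ) (W : Set MC), IsCompact D ∧ W ∈ 𝓝 x0 ∧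
      (∀ y, ∀ t ∈ D, AnalyticAt ℂ (fun s => pf (la s) (w s) y) t) ∧
      (∀ t ∈ D, LocInd (fun y s => pf (la s) (w s) y) t) ∧
      (∀ x ∈ W, Cv a b x → x.1 ∈ D ∧ la x.1 = lam x ∧ w x.1 = x.2.2) ∧
      ∀ x ∈ W, ∀ x' ∈ W, Cv a b x → Cv a b x' → x.1 = x'.1 → x = x' := fun x0 hx0 =>
    fam_chart a b hb hnc x0 hx0.2.1 (hdi _ hx0.1) (hLD hx0.2.2)
  choose! D la w W h1 h2 h3 h4 h5 h6 using hch
  obtain ⟨I, hI, hcov⟩ := hK.elim_nhds_subcover W h2
  have hcov' : ∀ x ∈ KM a b S L, ∃ i : {i // i ∈ I}, x ∈ W i.1 := by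
    intro x hx
    obtain ⟨i, hi, hxi⟩ := Set.mem_iUnion₂.1 (hcov hx)
    exact ⟨⟨i, hi⟩, hxi⟩
  refine ⟨fun g => ?_, I.card, fun s => ?_⟩
  · refine oneV_cover g (fun x : MC => x.1) (KM a b S L) (fun (x : MC) y => pf (lam x) x.2.2 y)
      (I := {i // i ∈ I}) (fun i => D i.1) (fun i => h1 i.1 (hI i.1 i.2)) (fun i y s => pf (la i.1 s) (w i.1 s) y)
      (fun i y t ht => h3 i.1 (hI i.1 i.2) y t ht) (fun i t ht => h4 i.1 (hI i.1 i.2) t ht) (fun i => W i.1) hcov'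
      (fun i x hx hxW => ?_) (fun i x hx x' hx' hxW hxW' hxx => h6 i.1 (hI i.1 i.2) x hxW x' hxW' hx.2.1 hx'.2.1 hxx)
    obtain ⟨k1, k2, k3⟩ := h5 i.1 (hI i.1 i.2) x hxW hx.2.1
    refine ⟨k1, fun y => ?_⟩
    rw [k2, k3]
  · let F : {x | x ∈ KM a b S L ∧ x.1 = s} → {i // i ∈ I} := fun x => (hcov' x.1 x.2.1).choose
    have hF : ∀ x, x.1 ∈ W (F x).1 := fun x => (hcov' x.1 x.2.1).choose_spec
    have hinj : Function.Injective F := by
      intro x x' hxx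
      apply Subtype.ext
      have k1 := hF x
      have k2 := hF x'
      rw [← hxx] at k2
      exact h6 _ (hI _ (F x).2) _ k1 _ k2 x.2.1.2.1 x'.2.1.2.1 (x.2.2.trans x'.2.2.symm)
    have hfin : Finite {x | x ∈ KM a b S L ∧ x.1 = s} := Finite.of_injective F hinj
    refine ⟨Set.toFinite _, ?_⟩
    have k3 := Nat.card_le_card_of_injective F hinj
    rw [Nat.card_coe_set_eq] at k3
    refine k3.trans ?_
    rw [Nat.card_eq_fintype_card, Fintype.card_coe]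

end Pool.Agent.Y124
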