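import Pool.Agent.Y120.Ar

/-!
# The flag of a system of constants at a scale, over a ring of integers
(adapted from helper890's `Y890.UC.Flag`)
-/

set_option autoImplicit false

open Finset

namespace Pool.Agent.Y124

open Pool.Agent.Y120

variable {S : Type} [Fintype S] [DecidableEq S] {g : ℕ} {R : Subring (Fin (g + 1) → ℂ)}

/-- the absolute value of `ℂ` -/
noncomputable def cabs : AbsoluteValue ℂ ℝ where
  toFun := norm
  map_mul' := norm_mul
  nonneg' := norm_nonneg
  eq_zero' := fun _ => norm_eq_zero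
  add_le' := norm_add_le

theorem det_bound {F : Type} [Fintype F] [DecidableEq F] (M : Matrix F F ℂ) (X : ℝ) (h : ∀ i j, ‖M i j‖ ≤ X) :
    ‖M.det‖ ≤ (Fintype.card F).factorial * X ^ (Fintype.card F) := by
  have h1 := Matrix.det_le (A := M) (abv := cabs) (x := X) h
  rw [nsmul_eq_mul] at h1
  exact h1

theorem det_mem {F : Type} [Fintype F] [DecidableEq F] (M : Matrix F F (Fin (g + 1) → ℂ)) (h : ∀ i j, M i j ∈ R) :
    M.det ∈ R := by
  rw [Matrix.det_apply]
  refine R.sum_mem fun σ _ => ?_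
  rw [Units.smul_def]
  exact R.zsmul_mem (R.prod_mem fun i _ => h _ _) _

theorem det_eval {F : Type} [Fintype F] [DecidableEq F] (M : Matrix F F (Fin (g + 1) → ℂ)) (s : Fin (g + 1)) :
    M.det s = (M.map fun x => x s).det := by
  have h1 := (RingHom.map_det (Pi.evalRingHom (fun _ : Fin (g + 1) => ℂ) s) M)
  exact h1

/-- Cramer: a vector with small products with `n` independent vectors over `R` is small. -/
theorem cramerR (hR : NormRing R) {F : Type} [Fintype F] [DecidableEq F] (M : Matrix F F (Fin (g + 1) → ℂ))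
    (hMR : ∀ i j, M i j ∈ R) (hM : (M.map fun x => x 0).det ≠ 0) (X : ℝ) (hX : 1 ≤ X)
    (hMX : ∀ i j s, ‖M i j s‖ ≤ X) (κ : F → ℂ) (δ : ℝ) (hδ : ∀ i, ‖∑ j, κ j * M i j 0‖ ≤ δ) (s : F) :
    ‖κ s‖ ≤ ((Fintype.card F) * ((Fintype.card F).factorial * X ^ (Fintype.card F)) * δ) *
      ((Fintype.card F).factorial * X ^ (Fintype.card F)) ^ g := by
  classical
  set H : ℝ := (Fintype.card F).factorial * X ^ (Fintype.card F) with hH
  set Mc : Matrix F F ℂ := M.map fun x => x 0 with hMc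
  have hdet : M.det 0 = Mc.det := det_eval M 0
  have h1 : Mc.adjugate.mulVec (Mc.mulVec κ) = Mc.det • κ := by
    rw [Matrix.mulVec_mulVec, Matrix.adjugate_mul, Matrix.smul_mulVec, Matrix.one_mulVec]
  have h2 : ∀ i, Mc.mulVec κ i = ∑ j, κ j * M i j 0 := by
    intro i
    simp only [Matrix.mulVec, dotProduct, hMc, Matrix.map_apply]
    refine Finset.sum_congr rfl fun j _ => ?_
    rw [mul_comm]
  have hadj : ∀ i j, ‖Mc.adjugate i j‖ ≤ H := by
    intro i j
    rw [Matrix.adjugate_apply]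
    refine det_bound _ X ?_
    intro a b
    by_cases hja : a = j
    · subst hja
      rw [Matrix.updateRow_self]
      by_cases hib : b = i
      · subst hib
        simpa using hX
      · rw [Pi.single_eq_of_ne hib, norm_zero]
        linarith
    · rw [Matrix.updateRow_ne hja]
      exact hMX a b 0
  have h6 : Mc.det * κ s = ∑ i, Mc.adjugate s i * (∑ j, κ j * M i j 0) := by
    have := congrFun h1 s
    simp only [Pi.smul_apply, smul_eq_mul] at this
    rw [← this]
    simp only [Matrix.mulVec, dotProduct]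
    refine Finset.sum_congr rfl fun i _ => ?_
    have h7 := h2 i
    simp only [Matrix.mulVec, dotProduct] at h7
    rw [h7]
  have hδ0 : 0 ≤ δ := (norm_nonneg _).trans (hδ s)
  have hH0 : 0 ≤ H := by positivity
  have hDR : M.det ∈ R := det_mem M hMR
  have hD0 : M.det ≠ 0 := by
    intro h0
    apply hM
    rw [← hdet, h0]
    rfl
  have hDb : ∀ s, ‖M.det s‖ ≤ H := by
    intro s
    rw [det_eval]
    exact det_bound _ X fun i j => hMX i j s
  have h8 : 1 ≤ ‖Mc.det‖ * H ^ g := by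
    have := low_zero hR hDR hD0 hDb
    rwa [hdet] at this
  have h9 : ‖Mc.det * κ s‖ ≤ (Fintype.card F) * H * δ := by
    rw [h6]
    calc ‖∑ i, Mc.adjugate s i * (∑ j, κ j * M i j 0)‖
        ≤ ∑ i, ‖Mc.adjugate s i * (∑ j, κ j * M i j 0)‖ := norm_sum_le _ _
      _ ≤ ∑ i : F, H * δ := by
          refine Finset.sum_le_sum fun i _ => ?_
          rw [norm_mul]
          exact mul_le_mul (hadj s i) (hδ i) (norm_nonneg _) hH0
      _ = (Fintype.card F) * H * δ := by
          rw [Finset.sum_const, Finset.card_univ, nsmul_eq_mul]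
          ring
  calc ‖κ s‖ = 1 * ‖κ s‖ := (one_mul _).symm
    _ ≤ (‖Mc.det‖ * H ^ g) * ‖κ s‖ := mul_le_mul_of_nonneg_right h8 (norm_nonneg _)
    _ = ‖Mc.det * κ s‖ * H ^ g := by rw [norm_mul]; ring
    _ ≤ ((Fintype.card F) * H * δ) * H ^ g := mul_le_mul_of_nonneg_right h9 (by positivity)

/-- The exponent. -/
def flagC (g n A : ℕ) : ℕ := (A * n + n * n.factorial) * (g + 1)

theorem flagC_lt (g n A : ℕ) {T : ℝ} (hT : 2 ≤ T) (m : ℕ) (hm : m ≤ n) :
    ((m : ℝ) * (m.factorial * (T ^ A) ^ m) * (T ^ flagC g n A)⁻¹) * (m.factorial * (T ^ A) ^ m) ^ g < 1 := by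
  have hT0 : 0 < T := by linarith
  have hT1 : 1 ≤ T := by linarith
  rcases Nat.eq_zero_or_pos m with rfl | hm0
  · simp
  have hn0 : 0 < n := lt_of_lt_of_le hm0 hm
  set H : ℝ := (m.factorial : ℝ) * (T ^ A) ^ m with hH
  have hH0 : 0 ≤ H := by positivity
  have h2 : ((n * n.factorial : ℕ) : ℝ) < T ^ (n * n.factorial) := by
    calc ((n * n.factorial : ℕ) : ℝ) < ((2 ^ (n * n.factorial) : ℕ) : ℝ) := by
          exact_mod_cast Nat.lt_two_pow_self
      _ = (2 : ℝ) ^ (n * n.factorial) := by push_cast; rfl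
      _ ≤ T ^ (n * n.factorial) := pow_le_pow_left₀ (by norm_num) hT _
  have h3 : (T ^ A) ^ m ≤ T ^ (A * n) := by
    rw [← pow_mul]
    exact pow_le_pow_right₀ hT1 (Nat.mul_le_mul_left _ hm)
  have h5 : (m : ℝ) * H < T ^ (A * n + n * n.factorial) := by
    have h1 : (m : ℝ) * m.factorial ≤ (n * n.factorial : ℕ) := by
      exact_mod_cast Nat.mul_le_mul hm (Nat.factorial_le hm)
    calc (m : ℝ) * H = ((m : ℝ) * m.factorial) * (T ^ A) ^ m := by rw [hH]; ring
      _ ≤ ((n * n.factorial : ℕ) : ℝ) * T ^ (A * n) := mul_le_mul h1 h3 (by positivity) (by positivity)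
      _ < T ^ (n * n.factorial) * T ^ (A * n) := mul_lt_mul_of_pos_right h2 (by positivity)
      _ = T ^ (A * n + n * n.factorial) := by rw [← pow_add, add_comm]
  have h6 : H ≤ T ^ (A * n + n * n.factorial) := by
    refine le_trans ?_ h5.le
    have : (1 : ℝ) ≤ m := by exact_mod_cast hm0
    nlinarith
  have h7 : 0 < T ^ flagC g n A := by positivity
  have h8 : ((m : ℝ) * H * (T ^ flagC g n A)⁻¹) * H ^ g = ((m : ℝ) * H) * H ^ g * (T ^ flagC g n A)⁻¹ := by ring
  rw [h8, mul_inv_lt_iff₀ h7, one_mul]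
  calc ((m : ℝ) * H) * H ^ g ≤ ((m : ℝ) * H) * (T ^ (A * n + n * n.factorial)) ^ g :=
        mul_le_mul_of_nonneg_left (pow_le_pow_left₀ hH0 h6 _) (by positivity)
    _ < T ^ (A * n + n * n.factorial) * (T ^ (A * n + n * n.factorial)) ^ g :=
        mul_lt_mul_of_pos_right h5 (by positivity)
    _ = T ^ flagC g n A := by rw [flagC, ← pow_succ', ← pow_mul]

/-- If vectors over `R` span, there is a nonsingular matrix of such vectors. -/
theorem exists_matrixC (F : Finset S) (V : Set (S → (Fin (g + 1) → ℂ)))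
    (h : Submodule.span ℂ ((fun v : S → (Fin (g + 1) → ℂ) => fun s : F => v s 0) '' V) = ⊤) :
    ∃ M : Matrix F F (Fin (g + 1) → ℂ), (M.map fun x => x 0).det ≠ 0 ∧ ∀ i, ∃ v ∈ V, ∀ j : F, M i j = v j := by
  classical
  obtain ⟨b, hb1, hb2, hb3⟩ := exists_linearIndependent ℂ ((fun v : S → (Fin (g + 1) → ℂ) => fun s : F => v s 0) '' V)
  rw [h] at hb2
  have hbas : Module.Basis b ℂ (F → ℂ) := Module.Basis.mk hb3 (by
    rw [Subtype.range_coe, hb2])
  have hfin : Fintype b := FiniteDimensional.fintypeBasisIndex hbas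
  have hcard : Fintype.card b = Fintype.card F := by
    have h1 := Module.finrank_eq_card_basis hbas
    rw [Module.finrank_fintype_fun_eq_card] at h1
    exact h1.symm
  obtain ⟨eqv⟩ : Nonempty (F ≃ b) := ⟨Fintype.equivOfCardEq hcard.symm⟩
  choose v hvV hv using fun x : b => hb1 x.2
  refine ⟨Matrix.of fun i j => v (eqv i) j, ?_, fun i => ⟨v (eqv i), hvV _, fun j => rfl⟩⟩
  have h2 : LinearIndependent ℂ (fun i : F => ((eqv i : b) : F → ℂ)) := hb3.comp eqv eqv.injective
  set M : Matrix F F ℂ := Matrix.of fun i j => ((eqv i : b) : F → ℂ) j with hM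
  have h3 : LinearIndependent ℂ M.row := h2
  rw [Matrix.linearIndependent_rows_iff_isUnit, Matrix.isUnit_iff_isUnit_det] at h3
  have h4 : M = (Matrix.of fun i j : F => v (eqv i) j).map (fun x => x 0) := by
    ext i j
    simp only [hM, Matrix.of_apply, Matrix.map_apply]
    exact (congrFun (hv (eqv i)) j).symm
  rw [← h4]
  exact h3.ne_zero

/-- A set of vectors which does not span has an orthogonal vector. -/
theorem exists_orthC (F : Finset S) (V : Set (F → ℂ)) (h : Submodule.span ℂ V ≠ ⊤) :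
    ∃ u : F → ℂ, u ≠ 0 ∧ ∀ v ∈ V, ∑ s : F, u s * v s = 0 := by
  classical
  obtain ⟨f, hf0, hf⟩ := Submodule.exists_le_ker_of_lt_top _ (lt_top_iff_ne_top.2 h)
  refine ⟨fun s => f (Pi.single s 1), ?_, ?_⟩
  · intro h0
    apply hf0
    ext s
    have := congrFun h0 s
    simpa using this
  · intro v hv
    have h1 : v ∈ LinearMap.ker f := hf (Submodule.subset_span hv)
    rw [LinearMap.mem_ker] at h1
    have h2 : v = ∑ s : F, v s • (Pi.single s (1 : ℂ) : F → ℂ) := by
      ext t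
      simp [Finset.sum_apply, Pi.single_apply]
    rw [h2, map_sum] at h1
    rw [← h1]
    refine Finset.sum_congr rfl fun s _ => ?_
    rw [map_smul, smul_eq_mul, mul_comm]

/-- **The flag lemma over `R`.** -/
theorem flagR_aux (hR : NormRing R) (A : ℕ) {T : ℝ} (hT : 2 ≤ T) : ∀ (k : ℕ) (κ : S → ℂ),
    (univ.filter fun s => κ s ≠ 0).card ≤ k →
    ∃ 𝒦 : Finset (S → ℂ), 𝒦.card ≤ k ∧ (∀ K ∈ 𝒦, ∀ s, ‖K s‖ ≤ 1) ∧
      ∀ (E : Type) (c : E → S → (Fin (g + 1) → ℂ)), (∀ e s, c e s ∈ R) → (∀ e s i, ‖c e s i‖ ≤ T ^ A) →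
        (∃ e, ∑ s, κ s * c e s 0 ≠ 0) →
        ∃ K ∈ 𝒦, ∃ l : ℂ, l ≠ 0 ∧ (∀ e, ∑ s, κ s * c e s 0 = l * ∑ s, K s * c e s 0) ∧
          ∃ e, (T ^ flagC g (Fintype.card S) A)⁻¹ ≤ ‖∑ s, K s * c e s 0‖ := by
  classical
  intro k
  induction k with
  | zero =>
    intro κ hκ
    refine ⟨∅, by simp, by simp, ?_⟩
    rintro E c - - ⟨e, he⟩
    exfalso
    apply he
    have h1 : (univ.filter fun s => κ s ≠ 0) = ∅ := Finset.card_eq_zero.1 (Nat.le_zero.1 hκ)
    refine Finset.sum_eq_zero fun s _ => ?_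
    have h2 : κ s = 0 := by
      by_contra h
      have : s ∈ univ.filter fun s => κ s ≠ 0 := Finset.mem_filter.2 ⟨Finset.mem_univ _, h⟩
      rw [h1] at this
      simp at this
    rw [h2, zero_mul]
  | succ k ih =>
    intro κ hκ
    by_cases hk0 : κ = 0
    · refine ⟨∅, by simp, by simp, ?_⟩
      rintro E c - - ⟨e, he⟩
      exfalso
      apply he
      rw [hk0]
      simp
    set F := univ.filter fun s => κ s ≠ 0 with hF
    have hmemF : ∀ s, s ∈ F ↔ κ s ≠ 0 := fun s => by simp [hF]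
    set ν : ℝ := ‖κ‖ with hν
    have hν0 : 0 < ν := norm_pos_iff.2 hk0
    set K₀ : S → ℂ := fun s => κ s / (ν : ℂ) with hK₀
    have hνc : (ν : ℂ) ≠ 0 := by exact_mod_cast hν0.ne'
    have hK₀1 : ∀ s, ‖K₀ s‖ ≤ 1 := by
      intro s
      simp only [hK₀, norm_div, Complex.norm_real, Real.norm_eq_abs, abs_of_pos hν0]
      rw [div_le_one hν0]
      exact norm_le_pi_norm κ s
    obtain ⟨s₁, hs₁⟩ : ∃ s, ‖κ s‖ = ν := by
      have hne : Nonempty S := by
        by_contra hemp
        rw [not_nonempty_iff] at hemp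
        exact hk0 (funext fun s => (hemp.false s).elim)
      obtain ⟨s, hs⟩ := Finite.exists_max fun s => ‖κ s‖
      exact ⟨s, le_antisymm (norm_le_pi_norm κ s) ((pi_norm_le_iff_of_nonneg (norm_nonneg _)).2 hs)⟩
    have hK₀s₁ : ‖K₀ s₁‖ = 1 := by
      simp only [hK₀, norm_div, Complex.norm_real, Real.norm_eq_abs, abs_of_pos hν0, hs₁]
      exact div_self hν0.ne'
    have hs₁F : s₁ ∈ F := (hmemF s₁).2 fun h0 => by
      rw [h0, norm_zero] at hs₁
      exact hν0.ne hs₁
    set B := flagC g (Fintype.card S) A with hB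
    set V : Set (S → (Fin (g + 1) → ℂ)) := {v | (∀ s, v s ∈ R) ∧ (∀ s i, ‖v s i‖ ≤ T ^ A) ∧
      ‖∑ s, K₀ s * v s 0‖ < (T ^ B)⁻¹} with hV
    have hT0 : 0 < T := by linarith
    have hT1 : 1 ≤ T := by linarith
    -- the vectors do not span
    have hspan : Submodule.span ℂ ((fun v : S → (Fin (g + 1) → ℂ) => fun s : F => v s 0) '' V) ≠ ⊤ := by
      intro htop
      obtain ⟨M, hM, hMV⟩ := exists_matrixC F V htop
      have h1 := cramerR hR M (by
        intro i j
        obtain ⟨v, hv, hvj⟩ := hMV i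
        rw [hvj j]
        exact hv.1 j) hM (T ^ A) (one_le_pow₀ hT1) (by
        intro i j s
        obtain ⟨v, hv, hvj⟩ := hMV i
        rw [hvj j]
        exact hv.2.1 j s) (fun s : F => K₀ s) ((T ^ B)⁻¹) (by
        intro i
        obtain ⟨v, hv, hvj⟩ := hMV i
        have h2 : ∑ j : F, K₀ j * (M i j 0) = ∑ s, K₀ s * v s 0 := by
          have h3 : ∑ j : F, K₀ j * (M i j 0) = ∑ j : F, K₀ j * (v j 0) :=
            Finset.sum_congr rfl fun j _ => by rw [hvj j]
          rw [h3, Finset.sum_coe_sort F (fun s => K₀ s * (v s 0))]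
          refine Finset.sum_subset (Finset.subset_univ _) fun s _ hs => ?_
          have h4 : κ s = 0 := by
            by_contra h
            exact hs ((hmemF s).2 h)
          simp [hK₀, h4]
        rw [h2]
        exact hv.2.2.le) ⟨s₁, hs₁F⟩
      rw [hK₀s₁] at h1
      have h2 := flagC_lt g (Fintype.card S) A hT (Fintype.card F) (by
        rw [Fintype.card_coe]
        exact Finset.card_le_univ F)
      exact absurd h1 (not_le.2 h2)
    obtain ⟨u, hu0, hu⟩ := exists_orthC F _ hspan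
    obtain ⟨s₀, hs₀⟩ := Function.ne_iff.1 hu0
    simp only [Pi.zero_apply] at hs₀
    set κ' : S → ℂ := fun s => if h : s ∈ F then κ s - κ s₀ * (u ⟨s, h⟩) / (u s₀) else 0 with hκ'
    have hκ'v : ∀ s : F, κ' s = κ s - κ s₀ * (u s) / (u s₀) := by
      intro s
      simp only [hκ']
      rw [dif_pos s.2]
    have hκ's₀ : κ' s₀ = 0 := by
      rw [hκ'v]
      field_simp
      ring
    have hcard' : (univ.filter fun s => κ' s ≠ 0).card ≤ k := by
      have hsub : (univ.filter fun s => κ' s ≠ 0) ⊆ F.erase s₀ := by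
        intro s hs
        rw [Finset.mem_filter] at hs
        rw [Finset.mem_erase]
        refine ⟨fun h => hs.2 (h ▸ hκ's₀), ?_⟩
        by_contra h
        exact hs.2 (by simp only [hκ', dif_neg h])
      have h1 := Finset.card_le_card hsub
      rw [Finset.card_erase_of_mem s₀.2] at h1
      omega
    have hsame : ∀ v ∈ V, ∑ s, κ' s * v s 0 = ∑ s, κ s * v s 0 := by
      intro v hv
      have h1 := hu _ ⟨v, hv, rfl⟩
      have h2 : ∑ s, κ' s * v s 0 = ∑ s : F, κ' s * v s 0 := by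
        rw [Finset.sum_coe_sort F (fun s => κ' s * (v s 0))]
        symm
        refine Finset.sum_subset (Finset.subset_univ _) fun s _ hs => ?_
        simp only [hκ', dif_neg hs, zero_mul]
      have h3 : ∑ s, κ s * v s 0 = ∑ s : F, κ s * v s 0 := by
        rw [Finset.sum_coe_sort F (fun s => κ s * (v s 0))]
        symm
        refine Finset.sum_subset (Finset.subset_univ _) fun s _ hs => ?_
        have h4 : κ s = 0 := by
          by_contra h
          exact hs ((hmemF s).2 h)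
        rw [h4, zero_mul]
      rw [h2, h3]
      have h6 : ∑ s : F, κ' s * (v s 0) = ∑ s : F, κ s * (v s 0) -
          κ s₀ / (u s₀) * ∑ s : F, u s * (v s 0) := by
        rw [Finset.mul_sum, ← Finset.sum_sub_distrib]
        refine Finset.sum_congr rfl fun s _ => ?_
        rw [hκ'v]
        ring
      rw [h6, h1, mul_zero, sub_zero]
    obtain ⟨𝒦, hc1, hc2, hc3⟩ := ih κ' hcard'
    refine ⟨insert K₀ 𝒦, (Finset.card_insert_le _ _).trans (by omega), ?_, ?_⟩
    · intro K hK
      rcases Finset.mem_insert.1 hK with rfl | hK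
      · exact hK₀1
      · exact hc2 K hK
    · intro E c hcR hc hne
      by_cases hbig : ∃ e, (T ^ B)⁻¹ ≤ ‖∑ s, K₀ s * c e s 0‖
      · refine ⟨K₀, Finset.mem_insert_self _ _, (ν : ℂ), hνc, fun e => ?_, hbig⟩
        rw [Finset.mul_sum]
        refine Finset.sum_congr rfl fun s _ => ?_
        simp only [hK₀]
        field_simp
      · push Not at hbig
        have hin : ∀ e, c e ∈ V := fun e => ⟨hcR e, hc e, hbig e⟩
        obtain ⟨e₀, he₀⟩ := hne
        obtain ⟨K, hK, l, hl, h1, h2⟩ := hc3 E c hcR hc ⟨e₀, by rw [hsame _ (hin e₀)]; exact he₀⟩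
        exact ⟨K, Finset.mem_insert_of_mem hK, l, hl, fun e => by rw [← hsame _ (hin e)]; exact h1 e, h2⟩

/-- **The flag lemma over `R`.** -/
theorem flagR (hR : NormRing R) (A : ℕ) {T : ℝ} (hT : 2 ≤ T) (κ : S → ℂ) :
    ∃ 𝒦 : Finset (S → ℂ), 𝒦.card ≤ Fintype.card S ∧ (∀ K ∈ 𝒦, ∀ s, ‖K s‖ ≤ 1) ∧
      ∀ (E : Type) (c : E → S → (Fin (g + 1) → ℂ)), (∀ e s, c e s ∈ R) → (∀ e s i, ‖c e s i‖ ≤ T ^ A) →
        (∃ e, ∑ s, κ s * c e s 0 ≠ 0) →
        ∃ K ∈ 𝒦, ∃ l : ℂ, l ≠ 0 ∧ (∀ e, ∑ s, κ s * c e s 0 = l * ∑ s, K s * c e s 0) ∧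
          ∃ e, (T ^ flagC g (Fintype.card S) A)⁻¹ ≤ ‖∑ s, K s * c e s 0‖ :=
  flagR_aux hR A hT (Fintype.card S) κ (Finset.card_le_univ _)

end Pool.Agent.Y124
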