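import Pool.Agent.Y124.Ultra

/-!
# The generic point of a large internal set
-/

set_option autoImplicit false

open MvPolynomial Filter

namespace Pool.Agent.Y124

theorem eval_theta {K J V₁ V₂ R M : Type*} [Field K] [CommRing R] [Algebra K R] [CommRing M] (y : J → R)
    (e : R →+* M) (v : V₁ ⊕ V₂ → M) (G : MvPolynomial (J ⊕ V₁) (MvPolynomial V₂ K)) :
    eval₂Hom e v (theta y G) = eval₂ (eval₂Hom (e.comp (algebraMap K R)) fun c => v (Sum.inr c))
      (Sum.elim (fun j => e (y j)) fun c => v (Sum.inl c)) G := by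
  have h2 : (eval₂Hom e v).comp (theta y) =
      eval₂Hom (eval₂Hom (e.comp (algebraMap K R)) fun c => v (Sum.inr c))
        (Sum.elim (fun j => e (y j)) fun c => v (Sum.inl c)) := by
    apply MvPolynomial.ringHom_ext
    · intro p
      simp only [RingHom.comp_apply, theta, eval₂Hom_C]
      have h3 : (eval₂Hom e v).comp (eval₂Hom (C.comp (algebraMap K R)) fun v => MvPolynomial.X (Sum.inr v)) =
          eval₂Hom (e.comp (algebraMap K R)) fun c => v (Sum.inr c) := by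
        apply MvPolynomial.ringHom_ext
        · intro r
          simp
        · intro c
          simp
      exact RingHom.congr_fun h3 p
    · intro c
      rcases c with c | c
      · simp [theta]
      · simp [theta]
  exact RingHom.congr_fun h2 G

theorem eval₂Hom_map' {V R S M : Type*} [CommRing R] [CommRing S] [CommRing M] (g : S →+* R) (e : R →+* M)
    (v : V → M) (f : MvPolynomial V S) :
    eval₂Hom e v (MvPolynomial.map g f) = eval₂ (e.comp g) v f := by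
  rw [coe_eval₂Hom, eval₂_map]

theorem eval₂_mem {V R M : Type*} [CommRing R] [CommRing M] (e : R →+* M) (v : V → M) (O : Subring M)
    (he : ∀ a, e a ∈ O) (hv : ∀ i, v i ∈ O) (w : MvPolynomial V R) : eval₂Hom e v w ∈ O := by
  induction w using MvPolynomial.induction_on with
  | C a =>
    rw [eval₂Hom_C]
    exact he a
  | add a b ha hb =>
    rw [map_add]
    exact O.add_mem ha hb
  | mul_X a i ha =>
    rw [map_mul, eval₂Hom_X']
    exact O.mul_mem ha (hv i)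

variable {k : Type*} [Field k] {𝒰 : Ultrafilter ℕ} (K₀ : Subfield (UL 𝒰 k))

theorem aeval_mem {τ : Type*} (q : ℕ → τ → k) (hq : ∀ i, pt 𝒰 q i ∈ K₀) (P : MvPolynomial τ K₀) :
    aeval (pt 𝒰 q) P ∈ K₀ := by
  have h : aeval (pt 𝒰 q) P = ((aeval (fun i => (⟨pt 𝒰 q i, hq i⟩ : K₀)) P : K₀) : UL 𝒰 k) := by
    have h1 : (aeval (pt 𝒰 q) : MvPolynomial τ K₀ →ₐ[K₀] UL 𝒰 k) =
        (Algebra.ofId K₀ (UL 𝒰 k)).comp (aeval (fun i => (⟨pt 𝒰 q i, hq i⟩ : K₀))) := by
      apply MvPolynomial.algHom_ext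
      intro i
      simp only [aeval_X, AlgHom.comp_apply]
      rfl
    rw [h1]
    rfl
  rw [h]
  exact Subtype.mem _

/-- the homomorphism from the quotient by the ideal of `A` given by an internal point of `A` -/
noncomputable def evq {τ : Type*} {A : ℕ → Finset (τ → k)} (q : ℕ → τ → k) (hq : IsPt 𝒰 A q) :
    MvPolynomial τ K₀ ⧸ idl K₀ A →+* UL 𝒰 k :=
  Ideal.Quotient.lift (idl K₀ A) (aeval (pt 𝒰 q) : MvPolynomial τ K₀ →ₐ[K₀] UL 𝒰 k).toRingHom (by
    intro a ha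
    rw [mem_idl] at ha
    exact ha q hq)

theorem evq_mk {τ : Type*} {A : ℕ → Finset (τ → k)} (q : ℕ → τ → k) (hq : IsPt 𝒰 A q) (P : MvPolynomial τ K₀) :
    evq K₀ q hq (Ideal.Quotient.mk (idl K₀ A) P) = aeval (pt 𝒰 q) P := rfl

theorem exists_generic {X Z : Type*} [Finite X] [Finite Z] {H : ℕ → ℝ}
    (hH : Tendsto H (𝒰 : Filter ℕ) atTop) (h𝒰 : (𝒰 : Filter ℕ) ≤ atTop)
    (A₀ : ℕ → Finset (X ⊕ Z → k)) (hA₀ : Large 𝒰 H A₀)
    (hK : ∀ q, IsPt 𝒰 A₀ q → ∀ i, pt 𝒰 q i ∈ K₀) :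
    ∃ A : ℕ → Finset (X ⊕ Z → k), (∀ n, A n ⊆ A₀ n) ∧ Large 𝒰 H A ∧ ∃ T : Finset Z,
      (∀ B : ℕ → Finset (X ⊕ Z → k), (∀ n, B n ⊆ A n) → Large 𝒰 H B →
        ∀ R : MvPolynomial (X ⊕ T) K₀, (∀ q, IsPt 𝒰 B q → aeval (fun j => pt 𝒰 q (emb T j)) R = 0) → R = 0) ∧
      ∀ (V₁ V₂ : Type) (f : MvPolynomial (V₁ ⊕ V₂) (MvPolynomial (X ⊕ Z) K₀)) (m : V₁ ⊕ V₂ →₀ ℕ),
        coeff m f = 1 →
        ∃ G : MvPolynomial ((X ⊕ T) ⊕ V₁) (MvPolynomial V₂ K₀), G ≠ 0 ∧
          ∀ q, IsPt 𝒰 A q → ∀ (M : Type) [CommRing M] (φ : UL 𝒰 k →+* M) (v : V₁ ⊕ V₂ → M) (O : Subring M),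
            (∀ a : K₀, φ a ∈ O) → (∀ i, v i ∈ O) →
            ∃ w ∈ O, eval₂ (eval₂Hom (φ.comp K₀.subtype) fun c => v (Sum.inr c))
              (Sum.elim (fun j => φ (pt 𝒰 q (emb T j))) fun c => v (Sum.inl c)) G =
              eval₂ (φ.comp (aeval (pt 𝒰 q) : MvPolynomial (X ⊕ Z) K₀ →ₐ[K₀] UL 𝒰 k).toRingHom) v f * w := by
  classical
  -- a maximal ideal among those of large subsets
  let 𝒮 : Set (Ideal (MvPolynomial (X ⊕ Z) K₀)) :=
    {I | ∃ B : ℕ → Finset (X ⊕ Z → k), (∀ n, B n ⊆ A₀ n) ∧ Large 𝒰 H B ∧ idl K₀ B = I}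
  have hne : 𝒮.Nonempty := ⟨idl K₀ A₀, A₀, fun n => Finset.Subset.refl _, hA₀, rfl⟩
  have hnoeth : IsNoetherianRing (MvPolynomial (X ⊕ Z) K₀) := inferInstance
  obtain ⟨I, ⟨A, hAA₀, hAL, rfl⟩, hImax⟩ := set_has_maximal_iff_noetherian.2 hnoeth 𝒮 hne
  have hmax : ∀ B : ℕ → Finset (X ⊕ Z → k), (∀ n, B n ⊆ A n) → Large 𝒰 H B → idl K₀ B = idl K₀ A := by
    intro B hB hBL
    have h1 := idl_mono K₀ hB
    have h2 := hImax (idl K₀ B) ⟨B, fun n => (hB n).trans (hAA₀ n), hBL, rfl⟩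
    exact (le_antisymm h1 (by
      by_contra hcon
      exact h2 (lt_of_le_not_ge h1 hcon))).symm
  have hprime : (idl K₀ A).IsPrime := idl_prime K₀ hH hAL hmax
  let R := MvPolynomial (X ⊕ Z) K₀ ⧸ idl K₀ A
  let x : X ⊕ Z → R := fun i => Ideal.Quotient.mkₐ K₀ (idl K₀ A) (MvPolynomial.X i)
  have hx : (aeval x : MvPolynomial (X ⊕ Z) K₀ →ₐ[K₀] R) = Ideal.Quotient.mkₐ K₀ (idl K₀ A) := by
    apply MvPolynomial.algHom_ext
    intro i
    rw [aeval_X]
  have hgen : Algebra.adjoin K₀ (Set.range x) = ⊤ := by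
    have h1 : Set.range x = (Ideal.Quotient.mkₐ K₀ (idl K₀ A)) ''
        (Set.range (MvPolynomial.X : X ⊕ Z → MvPolynomial (X ⊕ Z) K₀)) := by
      rw [← Set.range_comp]
      rfl
    rw [h1, ← AlgHom.map_adjoin, MvPolynomial.adjoin_range_X, Algebra.map_top]
    exact (AlgHom.range_eq_top _).2 (Ideal.Quotient.mkₐ_surjective _ _)
  have hXind : AlgebraicIndependent K₀ (fun i : X => x (Sum.inl i)) := by
    rw [algebraicIndependent_iff]
    intro P hP
    have h1 : aeval x (rename Sum.inl P) = 0 := by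
      rw [aeval_rename]
      exact hP
    rw [hx] at h1
    have h2 : rename Sum.inl P ∈ idl K₀ A := Ideal.Quotient.eq_zero_iff_mem.1 h1
    exact idl_X_indep K₀ hH h𝒰 hAL P h2
  obtain ⟨T, hT, hG⟩ := exists_basis_multiple (K := K₀) x hgen hXind
  refine ⟨A, hAA₀, hAL, T, ?_, ?_⟩
  · intro B hB hBL P hP
    have h1 : rename (emb T) P ∈ idl K₀ A := by
      rw [← hmax B hB hBL, mem_idl]
      intro q hq
      rw [aeval_rename]
      exact hP q hq
    have h2 : aeval x (rename (emb T) P) = 0 := by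
      rw [hx]
      exact Ideal.Quotient.eq_zero_iff_mem.2 h1
    rw [aeval_rename] at h2
    exact (algebraicIndependent_iff.1 hT) P h2
  · intro V₁ V₂ f m hm
    let f' : MvPolynomial (V₁ ⊕ V₂) R := MvPolynomial.map (Ideal.Quotient.mk (idl K₀ A)) f
    have hf' : f' ≠ 0 := by
      intro h
      have h1 := congrArg (coeff m) h
      rw [coeff_map, hm, map_one, coeff_zero] at h1
      exact one_ne_zero h1
    obtain ⟨G, hG0, w, hw⟩ := hG V₁ V₂ f' hf'
    refine ⟨G, hG0, ?_⟩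
    intro q hq M _ φ v O hO hv
    refine ⟨eval₂Hom (φ.comp (evq K₀ q hq)) v w, ?_, ?_⟩
    · apply eval₂_mem _ _ _ _ hv
      intro a
      obtain ⟨P, rfl⟩ := Ideal.Quotient.mk_surjective a
      rw [RingHom.comp_apply, evq_mk]
      exact hO ⟨_, aeval_mem K₀ q (hK q (hq.mono fun n hn => hAA₀ n hn)) P⟩
    · have h1 := eval_theta (K := K₀) (fun j => x (emb T j)) (φ.comp (evq K₀ q hq)) v G
      have h2 : (φ.comp (evq K₀ q hq)).comp (algebraMap K₀ R) = φ.comp K₀.subtype := by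
        apply RingHom.ext
        intro r
        have h4 : algebraMap K₀ R r = Ideal.Quotient.mk (idl K₀ A) (C r) := rfl
        rw [RingHom.comp_apply, RingHom.comp_apply, h4, evq_mk, aeval_C]
        rfl
      have h3 : ∀ j, (φ.comp (evq K₀ q hq)) (x (emb T j)) = φ (pt 𝒰 q (emb T j)) := by
        intro j
        have h4 : x (emb T j) = Ideal.Quotient.mk (idl K₀ A) (MvPolynomial.X (emb T j)) := rfl
        rw [RingHom.comp_apply, h4, evq_mk, aeval_X]
      rw [h2] at h1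
      simp_rw [h3] at h1
      have h5 : (φ.comp (evq K₀ q hq)).comp (Ideal.Quotient.mk (idl K₀ A)) =
          φ.comp (aeval (pt 𝒰 q) : MvPolynomial (X ⊕ Z) K₀ →ₐ[K₀] UL 𝒰 k).toRingHom := by
        apply RingHom.ext
        intro r
        rw [RingHom.comp_apply, RingHom.comp_apply, RingHom.comp_apply, evq_mk]
        rfl
      have h6 : eval₂Hom (φ.comp (evq K₀ q hq)) v f' =
          eval₂ (φ.comp (aeval (pt 𝒰 q) : MvPolynomial (X ⊕ Z) K₀ →ₐ[K₀] UL 𝒰 k).toRingHom) v f := by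
        have h7 := eval₂Hom_map' (R := MvPolynomial (X ⊕ Z) K₀ ⧸ idl K₀ A) (Ideal.Quotient.mk (idl K₀ A))
          (φ.comp (evq K₀ q hq)) v f
        rw [h5] at h7
        exact h7
      calc _ = eval₂Hom (φ.comp (evq K₀ q hq)) v (theta (fun j => x (emb T j)) G) := h1.symm
        _ = eval₂Hom (φ.comp (evq K₀ q hq)) v (f' * w) := congrArg _ hw
        _ = eval₂Hom (φ.comp (evq K₀ q hq)) v f' * eval₂Hom (φ.comp (evq K₀ q hq)) v w :=
          RingHom.map_mul _ _ _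
        _ = _ := congrArg (· * eval₂Hom (φ.comp (evq K₀ q hq)) v w) h6

end Pool.Agent.Y124
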