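import Pool.Agent.Y120.H.Tay
import Pool.Agent.Y124.StdC

/-!
# Algebraic independence of germs of analytic functions; algebraic changes of the functions
-/

set_option autoImplicit false

open Filter Topology MvPolynomial

namespace Pool.Agent.Y124

open Pool.Agent.Y120.GH (An FF em em_apply em_zero_iff em_const em_congr)

/-- as many elements, over which algebraically independent elements are algebraic, are algebraically independent -/
theorem algInd_of_alg {K E ι : Type} [Field K] [Field E] [Algebra K E] [Fintype ι] (x w : ι → E)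
    (hw : AlgebraicIndependent K w) (h : ∀ i, IsAlgebraic (Algebra.adjoin K (Set.range x)) (w i)) :
    AlgebraicIndependent K x := by
  classical
  let M := AlgebraicIndependent.matroid K E
  have h1 : M.Indep (Set.range w) := hw.to_subtype_range
  have h2 : Set.range w ⊆ M.closure (Set.range x) := by
    rintro _ ⟨i, rfl⟩
    rw [AlgebraicIndependent.matroid_closure_eq]
    exact h i
  have h3 : (Set.range w).encard ≤ (Set.range x).encard := by
    calc (Set.range w).encard = M.eRk (Set.range w) := h1.eRk_eq_encard.symm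
      _ ≤ M.eRk (M.closure (Set.range x)) := M.eRk_mono h2
      _ = M.eRk (Set.range x) := M.eRk_closure_eq _
      _ ≤ (Set.range x).encard := M.eRk_le_encard _
  have h4 : (Set.range w).encard = Fintype.card ι := by
    rw [← Set.image_univ, hw.injective.encard_image, Set.encard_univ, ENat.card_eq_coe_fintype_card]
  have hinj : Function.Injective x := by
    have h5 : Fintype.card ι ≤ (Set.range x).toFinset.card := by
      rw [← Nat.cast_le (α := ℕ∞), ← h4]
      refine h3.trans (le_of_eq ?_)
      rw [Set.encard_eq_coe_toFinset_card]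
    have h6 : (Set.range x).toFinset = Finset.univ.image x := by
      ext y
      simp
    rw [h6] at h5
    rw [← Set.injOn_univ, ← Finset.coe_univ]
    exact Finset.card_image_iff.1 (le_antisymm Finset.card_image_le (by rwa [Finset.card_univ]))
  have h5 : M.eRk (Set.range x) = (Set.range x).encard := by
    refine le_antisymm (M.eRk_le_encard _) ?_
    have h6 : (Set.range x).encard = Fintype.card ι := by
      rw [← Set.image_univ, hinj.encard_image, Set.encard_univ, ENat.card_eq_coe_fintype_card]
    rw [h6, ← h4]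
    calc (Set.range w).encard = M.eRk (Set.range w) := h1.eRk_eq_encard.symm
      _ ≤ M.eRk (M.closure (Set.range x)) := M.eRk_mono h2
      _ = M.eRk (Set.range x) := M.eRk_closure_eq _
  have h6 : M.Indep (Set.range x) := by
    obtain ⟨I, hI, hI2, hI3⟩ := Matroid.le_eRk_iff.1 h5.ge
    have hfin : (Set.range x).Finite := Set.finite_range x
    have : I = Set.range x := by
      refine (hfin.subset hI).eq_of_subset_of_encard_le hI ?_
      rw [hI3]
    rwa [this] at hI2
  exact AlgebraicIndependent.of_subtype_range hinj h6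

variable {p : ℂ}

/-- the constants -/
def cst (p : ℂ) : ℂ →+* An {p} where
  toFun c := ⟨fun _ => c, analyticOnNhd_const⟩
  map_one' := rfl
  map_mul' := fun _ _ => rfl
  map_zero' := rfl
  map_add' := fun _ _ => rfl

theorem em_cst (c : ℂ) : em p (cst p c) = algebraMap ℂ FF c := em_const c

/-- the value of a polynomial at germs -/
theorem aeval_em {V : Type} (w : V → An {p}) (P : MvPolynomial V ℂ) :
    ∃ f : An {p}, aeval (fun i => em p (w i)) P = em p f ∧ ∀ z, f.1 z = eval (fun i => (w i).1 z) P := by
  refine ⟨eval₂Hom (cst p) w P, ?_, fun z => ?_⟩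
  · have h1 : ((aeval (fun i => em p (w i)) : MvPolynomial V ℂ →ₐ[ℂ] FF) : MvPolynomial V ℂ →+* FF) =
        (em p).comp (eval₂Hom (cst p) w) := by
      apply MvPolynomial.ringHom_ext
      · intro c
        simp only [RingHom.coe_coe, algHom_C, RingHom.comp_apply, eval₂Hom_C, em_cst]
      · intro i
        simp only [RingHom.coe_coe, aeval_X, RingHom.comp_apply, eval₂Hom_X']
    exact RingHom.congr_fun h1 P
  · have h1 : (((Pi.evalRingHom (fun _ : ℂ => ℂ) z).comp (An {p}).subtype).comp (eval₂Hom (cst p) w)) =
        eval fun i => (w i).1 z := by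
      apply MvPolynomial.ringHom_ext
      · intro c
        simp only [RingHom.comp_apply, eval₂Hom_C, eval_C]
        rfl
      · intro i
        simp only [RingHom.comp_apply, eval₂Hom_X', eval_X]
        rfl
    exact RingHom.congr_fun h1 P

theorem aeval_em_zero_iff {V : Type} (w : V → An {p}) (P : MvPolynomial V ℂ) :
    aeval (fun i => em p (w i)) P = 0 ↔ ∀ᶠ z in 𝓝 p, eval (fun i => (w i).1 z) P = 0 := by
  obtain ⟨f, h1, h2⟩ := aeval_em w P
  rw [h1, em_zero_iff]
  constructor
  · intro h
    filter_upwards [h] with z hz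
    rw [← h2, hz]
    rfl
  · intro h
    filter_upwards [h] with z hz
    rw [h2, hz]
    rfl

/-- the germs `z, f_y` -/
def gm {Y₀ : Type} (f : Y₀ → ℂ → ℂ) (p : ℂ) (hf : ∀ y, AnalyticAt ℂ (f y) p) (o : Option Y₀) : An {p} :=
  ⟨fun z => o.elim z fun y => f y z, by
    intro z hz
    rw [Set.mem_singleton_iff] at hz
    rw [hz]
    cases o with
    | none => exact analyticAt_id
    | some y => exact hf y⟩

theorem locInd_iff {Y₀ : Type} (f : Y₀ → ℂ → ℂ) (p : ℂ) (hf : ∀ y, AnalyticAt ℂ (f y) p) :
    LocInd f p ↔ AlgebraicIndependent ℂ (fun o => em p (gm f p hf o)) := by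
  rw [algebraicIndependent_iff]
  constructor
  · intro h P hP
    apply h
    rw [aeval_em_zero_iff] at hP
    filter_upwards [hP] with z hz
    exact hz
  · intro h P hP
    apply h
    rw [aeval_em_zero_iff]
    filter_upwards [hP] with z hz
    exact hz

/-- composition with a nonconstant analytic function -/
theorem algInd_comp {Y₀ : Type} (g : Y₀ → ℂ → ℂ) (c : ℂ → ℂ) (s1 : ℂ) (hc : AnalyticAt ℂ c s1)
    (hcn : ¬ ∀ᶠ s in 𝓝 s1, c s = c s1) (hg : ∀ y, AnalyticAt ℂ (g y) (c s1)) (hind : LocInd g (c s1)) :
    AlgebraicIndependent ℂ (fun o : Option Y₀ => em s1 (⟨fun s => o.elim (c s) fun y => g y (c s), by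
      intro z hz
      rw [Set.mem_singleton_iff] at hz
      rw [hz]
      cases o with
      | none => exact hc
      | some y => exact AnalyticAt.fun_comp (f := c) (hg y) hc⟩ : An {s1})) := by
  rw [algebraicIndependent_iff]
  intro P hP
  rw [aeval_em_zero_iff] at hP
  apply hind
  have h1 : ∀ᶠ t in 𝓝 (c s1), t ∈ c '' {s | eval (fun o : Option Y₀ => o.elim (c s) fun y => g y (c s)) P = 0} := by
    have h2 := hc.eventually_constant_or_nhds_le_map_nhds.resolve_left hcn
    apply h2
    rw [Filter.mem_map]
    filter_upwards [hP] with s hs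
    exact ⟨s, hs, rfl⟩
  filter_upwards [h1] with t ht
  obtain ⟨s, hs, rfl⟩ := ht
  exact hs

/-- **Algebraic changes.** If `c` and the `g_y(c)` are algebraic over the field of `s` and the functions `h_y(s)`, then
these are algebraically independent. -/
theorem locInd_alg {Y₀ : Type} [Fintype Y₀] (g : Y₀ → ℂ → ℂ) (c : ℂ → ℂ) (s1 : ℂ) (hc : AnalyticAt ℂ c s1)
    (hcn : ¬ ∀ᶠ s in 𝓝 s1, c s = c s1) (hg : ∀ y, AnalyticAt ℂ (g y) (c s1)) (hind : LocInd g (c s1))
    (h : Y₀ → ℂ → ℂ) (hh : ∀ y, AnalyticAt ℂ (h y) s1)
    (halg : ∀ (o : Option Y₀) (f : An {s1}), (∀ᶠ s in 𝓝 s1, f.1 s = o.elim (c s) fun y => g y (c s)) →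
      IsAlgebraic (Algebra.adjoin ℂ (Set.range fun o => em s1 (gm h s1 hh o))) (em s1 f)) : LocInd h s1 := by
  rw [locInd_iff h s1 hh]
  refine algInd_of_alg _ _ (algInd_comp g c s1 hc hcn hg hind) fun o => halg o _ ?_
  exact Eventually.of_forall fun s => rfl

end Pool.Agent.Y124
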