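import Pool.Agent.Y124.Core

/-!
# Large internal sets of points of polynomially bounded height satisfy no relation
-/

set_option autoImplicit false

open Filter MvPolynomial Topology

namespace Pool.Agent.Y124

variable {k : Type*} [Field k] {𝕜 : Type} [RCLike 𝕜] {𝒰 : Ultrafilter ℕ} {H : ℕ → ℝ}

theorem prod_psi {X Z Y₀ : Type} [Fintype X] [Fintype Y₀] {T : Finset Z} (f : X → Y₀ → 𝕜 → 𝕜)
    (e : (X ⊕ T) ⊕ (X × Y₀) →₀ ℕ) (u : X ⊕ T → 𝕜) :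
    ∏ j, psi f e j (u j) = ∏ i, (Sum.elim u (fun c : X × Y₀ => f c.1 c.2 (u (Sum.inl c.1))) i) ^ e i := by
  rw [Fintype.prod_sum_type, Fintype.prod_sum_type, Fintype.prod_sum_type]
  simp only [psi, Sum.elim_inl, Sum.elim_inr]
  rw [Finset.prod_mul_distrib, Fintype.prod_prod_type]
  ring

theorem psi_analytic {X Z Y₀ : Type} [Fintype Y₀] {T : Finset Z} (f : X → Y₀ → 𝕜 → 𝕜)
    (e : (X ⊕ T) ⊕ (X × Y₀) →₀ ℕ) (p : X ⊕ T → 𝕜) (hf : ∀ x y, AnalyticAt 𝕜 (f x y) (p (Sum.inl x)))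
    (j : X ⊕ T) : AnalyticAt 𝕜 (psi f e j) (p j) := by
  rcases j with x | t
  · simp only [psi]
    exact (analyticAt_id.pow _).mul (Finset.analyticAt_fun_prod _ fun y _ => (hf x y).pow _)
  · simp only [psi]
    exact analyticAt_id.pow _

theorem tcM_ne_zero {X Z Y₀ : Type} [Fintype X] [Fintype Y₀] {T : Finset Z} (f : X → Y₀ → 𝕜 → 𝕜)
    (S : Finset ((X ⊕ T) ⊕ (X × Y₀) →₀ ℕ)) (p : X ⊕ T → 𝕜)
    (hind : ∀ x, LinearIndependent 𝕜 (fun (ab : ℕ × (Y₀ → ℕ)) η =>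
      tc (fun u => u ^ ab.1 * ∏ y, f x y u ^ ab.2 y) (p (Sum.inl x)) η))
    (γ : S → 𝕜) (e0 : S) (hγ : γ e0 ≠ 0) :
    ∃ η, tcM (fun e : S => psi f e.1) γ p η ≠ 0 := by
  classical
  by_contra hcon
  push Not at hcon
  apply hγ
  let V : X ⊕ T → Set (ℕ → 𝕜) := fun j => match j with
    | Sum.inl x => Set.range (fun (ab : ℕ × (Y₀ → ℕ)) η =>
      tc (fun u => u ^ ab.1 * ∏ y, f x y u ^ ab.2 y) (p (Sum.inl x)) η)
    | Sum.inr t => Set.range (fun (a : ℕ) η => tc (fun u : 𝕜 => u ^ a) (p (Sum.inr t)) η)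
  have hV : ∀ j, LinearIndependent 𝕜 (fun v : V j => (v : ℕ → 𝕜)) := by
    intro j
    rcases j with x | t
    · exact (hind x).linearIndepOn_id
    · exact (pow_tc_indep (p (Sum.inr t))).linearIndepOn_id
  refine tensor_indep₂ (Finset.univ : Finset S) (fun e j => tc (psi f e.1 j) (p j)) V hV ?_ ?_ γ ?_ e0
    (Finset.mem_univ _)
  · intro e _ j
    rcases j with x | t
    · exact ⟨(e.1 (Sum.inl (Sum.inl x)), fun y => e.1 (Sum.inr (x, y))), rfl⟩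
    · exact ⟨e.1 (Sum.inl (Sum.inr t)), rfl⟩
  · intro e _ e' _ h
    apply Subtype.ext
    ext i
    rcases i with (x | t) | ⟨x, y⟩
    · have h1 := (hind x).injective (a₁ := (e.1 (Sum.inl (Sum.inl x)), fun y => e.1 (Sum.inr (x, y))))
        (a₂ := (e'.1 (Sum.inl (Sum.inl x)), fun y => e'.1 (Sum.inr (x, y)))) (h (Sum.inl x))
      exact congrArg Prod.fst h1
    · exact (pow_tc_indep (p (Sum.inr t))).injective (h (Sum.inr t))
    · have h1 := (hind x).injective (a₁ := (e.1 (Sum.inl (Sum.inl x)), fun y => e.1 (Sum.inr (x, y))))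
        (a₂ := (e'.1 (Sum.inl (Sum.inl x)), fun y => e'.1 (Sum.inr (x, y)))) (h (Sum.inl x))
      exact congrFun (congrArg Prod.snd h1) y
  · intro η
    exact hcon η

theorem core {X Z Y₀ Yc : Type} [Fintype X] [Nonempty X] [Fintype Z] [Fintype Y₀]
    (σ : k →+* 𝕜) (hH : Tendsto H (𝒰 : Filter ℕ) atTop) (h𝒰 : (𝒰 : Filter ℕ) ≤ atTop)
    (K₀ : Subfield (UL 𝒰 k)) (hKm : ∀ a : K₀, IsMod 𝒰 H (gmap 𝒰 σ a))
    (Ht : ℕ → Set k) (hHtK : ∀ g : ℕ → k, (∀ᶠ n in (𝒰 : Filter ℕ), g n ∈ Ht n) →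
      ((g : ℕ → k) : (𝒰 : Filter ℕ).Germ k) ∈ K₀)
    (hLP : LP σ H (𝒰 : Filter ℕ) Ht)
    (A₀ : ℕ → Finset (X ⊕ Z → k)) (hA₀H : ∀ᶠ n in (𝒰 : Filter ℕ), ∀ q ∈ A₀ n, ∀ i, q i ∈ Ht n)
    (M : ℝ) (hM : 0 ≤ M) (hA₀M : ∀ᶠ n in (𝒰 : Filter ℕ), ∀ q ∈ A₀ n, ∀ i, ‖σ (q i)‖ ≤ M)
    (Kc : X → Set 𝕜) (hKc : ∀ x, IsCompact (Kc x))
    (hA₀K : ∀ᶠ n in (𝒰 : Filter ℕ), ∀ q ∈ A₀ n, ∀ x, σ (q (Sum.inl x)) ∈ Kc x)
    (f : X → Y₀ → 𝕜 → 𝕜) (hf : ∀ x y, ∀ t ∈ Kc x, AnalyticAt 𝕜 (f x y) t)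
    (hind : ∀ x, ∀ t ∈ Kc x, LinearIndependent 𝕜 (fun (ab : ℕ × (Y₀ → ℕ)) η =>
      tc (fun u => u ^ ab.1 * ∏ y, f x y u ^ ab.2 y) t η))
    (ξ : Yc → 𝕜)
    (hξ : ∀ P : MvPolynomial Yc K₀, P ≠ 0 → IsBig 𝒰 H (eval₂Hom ((gmap 𝒰 σ).comp K₀.subtype)
      (fun c => ((fun _ => ξ c : ℕ → 𝕜) : (𝒰 : Filter ℕ).Germ 𝕜)) P))
    (h : MvPolynomial ((X × Y₀) ⊕ Yc) (MvPolynomial (X ⊕ Z) K₀)) (m : (X × Y₀) ⊕ Yc →₀ ℕ) (hm : coeff m h = 1)
    (hrel : ∀ q, IsPt 𝒰 A₀ q → IsTiny 𝒰 H (eval₂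
      ((gmap 𝒰 σ).comp (aeval (pt 𝒰 q) : MvPolynomial (X ⊕ Z) K₀ →ₐ[K₀] UL 𝒰 k).toRingHom)
      (Sum.elim (fun c : X × Y₀ => ((fun n => f c.1 c.2 (σ (q n (Sum.inl c.1))) : ℕ → 𝕜) : (𝒰 : Filter ℕ).Germ 𝕜))
        (fun c => ((fun _ => ξ c : ℕ → 𝕜) : (𝒰 : Filter ℕ).Germ 𝕜))) h)) :
    ¬ Large 𝒰 H A₀ := by
  classical
  intro hL₀
  have hptK : ∀ q, IsPt 𝒰 A₀ q → ∀ i, pt 𝒰 q i ∈ K₀ := by
    intro q hq i
    apply hHtK
    filter_upwards [hq, hA₀H] with n h1 h2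
    exact h2 _ h1 i
  obtain ⟨A, hAA₀, hAL, T, hTind, hGen⟩ := exists_generic K₀ hH h𝒰 A₀ hL₀ hptK
  obtain ⟨G, hG0, hG⟩ := hGen (X × Y₀) Yc h m hm
  -- the relation in terms of `G`
  have hrelG : ∀ q, IsPt 𝒰 A q → IsTiny 𝒰 H (eval₂ (eval₂Hom ((gmap 𝒰 σ).comp K₀.subtype)
      fun c => ((fun _ => ξ c : ℕ → 𝕜) : (𝒰 : Filter ℕ).Germ 𝕜))
      (Sum.elim (fun j => gmap 𝒰 σ (pt 𝒰 q (emb T j)))
        (fun c : X × Y₀ => ((fun n => f c.1 c.2 (σ (q n (Sum.inl c.1))) : ℕ → 𝕜) : (𝒰 : Filter ℕ).Germ 𝕜))) G) := by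
    intro q hq
    have hq0 : IsPt 𝒰 A₀ q := hq.mono fun n hn => hAA₀ n hn
    obtain ⟨w, hwO, hw⟩ := hG q hq (UL 𝒰 𝕜) (gmap 𝒰 σ)
      (Sum.elim (fun c : X × Y₀ => ((fun n => f c.1 c.2 (σ (q n (Sum.inl c.1))) : ℕ → 𝕜) : (𝒰 : Filter ℕ).Germ 𝕜))
        (fun c => ((fun _ => ξ c : ℕ → 𝕜) : (𝒰 : Filter ℕ).Germ 𝕜))) (modR hH) (fun a => hKm a) (by
          intro i
          rcases i with ⟨x, y⟩ | c
          · rw [Sum.elim_inl, mem_modR]
            have hcont : ContinuousOn (f x y) (Kc x) := fun t ht => (hf x y t ht).continuousAt.continuousWithinAt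
            obtain ⟨B, hB⟩ := (hKc x).exists_bound_of_continuousOn hcont
            refine isMod_of_bdd hH _ B ?_
            filter_upwards [hq0, hA₀K] with n h1 h2
            exact hB _ (h2 _ h1 x)
          · rw [Sum.elim_inr, mem_modR]
            exact isMod_const hH _)
    have h1 := (hrel q hq0).mul_mod hH hwO
    rw [← hw] at h1
    exact h1
  -- representatives of the coefficients
  let Λ : ((X ⊕ T) ⊕ (X × Y₀) →₀ ℕ) → UL 𝒰 𝕜 := fun e => eval₂Hom ((gmap 𝒰 σ).comp K₀.subtype)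
      (fun c => ((fun _ => ξ c : ℕ → 𝕜) : (𝒰 : Filter ℕ).Germ 𝕜)) (coeff e G)
  have hΛr : ∀ e, ∃ g : ℕ → 𝕜, ((g : ℕ → 𝕜) : (𝒰 : Filter ℕ).Germ 𝕜) = Λ e := by
    intro e
    induction Λ e using Germ.inductionOn with
    | _ g => exact ⟨g, rfl⟩
  choose Λr hΛr using hΛr
  have hGs : G.support.Nonempty := support_nonempty.2 hG0
  obtain ⟨e0, he0, hmax⟩ := exists_max_germ (𝒰 := 𝒰) G.support hGs (fun e n => ‖Λr e n‖)
  obtain ⟨g0, hg0, C0, hbig⟩ := hξ (coeff e0 G) (mem_support_iff.1 he0)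
  have hbig' : ∀ᶠ n in (𝒰 : Filter ℕ), 1 ≤ ‖Λr e0 n‖ * H n ^ C0 := by
    have h1 : ((g0 : ℕ → 𝕜) : (𝒰 : Filter ℕ).Germ 𝕜) = ((Λr e0 : ℕ → 𝕜) : (𝒰 : Filter ℕ).Germ 𝕜) :=
      hg0.trans (hΛr e0).symm
    filter_upwards [hbig, Germ.coe_eq.1 h1] with n h2 h3
    rw [← h3]
    exact h2
  have hne0 : ∀ᶠ n in (𝒰 : Filter ℕ), Λr e0 n ≠ 0 := by
    filter_upwards [hbig'] with n h1 h2
    rw [h2, norm_zero, zero_mul] at h1
    linarith
  let E := {e // e ∈ G.support}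
  let lam : ℕ → E → 𝕜 := fun n e => Λr e.1 n / Λr e0 n
  have hlam1 : ∀ e : E, ∀ᶠ n in (𝒰 : Filter ℕ), lam n e ∈ Metric.closedBall (0 : 𝕜) 1 := by
    intro e
    filter_upwards [hmax, hne0] with n h1 h2
    rw [mem_closedBall_zero_iff]
    simp only [lam]
    rw [norm_div, div_le_one (norm_pos_iff.2 h2)]
    exact h1 e.1 e.2
  have hlim : ∀ e : E, ∃ a, Tendsto (fun n => lam n e) (𝒰 : Filter ℕ) (𝓝 a) := by
    intro e
    obtain ⟨a, -, ha⟩ := exists_lim (isCompact_closedBall (0 : 𝕜) 1) (hlam1 e)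
    exact ⟨a, ha⟩
  choose γ hγ using hlim
  have hγ0 : γ ⟨e0, he0⟩ ≠ 0 := by
    have h1 : Tendsto (fun n => lam n ⟨e0, he0⟩) (𝒰 : Filter ℕ) (𝓝 1) := by
      refine tendsto_const_nhds.congr' ?_
      filter_upwards [hne0] with n hn
      simp only [lam]
      rw [div_self hn]
    rw [tendsto_nhds_unique (hγ ⟨e0, he0⟩) h1]
    exact one_ne_zero
  -- cells
  obtain ⟨δ, hδ, hLδ⟩ := hAL
  obtain ⟨ε, hε, B, hBA, hBL, hclose⟩ := exists_cell σ hH (emb T : X ⊕ T → X ⊕ Z) hδ hM hLδ (by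
    filter_upwards [hA₀M] with n hn q hq
    exact hn q (hAA₀ n hq))
  have hBLarge : Large 𝒰 H B := ⟨δ / 4, by positivity, hBL⟩
  obtain ⟨q0, hq0⟩ := exists_pt B hBLarge
  have hq00 : IsPt 𝒰 A₀ q0 := hq0.mono fun n hn => hAA₀ n (hBA n hn)
  let p : ℕ → X ⊕ T → 𝕜 := fun n j => σ (q0 n (emb T j))
  have hplim : ∀ j : X ⊕ T, ∃ a, Tendsto (fun n => p n j) (𝒰 : Filter ℕ) (𝓝 a) ∧
      ∀ x, j = Sum.inl x → a ∈ Kc x := by
    intro j
    rcases j with x | t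
    · obtain ⟨a, ha, hlim⟩ := exists_lim (f := fun n => p n (Sum.inl x)) (hKc x) (by
        filter_upwards [hq00, hA₀K] with n h1 h2
        exact h2 _ h1 x)
      refine ⟨a, hlim, fun x' hx' => ?_⟩
      rw [Sum.inl.injEq] at hx'
      rw [← hx']
      exact ha
    · obtain ⟨a, ha, hlim⟩ := exists_lim (f := fun n => p n (Sum.inr t)) (isCompact_closedBall (0 : 𝕜) M) (by
        filter_upwards [hq00, hA₀M] with n h1 h2
        rw [mem_closedBall_zero_iff]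
        exact h2 _ h1 _)
      exact ⟨a, hlim, fun x' hx' => absurd hx' (by simp)⟩
  choose p0 hp0 hp0K using hplim
  -- smallness of the determinants
  set r := Fintype.card (X ⊕ T) with hr
  have hr0 : 0 < r := by
    rw [hr]
    exact Fintype.card_pos
  obtain ⟨κ, hκ⟩ := hLP (X ⊕ T)
  obtain ⟨M', hM'0, hM'⟩ := exists_exponent hH hε κ
  have hρ0 : ∀ᶠ n in (𝒰 : Filter ℕ), 0 < 2 * H n ^ (-ε) := by
    filter_upwards [hH.eventually_gt_atTop 0] with n hn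
    positivity
  have hρt : Tendsto (fun n => 2 * H n ^ (-ε)) (𝒰 : Filter ℕ) (𝓝 0) := by
    have h1 := ((tendsto_rpow_neg_atTop hε).comp hH).const_mul 2
    rw [mul_zero] at h1
    exact h1
  obtain ⟨ν, hν⟩ := det_small' (𝒰 : Filter ℕ) (fun e : E => psi f e.1) p0
    (fun e j => psi_analytic f e.1 p0 (fun x y => hf x y _ (hp0K (Sum.inl x) x rfl)) j) lam γ hγ p hp0
    (fun n => 2 * H n ^ (-ε)) hρ0 hρt
    (tcM_ne_zero f G.support p0 (fun x => hind x _ (hp0K (Sum.inl x) x rfl)) γ ⟨e0, he0⟩ hγ0)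
  set a := (2 * M') ^ (r - 1) with ha
  set D := 2 * ν * a with hD
  set mm := 2 * M' * (D + 1) with hmm
  have hDm : D < mm := by
    rw [hmm]
    nlinarith
  obtain ⟨C1, hC1⟩ := hν mm D hDm 1
  -- the relation at all the points of `B`
  have hrelB : ∀ᶠ n in (𝒰 : Filter ℕ), ∀ q ∈ B n,
      ‖∑ e : E, lam n e * ∏ j, psi f e.1 j (σ (q (emb T j)))‖ ≤ 1 * (2 * H n ^ (-ε)) ^ mm := by
    apply forall_of_pt (p := fun n q => ‖∑ e : E, lam n e * ∏ j, psi f e.1 j (σ (q (emb T j)))‖ ≤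
      1 * (2 * H n ^ (-ε)) ^ mm)
    intro q hq
    have hqA : IsPt 𝒰 A q := hq.mono fun n hn => hBA n hn
    have h1 := hrelG q hqA
    have h2 : eval₂ (eval₂Hom ((gmap 𝒰 σ).comp K₀.subtype)
      fun c => ((fun _ => ξ c : ℕ → 𝕜) : (𝒰 : Filter ℕ).Germ 𝕜))
      (Sum.elim (fun j => gmap 𝒰 σ (pt 𝒰 q (emb T j)))
        (fun c : X × Y₀ => ((fun n => f c.1 c.2 (σ (q n (Sum.inl c.1))) : ℕ → 𝕜) : (𝒰 : Filter ℕ).Germ 𝕜))) G =
        ((fun n => ∑ e : E, Λr e.1 n * ∏ j, psi f e.1 j (σ (q n (emb T j))) : ℕ → 𝕜) :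
          (𝒰 : Filter ℕ).Germ 𝕜) := by
      rw [eval₂_eq', coe_sum_germ, ← Finset.sum_coe_sort]
      refine Finset.sum_congr rfl fun e _ => ?_
      rw [coe_mul_germ, hΛr]
      congr 1
      have h3 : (fun n => ∏ j, psi f e.1 j (σ (q n (emb T j))) : ℕ → 𝕜) =
          fun n => ∏ i, (Sum.elim (fun j => σ (q n (emb T j)))
            (fun c : X × Y₀ => f c.1 c.2 (σ (q n (Sum.inl c.1)))) i) ^ e.1 i := by
        funext n
        exact prod_psi f e.1 (fun j => σ (q n (emb T j)))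
      rw [h3, coe_prod_germ]
      refine Finset.prod_congr rfl fun i _ => ?_
      rw [coe_pow_germ]
      congr 1
      rcases i with j | c
      · rfl
      · rfl
    rw [h2, isTiny_coe] at h1
    obtain ⟨N1, hN1⟩ := exists_nat_ge (ε * mm)
    filter_upwards [h1 (C0 + N1), hbig', hne0, hH.eventually_ge_atTop 1] with n h3 h4 h5 h6
    have h7 : ∑ e : E, lam n e * ∏ j, psi f e.1 j (σ (q n (emb T j))) =
        (∑ e : E, Λr e.1 n * ∏ j, psi f e.1 j (σ (q n (emb T j)))) / Λr e0 n := by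
      rw [Finset.sum_div]
      refine Finset.sum_congr rfl fun e _ => ?_
      simp only [lam]
      ring
    rw [h7, norm_div, one_mul, div_le_iff₀ (norm_pos_iff.2 h5)]
    have h8 : (1 : ℝ) ≤ (2 * H n ^ (-ε)) ^ mm * H n ^ N1 := by
      rw [mul_pow]
      have h9 : (1 : ℝ) ≤ 2 ^ mm := one_le_pow₀ (by norm_num)
      have h10 : (1 : ℝ) ≤ (H n ^ (-ε)) ^ mm * H n ^ N1 := by
        rw [← Real.rpow_natCast (H n ^ (-ε)), ← Real.rpow_natCast (H n) N1, ← Real.rpow_mul (by linarith),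
          ← Real.rpow_add (by linarith)]
        apply Real.one_le_rpow h6
        linarith
      calc (1 : ℝ) = 1 * 1 := by ring
        _ ≤ 2 ^ mm * ((H n ^ (-ε)) ^ mm * H n ^ N1) := mul_le_mul h9 h10 (by norm_num) (by positivity)
        _ = _ := by ring
    have hHp : 0 < H n ^ (C0 + N1) := by positivity
    rw [← mul_le_mul_iff_left₀ hHp]
    refine h3.trans ?_
    calc (1 : ℝ) = 1 * 1 := by ring
      _ ≤ (‖Λr e0 n‖ * H n ^ C0) * ((2 * H n ^ (-ε)) ^ mm * H n ^ N1) := mul_le_mul h4 h8 (by norm_num) (by positivity)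
      _ = _ := by rw [pow_add]; ring
  -- the determinants vanish
  have hdet : ∀ᶠ n in (𝒰 : Filter ℕ), ∀ x : ((X ⊕ T) → Fin (D + 1)) → X ⊕ Z → k, (∀ b, x b ∈ B n) →
      (Matrix.of fun b a : (X ⊕ T) → Fin (D + 1) => ∏ j, (x b (emb T j)) ^ (a j : ℕ)).det = 0 := by
    filter_upwards [hC1, hrelB, hclose, hq0, hκ D, hM', hA₀H, hH.eventually_ge_atTop 1,
      hH.eventually_gt_atTop |C1|, hρ0, hρt.eventually_le_const (show (0 : ℝ) < 1 by norm_num)]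
      with n h1 h2 h3 h4 h5 h6 h7 h8 h9 h10 h11 x hx
    by_contra hne
    have h12 := h5 (fun b j => x b (emb T j)) (fun b j => h7 _ (hAA₀ n (hBA n (hx b))) _) hne
    have h13 := h1 (fun b j => σ (x b (emb T j)) - p n j) (fun b j => h3 _ (hx b) _ h4 j) (by
      intro b
      have := h2 _ (hx b)
      simpa using this)
    have h14 : ‖(Matrix.of fun b a : (X ⊕ T) → Fin (D + 1) =>
        ∏ j, (p n j + (σ (x b (emb T j)) - p n j)) ^ (a j : ℕ)).det‖ =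
        ‖σ (Matrix.of fun b a : (X ⊕ T) → Fin (D + 1) => ∏ j, (x b (emb T j)) ^ (a j : ℕ)).det‖ := by
      rw [RingHom.map_det]
      congr 2
      ext b a
      simp only [Matrix.of_apply, RingHom.mapMatrix_apply, Matrix.map_apply, map_prod, map_pow,
        add_sub_cancel]
    rw [h14] at h13
    have h15 := numerics h8 h9 (abs_nonneg C1) h10.le h11 h6
      (s := (D + 1) * (D + 1) ^ r) (by positivity) (exponent_ineq hr0)
      (h13.trans (mul_le_mul_of_nonneg_right (le_abs_self C1) (by positivity)))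
    exact absurd h12 (not_le.2 h15)
  -- conclusion
  obtain ⟨R, hR0, hR⟩ := exists_poly K₀ (emb T : X ⊕ T → X ⊕ Z) B
    (fun q hq i => hptK q (hq.mono fun n hn => hAA₀ n (hBA n hn)) i) D hdet
  exact hR0 (hTind B hBA hBLarge R hR)

end Pool.Agent.Y124
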