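import Pool.Agent.Y124.Multi

/-!
# The matrix of the multiples of a function, modulo high powers of the variables
-/

set_option autoImplicit false

open Finset Filter Topology Metric

namespace Pool.Agent.Y124

variable {𝕜 : Type*} [RCLike 𝕜]

/-- entries of the matrix: coefficient of `w ^ α'` in `w ^ (α - μ) * g` -/
noncomputable def mEnt {J : Type*} [Fintype J] (g : (J → ℕ) → 𝕜) (μ : J → ℕ) (α α' : J → ℕ) : 𝕜 :=
  haveI := Classical.dec (∀ j, α j ≤ α' j + μ j)
  if ∀ j, α j ≤ α' j + μ j then g (fun j => α' j + μ j - α j) else 0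

/-- a lexicographically minimal exponent -/
theorem exists_lex_min {J : Type*} [Fintype J] [LinearOrder J] (P : (J → ℕ) → Prop) (h : ∃ η, P η) :
    ∃ μ, P μ ∧ ∀ η, P η → toLex μ ≤ toLex η := by
  classical
  obtain ⟨η0, h0⟩ := h
  have hwf : WellFounded (fun a b : Lex (J → ℕ) => a < b) := wellFounded_lt
  obtain ⟨a, ha, hmin⟩ := hwf.has_min {a : Lex (J → ℕ) | P (ofLex a)} ⟨toLex η0, h0⟩
  refine ⟨ofLex a, ha, fun η hη => ?_⟩
  have := hmin (toLex η) hη
  simpa using not_lt.1 this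

/-- the determinant of the limit matrix does not vanish -/
theorem det_mEnt_ne_zero {J : Type*} [Fintype J] [LinearOrder J] (g : (J → ℕ) → 𝕜) (μ : J → ℕ)
    (hμ : g μ ≠ 0) (hmin : ∀ η, g η ≠ 0 → toLex μ ≤ toLex η) (m : ℕ)
    {N : Type*} [Fintype N] [DecidableEq N] (ι : N → J → Fin m) (hι : Function.Injective ι) :
    (Matrix.of fun α α' : N => mEnt g μ (fun j => (ι α j : ℕ)) (fun j => (ι α' j : ℕ))).det ≠ 0 := by
  classical
  set b : N → Lex (J → ℕ) := fun α => toLex (fun j => (ι α j : ℕ)) with hb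
  have hbinj : Function.Injective b := by
    intro α α' h
    apply hι
    funext j
    have : (fun j => (ι α j : ℕ)) = (fun j => (ι α' j : ℕ)) := toLex.injective h
    exact Fin.ext (congrFun this j)
  let _ : LinearOrder N := LinearOrder.lift' b hbinj
  have htri : (Matrix.of fun α α' : N =>
      mEnt g μ (fun j => (ι α j : ℕ)) (fun j => (ι α' j : ℕ))).IsUpperTriangular := by
    intro α α' hlt
    have hlt' : b α' < b α := hlt
    rw [Matrix.of_apply]
    unfold mEnt
    split_ifs with hle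
    · by_contra hne
      have h1 := hmin _ hne
      -- μ ≤ α' + μ - α, hence α + μ ≤ α' + μ
      have h2 : b α + toLex μ ≤ b α + toLex (fun j => (ι α' j : ℕ) + μ j - (ι α j : ℕ)) := by
        gcongr
      have h3 : b α + toLex (fun j => (ι α' j : ℕ) + μ j - (ι α j : ℕ)) = b α' + toLex μ := by
        apply toLex.symm.injective
        funext j
        have h5 : (ι α j : ℕ) ≤ (ι α' j : ℕ) + μ j := hle j
        change (ι α j : ℕ) + ((ι α' j : ℕ) + μ j - (ι α j : ℕ)) = (ι α' j : ℕ) + μ j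
        omega
      rw [h3] at h2
      have h4 : b α ≤ b α' := le_of_add_le_add_right h2
      exact absurd hlt' (not_lt.2 h4)
    · rfl
  rw [Matrix.det_of_isUpperTriangular htri]
  refine prod_ne_zero_iff.2 fun α _ => ?_
  rw [Matrix.of_apply]
  unfold mEnt
  rw [if_pos (fun j => Nat.le_add_right _ _)]
  have : (fun j => (ι α j : ℕ) + μ j - (ι α j : ℕ)) = μ := by
    funext j
    omega
  rw [this]
  exact hμ

/-- the number of exponents in the box which are not at least `μ` -/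
theorem card_not_ge {J : Type*} [Fintype J] [DecidableEq J] (μ : J → ℕ) (m : ℕ) :
    Fintype.card {α : J → Fin m // ¬ ∀ j, μ j ≤ (α j : ℕ)} ≤ (∑ j, μ j) * m ^ (Fintype.card J - 1) := by
  classical
  rw [Fintype.card_subtype]
  have h1 : (univ.filter fun α : J → Fin m => ¬ ∀ j, μ j ≤ (α j : ℕ)) ⊆
      univ.biUnion fun j => univ.filter fun α : J → Fin m => (α j : ℕ) < μ j := by
    intro α hα
    rw [mem_filter] at hα
    obtain ⟨j, hj⟩ := not_forall.1 hα.2
    rw [mem_biUnion]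
    exact ⟨j, mem_univ _, mem_filter.2 ⟨mem_univ _, not_le.1 hj⟩⟩
  refine (card_le_card h1).trans (card_biUnion_le.trans ?_)
  rw [sum_mul]
  refine sum_le_sum fun j _ => ?_
  -- restrict to the other coordinates
  have h2 : (univ.filter fun α : J → Fin m => (α j : ℕ) < μ j).card ≤
      (Fintype.piFinset fun i : J => if i = j then (univ.filter fun a : Fin m => (a : ℕ) < μ j) else univ).card := by
    apply card_le_card
    intro α hα
    rw [mem_filter] at hα
    rw [Fintype.mem_piFinset]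
    intro i
    by_cases hi : i = j
    · subst hi
      rw [if_pos rfl, mem_filter]
      exact ⟨mem_univ _, hα.2⟩
    · rw [if_neg hi]
      exact mem_univ _
  refine h2.trans ?_
  rw [Fintype.card_piFinset, ← mul_prod_erase univ _ (mem_univ j), if_pos rfl]
  have h3 : (univ.filter fun a : Fin m => (a : ℕ) < μ j).card ≤ μ j := by
    calc (univ.filter fun a : Fin m => (a : ℕ) < μ j).card ≤ (range (μ j)).card := by
          refine card_le_card_of_injOn (fun a => (a : ℕ)) ?_ (fun a _ b _ h => Fin.ext h)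
          intro a ha
          rw [Finset.mem_coe, mem_filter] at ha
          rw [Finset.mem_coe, mem_range]
          exact ha.2
      _ = μ j := card_range _
  have h4 : ∏ x ∈ univ.erase j, (if x = j then (univ.filter fun a : Fin m => (a : ℕ) < μ j)
      else (univ : Finset (Fin m))).card = m ^ (Fintype.card J - 1) := by
    rw [prod_congr rfl (g := fun _ => m)]
    · rw [prod_const, card_erase_of_mem (mem_univ j), card_univ]
    · intro x hx
      rw [if_neg (ne_of_mem_erase hx)]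
      simp
  rw [h4]
  exact Nat.mul_le_mul_right _ h3

/-- multiplication by `w ^ (α - μ)` -/
theorem mul_rel {J : Type*} [Fintype J] [DecidableEq J] (m : ℕ) (g : (J → ℕ) → 𝕜) (μ : J → ℕ) (w : J → 𝕜)
    (r C G : ℝ) (hr0 : 0 ≤ r) (hr1 : r ≤ 1) (hw : ∀ j, ‖w j‖ ≤ r) (hG : ∀ η : J → Fin m, ‖g (fun j => η j)‖ ≤ G)
    (hG0 : 0 ≤ G)
    (hrel : ‖∑ η : J → Fin m, g (fun j => (η j : ℕ)) * ∏ j, w j ^ (η j : ℕ)‖ ≤ C * r ^ m)
    (α : J → Fin m) (hα : ∀ j, μ j ≤ (α j : ℕ)) :
    ‖∑ α' : J → Fin m, mEnt g μ (fun j => (α j : ℕ)) (fun j => (α' j : ℕ)) * ∏ j, w j ^ (α' j : ℕ)‖ ≤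
      (C + Fintype.card (J → Fin m) * G) * r ^ m := by
  classical
  set δ : J → ℕ := fun j => (α j : ℕ) - μ j with hδ
  set S : 𝕜 := ∑ η : J → Fin m, g (fun j => (η j : ℕ)) * ∏ j, w j ^ (η j : ℕ) with hS
  have hw1 : ∀ j, ‖w j‖ ≤ 1 := fun j => (hw j).trans hr1
  set I1 : Finset (J → Fin m) := univ.filter fun η => ∀ j, (η j : ℕ) + δ j < m with hI1
  -- the first part of the product is the sum we want
  have hsum : ∑ α' : J → Fin m, mEnt g μ (fun j => (α j : ℕ)) (fun j => (α' j : ℕ)) * ∏ j, w j ^ (α' j : ℕ) =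
      ∑ η ∈ I1, g (fun j => (η j : ℕ)) * ∏ j, w j ^ ((η j : ℕ) + δ j) := by
    have h1 : ∑ α' : J → Fin m, mEnt g μ (fun j => (α j : ℕ)) (fun j => (α' j : ℕ)) * ∏ j, w j ^ (α' j : ℕ) =
        ∑ α' ∈ (univ : Finset (J → Fin m)).filter (fun α' => ∀ j, (α j : ℕ) ≤ (α' j : ℕ) + μ j),
          g (fun j => (α' j : ℕ) + μ j - (α j : ℕ)) * ∏ j, w j ^ (α' j : ℕ) := by
      rw [sum_filter]
      refine sum_congr rfl fun α' _ => ?_
      unfold mEnt
      split_ifs
      · rfl
      · rw [zero_mul]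
    rw [h1]
    refine sum_bij' (fun α' _ => fun j => ⟨(α' j : ℕ) + μ j - (α j : ℕ), by
        have := hα j
        have := (α' j).isLt
        omega⟩) (fun η hη => fun j => ⟨(η j : ℕ) + δ j, (mem_filter.1 hη).2 j⟩) ?_ ?_ ?_ ?_ ?_
    · intro α' hα'
      rw [mem_filter] at hα'
      rw [hI1, mem_filter]
      refine ⟨mem_univ _, fun j => ?_⟩
      have h2 := hα'.2 j
      have h3 := hα j
      have h4 := (α' j).isLt
      simp only [hδ]
      omega
    · intro η hη
      rw [hI1, mem_filter] at hη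
      rw [mem_filter]
      refine ⟨mem_univ _, fun j => ?_⟩
      have h3 := hα j
      simp only [hδ]
      omega
    · intro α' hα'
      rw [mem_filter] at hα'
      funext j
      apply Fin.ext
      have h2 := hα'.2 j
      have h3 := hα j
      simp only [hδ]
      omega
    · intro η hη
      funext j
      apply Fin.ext
      have h3 := hα j
      simp only [hδ]
      omega
    · intro α' hα'
      rw [mem_filter] at hα'
      congr 1
      refine prod_congr rfl fun j _ => ?_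
      congr 1
      have h2 := hα'.2 j
      have h3 := hα j
      simp only [hδ]
      omega
  have hmul : (∏ j, w j ^ δ j) * S = ∑ η : J → Fin m, g (fun j => (η j : ℕ)) * ∏ j, w j ^ ((η j : ℕ) + δ j) := by
    rw [hS, mul_sum]
    refine sum_congr rfl fun η _ => ?_
    rw [mul_left_comm, ← prod_mul_distrib]
    congr 1
    refine prod_congr rfl fun j _ => ?_
    rw [← pow_add, add_comm]
  have hsplit := sum_filter_add_sum_filter_not (univ : Finset (J → Fin m)) (fun η => ∀ j, (η j : ℕ) + δ j < m)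
    (fun η => g (fun j => (η j : ℕ)) * ∏ j, w j ^ ((η j : ℕ) + δ j))
  rw [← hmul] at hsplit
  rw [hsum]
  have heq : ∑ η ∈ I1, g (fun j => (η j : ℕ)) * ∏ j, w j ^ ((η j : ℕ) + δ j) =
      (∏ j, w j ^ δ j) * S - ∑ η ∈ (univ : Finset (J → Fin m)).filter (fun η => ¬ ∀ j, (η j : ℕ) + δ j < m),
        g (fun j => (η j : ℕ)) * ∏ j, w j ^ ((η j : ℕ) + δ j) := by
    rw [← hsplit, hI1]
    ring
  rw [heq]
  have hrm0 : 0 ≤ r ^ m := pow_nonneg hr0 m
  have hb1 : ‖(∏ j, w j ^ δ j) * S‖ ≤ C * r ^ m := by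
    rw [norm_mul, norm_prod]
    have h5 : ∏ j, ‖w j ^ δ j‖ ≤ 1 := by
      refine prod_le_one (fun _ _ => norm_nonneg _) fun j _ => ?_
      rw [norm_pow]
      exact pow_le_one₀ (norm_nonneg _) (hw1 j)
    calc (∏ j, ‖w j ^ δ j‖) * ‖S‖ ≤ 1 * ‖S‖ := by gcongr
      _ = ‖S‖ := one_mul _
      _ ≤ C * r ^ m := hrel
  have hb2 : ‖∑ η ∈ (univ : Finset (J → Fin m)).filter (fun η => ¬ ∀ j, (η j : ℕ) + δ j < m),
      g (fun j => (η j : ℕ)) * ∏ j, w j ^ ((η j : ℕ) + δ j)‖ ≤ Fintype.card (J → Fin m) * G * r ^ m := by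
    refine (norm_sum_le _ _).trans ?_
    have h6 : ∀ η ∈ (univ : Finset (J → Fin m)).filter (fun η => ¬ ∀ j, (η j : ℕ) + δ j < m),
        ‖g (fun j => (η j : ℕ)) * ∏ j, w j ^ ((η j : ℕ) + δ j)‖ ≤ G * r ^ m := by
      intro η hη
      rw [mem_filter] at hη
      obtain ⟨j0, hj0⟩ := not_forall.1 hη.2
      rw [norm_mul]
      refine mul_le_mul (hG η) ?_ (norm_nonneg _) hG0
      rw [norm_prod, ← mul_prod_erase univ _ (mem_univ j0)]
      have h7 : ‖w j0 ^ ((η j0 : ℕ) + δ j0)‖ ≤ r ^ m := by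
        rw [norm_pow]
        calc ‖w j0‖ ^ ((η j0 : ℕ) + δ j0) ≤ r ^ ((η j0 : ℕ) + δ j0) := pow_le_pow_left₀ (norm_nonneg _) (hw j0) _
          _ ≤ r ^ m := pow_le_pow_of_le_one hr0 hr1 (not_lt.1 hj0)
      have h8 : ∏ j ∈ univ.erase j0, ‖w j ^ ((η j : ℕ) + δ j)‖ ≤ 1 := by
        refine prod_le_one (fun _ _ => norm_nonneg _) fun j _ => ?_
        rw [norm_pow]
        exact pow_le_one₀ (norm_nonneg _) (hw1 j)
      calc ‖w j0 ^ ((η j0 : ℕ) + δ j0)‖ * ∏ j ∈ univ.erase j0, ‖w j ^ ((η j : ℕ) + δ j)‖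
          ≤ r ^ m * 1 := mul_le_mul h7 h8 (prod_nonneg fun _ _ => norm_nonneg _) hrm0
        _ = r ^ m := mul_one _
    refine (sum_le_sum h6).trans ?_
    rw [sum_const, nsmul_eq_mul, mul_assoc]
    have h9 : ((univ.filter fun η : J → Fin m => ¬ ∀ j, (η j : ℕ) + δ j < m).card : ℝ) ≤
        Fintype.card (J → Fin m) := by
      exact_mod_cast card_le_univ _
    gcongr
  calc _ ≤ ‖(∏ j, w j ^ δ j) * S‖ + _ := norm_sub_le _ _
    _ ≤ C * r ^ m + Fintype.card (J → Fin m) * G * r ^ m := add_le_add hb1 hb2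
    _ = _ := by ring

end Pool.Agent.Y124
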