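import Pool.Agent.Y124.Generic

/-!
# Germs of polynomial growth, and germs smaller than every power
-/

set_option autoImplicit false

open MvPolynomial Filter

namespace Pool.Agent.Y124

variable {𝕜 : Type*} [NormedField 𝕜] (𝒰 : Ultrafilter ℕ) (H : ℕ → ℝ)

/-- polynomial growth -/
def IsMod (g : UL 𝒰 𝕜) : Prop := ∃ f : ℕ → 𝕜, (f : (𝒰 : Filter ℕ).Germ 𝕜) = g ∧
  ∃ C : ℕ, ∀ᶠ n in (𝒰 : Filter ℕ), ‖f n‖ ≤ H n ^ C

/-- smaller than every power -/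
def IsTiny (g : UL 𝒰 𝕜) : Prop := ∃ f : ℕ → 𝕜, (f : (𝒰 : Filter ℕ).Germ 𝕜) = g ∧
  ∀ B : ℕ, ∀ᶠ n in (𝒰 : Filter ℕ), ‖f n‖ * H n ^ B ≤ 1

variable {𝒰 H}

theorem isMod_coe (f : ℕ → 𝕜) : IsMod 𝒰 H (f : (𝒰 : Filter ℕ).Germ 𝕜) ↔
    ∃ C : ℕ, ∀ᶠ n in (𝒰 : Filter ℕ), ‖f n‖ ≤ H n ^ C := by
  constructor
  · rintro ⟨f', hf', C, h⟩
    refine ⟨C, ?_⟩
    filter_upwards [h, Germ.coe_eq.1 hf'] with n h1 h2
    rw [← h2]
    exact h1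
  · rintro ⟨C, h⟩
    exact ⟨f, rfl, C, h⟩

theorem isTiny_coe (f : ℕ → 𝕜) : IsTiny 𝒰 H (f : (𝒰 : Filter ℕ).Germ 𝕜) ↔
    ∀ B : ℕ, ∀ᶠ n in (𝒰 : Filter ℕ), ‖f n‖ * H n ^ B ≤ 1 := by
  constructor
  · rintro ⟨f', hf', h⟩ B
    filter_upwards [h B, Germ.coe_eq.1 hf'] with n h1 h2
    rw [← h2]
    exact h1
  · intro h
    exact ⟨f, rfl, h⟩

theorem isMod_iff (g : UL 𝒰 𝕜) (f : ℕ → 𝕜) (h : (f : (𝒰 : Filter ℕ).Germ 𝕜) = g) : IsMod 𝒰 H g ↔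
    ∃ C : ℕ, ∀ᶠ n in (𝒰 : Filter ℕ), ‖f n‖ ≤ H n ^ C := by
  rw [← h]; exact isMod_coe f

theorem IsTiny.mul_mod (hH : Tendsto H (𝒰 : Filter ℕ) atTop) {g g' : UL 𝒰 𝕜} (h : IsTiny 𝒰 H g)
    (h' : IsMod 𝒰 H g') : IsTiny 𝒰 H (g * g') := by
  obtain ⟨f, rfl, hf⟩ := h
  obtain ⟨f', rfl, C, hf'⟩ := h'
  refine ⟨f * f', rfl, fun B => ?_⟩
  filter_upwards [hf (B + C), hf', hH.eventually_ge_atTop 1] with n h1 h2 h3
  rw [Pi.mul_apply, norm_mul]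
  have h4 : 0 ≤ H n ^ B := by positivity
  calc ‖f n‖ * ‖f' n‖ * H n ^ B ≤ ‖f n‖ * H n ^ C * H n ^ B := by gcongr
    _ = ‖f n‖ * H n ^ (B + C) := by ring
    _ ≤ 1 := h1

/-- the subring of germs of polynomial growth -/
def modR (hH : Tendsto H (𝒰 : Filter ℕ) atTop) : Subring (UL 𝒰 𝕜) where
  carrier := {g | IsMod 𝒰 H g}
  mul_mem' := by
    rintro _ _ ⟨f, rfl, C, hf⟩ ⟨f', rfl, C', hf'⟩
    refine ⟨f * f', rfl, C + C', ?_⟩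
    filter_upwards [hf, hf', hH.eventually_ge_atTop 1] with n h1 h2 h3
    rw [Pi.mul_apply, norm_mul, pow_add]
    gcongr
  one_mem' := by
    refine ⟨1, rfl, 0, Eventually.of_forall fun n => ?_⟩
    simp
  add_mem' := by
    rintro _ _ ⟨f, rfl, C, hf⟩ ⟨f', rfl, C', hf'⟩
    refine ⟨f + f', rfl, max C C' + 1, ?_⟩
    filter_upwards [hf, hf', hH.eventually_ge_atTop 2] with n h1 h2 h3
    have h4 : H n ^ C ≤ H n ^ (max C C') := pow_le_pow_right₀ (by linarith) (le_max_left _ _)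
    have h5 : H n ^ C' ≤ H n ^ (max C C') := pow_le_pow_right₀ (by linarith) (le_max_right _ _)
    calc ‖(f + f') n‖ ≤ ‖f n‖ + ‖f' n‖ := norm_add_le _ _
      _ ≤ H n ^ (max C C') * 2 := by linarith
      _ ≤ H n ^ (max C C') * H n := by gcongr
      _ = _ := (pow_succ _ _).symm
  zero_mem' := by
    refine ⟨0, rfl, 0, Eventually.of_forall fun n => ?_⟩
    simp
  neg_mem' := by
    rintro _ ⟨f, rfl, C, hf⟩
    refine ⟨-f, rfl, C, hf.mono fun n hn => ?_⟩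
    rw [Pi.neg_apply, norm_neg]
    exact hn

theorem mem_modR (hH : Tendsto H (𝒰 : Filter ℕ) atTop) (g : UL 𝒰 𝕜) : g ∈ modR hH ↔ IsMod 𝒰 H g := Iff.rfl

theorem isMod_const (hH : Tendsto H (𝒰 : Filter ℕ) atTop) (a : 𝕜) :
    IsMod 𝒰 H ((fun _ => a : ℕ → 𝕜) : (𝒰 : Filter ℕ).Germ 𝕜) := by
  refine ⟨_, rfl, 1, ?_⟩
  filter_upwards [hH.eventually_ge_atTop ‖a‖] with n hn
  simpa using hn

theorem isMod_of_bdd (hH : Tendsto H (𝒰 : Filter ℕ) atTop) (f : ℕ → 𝕜) (M : ℝ)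
    (h : ∀ᶠ n in (𝒰 : Filter ℕ), ‖f n‖ ≤ M) :
    IsMod 𝒰 H (f : (𝒰 : Filter ℕ).Germ 𝕜) := by
  refine ⟨_, rfl, 1, ?_⟩
  filter_upwards [hH.eventually_ge_atTop M, h] with n hn h1
  simpa using h1.trans hn

/-- the map induced by an embedding -/
def gmap {k : Type*} [Field k] (𝒰 : Ultrafilter ℕ) (σ : k →+* 𝕜) : UL 𝒰 k →+* UL 𝒰 𝕜 where
  toFun := Germ.map σ
  map_one' := by
    change ((_ : ℕ → 𝕜) : (𝒰 : Filter ℕ).Germ 𝕜) = ((1 : ℕ → 𝕜) : (𝒰 : Filter ℕ).Germ 𝕜)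
    congr 1
    funext n
    exact map_one σ
  map_zero' := by
    change ((_ : ℕ → 𝕜) : (𝒰 : Filter ℕ).Germ 𝕜) = ((0 : ℕ → 𝕜) : (𝒰 : Filter ℕ).Germ 𝕜)
    congr 1
    funext n
    exact map_zero σ
  map_mul' := by
    intro a b
    induction a using Germ.inductionOn with
    | _ f =>
      induction b using Germ.inductionOn with
      | _ g =>
        change ((_ : ℕ → 𝕜) : (𝒰 : Filter ℕ).Germ 𝕜) = ((_ : ℕ → 𝕜) : (𝒰 : Filter ℕ).Germ 𝕜)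
        congr 1
        funext n
        exact map_mul σ _ _
  map_add' := by
    intro a b
    induction a using Germ.inductionOn with
    | _ f =>
      induction b using Germ.inductionOn with
      | _ g =>
        change ((_ : ℕ → 𝕜) : (𝒰 : Filter ℕ).Germ 𝕜) = ((_ : ℕ → 𝕜) : (𝒰 : Filter ℕ).Germ 𝕜)
        congr 1
        funext n
        exact map_add σ _ _

theorem gmap_coe {k : Type*} [Field k] (𝒰 : Ultrafilter ℕ) (σ : k →+* 𝕜) (f : ℕ → k) :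
    gmap 𝒰 σ (f : (𝒰 : Filter ℕ).Germ k) = ((fun n => σ (f n) : ℕ → 𝕜) : (𝒰 : Filter ℕ).Germ 𝕜) := rfl

/-- sums and products of germs -/
theorem coe_sum_germ {ι : Type*} (S : Finset ι) (f : ι → ℕ → 𝕜) :
    ((fun n => ∑ i ∈ S, f i n : ℕ → 𝕜) : (𝒰 : Filter ℕ).Germ 𝕜) = ∑ i ∈ S, ((f i : ℕ → 𝕜) : (𝒰 : Filter ℕ).Germ 𝕜) := by
  have h := map_sum (Germ.coeRingHom (R := 𝕜) (𝒰 : Filter ℕ)) f S
  rw [← Finset.sum_fn] 
  exact h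

theorem coe_prod_germ {ι : Type*} (S : Finset ι) (f : ι → ℕ → 𝕜) :
    ((fun n => ∏ i ∈ S, f i n : ℕ → 𝕜) : (𝒰 : Filter ℕ).Germ 𝕜) = ∏ i ∈ S, ((f i : ℕ → 𝕜) : (𝒰 : Filter ℕ).Germ 𝕜) := by
  have h := map_prod (Germ.coeRingHom (R := 𝕜) (𝒰 : Filter ℕ)) f S
  rw [← Finset.prod_fn] 
  exact h

theorem coe_mul_germ (f g : ℕ → 𝕜) :
    ((fun n => f n * g n : ℕ → 𝕜) : (𝒰 : Filter ℕ).Germ 𝕜) =
      ((f : ℕ → 𝕜) : (𝒰 : Filter ℕ).Germ 𝕜) * ((g : ℕ → 𝕜) : (𝒰 : Filter ℕ).Germ 𝕜) := rfl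

theorem coe_pow_germ (f : ℕ → 𝕜) (m : ℕ) :
    ((fun n => f n ^ m : ℕ → 𝕜) : (𝒰 : Filter ℕ).Germ 𝕜) = ((f : ℕ → 𝕜) : (𝒰 : Filter ℕ).Germ 𝕜) ^ m := by
  have h := map_pow (Germ.coeRingHom (R := 𝕜) (𝒰 : Filter ℕ)) f m
  exact h

/-- a largest one among finitely many sequences -/
theorem exists_max_germ {E : Type*} (S : Finset E) (hS : S.Nonempty) (f : E → ℕ → ℝ) :
    ∃ e0 ∈ S, ∀ᶠ n in (𝒰 : Filter ℕ), ∀ e ∈ S, f e n ≤ f e0 n := by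
  have h1 : ∀ᶠ n in (𝒰 : Filter ℕ), ∃ e0 ∈ S, ∀ e ∈ S, f e n ≤ f e0 n := by
    refine Eventually.of_forall fun n => ?_
    obtain ⟨e0, he0, h⟩ := S.exists_max_image (fun e => f e n) hS
    exact ⟨e0, he0, h⟩
  by_contra hcon
  push Not at hcon
  have h2 : ∀ᶠ n in (𝒰 : Filter ℕ), ∀ e0 ∈ S, ¬ ∀ e ∈ S, f e n ≤ f e0 n := by
    rw [eventually_all_finset]
    intro e0 he0
    refine (hcon e0 he0).mono fun n hn => ?_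
    push Not
    exact hn
  obtain ⟨n, ⟨e0, he0, h3⟩, h4⟩ := (h1.and h2).exists
  exact h4 e0 he0 h3

end Pool.Agent.Y124
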