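import Pool.Agent.Y124.MultiR
import Pool.Agent.Y120.NF

/-!
# All number fields of bounded degree
-/

set_option autoImplicit false

open Finset NumberField

namespace Pool.Agent.Y124

open Pool.Agent.Y120 (NormRing Pt RK RK_norm hK hK_apply gK card_eq HtLe Pt_of_HtLe HtLe_fin en en_zero)

theorem RelR_mono {g : ℕ} {h ι : Type} [Fintype h] [Fintype ι] {R : Subring (Fin (g + 1) → ℂ)} {ξ : h → ℂ} {v : ι → ℂ}
    {H δ δ' : ℝ} (hδ : δ ≤ δ') (hr : RelR R ξ v H δ) : RelR R ξ v H δ' := by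
  obtain ⟨c, h1, h2, l₀, h3, h4⟩ := hr
  exact ⟨c, h1, h2, l₀, h3, h4.trans (mul_le_mul_of_nonneg_right hδ (norm_nonneg _))⟩

theorem MgR_const {α : Type} {n : ℕ} (X : Finset α) : MgR (fun _ : Fin n => X) = n * (X.card : ℝ) ^ (n - 1) := by
  rw [MgR]
  have h1 : ∀ j : Fin n, ∏ i : Fin n, (if i = j then (1 : ℝ) else (X.card : ℝ)) = (X.card : ℝ) ^ (n - 1) := by
    intro j
    rw [← Finset.mul_prod_erase Finset.univ _ (Finset.mem_univ j), if_pos rfl, one_mul]
    rw [Finset.prod_congr rfl fun i hi => if_neg (Finset.ne_of_mem_erase hi), Finset.prod_const,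
      Finset.card_erase_of_mem (Finset.mem_univ j), Finset.card_univ, Fintype.card_fin]
  rw [Finset.sum_congr rfl fun j _ => h1 j, Finset.sum_const, Finset.card_univ, Fintype.card_fin, nsmul_eq_mul]

/-- relations over the integers of `K` -/
def RelK {h ι : Type} [Fintype h] [Fintype ι] (K : Type) [Field K] [NumberField K] (io : K →+* ℂ) (ξ : h → ℂ)
    (v : ι → ℂ) (H δ : ℝ) : Prop :=
  ∃ c : ι → h → 𝓞 K, (∀ l s (φ : K →+* ℂ), ‖φ (c l s : K)‖ ≤ H) ∧
    ∃ l₀, ∑ s, ξ s * io (c l₀ s : K) ≠ 0 ∧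
      ‖∑ l, (∑ s, ξ s * io (c l s : K)) * v l‖ ≤ δ * ‖∑ s, ξ s * io (c l₀ s : K)‖

theorem RelR_of_RelK {h ι : Type} [Fintype h] [Fintype ι] (K : Type) [Field K] [NumberField K] (io : K →+* ℂ)
    (ξ : h → ℂ) (v : ι → ℂ) (H δ : ℝ) (hr : RelK K io ξ v H δ) : RelR (RK K io) ξ v H δ := by
  obtain ⟨c, h1, l₀, h2, h3⟩ := hr
  have h0 : ∀ l s, hK K io (c l s) 0 = io (c l s : K) := fun l s => by rw [hK_apply, en_zero]
  refine ⟨fun l s => hK K io (c l s), fun l s => ⟨c l s, rfl⟩, fun l s i => ?_, l₀, ?_, ?_⟩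
  · change ‖hK K io (c l s) i‖ ≤ H
    rw [hK_apply]
    exact h1 l s _
  · simp only [h0]
    exact h2
  · simp only [h0]
    exact h3

theorem gK_lt (K : Type) [Field K] [NumberField K] {m : ℕ} (hm : Module.finrank ℚ K ≤ m) : gK K < m := by
  have h1 := card_eq K
  have h2 : Fintype.card (K →+* ℂ) = Module.finrank ℚ K := Embeddings.card K ℂ
  omega

/-- tuples over all number fields of degree at most `m` -/
theorem nfU (m n : ℕ) {κ : Type} [Fintype κ] [DecidableEq κ] (v : ℂ → κ → ℂ) (L : Set ℂ)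
    (hv : ∀ g, OneV g (fun R T => {t | t ∈ L ∧ Pt R T t}) v)
    (h : Type) [Fintype h] [DecidableEq h] (d : ℕ) (A ε : ℝ) (hε : 0 < ε) :
    ∃ B C T₀ : ℝ, 0 ≤ C ∧ 2 ≤ T₀ ∧ ∀ (K : Type) [Field K] [NumberField K], Module.finrank ℚ K ≤ m → ∀ (io : K →+* ℂ)
      (ξ : h → ℂ) (T : ℝ), T₀ ≤ T → ∀ E : Set (Fin n → K),
      (∀ t ∈ E, (∀ j, HtLe K T (t j) ∧ io (t j) ∈ L) ∧
        RelK K io ξ (fun e : Fin n → κ → Fin (d + 1) => mgR (fun _ => v) (fun j => io (t j)) e) (T ^ A) (T ^ (-B))) →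
      E.Finite ∧ (E.ncard : ℝ) ≤ C * T ^ ε * (({x : K | HtLe K T x ∧ io x ∈ L}.ncard : ℝ)) ^ (n - 1) := by
  classical
  have hg := fun g : ℕ => multiR g n (fun _ R T => {t | t ∈ L ∧ Pt R T t}) (fun _ => v) (fun _ => hv g) h d A ε hε
  choose B C T2 hB hC hT2 H using hg
  refine ⟨∑ g ∈ range m, B g, n * ∑ g ∈ range m, C g, 2 + ∑ g ∈ range m, T2 g, ?_, ?_, ?_⟩
  · exact mul_nonneg (Nat.cast_nonneg _) (Finset.sum_nonneg fun g _ => (hC g).le)
  · have : 0 ≤ ∑ g ∈ range m, T2 g := Finset.sum_nonneg fun g _ => by linarith [hT2 g]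
    linarith
  intro K _ _ hm io ξ T hT E hE
  set g := gK K with hg
  have hgm : g ∈ range m := Finset.mem_range.2 (gK_lt K hm)
  have hTT : T2 g ≤ T := by
    have h1 := Finset.single_le_sum (f := T2) (fun g _ => by linarith [hT2 g]) hgm
    linarith
  have hBB : B g ≤ ∑ g ∈ range m, B g := Finset.single_le_sum (f := B) (fun g _ => hB g) hgm
  have hCC : C g ≤ ∑ g ∈ range m, C g := Finset.single_le_sum (f := C) (fun g _ => (hC g).le) hgm
  have hT1 : 1 ≤ T := by linarith [hT2 g]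
  have hXf : {x : K | HtLe K T x ∧ io x ∈ L}.Finite := (HtLe_fin K T).subset fun x hx => hx.1
  set X : Finset K := hXf.toFinset with hX
  have hEsub : E ⊆ (Fintype.piFinset (fun _ : Fin n => X) : Finset (Fin n → K)) := by
    intro t ht
    rw [Finset.mem_coe, Fintype.mem_piFinset]
    intro j
    exact hXf.mem_toFinset.2 ((hE t ht).1 j)
  have hEf : E.Finite := (Finset.finite_toSet _).subset hEsub
  refine ⟨hEf, ?_⟩
  set Y : Finset (Fin n → ℂ) := hEf.toFinset.image fun t j => io (t j) with hY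
  have hYc : Y.card = E.ncard := by
    rw [hY, Finset.card_image_of_injective, Set.ncard_eq_toFinset_card _ hEf]
    intro t t' htt
    funext j
    exact io.injective (congrFun htt j)
  have h1 := H g T hTT (RK K io) (RK_norm K io) ξ (fun _ => X.image io) (by
    intro j x hx
    obtain ⟨y, hy, rfl⟩ := Finset.mem_image.1 hx
    have hy' := hXf.mem_toFinset.1 hy
    exact ⟨hy'.2, Pt_of_HtLe K io hy'.1⟩) Y (by
    intro y hy
    obtain ⟨t, ht, rfl⟩ := Finset.mem_image.1 hy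
    rw [Fintype.mem_piFinset]
    intro j
    exact Finset.mem_image_of_mem _ (hXf.mem_toFinset.2 ((hE t (hEf.mem_toFinset.1 ht)).1 j))) (by
    intro y hy
    obtain ⟨t, ht, rfl⟩ := Finset.mem_image.1 hy
    refine RelR_mono (Real.rpow_le_rpow_of_exponent_le hT1 (neg_le_neg hBB)) ?_
    exact RelR_of_RelK K io ξ _ _ _ (hE t (hEf.mem_toFinset.1 ht)).2)
  rw [MgR_const, hYc, Finset.card_image_of_injective _ io.injective] at h1
  have h2 : (X.card : ℝ) = ({x : K | HtLe K T x ∧ io x ∈ L}.ncard : ℝ) := by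
    rw [Set.ncard_eq_toFinset_card _ hXf]
  rw [h2] at h1
  refine h1.trans ?_
  have hTε : 0 ≤ T ^ ε := (Real.rpow_pos_of_pos (by linarith) _).le
  calc C g * T ^ ε * (n * (({x : K | HtLe K T x ∧ io x ∈ L}.ncard : ℝ)) ^ (n - 1)) =
      (n * C g) * T ^ ε * (({x : K | HtLe K T x ∧ io x ∈ L}.ncard : ℝ)) ^ (n - 1) := by ring
    _ ≤ _ := by
      refine mul_le_mul_of_nonneg_right (mul_le_mul_of_nonneg_right ?_ hTε) (by positivity)
      exact mul_le_mul_of_nonneg_left hCC (Nat.cast_nonneg _)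

theorem exists_sV' {R V : Type} [CommSemiring R] [Fintype V] {d : ℕ} (P : MvPolynomial V R)
    (hP : ∀ i, P.degreeOf i ≤ d) (s : V →₀ ℕ) (hs : s ∈ P.support) : ∃ z : V → Fin (d + 1), sV z = s := by
  have hle : ∀ x, s x < d + 1 := fun x =>
    Nat.lt_succ_of_le ((MvPolynomial.monomial_le_degreeOf x hs).trans (hP x))
  refine ⟨fun x => ⟨s x, hle x⟩, ?_⟩
  ext x
  rfl

/-- polynomials with complex coefficients, by exponents in a box -/
theorem eval_eq_box {V : Type} [Fintype V] [DecidableEq V] {d : ℕ} (v : V → ℂ) (P : MvPolynomial V ℂ)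
    (hP : ∀ i, P.degreeOf i ≤ d) :
    MvPolynomial.aeval v P = ∑ z : V → Fin (d + 1), P.coeff (sV z) * ∏ i, v i ^ (z i : ℕ) := by
  classical
  rw [MvPolynomial.aeval_def, MvPolynomial.eval₂_eq']
  have h1 : ∀ z : V → Fin (d + 1), P.coeff (sV z) * ∏ i, v i ^ (z i : ℕ) =
      (fun s : V →₀ ℕ => (algebraMap ℂ ℂ) (P.coeff s) * ∏ i, v i ^ s i) (sV z) := fun z => rfl
  rw [Finset.sum_congr rfl fun z _ => h1 z, ← Finset.sum_image (f := fun s : V →₀ ℕ =>
    (algebraMap ℂ ℂ) (P.coeff s) * ∏ i, v i ^ s i) (fun a _ b _ hab => sV_inj hab)]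
  refine Finset.sum_subset_zero_on_sdiff ?_ ?_ ?_
  · intro s hs
    obtain ⟨z, hz⟩ := exists_sV' P hP s hs
    exact Finset.mem_image.2 ⟨z, Finset.mem_univ _, hz⟩
  · intro s hs
    rw [Finset.mem_sdiff] at hs
    rw [MvPolynomial.notMem_support_iff.1 hs.2]
    simp
  · intro s hs
    rfl

end Pool.Agent.Y124
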