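import Pool.Agent.Y124.FlagR
import Pool.Agent.Y124.ChartsC
import Pool.Agent.Y120.RealUni

/-!
# One complex variable: at most `C T ^ ε` exceptional points, over rings of integers of bounded degree and for
# arbitrary constants (adapted from helper890's `Y890.UC.Uni`)
-/

set_option autoImplicit false

open Filter Topology

namespace Pool.Agent.Y124

open Pool.Agent.Y120 (Charts mv yv NormRing Pt ExcN local_thmN EE0 encE encE_val mv_enc)

/-- the numbers `v l` satisfy a relation whose coefficients are combinations of the constants `ξ s` over `R`, up to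
`δ` times one of the coefficients -/
def RelR {g : ℕ} {h ι : Type} [Fintype h] [Fintype ι] (R : Subring (Fin (g + 1) → ℂ)) (ξ : h → ℂ) (v : ι → ℂ)
    (H δ : ℝ) : Prop :=
  ∃ c : ι → h → (Fin (g + 1) → ℂ), (∀ l s, c l s ∈ R) ∧ (∀ l s i, ‖c l s i‖ ≤ H) ∧
    ∃ l₀, ∑ s, ξ s * c l₀ s 0 ≠ 0 ∧
      ‖∑ l, (∑ s, ξ s * c l s 0) * v l‖ ≤ δ * ‖∑ s, ξ s * c l₀ s 0‖

/-- counting by cells -/
theorem cover_countC {M r : ℝ} (hM : 0 ≤ M) (hr : 0 < r) (hr1 : r ≤ 1) (F : Finset ℂ) (hF : ∀ z ∈ F, ‖z‖ ≤ M) (C : ℕ)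
    (hC : ∀ τ ∈ F, (F.filter fun z => ‖z - τ‖ ≤ r).card ≤ C) :
    (F.card : ℝ) ≤ C * ((4 * M + 3) ^ 2 * (r ^ 2)⁻¹) := by
  classical
  set s : ℝ := r / 2 with hs
  have hs0 : 0 < s := by positivity
  set φ : ℂ → ℤ × ℤ := fun z => (⌊z.re / s⌋, ⌊z.im / s⌋) with hφ
  set N : ℤ := ⌈M / s⌉ with hN
  have hcell : ∀ x : ℝ, |x| ≤ M → ⌊x / s⌋ ∈ Finset.Icc (-N) N := by
    intro x hx
    rw [abs_le] at hx
    have h1 : M / s ≤ N := Int.le_ceil _
    rw [Finset.mem_Icc]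
    constructor
    · rw [Int.le_floor]
      push_cast
      have h2 : -(M / s) ≤ x / s := by
        rw [← neg_div]
        exact div_le_div_of_nonneg_right hx.1 hs0.le
      linarith
    · have h2 : x / s ≤ M / s := div_le_div_of_nonneg_right hx.2 hs0.le
      have h3 : (⌊x / s⌋ : ℝ) ≤ N := (Int.floor_le _).trans (h2.trans h1)
      exact_mod_cast h3
  have himg : F.image φ ⊆ Finset.Icc (-N) N ×ˢ Finset.Icc (-N) N := by
    intro p hp
    obtain ⟨z, hz, rfl⟩ := Finset.mem_image.1 hp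
    rw [Finset.mem_product]
    exact ⟨hcell _ ((Complex.abs_re_le_norm z).trans (hF z hz)), hcell _ ((Complex.abs_im_le_norm z).trans (hF z hz))⟩
  have h1 := Finset.card_le_mul_card_image (s := F) (f := φ) C (by
    intro p hp
    obtain ⟨τ, hτ, rfl⟩ := Finset.mem_image.1 hp
    refine (Finset.card_le_card ?_).trans (hC τ hτ)
    intro z hz
    rw [Finset.mem_filter] at hz ⊢
    refine ⟨hz.1, ?_⟩
    have h2 : ⌊z.re / s⌋ = ⌊τ.re / s⌋ := congrArg Prod.fst hz.2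
    have h3 : ⌊z.im / s⌋ = ⌊τ.im / s⌋ := congrArg Prod.snd hz.2
    have key : ∀ x y : ℝ, ⌊x / s⌋ = ⌊y / s⌋ → |x - y| ≤ s := by
      intro x y hxy
      have h4 := Int.abs_sub_lt_one_of_floor_eq_floor hxy
      rw [← sub_div, abs_div, abs_of_pos hs0, div_lt_one hs0] at h4
      exact h4.le
    calc ‖z - τ‖ ≤ |(z - τ).re| + |(z - τ).im| := Complex.norm_le_abs_re_add_abs_im _
      _ ≤ s + s := add_le_add (by rw [Complex.sub_re]; exact key _ _ h2) (by rw [Complex.sub_im]; exact key _ _ h3)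
      _ = r := by rw [hs]; ring)
  have h2 : ((F.image φ).card : ℝ) ≤ ((4 * M + 3) ^ 2 * (r ^ 2)⁻¹) := by
    have hN0 : 0 ≤ N := Int.ceil_nonneg (by positivity)
    have h3 : (F.image φ).card ≤ (2 * N + 1).toNat * (2 * N + 1).toNat := by
      refine (Finset.card_le_card himg).trans ?_
      rw [Finset.card_product, Int.card_Icc]
      have : N + 1 - -N = 2 * N + 1 := by ring
      rw [this]
    have h4 : (((2 * N + 1).toNat : ℕ) : ℝ) = 2 * N + 1 := by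
      have : (((2 * N + 1).toNat : ℤ) : ℝ) = ((2 * N + 1 : ℤ) : ℝ) := by
        rw [Int.toNat_of_nonneg (by omega)]
      push_cast at this
      exact this
    have h5 : (2 * (N : ℝ) + 1) ≤ (4 * M + 3) * r⁻¹ := by
      have h6 : (N : ℝ) ≤ M / s + 1 := (Int.ceil_lt_add_one _).le
      have h7 : M / s = 2 * M * r⁻¹ := by rw [hs]; field_simp
      have h8 : 1 ≤ r⁻¹ := (one_le_inv₀ hr).2 hr1
      rw [h7] at h6
      nlinarith
    calc ((F.image φ).card : ℝ) ≤ (((2 * N + 1).toNat * (2 * N + 1).toNat : ℕ) : ℝ) := by exact_mod_cast h3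
      _ = (2 * N + 1) * (2 * N + 1) := by rw [Nat.cast_mul, h4]
      _ ≤ ((4 * M + 3) * r⁻¹) * ((4 * M + 3) * r⁻¹) := by
          have : (0 : ℝ) ≤ N := by exact_mod_cast hN0
          exact mul_le_mul h5 h5 (by linarith) (by positivity)
      _ = _ := by rw [← inv_pow]; ring
  calc (F.card : ℝ) ≤ ((C * (F.image φ).card : ℕ) : ℝ) := by exact_mod_cast h1
    _ = C * ((F.image φ).card : ℝ) := by push_cast; rfl
    _ ≤ _ := mul_le_mul_of_nonneg_left h2 (Nat.cast_nonneg _)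

/-- at most `C T^ε` exceptional points, over rings of integers of degree `g + 1` and for arbitrary constants -/
theorem oneR (g : ℕ) {σ : Type} [Fintype σ] [DecidableEq σ] (f : σ → ℂ → ℂ) (K : Set ℂ) (hK : IsCompact K)
    (han : ∀ i, ∀ t ∈ K, AnalyticAt ℂ (f i) t) (hind : ∀ t ∈ K, LocInd f t) (h : Type) [Fintype h] [DecidableEq h]
    (d : ℕ) (A ε : ℝ) (hε : 0 < ε) :
    ∃ B C T2 : ℝ, 0 < C ∧ 2 ≤ T2 ∧ ∀ T : ℝ, T2 ≤ T → ∀ R : Subring (Fin (g + 1) → ℂ), NormRing R → ∀ ξ : h → ℂ,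
      ∀ Y : Finset ℂ, (∀ t ∈ Y, t ∈ K ∧ Pt R T t ∧
        RelR R ξ (fun l : σ → Fin (d + 1) => ∏ i, f i t ^ (l i : ℕ)) (T ^ A) (T ^ (-B))) →
      (Y.card : ℝ) ≤ C * T ^ ε := by
  classical
  obtain ⟨δ, hδ, hδ'⟩ := exists_radius f hK han
  set Ch := chartsC f K hK han hind δ hδ hδ' with hCh
  set A₀ : ℕ := ⌈A⌉₊ with hA₀
  set fB : ℕ := flagC g (Fintype.card h) A₀ with hfB
  set B' : ℕ := fB + 1 with hB'
  obtain ⟨M, hM⟩ := hK.isBounded.exists_norm_le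
  have hMb : ∀ t ∈ K, ‖t‖ ≤ max M 0 := fun t ht => (hM t ht).trans (le_max_left _ _)
  have hM0 : 0 ≤ max M 0 := le_max_right _ _
  obtain ⟨B₂, C₂, T₀, hT₀2, hloc⟩ := local_thmN (g := g) (σ := σ) (S := h) Ch (EE0 σ d) (ε / 2) (by positivity) A₀ B'
  set nh : ℝ := (Fintype.card h : ℝ) with hnh
  have hnh0 : 0 ≤ nh := by positivity
  refine ⟨B₂ + A₀ + 1, nh * (C₂ * ((4 * max M 0 + 3) ^ 2)) + 1, max (max T₀ ((2 / δ) ^ (2 / ε))) (max nh 2), ?_,
    le_max_of_le_right (le_max_right _ _), ?_⟩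
  · positivity
  intro T hT R hR ξ Y hY
  have hTT₀ : T₀ ≤ T := (le_max_left _ _).trans ((le_max_left _ _).trans hT)
  have hTδ : (2 / δ) ^ (2 / ε) ≤ T := (le_max_right _ _).trans ((le_max_left _ _).trans hT)
  have hTh : nh ≤ T := (le_max_left _ _).trans ((le_max_right _ _).trans hT)
  have hT2 : 2 ≤ T := (le_max_right _ _).trans ((le_max_right _ _).trans hT)
  have hT1 : 1 ≤ T := by linarith
  have hTp : 0 < T := by linarith
  obtain ⟨𝒦, h𝒦card, h𝒦1, h𝒦⟩ := flagR hR A₀ hT2 ξ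
  set B : ℝ := B₂ + A₀ + 1 with hB
  have hr : T ^ (-(ε / 2)) ≤ δ / 2 := by
    have h1 : 0 < 2 / δ := by positivity
    have h2 : 2 / δ ≤ T ^ (ε / 2) := by
      calc 2 / δ = ((2 / δ) ^ (2 / ε)) ^ (ε / 2) := by
            rw [← Real.rpow_mul h1.le]
            have : 2 / ε * (ε / 2) = 1 := by field_simp
            rw [this, Real.rpow_one]
        _ ≤ T ^ (ε / 2) := Real.rpow_le_rpow (by positivity) hTδ (by positivity)
    rw [Real.rpow_neg hTp.le, inv_le_comm₀ (Real.rpow_pos_of_pos hTp _) (by positivity)]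
    rwa [inv_div]
  have hrpos : 0 < T ^ (-(ε / 2)) := Real.rpow_pos_of_pos hTp _
  have hr1 : T ^ (-(ε / 2)) ≤ 1 := Real.rpow_le_one_of_one_le_of_nonpos hT1 (by linarith)
  -- the relation for one of the systems
  set P : (h → ℂ) → ℂ → Prop := fun K' t => ExcN R T A₀ B₂ B' K' (EE0 σ d) (fun i => f i t) with hP
  have hcov : ∀ q ∈ Y, ∃ K' ∈ 𝒦, P K' q := by
    intro q hq
    obtain ⟨-, -, c, hcR, hcA, l₀, hl₀, hcs⟩ := hY q hq
    have hcA' : ∀ e s i, ‖c e s i‖ ≤ T ^ A₀ := fun e s i => (hcA e s i).trans (by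
      calc T ^ A ≤ T ^ (A₀ : ℝ) := Real.rpow_le_rpow_of_exponent_le hT1 (Nat.le_ceil _)
        _ = T ^ A₀ := Real.rpow_natCast _ _)
    obtain ⟨K', hK', l, hl, hKc, l₁, hl₁⟩ := h𝒦 _ c hcR hcA' ⟨l₀, hl₀⟩
    refine ⟨K', hK', ?_⟩
    refine ⟨fun x => c ((encE σ d).symm x.2) x.1, fun x => hcR _ _, ⟨encE σ d l₁, ?_⟩, ?_, ?_⟩
    · simp only [Equiv.symm_apply_apply]
      refine lt_of_lt_of_le ?_ hl₁
      refine inv_strictAnti₀ (pow_pos hTp _) ?_
      exact pow_lt_pow_right₀ (by linarith) (Nat.lt_succ_self _)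
    · intro x j
      exact hcA' _ _ _
    · have h2 : ∑ e : EE0 σ d, (∑ s, K' s * c ((encE σ d).symm e) s 0) *
          mv (fun i => f i q) (e : σ →₀ ℕ) =
          ∑ l, (∑ s, K' s * c l s 0) * ∏ i, f i q ^ (l i : ℕ) := by
        rw [← Equiv.sum_comp (encE σ d)]
        refine Finset.sum_congr rfl fun e _ => ?_
        rw [encE_val, mv_enc, Equiv.symm_apply_apply]
      have h3 : l * ∑ l', (∑ s, K' s * c l' s 0) * ∏ i, f i q ^ (l' i : ℕ) =
          ∑ l', (∑ s, ξ s * c l' s 0) * ∏ i, f i q ^ (l' i : ℕ) := by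
        rw [Finset.mul_sum]
        refine Finset.sum_congr rfl fun l' _ => ?_
        rw [hKc l', mul_assoc]
      have hlpos : 0 < ‖l‖ := norm_pos_iff.2 hl
      have h4 : ‖∑ l', (∑ s, K' s * c l' s 0) * ∏ i, f i q ^ (l' i : ℕ)‖ ≤
          T ^ (-B) * ‖∑ s, K' s * c l₀ s 0‖ := by
        have h5 := hcs
        rw [← h3, hKc l₀, norm_mul, norm_mul] at h5
        have h6 : ‖l‖ * ‖∑ l', (∑ s, K' s * c l' s 0) * ∏ i, f i q ^ (l' i : ℕ)‖ ≤
            ‖l‖ * (T ^ (-B) * ‖∑ s, K' s * c l₀ s 0‖) := by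
          calc _ ≤ T ^ (-B) * (‖l‖ * ‖∑ s, K' s * c l₀ s 0‖) := h5
            _ = _ := by ring
        exact le_of_mul_le_mul_left h6 hlpos
      have h5 : ‖∑ s, K' s * c l₀ s 0‖ ≤ nh * T ^ A₀ := by
        calc ‖∑ s, K' s * c l₀ s 0‖ ≤ ∑ s, ‖K' s * c l₀ s 0‖ := norm_sum_le _ _
          _ ≤ ∑ s : h, T ^ A₀ := by
              refine Finset.sum_le_sum fun s _ => ?_
              rw [norm_mul]
              calc ‖K' s‖ * ‖c l₀ s 0‖ ≤ 1 * T ^ A₀ :=
                    mul_le_mul (h𝒦1 K' hK' s) (hcA' _ _ _) (norm_nonneg _) zero_le_one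
                _ = T ^ A₀ := one_mul _
          _ = nh * T ^ A₀ := by rw [Finset.sum_const, Finset.card_univ, nsmul_eq_mul]
      rw [h2]
      refine h4.trans ?_
      calc T ^ (-B) * ‖∑ s, K' s * c l₀ s 0‖ ≤ T ^ (-B) * (nh * T ^ A₀) :=
            mul_le_mul_of_nonneg_left h5 (Real.rpow_pos_of_pos hTp _).le
        _ ≤ T ^ (-B) * (T * T ^ A₀) := by
            refine mul_le_mul_of_nonneg_left ?_ (Real.rpow_pos_of_pos hTp _).le
            exact mul_le_mul_of_nonneg_right hTh (pow_nonneg hTp.le _)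
        _ = T ^ (-(B₂ : ℝ)) := by
            rw [← pow_succ', ← Real.rpow_natCast, ← Real.rpow_add hTp]
            congr 1
            rw [hB]
            push_cast
            ring
        _ = (T ^ B₂)⁻¹ := by rw [Real.rpow_neg hTp.le, Real.rpow_natCast]
  have hFsub : Y ⊆ 𝒦.biUnion fun K' => Y.filter fun q => P K' q := by
    intro q hq
    obtain ⟨K', hK', hKq⟩ := hcov q hq
    exact Finset.mem_biUnion.2 ⟨K', hK', Finset.mem_filter.2 ⟨hq, hKq⟩⟩
  have hcountK : ∀ K' ∈ 𝒦, ((Y.filter fun q => P K' q).card : ℝ) ≤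
      C₂ * ((4 * max M 0 + 3) ^ 2 * ((T ^ (-(ε / 2))) ^ 2)⁻¹) := by
    intro K' hK'
    refine cover_countC hM0 hrpos hr1 _ (fun q hq => hMb q (hY q (Finset.mem_filter.1 hq).1).1) C₂ ?_
    intro τ hτ
    have hτK : τ ∈ K := (hY τ (Finset.mem_filter.1 hτ).1).1
    refine hloc T hTT₀ R hR K' (fun s => (h𝒦1 K' hK' s).trans (one_le_pow₀ hT1)) ⟨τ, hτK⟩
      ((Y.filter fun q => P K' q).filter fun q => ‖q - τ‖ ≤ T ^ (-(ε / 2))) ?_
    intro t ht
    rw [Finset.mem_filter, Finset.mem_filter] at ht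
    obtain ⟨⟨htY, htP⟩, htτ⟩ := ht
    refine ⟨?_, htτ, (hY t htY).2.1, htP⟩
    change t ∈ Metric.closedBall τ (δ / 2)
    rw [Metric.mem_closedBall, dist_eq_norm]
    exact htτ.trans hr
  have h5 : ((T ^ (-(ε / 2))) ^ 2)⁻¹ = T ^ ε := by
    rw [← Real.rpow_natCast, ← Real.rpow_mul hTp.le, ← Real.rpow_neg hTp.le]
    congr 1
    push_cast
    ring
  have h6 : 0 ≤ T ^ ε := (Real.rpow_pos_of_pos hTp _).le
  have h7 : (0 : ℝ) ≤ C₂ := by positivity
  calc (Y.card : ℝ) ≤ ((𝒦.biUnion fun K' => Y.filter fun q => P K' q).card : ℝ) := by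
        exact_mod_cast Finset.card_le_card hFsub
    _ ≤ ∑ K' ∈ 𝒦, ((Y.filter fun q => P K' q).card : ℝ) := by exact_mod_cast Finset.card_biUnion_le
    _ ≤ ∑ K' ∈ 𝒦, (C₂ * ((4 * max M 0 + 3) ^ 2 * ((T ^ (-(ε / 2))) ^ 2)⁻¹)) := Finset.sum_le_sum hcountK
    _ = 𝒦.card * (C₂ * ((4 * max M 0 + 3) ^ 2 * T ^ ε)) := by rw [Finset.sum_const, nsmul_eq_mul, h5]
    _ ≤ nh * (C₂ * ((4 * max M 0 + 3) ^ 2 * T ^ ε)) := by
        refine mul_le_mul_of_nonneg_right (by rw [hnh]; exact_mod_cast h𝒦card) (by positivity)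
    _ = nh * (C₂ * ((4 * max M 0 + 3) ^ 2)) * T ^ ε := by ring
    _ ≤ (nh * (C₂ * ((4 * max M 0 + 3) ^ 2)) + 1) * T ^ ε := by
        refine mul_le_mul_of_nonneg_right (by linarith) h6

end Pool.Agent.Y124
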