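import Pool.Agent.Y124.App

/-!
# Rational points, functions with values in `ℝ` or `ℂ`
-/

set_option autoImplicit false

open Filter Topology MvPolynomial

namespace Pool.Agent.Y124

variable {𝒰 : Ultrafilter ℕ} {H : ℕ → ℝ} {𝕜 : Type} [RCLike 𝕜]

theorem norm_rat (x : ℚ) : ‖((x : ℚ) : 𝕜)‖ = |(x : ℝ)| := by
  have h : ((x : ℚ) : 𝕜) = (((x : ℝ)) : 𝕜) := by simp
  rw [h, RCLike.norm_ofReal]

theorem KQ_modC (hH : Tendsto H (𝒰 : Filter ℕ) atTop) (a : KQ hH) :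
    IsMod 𝒰 H (gmap 𝒰 (algebraMap ℚ 𝕜) (a : UL 𝒰 ℚ)) := by
  obtain ⟨f, hf, c, h⟩ := a.2
  rw [← hf, gmap_coe, isMod_coe]
  refine ⟨c, h.mono fun n hn => ?_⟩
  rw [eq_ratCast, norm_rat]
  exact hn.1

theorem LPC (h1 : ∀ᶠ n in (𝒰 : Filter ℕ), 1 ≤ H n) (c : ℕ) :
    LP (algebraMap ℚ 𝕜) H (𝒰 : Filter ℕ) (HtQ H c) := by
  intro J _ _
  obtain ⟨κ, hκ⟩ := LPQ h1 c J
  refine ⟨κ, fun D => ?_⟩
  filter_upwards [hκ D] with n hn x hx hdet
  have h2 := hn x hx hdet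
  rw [eq_ratCast, Real.norm_eq_abs] at h2
  rw [eq_ratCast, norm_rat]
  exact h2

/-- a measure of algebraic independence of polynomial type -/
def GoodC {Yc : Type} (ξ : Yc → 𝕜) : Prop := ∀ d : ℕ, ∃ κ : ℕ, ∃ c : ℝ, 0 < c ∧
  ∀ (h : ℝ) (P : MvPolynomial Yc ℤ), 1 ≤ h → P ≠ 0 → P.totalDegree ≤ d → (∀ s, |((P.coeff s : ℤ) : ℝ)| ≤ h) →
    c ≤ h ^ κ * ‖aeval ξ P‖

theorem goodC_pi : GoodC (fun _ : Unit => (Real.pi : ℂ)) := by
  intro d
  obtain ⟨κ, c, hc, h⟩ := goodXi_pi d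
  refine ⟨κ, c, hc, fun h0 P h1 h2 h3 h4 => ?_⟩
  have h5 := h h0 P h1 h2 h3 h4
  have h6 : aeval (fun _ : Unit => (Real.pi : ℂ)) P = ((aeval (fun _ : Unit => Real.pi) P : ℝ) : ℂ) := by
    have h7 : (aeval (fun _ : Unit => (Real.pi : ℂ)) : MvPolynomial Unit ℤ →ₐ[ℤ] ℂ).toRingHom =
        (Complex.ofRealHom).comp (aeval (fun _ : Unit => Real.pi) : MvPolynomial Unit ℤ →ₐ[ℤ] ℝ).toRingHom := by
      apply MvPolynomial.ringHom_ext
      · intro r
        simp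
      · intro i
        simp
    exact RingHom.congr_fun h7 P
  rw [h6, Complex.norm_real, Real.norm_eq_abs]
  exact h5

theorem bigC {Yc : Type} [Fintype Yc] (ξ : Yc → 𝕜) (hξ : GoodC ξ) (hH : Tendsto H (𝒰 : Filter ℕ) atTop)
    (P : MvPolynomial Yc (KQ hH)) (hP : P ≠ 0) :
    IsBig 𝒰 H (eval₂Hom ((gmap 𝒰 (algebraMap ℚ 𝕜)).comp (KQ hH).subtype)
      (fun c => ((fun _ => ξ c : ℕ → 𝕜) : (𝒰 : Filter ℕ).Germ 𝕜)) P) := by
  classical
  have h0 : ∀ s, ∃ f : ℕ → ℚ, ((f : ℕ → ℚ) : (𝒰 : Filter ℕ).Germ ℚ) = ((P.coeff s : KQ hH) : UL 𝒰 ℚ) ∧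
    ∃ c : ℕ, ∀ᶠ n in (𝒰 : Filter ℕ), f n ∈ HtQ H c n := fun s => (P.coeff s).2
  choose f hf c hc using h0
  set S := P.support with hS
  obtain ⟨κ, c0, hc0, hmeas⟩ := hξ P.totalDegree
  obtain ⟨s0, hs0⟩ := support_nonempty.2 hP
  have hf0 : ∀ᶠ n in (𝒰 : Filter ℕ), f s0 n ≠ 0 := by
    have h1 : ¬ ∀ᶠ n in (𝒰 : Filter ℕ), f s0 n = 0 := by
      intro h2
      apply mem_support_iff.1 hs0
      apply Subtype.ext
      rw [← hf s0]
      change _ = ((0 : ℕ → ℚ) : (𝒰 : Filter ℕ).Germ ℚ)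
      exact Germ.coe_eq.2 h2
    rwa [← Ultrafilter.eventually_not] at h1
  let cf : (Yc →₀ ℕ) → ℕ → ℤ := fun s n => (f s n).num * ∏ s' ∈ S.erase s, ((f s' n).den : ℤ)
  let Pn : ℕ → MvPolynomial Yc ℤ := fun n => ∑ s ∈ S, monomial s (cf s n)
  let dn : ℕ → ℝ := fun n => ∏ s ∈ S, ((f s n).den : ℝ)
  set C := ∑ s ∈ S, c s with hC
  have hcoef : ∀ n s, (Pn n).coeff s = if s ∈ S then cf s n else 0 := by
    intro n s
    simp only [Pn, coeff_sum, coeff_monomial]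
    rw [Finset.sum_ite_eq' S s]
  have hcfR : ∀ n, ∀ s ∈ S, ((cf s n : ℤ) : ℝ) = (f s n : ℝ) * dn n := by
    intro n s hs
    simp only [cf, dn]
    push_cast
    rw [← Finset.mul_prod_erase S _ hs, ← mul_assoc]
    congr 1
    have h1 : ((f s n * (f s n).den : ℚ) : ℝ) = ((f s n).num : ℝ) := by
      rw [Rat.mul_den_eq_num]
      norm_cast
    rw [← h1]
    push_cast
    rfl
  refine ⟨fun n => ∑ s ∈ S, (f s n : 𝕜) * ∏ i, ξ i ^ s i, ?_, 2 * C * κ + C + 1, ?_⟩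
  · rw [coe_eval₂Hom, eval₂_eq', coe_sum_germ]
    refine Finset.sum_congr rfl fun s _ => ?_
    rw [coe_mul_germ]
    congr 1
    · rw [RingHom.comp_apply]
      change _ = gmap 𝒰 (algebraMap ℚ 𝕜) ((P.coeff s : KQ hH) : UL 𝒰 ℚ)
      rw [← hf s, gmap_coe]
      simp only [eq_ratCast]
    · rw [coe_prod_germ]
      refine Finset.prod_congr rfl fun i _ => ?_
      rw [coe_pow_germ]
  · have hall : ∀ᶠ n in (𝒰 : Filter ℕ), ∀ s ∈ S, f s n ∈ HtQ H (c s) n := by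
      rw [eventually_all_finset]
      exact fun s _ => hc s
    filter_upwards [hall, hf0, hH.eventually_ge_atTop 1, hH.eventually_ge_atTop (1 / c0)] with n h1 h2 h3 h4
    have hden1 : ∀ s, (1 : ℝ) ≤ ((f s n).den : ℝ) := fun s => by exact_mod_cast (f s n).den_pos
    have hdn0 : 0 < dn n := Finset.prod_pos fun s _ => by linarith [hden1 s]
    have hdnC : dn n ≤ H n ^ C := by
      simp only [dn]
      rw [hC, ← Finset.prod_pow_eq_pow_sum]
      exact Finset.prod_le_prod (fun s _ => by linarith [hden1 s]) fun s hs => (h1 s hs).2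
    have hcle : ∀ s ∈ S, c s ≤ C := fun s hs => Finset.single_le_sum (f := c) (fun _ _ => Nat.zero_le _) hs
    have hPn0 : Pn n ≠ 0 := by
      intro h5
      have h6 := congrArg (coeff s0) h5
      rw [hcoef, if_pos hs0, coeff_zero] at h6
      have h7 := hcfR n s0 hs0
      rw [h6, Int.cast_zero] at h7
      have h8 : (f s0 n : ℝ) ≠ 0 := by exact_mod_cast h2
      exact mul_ne_zero h8 hdn0.ne' h7.symm
    have hdeg : (Pn n).totalDegree ≤ P.totalDegree := by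
      simp only [Pn]
      refine totalDegree_finsetSum_le fun s hs => ?_
      refine (totalDegree_monomial_le _ _).trans ?_
      exact le_totalDegree hs
    have hbd : ∀ s, |(((Pn n).coeff s : ℤ) : ℝ)| ≤ H n ^ (2 * C) := by
      intro s
      rw [hcoef]
      by_cases hs : s ∈ S
      · rw [if_pos hs, hcfR n s hs, abs_mul, abs_of_pos hdn0]
        calc |(f s n : ℝ)| * dn n ≤ H n ^ (c s) * H n ^ C :=
              mul_le_mul (h1 s hs).1 hdnC hdn0.le (by positivity)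
          _ ≤ H n ^ C * H n ^ C := by
              have := pow_le_pow_right₀ h3 (hcle s hs)
              gcongr
          _ = H n ^ (2 * C) := by rw [← pow_add]; congr 1; ring
      · rw [if_neg hs, Int.cast_zero, abs_zero]
        positivity
    have h5 := hmeas (H n ^ (2 * C)) (Pn n) (one_le_pow₀ h3) hPn0 hdeg hbd
    have h6 : aeval ξ (Pn n) = ((dn n : ℝ) : 𝕜) * ∑ s ∈ S, (f s n : 𝕜) * ∏ i, ξ i ^ s i := by
      simp only [Pn]
      rw [map_sum, Finset.mul_sum]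
      refine Finset.sum_congr rfl fun s hs => ?_
      rw [aeval_monomial]
      have h7 : (algebraMap ℤ 𝕜) (cf s n) = (((cf s n : ℤ) : ℝ) : 𝕜) := by simp
      rw [h7, hcfR n s hs, Finsupp.prod_fintype _ _ (fun i => pow_zero _)]
      push_cast
      ring
    rw [h6, norm_mul, RCLike.norm_ofReal, abs_of_pos hdn0] at h5
    set v := ‖∑ s ∈ S, (f s n : 𝕜) * ∏ i, ξ i ^ s i‖ with hv
    have hv0 : 0 ≤ v := norm_nonneg _
    rw [div_le_iff₀ hc0] at h4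
    calc (1 : ℝ) ≤ H n * c0 := h4
      _ ≤ H n * ((H n ^ (2 * C)) ^ κ * (dn n * v)) := by gcongr
      _ ≤ H n * ((H n ^ (2 * C)) ^ κ * (H n ^ C * v)) := by gcongr
      _ = v * H n ^ (2 * C * κ + C + 1) := by ring


end Pool.Agent.Y124
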