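import Pool.Agent.Y124.Core

/-!
# Rational numbers of polynomially bounded height
-/

set_option autoImplicit false

open Filter Topology

namespace Pool.Agent.Y124

variable {𝒰 : Ultrafilter ℕ} {H : ℕ → ℝ}

/-- rational numbers with absolute value and denominator at most `H n ^ c` -/
def HtQ (H : ℕ → ℝ) (c : ℕ) (n : ℕ) : Set ℚ := {x | |(x : ℝ)| ≤ H n ^ c ∧ (x.den : ℝ) ≤ H n ^ c}

theorem HtQ_mono {c c' n : ℕ} (hn : 1 ≤ H n) (h : c ≤ c') : HtQ H c n ⊆ HtQ H c' n := by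
  intro x hx
  have h1 : H n ^ c ≤ H n ^ c' := pow_le_pow_right₀ hn h
  exact ⟨hx.1.trans h1, hx.2.trans h1⟩

theorem HtQ_mul {c c' n : ℕ} (hn : 1 ≤ H n) {x y : ℚ} (hx : x ∈ HtQ H c n) (hy : y ∈ HtQ H c' n) :
    x * y ∈ HtQ H (c + c') n := by
  constructor
  · push_cast
    rw [abs_mul, pow_add]
    exact mul_le_mul hx.1 hy.1 (abs_nonneg _) (by positivity)
  · have h1 : ((x * y).den : ℝ) ≤ (x.den : ℝ) * (y.den : ℝ) := by
      exact_mod_cast Nat.le_of_dvd (by positivity) (Rat.mul_den_dvd x y)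
    refine h1.trans ?_
    rw [pow_add]
    exact mul_le_mul hx.2 hy.2 (by positivity) (by positivity)

theorem HtQ_add {c c' n : ℕ} (hn : 2 ≤ H n) {x y : ℚ} (hx : x ∈ HtQ H c n) (hy : y ∈ HtQ H c' n) :
    x + y ∈ HtQ H (c + c' + 1) n := by
  have h1 : H n ^ c ≤ H n ^ (c + c') := pow_le_pow_right₀ (by linarith) (by omega)
  have h2 : H n ^ c' ≤ H n ^ (c + c') := pow_le_pow_right₀ (by linarith) (by omega)
  have h3 : 0 < H n ^ (c + c') := by positivity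
  constructor
  · push_cast
    refine (abs_add_le _ _).trans ?_
    have := hx.1
    have := hy.1
    rw [pow_succ]
    nlinarith
  · have h4 : ((x + y).den : ℝ) ≤ (x.den : ℝ) * (y.den : ℝ) := by
      exact_mod_cast Nat.le_of_dvd (by positivity) (Rat.add_den_dvd x y)
    refine h4.trans ?_
    calc (x.den : ℝ) * (y.den : ℝ) ≤ H n ^ c * H n ^ c' := mul_le_mul hx.2 hy.2 (by positivity) (by positivity)
      _ = H n ^ (c + c') := (pow_add _ _ _).symm
      _ ≤ H n ^ (c + c' + 1) := pow_le_pow_right₀ (by linarith) (by omega)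

theorem HtQ_inv {c n : ℕ} (hn : 1 ≤ H n) {x : ℚ} (hx : x ∈ HtQ H c n) :
    x⁻¹ ∈ HtQ H (c + c) n := by
  rcases eq_or_ne x 0 with rfl | hx0
  · rw [inv_zero]
    constructor
    · simp only [Rat.cast_zero, abs_zero]
      positivity
    · simp only [Rat.den_ofNat, Nat.cast_one]
      exact one_le_pow₀ hn
  · have hnum : (1 : ℝ) ≤ |(x.num : ℝ)| := by
      have := Int.one_le_abs (Rat.num_ne_zero.2 hx0)
      exact_mod_cast this
    have hden : (1 : ℝ) ≤ (x.den : ℝ) := by exact_mod_cast x.den_pos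
    have hxe : (x : ℝ) = (x.num : ℝ) / (x.den : ℝ) := by exact_mod_cast (Rat.num_div_den x).symm
    have h1 : (1 : ℝ) ≤ H n ^ c := one_le_pow₀ hn
    constructor
    · push_cast
      rw [hxe, inv_div, abs_div, abs_of_pos (by linarith : (0 : ℝ) < (x.den : ℝ))]
      calc (x.den : ℝ) / |(x.num : ℝ)| ≤ (x.den : ℝ) / 1 := by gcongr
        _ ≤ H n ^ c := by rw [div_one]; exact hx.2
        _ ≤ H n ^ (c + c) := pow_le_pow_right₀ hn (by omega)
    · have h2 : ((x⁻¹).den : ℝ) = |(x.num : ℝ)| := by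
        rw [Rat.inv_def]
        have h3 : (Rat.divInt (x.den : ℤ) x.num).den = x.num.natAbs := by
          have h4 : Rat.divInt (x.den : ℤ) x.num = x⁻¹ := (Rat.inv_def x).symm
          rw [h4, Rat.den_inv_of_ne_zero hx0]
        rw [h3]
        rw [Nat.cast_natAbs, Int.cast_abs]
      rw [h2]
      have h5 : |(x.num : ℝ)| = |(x : ℝ)| * (x.den : ℝ) := by
        rw [hxe, abs_div, abs_of_pos (by linarith : (0 : ℝ) < (x.den : ℝ))]
        field_simp
      rw [h5, pow_add]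
      exact mul_le_mul hx.1 hx.2 (by positivity) (by positivity)

/-- the field of germs of rational numbers of polynomially bounded height -/
def KQ (hH : Tendsto H (𝒰 : Filter ℕ) atTop) : Subfield (UL 𝒰 ℚ) where
  carrier := {g | ∃ f : ℕ → ℚ, ((f : ℕ → ℚ) : (𝒰 : Filter ℕ).Germ ℚ) = g ∧
    ∃ c : ℕ, ∀ᶠ n in (𝒰 : Filter ℕ), f n ∈ HtQ H c n}
  mul_mem' := by
    rintro _ _ ⟨f, rfl, c, hf⟩ ⟨f', rfl, c', hf'⟩
    refine ⟨f * f', rfl, c + c', ?_⟩
    filter_upwards [hf, hf', hH.eventually_ge_atTop 1] with n h1 h2 h3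
    exact HtQ_mul h3 h1 h2
  one_mem' := by
    refine ⟨1, rfl, 0, Eventually.of_forall fun n => ?_⟩
    simp [HtQ]
  add_mem' := by
    rintro _ _ ⟨f, rfl, c, hf⟩ ⟨f', rfl, c', hf'⟩
    refine ⟨f + f', rfl, c + c' + 1, ?_⟩
    filter_upwards [hf, hf', hH.eventually_ge_atTop 2] with n h1 h2 h3
    exact HtQ_add h3 h1 h2
  zero_mem' := by
    refine ⟨0, rfl, 0, Eventually.of_forall fun n => ?_⟩
    simp [HtQ]
  neg_mem' := by
    rintro _ ⟨f, rfl, c, hf⟩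
    refine ⟨-f, rfl, c, hf.mono fun n hn => ?_⟩
    simp only [HtQ, Set.mem_ofPred_eq, Pi.neg_apply, Rat.cast_neg, abs_neg, Rat.den_neg_eq_den]
    exact hn
  inv_mem' := by
    rintro _ ⟨f, rfl, c, hf⟩
    refine ⟨f⁻¹, rfl, c + c, ?_⟩
    filter_upwards [hf, hH.eventually_ge_atTop 1] with n h1 h2
    exact HtQ_inv h2 h1

theorem mem_KQ (hH : Tendsto H (𝒰 : Filter ℕ) atTop) (g : UL 𝒰 ℚ) : g ∈ KQ hH ↔
    ∃ f : ℕ → ℚ, ((f : ℕ → ℚ) : (𝒰 : Filter ℕ).Germ ℚ) = g ∧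
      ∃ c : ℕ, ∀ᶠ n in (𝒰 : Filter ℕ), f n ∈ HtQ H c n := Iff.rfl

theorem coe_mem_KQ (hH : Tendsto H (𝒰 : Filter ℕ) atTop) (c : ℕ) (g : ℕ → ℚ)
    (h : ∀ᶠ n in (𝒰 : Filter ℕ), g n ∈ HtQ H c n) : ((g : ℕ → ℚ) : (𝒰 : Filter ℕ).Germ ℚ) ∈ KQ hH :=
  ⟨g, rfl, c, h⟩

theorem KQ_mod (hH : Tendsto H (𝒰 : Filter ℕ) atTop) (a : KQ hH) :
    IsMod 𝒰 H (gmap 𝒰 (algebraMap ℚ ℝ) (a : UL 𝒰 ℚ)) := by
  obtain ⟨f, hf, c, h⟩ := a.2
  rw [← hf, gmap_coe, isMod_coe]
  refine ⟨c, h.mono fun n hn => ?_⟩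
  rw [Real.norm_eq_abs]
  exact hn.1

theorem LPQ (h1 : ∀ᶠ n in (𝒰 : Filter ℕ), 1 ≤ H n) (c : ℕ) :
    LP (algebraMap ℚ ℝ) H (𝒰 : Filter ℕ) (HtQ H c) := by
  intro J _ _
  refine ⟨c * Fintype.card J, fun D => ?_⟩
  filter_upwards [h1] with n hn x hx hdet
  let I := J → Fin (D + 1)
  let Mx : Matrix I I ℚ := Matrix.of fun b a : I => ∏ j, x b j ^ (a j : ℕ)
  have hMx : Mx = Matrix.of fun b a : I => ∏ j, x b j ^ (a j : ℕ) := rfl
  let dd : I → ℚ := fun b => ∏ j, ((x b j).den : ℚ) ^ D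
  let N : Matrix I I ℤ := Matrix.of fun b a : I => ∏ j, (x b j).num ^ (a j : ℕ) * ((x b j).den : ℤ) ^ (D - (a j : ℕ))
  have h2 : (Matrix.of fun b a => dd b * Mx b a).det = (∏ b, dd b) * Mx.det := Matrix.det_mul_column dd Mx
  have h3 : (Matrix.of fun b a => dd b * Mx b a) = (Int.castRingHom ℚ).mapMatrix N := by
    ext b a
    simp only [Matrix.of_apply, RingHom.mapMatrix_apply, Matrix.map_apply, dd, hMx, N, map_prod, map_mul, map_pow]
    rw [← Finset.prod_mul_distrib]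
    refine Finset.prod_congr rfl fun j _ => ?_
    have h4 : (a j : ℕ) ≤ D := Nat.lt_succ_iff.1 (a j).isLt
    have h5 : ((x b j).den : ℚ) ^ D = ((x b j).den : ℚ) ^ (a j : ℕ) * ((x b j).den : ℚ) ^ (D - (a j : ℕ)) := by
      rw [← pow_add]; congr 1; omega
    have h6 : ((x b j).den : ℚ) ^ (a j : ℕ) * (x b j) ^ (a j : ℕ) = ((x b j).num : ℚ) ^ (a j : ℕ) := by
      rw [← mul_pow, mul_comm, Rat.mul_den_eq_num]
    rw [h5]
    simp only [eq_intCast, Int.cast_natCast]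
    calc _ = (((x b j).den : ℚ) ^ (a j : ℕ) * (x b j) ^ (a j : ℕ)) * ((x b j).den : ℚ) ^ (D - (a j : ℕ)) := by ring
      _ = _ := by rw [h6]
  rw [h3, ← RingHom.map_det] at h2
  have hdd : 0 < ∏ b, dd b := Finset.prod_pos fun b _ => Finset.prod_pos fun j _ => by
    have := (x b j).den_pos
    positivity
  have hN : N.det ≠ 0 := by
    intro h0
    rw [h0, map_zero] at h2
    exact (mul_ne_zero hdd.ne' hdet) h2.symm
  have hN1 : (1 : ℝ) ≤ |((N.det : ℤ) : ℝ)| := by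
    have := Int.one_le_abs hN
    exact_mod_cast this
  have h4 : ((N.det : ℤ) : ℝ) = ((∏ b, dd b : ℚ) : ℝ) * ((Mx.det : ℚ) : ℝ) := by
    have := congrArg (fun t : ℚ => (t : ℝ)) h2
    simpa using this
  rw [h4, abs_mul, abs_of_pos (by exact_mod_cast hdd)] at hN1
  refine hN1.trans ?_
  have h5 : ((∏ b, dd b : ℚ) : ℝ) ≤ H n ^ (c * Fintype.card J * ((D + 1) * (D + 1) ^ Fintype.card J)) := by
    have h6 : ∀ b, ((dd b : ℚ) : ℝ) ≤ (H n ^ (c * (D + 1))) ^ Fintype.card J := by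
      intro b
      simp only [dd]
      push_cast
      rw [← Finset.card_univ, ← Finset.prod_const]
      refine Finset.prod_le_prod (fun j _ => by positivity) fun j _ => ?_
      rw [pow_mul]
      have h7 : (1 : ℝ) ≤ H n ^ c := one_le_pow₀ hn
      calc ((x b j).den : ℝ) ^ D ≤ (H n ^ c) ^ D := pow_le_pow_left₀ (by positivity) (hx b j).2 D
        _ ≤ (H n ^ c) ^ (D + 1) := pow_le_pow_right₀ h7 (by omega)
    push_cast
    have h8 : ∏ b : I, ((dd b : ℚ) : ℝ) ≤ ∏ b : I, (H n ^ (c * (D + 1))) ^ Fintype.card J :=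
      Finset.prod_le_prod (fun b _ => by
        have : 0 < dd b := Finset.prod_pos fun j _ => by
          have := (x b j).den_pos
          positivity
        exact_mod_cast this.le) fun b _ => h6 b
    refine h8.trans (le_of_eq ?_)
    rw [Finset.prod_const, Finset.card_univ, ← pow_mul, ← pow_mul]
    congr 1
    simp only [I, Fintype.card_fun, Fintype.card_fin]
    ring
  have h6 : ‖(algebraMap ℚ ℝ) Mx.det‖ = |((Mx.det : ℚ) : ℝ)| := by
    rw [Real.norm_eq_abs]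
    rfl
  change _ ≤ _ * ‖(algebraMap ℚ ℝ) Mx.det‖
  rw [h6]
  gcongr

end Pool.Agent.Y124
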