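import Pool.Agent.Y124.FamC

/-!
# Charts on the space of a family of elliptic curves with a choice of roots
-/

set_option autoImplicit false

open Filter Topology

namespace Pool.Agent.Y124

/-- the triangular equivalence -/
noncomputable def triE (c1 c2 : ℂ) (h : c2 ≠ 0) : (ℂ × ℂ) ≃L[ℂ] (ℂ × ℂ) :=
  ContinuousLinearEquiv.equivOfInverse
    ((ContinuousLinearMap.fst ℂ ℂ ℂ).prod (c1 • ContinuousLinearMap.fst ℂ ℂ ℂ + c2 • ContinuousLinearMap.snd ℂ ℂ ℂ))
    ((ContinuousLinearMap.fst ℂ ℂ ℂ).prod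
      (c2⁻¹ • (ContinuousLinearMap.snd ℂ ℂ ℂ - c1 • ContinuousLinearMap.fst ℂ ℂ ℂ)))
    (by
      intro p
      ext
      · simp
      · simp only [ContinuousLinearMap.prod_apply, ContinuousLinearMap.coe_fst', ContinuousLinearMap.add_apply,
          ContinuousLinearMap.smul_apply, ContinuousLinearMap.coe_snd', ContinuousLinearMap.sub_apply, smul_eq_mul]
        field_simp
        ring)
    (by
      intro p
      ext
      · simp
      · simp only [ContinuousLinearMap.prod_apply, ContinuousLinearMap.coe_fst', ContinuousLinearMap.add_apply,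
          ContinuousLinearMap.smul_apply, ContinuousLinearMap.coe_snd', ContinuousLinearMap.sub_apply, smul_eq_mul]
        field_simp
        ring)

theorem root_chart (a b : Polynomial ℂ) (s0 x0 : ℂ) (h0 : x0 ^ 3 + a.eval s0 * x0 + b.eval s0 = 0)
    (h1 : 3 * x0 ^ 2 + a.eval s0 ≠ 0) :
    ∃ e : ℂ → ℂ, AnalyticAt ℂ e s0 ∧ e s0 = x0 ∧ (∀ᶠ s in 𝓝 s0, e s ^ 3 + a.eval s * e s + b.eval s = 0) ∧
      ∀ᶠ p : ℂ × ℂ in 𝓝 (s0, x0), p.2 ^ 3 + a.eval p.1 * p.2 + b.eval p.1 = 0 → p.2 = e p.1 := by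
  let f : ℂ × ℂ → ℂ × ℂ := fun p => (p.1, p.2 ^ 3 + a.eval p.1 * p.2 + b.eval p.1)
  have hfst : ∀ p : ℂ × ℂ, AnalyticAt ℂ (fun p : ℂ × ℂ => p.1) p := fun p => analyticAt_fst
  have hsnd : ∀ p : ℂ × ℂ, AnalyticAt ℂ (fun p : ℂ × ℂ => p.2) p := fun p => analyticAt_snd
  have hpol : ∀ (P : Polynomial ℂ) (p : ℂ × ℂ), AnalyticAt ℂ (fun p : ℂ × ℂ => P.eval p.1) p := fun P p =>
    AnalyticAt.fun_comp (g := fun s => P.eval s) (P.differentiable.analyticAt _) (hfst p)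
  have han : ∀ p, AnalyticAt ℂ f p := fun p =>
    (hfst p).prod ((((hsnd p).pow 3).add ((hpol a p).mul (hsnd p))).add (hpol b p))
  have hd : HasFDerivAt f ((triE (a.derivative.eval s0 * x0 + b.derivative.eval s0) (3 * x0 ^ 2 + a.eval s0) h1 :
      (ℂ × ℂ) ≃L[ℂ] (ℂ × ℂ)) : (ℂ × ℂ) →L[ℂ] (ℂ × ℂ)) (s0, x0) := by
    have e1 : HasFDerivAt (fun p : ℂ × ℂ => p.1) (ContinuousLinearMap.fst ℂ ℂ ℂ) (s0, x0) := hasFDerivAt_fst
    have e2 : HasFDerivAt (fun p : ℂ × ℂ => p.2) (ContinuousLinearMap.snd ℂ ℂ ℂ) (s0, x0) := hasFDerivAt_snd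
    have e3 : ∀ P : Polynomial ℂ, HasFDerivAt (fun p : ℂ × ℂ => P.eval p.1)
        (P.derivative.eval s0 • ContinuousLinearMap.fst ℂ ℂ ℂ) (s0, x0) := fun P =>
      HasDerivAt.comp_hasFDerivAt (h₂ := fun s => P.eval s) (s0, x0) (P.hasDerivAt s0) e1
    have e4 := (e2.pow 3).add ((e3 a).mul e2) |>.add (e3 b)
    have e5 := e1.prodMk e4
    refine e5.congr_fderiv ?_
    ext <;> simp [triE] <;> ring
  have hst : HasStrictFDerivAt f ((triE (a.derivative.eval s0 * x0 + b.derivative.eval s0) (3 * x0 ^ 2 + a.eval s0) h1 :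
      (ℂ × ℂ) ≃L[ℂ] (ℂ × ℂ)) : (ℂ × ℂ) →L[ℂ] (ℂ × ℂ)) (s0, x0) := by
    have := (han (s0, x0)).hasStrictFDerivAt
    rwa [hd.fderiv] at this
  let R : OpenPartialHomeomorph (ℂ × ℂ) (ℂ × ℂ) := hst.toOpenPartialHomeomorph f
  have hRf : ∀ p, R p = f p := fun p => rfl
  have hx : (s0, x0) ∈ R.source := hst.mem_toOpenPartialHomeomorph_source
  have hf0 : f (s0, x0) = (s0, 0) := by
    change (s0, x0 ^ 3 + a.eval s0 * x0 + b.eval s0) = (s0, 0)
    rw [h0]
  have hsym : AnalyticAt ℂ R.symm (s0, 0) := by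
    have := R.analyticAt_symm' hx (han (s0, x0)) hd.fderiv
    rw [hRf, hf0] at this
    exact this
  have hemb : AnalyticAt ℂ (fun s : ℂ => (s, (0 : ℂ))) s0 := analyticAt_id.prod analyticAt_const
  have hcomp : AnalyticAt ℂ (fun s : ℂ => R.symm (s, 0)) s0 :=
    AnalyticAt.fun_comp (g := R.symm) (f := fun s : ℂ => (s, (0 : ℂ))) hsym hemb
  have htar : ∀ᶠ s in 𝓝 s0, (s, (0 : ℂ)) ∈ R.target := by
    have h2 : R (s0, x0) ∈ R.target := R.map_source hx
    rw [hRf, hf0] at h2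
    exact hemb.continuousAt.eventually_mem (R.open_target.mem_nhds h2)
  refine ⟨fun s => (R.symm (s, 0)).2, ?_, ?_, ?_, ?_⟩
  · exact AnalyticAt.fun_comp (g := Prod.snd) (f := fun s : ℂ => R.symm (s, 0)) analyticAt_snd hcomp
  · change (R.symm (s0, 0)).2 = x0
    rw [← hf0, ← hRf, R.left_inv hx]
  · filter_upwards [htar] with s hs
    have h2 := R.right_inv hs
    rw [hRf] at h2
    have h3 : (R.symm (s, 0)).1 = s := congrArg Prod.fst h2
    have h4 : (R.symm (s, 0)).2 ^ 3 + a.eval (R.symm (s, 0)).1 * (R.symm (s, 0)).2 + b.eval (R.symm (s, 0)).1 = 0 :=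
      congrArg Prod.snd h2
    rw [h3] at h4
    exact h4
  · filter_upwards [R.open_source.mem_nhds hx] with p hp h2
    have h3 := R.left_inv hp
    rw [hRf] at h3
    have h4 : f p = (p.1, 0) := by
      change (p.1, p.2 ^ 3 + a.eval p.1 * p.2 + b.eval p.1) = (p.1, 0)
      rw [h2]
    rw [h4] at h3
    rw [h3]

end Pool.Agent.Y124
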