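import Pool.Agent.Y124.StdQ

/-!
# Approximate relations at rational points: the exceptional points lie on few hypersurfaces
-/

set_option autoImplicit false

open Filter Topology MvPolynomial

namespace Pool.Agent.Y124

theorem exists_eq_of_finite {𝒰 : Ultrafilter ℕ} {ι : Type*} [Finite ι] (j : ℕ → ι) :
    ∃ z, ∀ᶠ n in (𝒰 : Filter ℕ), j n = z := by
  by_contra hcon
  push Not at hcon
  have h1 : ∀ᶠ n in (𝒰 : Filter ℕ), ∀ z, j n ≠ z := by
    rw [eventually_all]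
    intro z
    exact hcon z
  obtain ⟨n, hn⟩ := h1.exists
  exact hn _ rfl

theorem HtQ_div {H : ℕ → ℝ} {n c : ℕ} (hn : 1 ≤ H n) (p q : ℤ) (hq : q ≠ 0) (hpq : |(p : ℝ)| ≤ |(q : ℝ)|)
    (hqc : |(q : ℝ)| ≤ H n ^ c) : ((p : ℚ) / (q : ℚ)) ∈ HtQ H c n := by
  have hq0 : 0 < |(q : ℝ)| := abs_pos.2 (by exact_mod_cast hq)
  constructor
  · push_cast
    rw [abs_div]
    exact ((div_le_one hq0).2 hpq).trans (one_le_pow₀ hn)
  · have h1 : (((p : ℚ) / (q : ℚ)).den : ℤ) ∣ q := by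
      have h0 := Rat.den_dvd p q
      rwa [Rat.divInt_eq_div] at h0
    have h2 : ((p : ℚ) / (q : ℚ)).den ≤ q.natAbs :=
      Nat.le_of_dvd (Int.natAbs_pos.2 hq) (by
        have := Int.natAbs_dvd_natAbs.2 h1
        simpa using this)
    have h3 : (((p : ℚ) / (q : ℚ)).den : ℝ) ≤ (q.natAbs : ℝ) := by exact_mod_cast h2
    refine h3.trans ?_
    rw [Nat.cast_natAbs, Int.cast_abs]
    exact hqc

theorem std {X Y₀ Yc : Type} [Fintype X] [Nonempty X] [Fintype Y₀] [Fintype Yc] (f : X → Y₀ → ℝ → ℝ)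
    (ξ : Yc → ℝ) (a b : X → ℝ) (han : ∀ x y, AnalyticOnNhd ℝ (f x y) (Set.Icc (a x) (b x)))
    (hind : ∀ x, AIndep (f x) (a x) (b x)) (hξ : GoodXi ξ) (d : ℕ) (A ε : ℝ) (hε : 0 < ε) :
    ∃ (D : ℕ) (B C : ℝ), 0 ≤ C ∧ ∀ T : ℝ, 1 ≤ T → Cov D ⌊C * T ^ ε⌋₊ (ExcS f ξ a b d A B T) := by
  classical
  by_contra hcon
  push Not at hcon
  have h1 : ∀ N : ℕ, ∃ T : ℝ, 1 ≤ T ∧ ¬ Cov N ⌊(N : ℝ) * T ^ ε⌋₊ (ExcS f ξ a b d A N T) := fun N =>
    hcon N N N (Nat.cast_nonneg N)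
  choose H hH1 hcov using h1
  -- the heights tend to infinity
  have hHt : Tendsto H atTop atTop := by
    rw [tendsto_atTop]
    intro R
    set F : Finset (X → ℚ) := Fintype.piFinset fun x => TH818.AP.RT (a x) (b x) R with hF
    filter_upwards [eventually_ge_atTop (max 1 F.card)] with N hN
    by_contra hlt
    rw [not_le] at hlt
    apply hcov N
    refine (cov_finset F _ (ExcS_sub f ξ a b d A N (H N) R hlt.le)).mono ((le_max_left _ _).trans hN) ?_
      (Set.Subset.refl _)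
    apply Nat.le_floor
    have h2 : ((F.card : ℕ) : ℝ) ≤ N := by exact_mod_cast (le_max_right _ _).trans hN
    have h3 : 1 ≤ H N ^ ε := Real.one_le_rpow (hH1 N) hε.le
    have h4 : (0 : ℝ) ≤ N := Nat.cast_nonneg N
    nlinarith
  let 𝒰 : Ultrafilter ℕ := hyperfilter ℕ
  have h𝒰 : (𝒰 : Filter ℕ) ≤ atTop := by
    rw [← Nat.cofinite_eq_atTop]
    exact hyperfilter_le_cofinite
  have hH : Tendsto H (𝒰 : Filter ℕ) atTop := hHt.mono_left h𝒰
  -- the coefficients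
  let V := (X × Y₀) ⊕ Yc
  let Z := V → Fin (d + 1)
  have hfin : ∀ N : ℕ, (ExcS f ξ a b d A N (H N)).Finite := fun N =>
    (Finset.finite_toSet _).subset (ExcS_sub f ξ a b d A N (H N) (H N) le_rfl)
  have hP : ∀ (N : ℕ) (t : X → ℚ), ∃ P : MvPolynomial V ℤ, t ∈ ExcS f ξ a b d A N (H N) →
      (P ≠ 0 ∧ (∀ i, P.degreeOf i ≤ d) ∧
      (∀ s, |((P.coeff s : ℤ) : ℝ)| ≤ H N ^ A) ∧
      |aeval (Sum.elim (fun c : X × Y₀ => f c.1 c.2 (t c.1)) ξ) P| ≤ H N ^ (-(N : ℝ))) := by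
    intro N t
    by_cases ht : t ∈ ExcS f ξ a b d A N (H N)
    · obtain ⟨P, hP⟩ := ht.2
      exact ⟨P, fun _ => hP⟩
    · exact ⟨0, fun h => absurd h ht⟩
  choose Pc hPc using hP
  have hz : ∀ (N : ℕ) (t : X → ℚ), ∃ z0 : Z, t ∈ ExcS f ξ a b d A N (H N) →
      ((Pc N t).coeff (sV z0) ≠ 0 ∧ ∀ z : Z, |(((Pc N t).coeff (sV z) : ℤ) : ℝ)| ≤
        |(((Pc N t).coeff (sV z0) : ℤ) : ℝ)|) := by
    intro N t
    obtain ⟨z0, -, hz0⟩ := Finset.exists_max_image (Finset.univ : Finset Z)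
      (fun z => |(((Pc N t).coeff (sV z) : ℤ) : ℝ)|) Finset.univ_nonempty
    refine ⟨z0, fun ht => ⟨?_, fun z => hz0 z (Finset.mem_univ _)⟩⟩
    intro h0
    obtain ⟨hP0, hPd, -, -⟩ := hPc N t ht
    obtain ⟨s, hs⟩ := support_nonempty.2 hP0
    obtain ⟨z, hz⟩ := exists_sV (Pc N t) hPd s hs
    have h2 := hz0 z (Finset.mem_univ _)
    rw [h0, hz] at h2
    simp only [Int.cast_zero, abs_zero] at h2
    have h3 : ((Pc N t).coeff s : ℤ) ≠ 0 := mem_support_iff.1 hs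
    have h4 : (0 : ℝ) < |(((Pc N t).coeff s : ℤ) : ℝ)| := abs_pos.2 (by exact_mod_cast h3)
    linarith
  choose z0 hz0 using hz
  let q : ℕ → (X → ℚ) → (X ⊕ Z → ℚ) := fun N t => Sum.elim t fun z =>
    (((Pc N t).coeff (sV z) : ℤ) : ℚ) / (((Pc N t).coeff (sV (z0 N t)) : ℤ) : ℚ)
  let A1 : ℕ → Finset (X ⊕ Z → ℚ) := fun N => (hfin N).toFinset.image (q N)
  let Pz : ℕ → Z → Finset (X ⊕ Z → ℚ) := fun N z => ((hfin N).toFinset.filter fun t => z0 N t = z).image (q N)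
  have hA1 : LargeD 𝒰 H ε A1 := by
    have h2 : ∀ᶠ N in (𝒰 : Filter ℕ), 1 ≤ N := h𝒰 (eventually_ge_atTop 1)
    refine h2.mono ?_
    intro N hN hc
    apply hcov N
    refine hc.mono le_rfl ?_ ?_
    · apply Nat.floor_le_floor
      have h3 : 0 ≤ H N ^ ε := by have := hH1 N; positivity
      have h4 : (1 : ℝ) ≤ N := by exact_mod_cast hN
      nlinarith
    · intro t ht
      refine ⟨q N t, ?_, ?_⟩
      · simp only [A1, Finset.coe_image]
        exact Set.mem_image_of_mem _ (by simpa using ht)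
      · funext i
        rfl
  obtain ⟨j, -, hj⟩ := large_pieces (𝒰 := 𝒰) hH hε hA1 (fun _ => (Finset.univ : Finset Z)) Pz (Fintype.card Z)
    (Eventually.of_forall fun n => by
      have h3 : 1 ≤ H n ^ (ε / 4) := Real.one_le_rpow (hH1 n) (by positivity)
      rw [Finset.card_univ]
      nlinarith [(Nat.cast_nonneg (Fintype.card Z) : (0 : ℝ) ≤ _)])
    (Eventually.of_forall fun n q' hq' => by
      simp only [A1, Finset.mem_image] at hq'
      obtain ⟨t, ht, rfl⟩ := hq'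
      refine ⟨z0 n t, Finset.mem_univ _, ?_⟩
      simp only [Pz, Finset.mem_image, Finset.mem_filter]
      exact ⟨t, ⟨ht, rfl⟩, rfl⟩)
  obtain ⟨zs, hzs⟩ := exists_eq_of_finite (𝒰 := 𝒰) j
  let A₀ : ℕ → Finset (X ⊕ Z → ℚ) := fun N => Pz N zs
  have hA₀ : Large 𝒰 H A₀ := by
    refine ⟨ε / 4, by positivity, ?_⟩
    unfold LargeD at hj ⊢
    filter_upwards [hj, hzs] with n h1 h2
    rw [h2] at h1
    exact h1
  have hmemA : ∀ N : ℕ, ∀ x ∈ A₀ N, ∃ t ∈ ExcS f ξ a b d A N (H N), z0 N t = zs ∧ q N t = x := by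
    intro N x hx
    simp only [A₀, Pz, Finset.mem_image, Finset.mem_filter, Set.Finite.mem_toFinset] at hx
    obtain ⟨t, ⟨ht, hz⟩, hq⟩ := hx
    exact ⟨t, ht, hz, hq⟩
  -- bounds
  set Mb : ℝ := 1 + ∑ x, max |a x| |b x| with hMb
  have hMx : ∀ x, max |a x| |b x| ≤ Mb := by
    intro x
    have h2 : max |a x| |b x| ≤ ∑ x, max |a x| |b x| :=
      Finset.single_le_sum (f := fun x => max |a x| |b x|) (fun _ _ => by positivity) (Finset.mem_univ x)
    linarith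
  have hMb1 : 1 ≤ Mb := by
    have : 0 ≤ ∑ x, max |a x| |b x| := Finset.sum_nonneg fun _ _ => by positivity
    linarith
  have habs : ∀ N : ℕ, ∀ t ∈ ExcS f ξ a b d A N (H N), ∀ x, |(t x : ℝ)| ≤ Mb := by
    intro N t ht x
    have h2 := (ht.1 x).1
    refine le_trans ?_ (hMx x)
    exact abs_le_max_abs_abs h2.1 h2.2
  have hzabs : ∀ N : ℕ, ∀ t ∈ ExcS f ξ a b d A N (H N), ∀ z : Z, |((q N t (Sum.inr z) : ℚ) : ℝ)| ≤ 1 := by
    intro N t ht z
    simp only [q, Sum.elim_inr]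
    push_cast
    rw [abs_div]
    have h2 : 0 < |(((Pc N t).coeff (sV (z0 N t)) : ℤ) : ℝ)| := abs_pos.2 (by exact_mod_cast (hz0 N t ht).1)
    exact (div_le_one h2).2 ((hz0 N t ht).2 z)
  set cA : ℕ := ⌈A⌉₊ + 1 with hcA
  refine core (𝒰 := 𝒰) (H := H) (Y₀ := Y₀) (Yc := Yc) (X := X) (Z := Z) (algebraMap ℚ ℝ) hH h𝒰 (KQ hH) (KQ_mod hH)
    (HtQ H cA) (fun g hg => coe_mem_KQ hH cA g hg) (LPQ (Eventually.of_forall hH1) cA) A₀ ?_ Mb (by linarith) ?_
    (fun x => Set.Icc (a x) (b x)) (fun x => isCompact_Icc) ?_ f (fun x y t ht => han x y t ht)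
    (fun x t ht => taylor_indep_of (f x) (a x) (b x) (han x) (hind x) t ht) ξ (fun P hP => bigQ ξ hξ hH P hP)
    (∑ z : Z, monomial (sV z) (if z = zs then 1 else MvPolynomial.X (Sum.inr z))) (sV zs) ?_ ?_ hA₀
  · -- heights
    filter_upwards [hH.eventually_ge_atTop Mb] with N hN x hx i
    obtain ⟨t, ht, -, rfl⟩ := hmemA N x hx
    have hpow1 : H N ≤ H N ^ cA := le_self_pow₀ (hH1 N) (by omega)
    rcases i with i | z
    · refine ⟨(habs N t ht i).trans (hN.trans hpow1), ?_⟩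
      exact ((ht.1 i).2).trans hpow1
    · apply HtQ_div (hH1 N) _ _ (hz0 N t ht).1 ((hz0 N t ht).2 z)
      refine ((hPc N t ht).2.2.1 _).trans ?_
      rw [← Real.rpow_natCast (H N) cA]
      apply Real.rpow_le_rpow_of_exponent_le (hH1 N)
      rw [hcA]
      push_cast
      have := Nat.le_ceil A
      linarith
  · refine Eventually.of_forall fun N x hx i => ?_
    obtain ⟨t, ht, -, rfl⟩ := hmemA N x hx
    rw [Real.norm_eq_abs]
    rcases i with i | z
    · exact habs N t ht i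
    · exact (hzabs N t ht z).trans hMb1
  · refine Eventually.of_forall fun N x hx i => ?_
    obtain ⟨t, ht, -, rfl⟩ := hmemA N x hx
    exact (ht.1 i).1
  · rw [coeff_sum]
    simp only [coeff_monomial]
    rw [Finset.sum_eq_single zs]
    · simp
    · intro z _ hz
      rw [if_neg (fun hh => hz (sV_inj hh))]
    · simp
  · intro qq hqq
    have hval : eval₂ ((gmap 𝒰 (algebraMap ℚ ℝ)).comp
          (aeval (pt 𝒰 qq) : MvPolynomial (X ⊕ Z) (KQ hH) →ₐ[KQ hH] UL 𝒰 ℚ).toRingHom)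
        (Sum.elim (fun c : X × Y₀ => ((fun n => f c.1 c.2 (algebraMap ℚ ℝ (qq n (Sum.inl c.1))) : ℕ → ℝ) :
          (𝒰 : Filter ℕ).Germ ℝ)) (fun c => ((fun _ => ξ c : ℕ → ℝ) : (𝒰 : Filter ℕ).Germ ℝ)))
        (∑ z : Z, monomial (sV z) (if z = zs then 1 else MvPolynomial.X (Sum.inr z))) =
        ((fun n => ∑ z : Z, ((qq n (Sum.inr z) : ℚ) : ℝ) * ∏ i,
          (Sum.elim (fun c : X × Y₀ => f c.1 c.2 (qq n (Sum.inl c.1))) ξ i) ^ (z i : ℕ) : ℕ → ℝ) :
          (𝒰 : Filter ℕ).Germ ℝ) := by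
      rw [← coe_eval₂Hom, map_sum, coe_sum_germ]
      refine Finset.sum_congr rfl fun z _ => ?_
      rw [coe_eval₂Hom, eval₂_monomial, coe_mul_germ]
      congr 1
      · by_cases hzz : z = zs
        · rw [if_pos hzz, map_one]
          change ((1 : ℕ → ℝ) : (𝒰 : Filter ℕ).Germ ℝ) = _
          rw [Germ.coe_eq]
          filter_upwards [hqq] with n hn
          obtain ⟨t, ht, hzt, hqt⟩ := hmemA n _ hn
          rw [← hqt, hzz]
          simp only [q, Sum.elim_inr, hzt, Pi.one_apply]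
          have h2 := (hz0 n t ht).1
          rw [hzt] at h2
          rw [div_self (by exact_mod_cast h2), Rat.cast_one]
        · rw [if_neg hzz]
          have h3 : ((gmap 𝒰 (algebraMap ℚ ℝ)).comp
            (aeval (pt 𝒰 qq) : MvPolynomial (X ⊕ Z) (KQ hH) →ₐ[KQ hH] UL 𝒰 ℚ).toRingHom) (MvPolynomial.X (Sum.inr z)) =
            gmap 𝒰 (algebraMap ℚ ℝ) (pt 𝒰 qq (Sum.inr z)) := by
            rw [RingHom.comp_apply]
            congr 1
            exact aeval_X _ _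
          rw [h3]
          rfl
      · rw [coe_prod_germ, Finsupp.prod_fintype _ _ (fun _ => pow_zero _)]
        refine Finset.prod_congr rfl fun i _ => ?_
        rw [coe_pow_germ, sV_apply]
        congr 1
        rcases i with c | c
        · rfl
        · rfl
    rw [hval, isTiny_coe]
    intro B
    filter_upwards [hqq, h𝒰 (eventually_ge_atTop B)] with n hn hnB
    obtain ⟨t, ht, hzt, hqt⟩ := hmemA n _ hn
    obtain ⟨hP0, hPd, hPc', hPs⟩ := hPc n t ht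
    rw [← hqt]
    have h2 : ∑ z : Z, ((q n t (Sum.inr z) : ℚ) : ℝ) * ∏ i,
          (Sum.elim (fun c : X × Y₀ => f c.1 c.2 (q n t (Sum.inl c.1))) ξ i) ^ (z i : ℕ) =
        (aeval (Sum.elim (fun c : X × Y₀ => f c.1 c.2 (t c.1)) ξ) (Pc n t)) /
          (((Pc n t).coeff (sV (z0 n t)) : ℤ) : ℝ) := by
      rw [aeval_eq_sum _ _ hPd, Finset.sum_div]
      refine Finset.sum_congr rfl fun z _ => ?_
      simp only [q, Sum.elim_inr, Sum.elim_inl]
      push_cast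
      ring
    rw [h2, norm_div, Real.norm_eq_abs, Real.norm_eq_abs]
    have h3 : (1 : ℝ) ≤ |(((Pc n t).coeff (sV (z0 n t)) : ℤ) : ℝ)| := by
      have := Int.one_le_abs (hz0 n t ht).1
      exact_mod_cast this
    have hHn := hH1 n
    calc |aeval (Sum.elim (fun c : X × Y₀ => f c.1 c.2 (t c.1)) ξ) (Pc n t)| /
          |(((Pc n t).coeff (sV (z0 n t)) : ℤ) : ℝ)| * H n ^ B
        ≤ |aeval (Sum.elim (fun c : X × Y₀ => f c.1 c.2 (t c.1)) ξ) (Pc n t)| * H n ^ B := by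
          gcongr
          exact div_le_self (abs_nonneg _) h3
      _ ≤ H n ^ (-(n : ℝ)) * H n ^ B := by gcongr
      _ ≤ 1 := by
          rw [← Real.rpow_natCast (H n) B, ← Real.rpow_add (by linarith)]
          apply Real.rpow_le_one_of_one_le_of_nonpos hHn
          have : (B : ℝ) ≤ n := by exact_mod_cast hnB
          linarith

end Pool.Agent.Y124
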