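import Pool.Agent.Y124.BigQ
import Pool.Agent.Y124.Main
import Pool.Agent.TH818.AP.Api

/-!
# Approximate relations at rational points: the exceptional points lie on few hypersurfaces
-/

set_option autoImplicit false

open Filter Topology MvPolynomial

namespace Pool.Agent.Y124

/-- algebraic independence over `ℝ(t)` -/
def AIndep {Y₀ : Type} (f : Y₀ → ℝ → ℝ) (a b : ℝ) : Prop :=
  ∀ P : MvPolynomial (Option Y₀) ℝ, (∀ t ∈ Set.Icc a b, eval (fun o => o.elim t fun y => f y t) P = 0) → P = 0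

theorem taylor_indep_of {Y₀ : Type} [Fintype Y₀] (f : Y₀ → ℝ → ℝ) (a b : ℝ)
    (han : ∀ y, AnalyticOnNhd ℝ (f y) (Set.Icc a b)) (hind : AIndep f a b) (t0 : ℝ) (ht0 : t0 ∈ Set.Icc a b) :
    LinearIndependent ℝ (fun (ab : ℕ × (Y₀ → ℕ)) η => tc (fun u => u ^ ab.1 * ∏ y, f y u ^ ab.2 y) t0 η) := by
  classical
  have hana : ∀ (i : ℕ × (Y₀ → ℕ)) (t : ℝ), t ∈ Set.Icc a b →
      AnalyticAt ℝ (fun u => u ^ i.1 * ∏ y, f y u ^ i.2 y) t := fun i t ht =>
    (analyticAt_id.pow _).mul (Finset.analyticAt_fun_prod _ fun y _ => (han y t ht).pow _)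
  apply tc_indep _ _ (fun i => hana i t0 ht0)
  intro S c h
  have h1 : AnalyticOnNhd ℝ (fun t => ∑ i ∈ S, c i * (t ^ i.1 * ∏ y, f y t ^ i.2 y)) (Set.Icc a b) :=
    fun t ht => Finset.analyticAt_fun_sum _ fun i _ => analyticAt_const.mul (hana i t ht)
  have h2 := h1.eqOn_zero_of_preconnected_of_eventuallyEq_zero isPreconnected_Icc ht0 h
  let ex : ℕ × (Y₀ → ℕ) → (Option Y₀ →₀ ℕ) := fun i => Finsupp.equivFunOnFinite.symm fun o => o.elim i.1 i.2
  have hex : Function.Injective ex := by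
    intro i j hij
    have h3 := Finsupp.equivFunOnFinite.symm.injective hij
    refine Prod.ext (congrFun h3 none) (funext fun y => congrFun h3 (some y))
  have h3 := hind (∑ i ∈ S, monomial (ex i) (c i)) (by
    intro t ht
    rw [map_sum]
    refine Eq.trans (Finset.sum_congr rfl fun i _ => ?_) (h2 ht)
    rw [eval_monomial, Finsupp.prod_fintype _ _ (fun _ => pow_zero _), Fintype.prod_option]
    simp [ex])
  intro i hi
  have h4 := congrArg (coeff (ex i)) h3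
  rw [coeff_sum, coeff_zero] at h4
  simp only [coeff_monomial] at h4
  have h5 : ∀ j, (if ex j = ex i then c j else 0) = if j = i then c j else 0 := by
    intro j
    by_cases hj : j = i
    · rw [if_pos hj, if_pos (by rw [hj])]
    · rw [if_neg hj, if_neg (fun hh => hj (hex hh))]
  simp only [h5] at h4
  rw [Finset.sum_ite_eq' S i, if_pos hi] at h4
  exact h4

/-- the exponent vector -/
noncomputable def sV {V : Type} [Fintype V] {d : ℕ} (z : V → Fin (d + 1)) : V →₀ ℕ :=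
  Finsupp.equivFunOnFinite.symm fun i => (z i : ℕ)

theorem sV_apply {V : Type} [Fintype V] {d : ℕ} (z : V → Fin (d + 1)) (i : V) : sV z i = (z i : ℕ) := rfl

theorem sV_inj {V : Type} [Fintype V] {d : ℕ} : Function.Injective (sV (V := V) (d := d)) := by
  intro z z' h
  funext i
  exact Fin.ext (DFunLike.congr_fun h i)

theorem exists_sV {V : Type} [Fintype V] {d : ℕ} (P : MvPolynomial V ℤ) (hP : ∀ i, P.degreeOf i ≤ d) (s : V →₀ ℕ)
    (hs : s ∈ P.support) : ∃ z : V → Fin (d + 1), sV z = s := by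
  have hle : ∀ x, s x < d + 1 := fun x =>
    Nat.lt_succ_of_le ((monomial_le_degreeOf x hs).trans (hP x))
  refine ⟨fun x => ⟨s x, hle x⟩, ?_⟩
  ext x
  rfl

theorem aeval_eq_sum {V : Type} [Fintype V] [DecidableEq V] {d : ℕ} (v : V → ℝ) (P : MvPolynomial V ℤ) (hP : ∀ i, P.degreeOf i ≤ d) :
    aeval v P = ∑ z : V → Fin (d + 1), ((P.coeff (sV z) : ℤ) : ℝ) * ∏ i, v i ^ (z i : ℕ) := by
  classical
  rw [aeval_def, eval₂_eq']
  have h1 : ∀ z : V → Fin (d + 1), ((P.coeff (sV z) : ℤ) : ℝ) * ∏ i, v i ^ (z i : ℕ) =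
      (fun s : V →₀ ℕ => ((P.coeff s : ℤ) : ℝ) * ∏ i, v i ^ s i) (sV z) := fun z => rfl
  rw [Finset.sum_congr rfl fun z _ => h1 z, ← Finset.sum_image (f := fun s : V →₀ ℕ =>
    ((P.coeff s : ℤ) : ℝ) * ∏ i, v i ^ s i) (fun a _ b _ hab => sV_inj hab)]
  refine Finset.sum_subset_zero_on_sdiff ?_ ?_ ?_
  · intro s hs
    obtain ⟨z, hz⟩ := exists_sV P hP s hs
    exact Finset.mem_image.2 ⟨z, Finset.mem_univ _, hz⟩
  · intro s hs
    rw [Finset.mem_sdiff, notMem_support_iff] at hs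
    rw [hs.2]
    simp
  · intro s _
    rfl

/-- the points with an approximate relation -/
def ExcS {X Y₀ Yc : Type} (f : X → Y₀ → ℝ → ℝ) (ξ : Yc → ℝ) (a b : X → ℝ) (d : ℕ) (A B T : ℝ) : Set (X → ℚ) :=
  {t | (∀ x, (t x : ℝ) ∈ Set.Icc (a x) (b x) ∧ ((t x).den : ℝ) ≤ T) ∧
    ∃ P : MvPolynomial ((X × Y₀) ⊕ Yc) ℤ, P ≠ 0 ∧ (∀ i, P.degreeOf i ≤ d) ∧
      (∀ s, |((P.coeff s : ℤ) : ℝ)| ≤ T ^ A) ∧
      |aeval (Sum.elim (fun c : X × Y₀ => f c.1 c.2 (t c.1)) ξ) P| ≤ T ^ (-B)}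

theorem ExcS_sub {X Y₀ Yc : Type} [Fintype X] [DecidableEq X] (f : X → Y₀ → ℝ → ℝ) (ξ : Yc → ℝ) (a b : X → ℝ) (d : ℕ)
    (A B T R : ℝ) (hTR : T ≤ R) :
    ExcS f ξ a b d A B T ⊆ (Fintype.piFinset fun x => TH818.AP.RT (a x) (b x) R : Finset (X → ℚ)) := by
  intro t ht
  rw [Finset.mem_coe, Fintype.mem_piFinset]
  exact fun x => TH818.AP.mem_RT.2 ⟨(ht.1 x).1, (ht.1 x).2.trans hTR⟩

theorem cov_finset {X : Type} [Nonempty X] (F : Finset (X → ℚ)) (S : Set (X → ℚ)) (hS : S ⊆ F) :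
    Cov 1 F.card S := by
  classical
  obtain ⟨x0⟩ := (inferInstance : Nonempty X)
  refine ⟨F.image fun t => MvPolynomial.X x0 - C (t x0), Finset.card_image_le, ?_, ?_⟩
  · intro P hP
    obtain ⟨t, -, rfl⟩ := Finset.mem_image.1 hP
    refine ⟨?_, ?_⟩
    · intro h
      have h1 := congrArg (eval (fun _ => t x0 + 1)) h
      simp at h1
    · refine (totalDegree_sub_C_le _ _).trans ?_
      rw [totalDegree_X]
  · intro t ht
    refine ⟨_, Finset.mem_image_of_mem _ (hS ht), ?_⟩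
    simp

end Pool.Agent.Y124
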