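import Mathlib

/-!
# A weighted Schwartz-Zippel lemma, and integer pairs with given `a^3 / b^2`
-/

set_option autoImplicit false

open MvPolynomial

namespace Pool.Agent.Y124

theorem wsz {α : Type} (c : α → ℚ) (S : Finset α) (m : ℕ)
    (hfib : ∀ q : ℚ, (S.filter fun p => c p = q).card ≤ m) : ∀ (n : ℕ) (P : MvPolynomial (Fin n) ℚ), P ≠ 0 →
      ((Fintype.piFinset fun _ : Fin n => S).filter fun p => eval (fun i => c (p i)) P = 0).card ≤
        P.totalDegree * m * S.card ^ (n - 1) := by
  classical
  intro n
  induction n with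
  | zero =>
    intro P hP
    rw [P.eq_C_of_isEmpty] at hP ⊢
    rw [Finset.filter_false_of_mem]
    · simp
    · intro p _ h
      rw [eval_C] at h
      exact hP (by rw [h, C_0])
  | succ n ih =>
    intro P hP
    set P' := finSuccEquiv ℚ n P with hP'
    have hP'0 : P' ≠ 0 := by
      rw [hP']
      exact (map_ne_zero_iff _ (finSuccEquiv ℚ n).injective).2 hP
    set k := P'.natDegree with hk
    set Pk := P'.coeff k with hPk
    have hPk0 : Pk ≠ 0 := Polynomial.leadingCoeff_ne_zero.2 hP'0
    have hdeg : Pk.totalDegree + k ≤ P.totalDegree := totalDegree_coeff_finSuccEquiv_add_le P k hPk0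
    set Z := (Fintype.piFinset fun _ : Fin (n + 1) => S).filter fun p => eval (fun i => c (p i)) P = 0 with hZ
    set Z' := (Fintype.piFinset fun _ : Fin n => S).filter fun p => eval (fun i => c (p i)) Pk = 0 with hZ'
    have hmap : ∀ p ∈ Z, Fin.tail p ∈ Fintype.piFinset fun _ : Fin n => S := by
      intro p hp
      rw [Fintype.mem_piFinset]
      intro i
      exact Fintype.mem_piFinset.1 (Finset.mem_filter.1 hp).1 i.succ
    have hev : ∀ p : Fin (n + 1) → α, eval (fun i => c (p i)) P =
        Polynomial.eval (c (p 0)) (Polynomial.map (eval fun i => c (Fin.tail p i)) P') := by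
      intro p
      rw [← eval_eq_eval_mv_eval']
      congr 2
      funext i
      refine Fin.cases ?_ (fun j => ?_) i
      · simp
      · simp [Fin.tail]
    have hfiber : ∀ p' ∈ Fintype.piFinset fun _ : Fin n => S,
        (Z.filter fun p => Fin.tail p = p').card ≤ (if p' ∈ Z' then S.card else 0) + k * m := by
      intro p' hp'
      have h1 : (Z.filter fun p => Fin.tail p = p').card ≤
          (S.filter fun p0 => Polynomial.eval (c p0) (Polynomial.map (eval fun i => c (p' i)) P') = 0).card := by
        refine Finset.card_le_card_of_injOn (fun p => p 0) ?_ ?_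
        · intro p hp
          rw [Finset.mem_coe, Finset.mem_filter] at hp
          obtain ⟨h2, h3⟩ := hp
          rw [hZ, Finset.mem_filter] at h2
          rw [Finset.mem_coe, Finset.mem_filter]
          refine ⟨Fintype.mem_piFinset.1 h2.1 0, ?_⟩
          rw [← h3]
          rw [← hev]
          exact h2.2
        · intro p hp q hq hpq
          rw [Finset.mem_coe, Finset.mem_filter] at hp hq
          have h4 : Fin.tail p = Fin.tail q := hp.2.trans hq.2.symm
          rw [← Fin.cons_self_tail p, ← Fin.cons_self_tail q, h4]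
          simp only at hpq
          rw [hpq]
      refine h1.trans ?_
      by_cases hz : p' ∈ Z'
      · rw [if_pos hz]
        exact (Finset.card_filter_le _ _).trans (Nat.le_add_right _ _)
      · rw [if_neg hz, zero_add]
        set q := Polynomial.map (eval fun i => c (p' i)) P' with hq
        have hcoef : q.coeff k ≠ 0 := by
          rw [hq, Polynomial.coeff_map]
          intro h
          apply hz
          rw [hZ', Finset.mem_filter]
          exact ⟨hp', h⟩
        have hq0 : q ≠ 0 := by
          intro h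
          rw [h] at hcoef
          simp at hcoef
        have hqdeg : q.natDegree ≤ k := Polynomial.natDegree_map_le
        set Sz := S.filter fun p0 => Polynomial.eval (c p0) q = 0 with hSz
        have h2 := Finset.card_le_mul_card_image (f := c) Sz m (by
          intro a _
          refine le_trans (Finset.card_le_card ?_) (hfib a)
          intro p0 hp0
          rw [Finset.mem_filter] at hp0 ⊢
          exact ⟨(Finset.mem_filter.1 hp0.1).1, hp0.2⟩)
        have h3 : (Sz.image c).card ≤ k := by
          refine le_trans (Finset.card_le_card (t := q.roots.toFinset) ?_) ?_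
          · intro a ha
            obtain ⟨p0, hp0, rfl⟩ := Finset.mem_image.1 ha
            rw [Multiset.mem_toFinset, Polynomial.mem_roots hq0]
            exact (Finset.mem_filter.1 hp0).2
          · exact (Multiset.toFinset_card_le _).trans ((Polynomial.card_roots' q).trans hqdeg)
        calc Sz.card ≤ m * (Sz.image c).card := h2
          _ ≤ m * k := Nat.mul_le_mul_left _ h3
          _ = k * m := mul_comm _ _
    rw [Finset.card_eq_sum_card_fiberwise (s := Z) (f := fun p : Fin (n + 1) → α => (Fin.tail p : Fin n → α))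
      (t := Fintype.piFinset fun _ : Fin n => S) (fun p hp => hmap p hp)]
    refine (Finset.sum_le_sum hfiber).trans ?_
    rw [Finset.sum_add_distrib, Finset.sum_const, Fintype.card_piFinset, Finset.prod_const, Finset.card_univ,
      Fintype.card_fin, smul_eq_mul, Finset.sum_ite_mem, Finset.sum_const, smul_eq_mul]
    have h4 : ((Fintype.piFinset fun _ : Fin n => S) ∩ Z').card ≤ Pk.totalDegree * m * S.card ^ (n - 1) :=
      (Finset.card_le_card Finset.inter_subset_right).trans (ih Pk hPk0)
    have h5 : ((Fintype.piFinset fun _ : Fin n => S) ∩ Z').card * S.card ≤ Pk.totalDegree * m * S.card ^ n := by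
      rcases Nat.eq_zero_or_pos n with h0 | h0
      · subst h0
        have h6 : Z' = ∅ := by
          rw [hZ', Finset.filter_eq_empty_iff]
          intro p _ h7
          apply hPk0
          rw [Pk.eq_C_of_isEmpty] at h7 ⊢
          rw [eval_C] at h7
          rw [h7, C_0]
        rw [h6]
        simp
      · calc _ ≤ Pk.totalDegree * m * S.card ^ (n - 1) * S.card := Nat.mul_le_mul_right _ h4
          _ = Pk.totalDegree * m * S.card ^ n := by
            rw [mul_assoc, ← pow_succ, Nat.sub_add_cancel h0]
    calc _ ≤ Pk.totalDegree * m * S.card ^ n + S.card ^ n * (k * m) := Nat.add_le_add_right h5 _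
      _ = (Pk.totalDegree + k) * m * S.card ^ n := by ring
      _ ≤ P.totalDegree * m * S.card ^ (n + 1 - 1) := by
        rw [Nat.add_sub_cancel]
        gcongr

theorem int_of_sq (q : ℚ) (N : ℤ) (h : q ^ 2 = N) : ∃ M : ℤ, q = M := by
  have h1 : (q ^ 2).den = 1 := by rw [h]; simp
  rw [Rat.den_pow] at h1
  have h2 : q.den = 1 := by
    have h3 : q.den * q.den = 1 := by rw [← pow_two]; exact h1
    exact Nat.le_antisymm (by nlinarith) q.den_pos
  exact ⟨q.num, (Rat.den_eq_one_iff q).1 h2 |>.symm⟩

/-- two integer pairs with the same `a^3 / b^2` -/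
theorem pair_sep (c : ℚ) (a b a' b' : ℤ) (ha : a ≠ 0) (hb : b ≠ 0) (ha' : a' ≠ 0) (hb' : b' ≠ 0)
    (h : (a : ℚ) ^ 3 = c * b ^ 2) (h' : (a' : ℚ) ^ 3 = c * b' ^ 2) (hne : (b : ℚ) / a ≠ b' / a') :
    1 ≤ |(c : ℝ)| * ((b : ℝ) / a - b' / a') ^ 2 := by
  have haq : (a : ℚ) ≠ 0 := by exact_mod_cast ha
  have hbq : (b : ℚ) ≠ 0 := by exact_mod_cast hb
  have haq' : (a' : ℚ) ≠ 0 := by exact_mod_cast ha'
  have hbq' : (b' : ℚ) ≠ 0 := by exact_mod_cast hb'
  have h1 : c * ((b : ℚ) / a) ^ 2 = a := by
    field_simp
    rw [← h]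
  have h1' : c * ((b' : ℚ) / a') ^ 2 = a' := by
    field_simp
    rw [← h']
  obtain ⟨M, hM⟩ := int_of_sq (c * ((b : ℚ) / a) * ((b' : ℚ) / a')) (a * a') (by
    push_cast
    calc (c * ((b : ℚ) / a) * ((b' : ℚ) / a')) ^ 2 = (c * ((b : ℚ) / a) ^ 2) * (c * ((b' : ℚ) / a') ^ 2) := by ring
      _ = _ := by rw [h1, h1'])
  have h2 : c * ((b : ℚ) / a - b' / a') ^ 2 = ((a + a' - 2 * M : ℤ) : ℚ) := by
    push_cast
    calc c * ((b : ℚ) / a - b' / a') ^ 2 = c * ((b : ℚ) / a) ^ 2 + c * ((b' : ℚ) / a') ^ 2 -
          2 * (c * ((b : ℚ) / a) * ((b' : ℚ) / a')) := by ring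
      _ = _ := by rw [h1, h1', hM]
  have hc : c ≠ 0 := by
    rintro rfl
    rw [zero_mul] at h
    exact haq (pow_eq_zero_iff (by norm_num) |>.1 h)
  have h3 : (a + a' - 2 * M : ℤ) ≠ 0 := by
    intro h0
    rw [h0, Int.cast_zero] at h2
    rcases mul_eq_zero.1 h2 with h4 | h4
    · exact hc h4
    · exact hne (sub_eq_zero.1 (pow_eq_zero_iff (by norm_num) |>.1 h4))
  have h4 : (1 : ℝ) ≤ |((a + a' - 2 * M : ℤ) : ℝ)| := by
    have := Int.one_le_abs h3
    exact_mod_cast this
  have h5 : ((a + a' - 2 * M : ℤ) : ℝ) = (c : ℝ) * ((b : ℝ) / a - b' / a') ^ 2 := by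
    have := congrArg (fun t : ℚ => (t : ℝ)) h2
    push_cast at this
    push_cast
    rw [← this]
  rw [h5, abs_mul, abs_of_nonneg (sq_nonneg ((b : ℝ) / a - b' / a'))] at h4
  exact h4

end Pool.Agent.Y124
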