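import Pool.Agent.Y124.Chart
import Pool.Agent.Y124.Weighted

/-!
# Tuples of parameters which are rational functions of points of a compact set
-/

set_option autoImplicit false

open Filter Topology MvPolynomial

namespace Pool.Agent.Y124

theorem exists_cover {Y₀ : Type} [Fintype Y₀] (f : Y₀ → ℂ → ℂ) (U : Set ℂ) (hU : IsOpen U)
    (hf : ∀ y, ∀ l ∈ U, AnalyticAt ℂ (f y) l) (hind : ∀ l ∈ U, LocInd f l) (nu de : Polynomial ℂ) (L : Set ℂ)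
    (hL : IsCompact L) (hLU : L ⊆ U) (hde : ∀ l ∈ L, de.eval l ≠ 0)
    (hderiv : ∀ l ∈ L, deriv (fun l => nu.eval l / de.eval l) l ≠ 0) :
    ∃ (I : Type) (_ : Fintype I) (r : I → ℂ → ℂ) (D : I → Set ℂ), (∀ i, IsCompact (D i)) ∧
      (∀ l ∈ L, ∃ i, nu.eval l / de.eval l ∈ D i ∧ r i (nu.eval l / de.eval l) = l) ∧
      (∀ i, ∀ c ∈ D i, ∀ y, AnalyticAt ℂ (fun c => f y (r i c)) c) ∧
      ∀ i, ∀ c ∈ D i, LocInd (fun y c => f y (r i c)) c := by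
  classical
  have h0 : ∀ l : ℂ, ∃ (r : ℂ → ℂ) (D W : Set ℂ), l ∈ L → (IsCompact D ∧ W ∈ 𝓝 l ∧
      (∀ l ∈ W, nu.eval l / de.eval l ∈ D ∧ r (nu.eval l / de.eval l) = l) ∧
      (∀ c ∈ D, ∀ y, AnalyticAt ℂ (fun c => f y (r c)) c) ∧ ∀ c ∈ D, LocInd (fun y c => f y (r c)) c) := by
    intro l
    by_cases hl : l ∈ L
    · obtain ⟨r, D, W, h1, h2, h3, h4, h5⟩ := exists_chart f U hU hf hind nu de l (hLU hl) (hde l hl) (hderiv l hl)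
      exact ⟨r, D, W, fun _ => ⟨h1, h2, h3, h4, h5⟩⟩
    · exact ⟨id, ∅, ∅, fun h => absurd h hl⟩
  choose r D W h using h0
  obtain ⟨t, htL, ht⟩ := hL.elim_nhds_subcover W (fun l hl => (h l hl).2.1)
  refine ⟨t, inferInstance, fun i => r i.1, fun i => D i.1, fun i => (h i.1 (htL _ i.2)).1, ?_,
    fun i => (h i.1 (htL _ i.2)).2.2.2.1, fun i => (h i.1 (htL _ i.2)).2.2.2.2⟩
  intro l hl
  have h1 := ht hl
  simp only [Set.mem_iUnion] at h1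
  obtain ⟨i, hi, hli⟩ := h1
  exact ⟨⟨i, hi⟩, (h i (htL i hi)).2.2.1 l hli⟩

/-- the exceptional tuples of parameters -/
def ExcL {Y₀ Yc : Type} (n : ℕ) (f : Y₀ → ℂ → ℂ) (ξ : Yc → ℂ) (nu de : Polynomial ℂ) (L : Set ℂ) (d : ℕ)
    (A B T : ℝ) : Set (Fin n → ℚ) :=
  {c | (∀ j, ((c j).den : ℝ) ≤ T) ∧ ∃ l : Fin n → ℂ, (∀ j, l j ∈ L ∧ ((c j : ℚ) : ℂ) = nu.eval (l j) / de.eval (l j)) ∧
    ∃ P : MvPolynomial ((Fin n × Y₀) ⊕ Yc) ℤ, P ≠ 0 ∧ (∀ i, P.degreeOf i ≤ d) ∧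
      (∀ s, |((P.coeff s : ℤ) : ℝ)| ≤ T ^ A) ∧
      ‖aeval (Sum.elim (fun c : Fin n × Y₀ => f c.2 (l c.1)) ξ) P‖ ≤ T ^ (-B)}

theorem tuples {Y₀ Yc : Type} [Fintype Y₀] [Fintype Yc] (n : ℕ) (hn : 1 ≤ n) (f : Y₀ → ℂ → ℂ) (ξ : Yc → ℂ)
    (hξ : GoodC ξ) (U : Set ℂ) (hU : IsOpen U)
    (hf : ∀ y, ∀ l ∈ U, AnalyticAt ℂ (f y) l) (hind : ∀ l ∈ U, LocInd f l) (nu de : Polynomial ℂ) (L : Set ℂ)
    (hL : IsCompact L) (hLU : L ⊆ U) (hde : ∀ l ∈ L, de.eval l ≠ 0)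
    (hderiv : ∀ l ∈ L, deriv (fun l => nu.eval l / de.eval l) l ≠ 0) (d : ℕ) (A ε : ℝ) (hε : 0 < ε) :
    ∃ (D : ℕ) (B C : ℝ), 0 ≤ C ∧ ∀ T : ℝ, 1 ≤ T → Cov D ⌊C * T ^ ε⌋₊ (ExcL n f ξ nu de L d A B T) := by
  classical
  have hnn : Nonempty (Fin n) := ⟨⟨0, hn⟩⟩
  obtain ⟨I, _, r, D, hD, hcov, han, hloc⟩ := exists_cover f U hU hf hind nu de L hL hLU hde hderiv
  have h1 : ∀ i : Fin n → I, ∃ (D' : ℕ) (B C : ℝ), 0 ≤ C ∧ ∀ T : ℝ, 1 ≤ T →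
      Cov D' ⌊C * T ^ ε⌋₊ (ExcC (fun (x : Fin n) (y : Y₀) (c : ℂ) => f y (r (i x) c)) ξ (fun x => D (i x)) d A B T) :=
    fun i => stdC _ ξ _ (fun x => hD (i x)) (fun x y c hc => han (i x) c hc y) (fun x c hc => hloc (i x) c hc) hξ d A ε hε
  choose D' B C hC h using h1
  refine ⟨∑ i, D' i, ∑ i, |B i|, (Fintype.card (Fin n → I) : ℝ) * ∑ i, C i,
    by have := Finset.sum_nonneg (fun i (_ : i ∈ Finset.univ) => hC i); positivity, fun T hT => ?_⟩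
  have hTp : 0 < T := by linarith
  have hsub : ExcL n f ξ nu de L d A (∑ i, |B i|) T ⊆ ⋃ i ∈ (Finset.univ : Finset (Fin n → I)),
      ExcC (fun (x : Fin n) (y : Y₀) (c : ℂ) => f y (r (i x) c)) ξ (fun x => D (i x)) d A (B i) T := by
    rintro c ⟨hden, l, hl, P, hP0, hPd, hPc, hPs⟩
    choose i hi using fun j => hcov (l j) (hl j).1
    simp only [Set.mem_iUnion, Finset.mem_univ, exists_prop, true_and]
    refine ⟨i, fun x => ⟨?_, hden x⟩, P, hP0, hPd, hPc, ?_⟩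
    · rw [(hl x).2]
      exact (hi x).1
    · have h2 : (Sum.elim (fun c' : Fin n × Y₀ => f c'.2 (r (i c'.1) (c c'.1 : ℚ))) ξ) =
          Sum.elim (fun c : Fin n × Y₀ => f c.2 (l c.1)) ξ := by
        congr 1
        funext c'
        rw [(hl c'.1).2, (hi c'.1).2]
      rw [h2]
      refine hPs.trans (Real.rpow_le_rpow_of_exponent_le hT ?_)
      have h3 : |B i| ≤ ∑ i, |B i| := Finset.single_le_sum (f := fun i => |B i|) (fun _ _ => abs_nonneg _) (Finset.mem_univ i)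
      have h4 := le_abs_self (B i)
      linarith
  have hCs : 0 ≤ ∑ i, C i := Finset.sum_nonneg fun i _ => hC i
  refine (Cov.biUnion (D := ∑ i, D' i) (m := ⌊(∑ i, C i) * T ^ ε⌋₊) (Finset.univ : Finset (Fin n → I)) _ ?_).mono le_rfl ?_ hsub
  · intro i _
    refine (h i T hT).mono (Finset.single_le_sum (f := D') (fun _ _ => Nat.zero_le _) (Finset.mem_univ i)) ?_
      (Set.Subset.refl _)
    apply Nat.floor_le_floor
    have h3 : C i ≤ ∑ i, C i := Finset.single_le_sum (f := C) (fun i _ => hC i) (Finset.mem_univ i)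
    have h4 : 0 < T ^ ε := by positivity
    nlinarith
  · apply Nat.le_floor
    push_cast
    rw [Finset.card_univ, mul_assoc]
    have h5 : (⌊(∑ i, C i) * T ^ ε⌋₊ : ℝ) ≤ (∑ i, C i) * T ^ ε := Nat.floor_le (by positivity)
    gcongr

end Pool.Agent.Y124
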